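import Pool.Agent.H.MP_e23cd6_ag.NT.Defs
import Pool.Agent.H.MP_e23cd6_ag.GT.Alg
import Pool.Agent.H.MP_e23cd6_ag.TB.PAct

/-! Algebra of the sections `NSec`: independence of frames, sums, products, powers, restriction. -/

set_option autoImplicit false

open scoped Manifold ContDiff Topology ENNReal
open MeasureTheory Set Filter

namespace Pool.Agent.Abn

open Pool.Agent.Abd

variable {E : Type} [NormedAddCommGroup E] [NormedSpace ℂ E] {r : ℕ}
  {X₀ X : Type} [TopologicalSpace X₀] [ChartedSpace E X₀] [TopologicalSpace X]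
  {N : NSp E X₀ X} {L P : NLine N} {K J K' J' : ℕ} {U V : Set X}

section hol

variable {f g : X → ℂ} {x : X}

theorem Hol_continuousAt (hf : N.Hol f x) : ContinuousAt f x := by
  obtain ⟨V, hV, hx, hc, -⟩ := hf
  exact (hc x hx).continuousAt (hV.mem_nhds hx)

theorem Hol_reg {y : X₀} (hf : N.Hol f (N.inc y)) : HolAt E (fun y => f (N.inc y)) y := by
  obtain ⟨V, -, hx, -, h⟩ := hf
  exact h y hx

theorem Hol_of_forall {V : Set X} (hV : IsOpen V) (hx : x ∈ V) (hc : ContinuousOn f V)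
    (h : ∀ y, N.inc y ∈ V → HolAt E (fun y => f (N.inc y)) y) : N.Hol f x :=
  ⟨V, hV, hx, hc, h⟩

theorem Hol_eventually (hf : N.Hol f x) : ∀ᶠ y in 𝓝 x, N.Hol f y := by
  obtain ⟨V, hV, hx, hc, h⟩ := hf
  filter_upwards [hV.mem_nhds hx] with y hy
  exact ⟨V, hV, hy, hc, h⟩

theorem Hol_congr (hf : N.Hol f x) (h : ∀ᶠ y in 𝓝 x, f y = g y) : N.Hol g x := by
  obtain ⟨V, hV, hx, hc, hh⟩ := hf
  obtain ⟨W, hW, hWo, hxW⟩ := mem_nhds_iff.1 h
  refine ⟨V ∩ W, hV.inter hWo, ⟨hx, hxW⟩, ?_, ?_⟩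
  · exact (hc.mono inter_subset_left).congr fun y hy => (hW hy.2).symm
  · intro y hy
    have h1 : (fun y => f (N.inc y)) =ᶠ[𝓝 y] fun y => g (N.inc y) := by
      have : N.inc ⁻¹' W ∈ 𝓝 y := (hWo.preimage N.emb.continuous).mem_nhds hy.2
      filter_upwards [this] with z hz
      exact hW hz
    exact (hh y hy.1).congr_of_eventuallyEq h1.symm

theorem Hol_const (c : ℂ) (x : X) : N.Hol (fun _ => c) x :=
  ⟨univ, isOpen_univ, mem_univ _, continuousOn_const, fun _ _ => contMDiffAt_const⟩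

theorem Hol_add (hf : N.Hol f x) (hg : N.Hol g x) : N.Hol (fun y => f y + g y) x := by
  obtain ⟨V, hV, hx, hc, h⟩ := hf
  obtain ⟨V', hV', hx', hc', h'⟩ := hg
  exact ⟨V ∩ V', hV.inter hV', ⟨hx, hx'⟩,
    (hc.mono inter_subset_left).add (hc'.mono inter_subset_right),
    fun y hy => (h y hy.1).add (h' y hy.2)⟩

theorem Hol_mul (hf : N.Hol f x) (hg : N.Hol g x) : N.Hol (fun y => f y * g y) x := by
  obtain ⟨V, hV, hx, hc, h⟩ := hf
  obtain ⟨V', hV', hx', hc', h'⟩ := hg
  exact ⟨V ∩ V', hV.inter hV', ⟨hx, hx'⟩,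
    (hc.mono inter_subset_left).mul (hc'.mono inter_subset_right),
    fun y hy => (h y hy.1).mul (h' y hy.2)⟩

theorem Hol_pow (hf : N.Hol f x) (n : ℕ) : N.Hol (fun y => f y ^ n) x := by
  obtain ⟨V, hV, hx, hc, h⟩ := hf
  exact ⟨V, hV, hx, hc.pow n, fun y hy => (h y hy).pow n⟩

theorem Hol_sum {ι : Type} (T : Finset ι) {F : ι → X → ℂ} (h : ∀ a ∈ T, N.Hol (F a) x) :
    N.Hol (fun y => ∑ a ∈ T, F a y) x := by
  classical
  induction T using Finset.induction_on with
  | empty => simpa using Hol_const (N := N) 0 x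
  | insert b T' hb ih =>
    simp only [Finset.sum_insert hb]
    exact Hol_add (h b (Finset.mem_insert_self b T'))
      (ih fun a ha => h a (Finset.mem_insert_of_mem ha))

theorem Hol_prod {ι : Type} (T : Finset ι) {F : ι → X → ℂ} (h : ∀ a ∈ T, N.Hol (F a) x) :
    N.Hol (fun y => ∏ a ∈ T, F a y) x := by
  classical
  induction T using Finset.induction_on with
  | empty => simpa using Hol_const (N := N) 1 x
  | insert b T' hb ih =>
    simp only [Finset.prod_insert hb]
    exact Hol_mul (h b (Finset.mem_insert_self b T'))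
      (ih fun a ha => h a (Finset.mem_insert_of_mem ha))

end hol

/-- `x` has the frames `i`, `j`. -/
structure NAt (L P : NLine N) (i : L.ι) (j : P.ι) (x : X) : Prop where
  memL : x ∈ L.U i
  memP : x ∈ P.U j

theorem NAt.eventually {i : L.ι} {j : P.ι} {x : X} (h : NAt L P i j x) :
    ∀ᶠ y in 𝓝 x, NAt L P i j y := by
  filter_upwards [(L.isOpen i).mem_nhds h.memL, (P.isOpen j).mem_nhds h.memP] with y h1 h2
  exact ⟨h1, h2⟩

theorem exists_nat (L P : NLine N) (x : X) : ∃ i j, NAt L P i j x := by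
  obtain ⟨i, hi⟩ := L.cover x
  obtain ⟨j, hj⟩ := P.cover x
  exact ⟨i, j, hi, hj⟩

theorem NLine.g_ne (L : NLine N) {i j : L.ι} {x : X} (hi : x ∈ L.U i) (hj : x ∈ L.U j) :
    L.g i j x ≠ 0 := by
  intro h0
  have h1 := L.mul i j i x hi hj hi
  rw [h0, zero_mul, L.one i x hi] at h1
  exact zero_ne_one h1

namespace NSec

theorem hol' (s : NSec L P K J U) {i j x} (hx : x ∈ U) (h : NAt L P i j x) :
    N.Hol (s.f i j) x := s.hol i j x hx h.memL h.memP

theorem trans' (s : NSec L P K J U) {i j i' j' x} (hx : x ∈ U) (h : NAt L P i j x)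
    (h' : NAt L P i' j' x) : s.f i j x = L.g i i' x ^ K * P.g j j' x ^ J * s.f i' j' x :=
  s.trans i j i' j' x hx h.memL h.memP h'.memL h'.memP

/-- Nonvanishing may be tested in any frames. -/
theorem nz_iff (s : NSec L P K J U) {i j x} (hx : x ∈ U) (h : NAt L P i j x) :
    s.NZ x ↔ s.f i j x ≠ 0 := by
  constructor
  · rintro ⟨i', j', h1, h2, h4⟩ h0
    apply h4
    rw [s.trans' hx ⟨h1, h2⟩ h, h0, mul_zero]
  · intro h0
    exact ⟨i, j, h.memL, h.memP, h0⟩

/-- Change of the numbers `K`, `J` along equalities. -/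
def cast (s : NSec L P K J U) (hK : K = K') (hJ : J = J') : NSec L P K' J' U where
  f := s.f
  hol := s.hol
  trans := by
    subst hK hJ
    exact s.trans

/-- Restriction to a smaller set. -/
def res (s : NSec L P K J U) (h : V ⊆ U) : NSec L P K J V where
  f := s.f
  hol := fun i j x hx => s.hol i j x (h hx)
  trans := fun i j i' j' x hx => s.trans i j i' j' x (h hx)

/-- The zero section. -/
def zero : NSec L P K J U where
  f := fun _ _ _ => 0
  hol := fun _ _ x _ _ _ => Hol_const 0 x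
  trans := fun _ _ _ _ _ _ _ _ _ _ => by simp

/-- The section `1` of the trivial bundle. -/
def one : NSec L P 0 0 U where
  f := fun _ _ _ => 1
  hol := fun _ _ x _ _ _ => Hol_const 1 x
  trans := fun _ _ _ _ _ _ _ _ _ _ => by simp

/-- Sum. -/
def add (s t : NSec L P K J U) : NSec L P K J U where
  f := fun i j x => s.f i j x + t.f i j x
  hol := fun i j x hx hi hj => Hol_add (s.hol i j x hx hi hj) (t.hol i j x hx hi hj)
  trans := fun i j i' j' x hx h1 h2 h3 h4 => by
    rw [s.trans i j i' j' x hx h1 h2 h3 h4, t.trans i j i' j' x hx h1 h2 h3 h4]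
    ring

/-- Scalar multiple. -/
def smul (c : ℂ) (s : NSec L P K J U) : NSec L P K J U where
  f := fun i j x => c * s.f i j x
  hol := fun i j x hx hi hj => Hol_mul (Hol_const c x) (s.hol i j x hx hi hj)
  trans := fun i j i' j' x hx h1 h2 h3 h4 => by
    rw [s.trans i j i' j' x hx h1 h2 h3 h4]
    ring

/-- Finite sum. -/
def sum {ι : Type} (T : Finset ι) (s : ι → NSec L P K J U) : NSec L P K J U where
  f := fun i j x => ∑ a ∈ T, (s a).f i j x
  hol := fun i j x hx hi hj => Hol_sum T fun a _ => (s a).hol i j x hx hi hj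
  trans := fun i j i' j' x hx h1 h2 h3 h4 => by
    rw [Finset.mul_sum]
    exact Finset.sum_congr rfl fun a _ => (s a).trans i j i' j' x hx h1 h2 h3 h4

/-- Product. -/
def mul (s : NSec L P K J U) (t : NSec L P K' J' U) : NSec L P (K + K') (J + J') U where
  f := fun i j x => s.f i j x * t.f i j x
  hol := fun i j x hx hi hj => Hol_mul (s.hol i j x hx hi hj) (t.hol i j x hx hi hj)
  trans := fun i j i' j' x hx h1 h2 h3 h4 => by
    rw [s.trans i j i' j' x hx h1 h2 h3 h4, t.trans i j i' j' x hx h1 h2 h3 h4]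
    ring

/-- Power. -/
def pow (s : NSec L P K J U) (n : ℕ) : NSec L P (n * K) (n * J) U where
  f := fun i j x => s.f i j x ^ n
  hol := fun i j x hx hi hj => Hol_pow (s.hol i j x hx hi hj) n
  trans := fun i j i' j' x hx h1 h2 h3 h4 => by
    rw [s.trans i j i' j' x hx h1 h2 h3 h4]
    ring

/-- Monomials in sections of the same bundle. -/
def mono {ι : Type} (T : Finset ι) (s : ι → NSec L P K J U) (l : ι → ℕ) (q : ℕ)
    (hq : ∑ a ∈ T, l a = q) : NSec L P (q * K) (q * J) U where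
  f := fun i j x => ∏ a ∈ T, (s a).f i j x ^ l a
  hol := fun i j x hx hi hj => Hol_prod T fun a _ => Hol_pow ((s a).hol i j x hx hi hj) (l a)
  trans := fun i j i' j' x hx h1 h2 h3 h4 => by
    have e : ∀ a ∈ T, (s a).f i j x ^ l a =
        (L.g i i' x ^ K * P.g j j' x ^ J) ^ l a * (s a).f i' j' x ^ l a := by
      intro a _
      rw [(s a).trans i j i' j' x hx h1 h2 h3 h4, mul_pow]
    rw [Finset.prod_congr rfl e, Finset.prod_mul_distrib, Finset.prod_pow_eq_pow_sum, hq]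
    ring

theorem nz_mul (s : NSec L P K J U) (t : NSec L P K' J' U) {x : X} (hx : x ∈ U) :
    (s.mul t).NZ x ↔ s.NZ x ∧ t.NZ x := by
  obtain ⟨i, j, h⟩ := exists_nat L P x
  rw [(s.mul t).nz_iff hx h, s.nz_iff hx h, t.nz_iff hx h]
  exact mul_ne_zero_iff

theorem nz_pow (s : NSec L P K J U) {n : ℕ} (hn : n ≠ 0) {x : X} (hx : x ∈ U) :
    (s.pow n).NZ x ↔ s.NZ x := by
  obtain ⟨i, j, h⟩ := exists_nat L P x
  rw [(s.pow n).nz_iff hx h, s.nz_iff hx h]
  exact pow_ne_zero_iff hn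

theorem nz_cast (s : NSec L P K J U) (hK : K = K') (hJ : J = J') (x : X) :
    (s.cast hK hJ).NZ x ↔ s.NZ x := Iff.rfl

theorem nz_res (s : NSec L P K J U) (h : V ⊆ U) (x : X) : (s.res h).NZ x ↔ s.NZ x := Iff.rfl

theorem nz_smul {c : ℂ} (hc : c ≠ 0) (s : NSec L P K J U) (x : X) :
    (smul c s).NZ x ↔ s.NZ x := by
  simp only [NZ, smul, ne_eq, mul_eq_zero, hc, false_or]

end NSec

section weights

variable {A : NAct r N} {ΛL : NLin A L} {ΛP : NLin A P} {S : Finset (Fin r)} {χ χ' : Fin r → ℤ}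

/-- The weight rule for frames collected in `NAt`. -/
theorem NOfWt.rule {s : NSec L P K J U} (h : NOfWt ΛL ΛP S χ s) {a : Fin r → ℂ} (ha : InTS S a)
    {i j i' j' x} (hx : x ∈ U) (hax : A.act a x ∈ U) (h1 : NAt L P i j (A.act a x))
    (h2 : NAt L P i' j' x) : chr χ a * s.f i j (A.act a x) =
      ΛL.lam i i' a x ^ K * ΛP.lam j j' a x ^ J * s.f i' j' x :=
  h a ha i j i' j' x hx hax h1.memL h1.memP h2.memL h2.memP

theorem NOfWt.cast {s : NSec L P K J U} (h : NOfWt ΛL ΛP S χ s) (hK : K = K') (hJ : J = J') :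
    NOfWt ΛL ΛP S χ (s.cast hK hJ) := by
  subst hK hJ
  exact h

theorem NOfWt.res {s : NSec L P K J U} (h : NOfWt ΛL ΛP S χ s) (hV : V ⊆ U) :
    NOfWt ΛL ΛP S χ (s.res hV) :=
  fun a ha i j i' j' x hx hax => h a ha i j i' j' x (hV hx) (hV hax)

theorem NOfWt.smul {s : NSec L P K J U} (h : NOfWt ΛL ΛP S χ s) (c : ℂ) :
    NOfWt ΛL ΛP S χ (NSec.smul c s) := by
  intro a ha i j i' j' x hx hax h1 h2 h3 h4
  have := h a ha i j i' j' x hx hax h1 h2 h3 h4
  simp only [NSec.smul]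
  linear_combination c * this

theorem NOfWt.add {s t : NSec L P K J U} (h : NOfWt ΛL ΛP S χ s) (h' : NOfWt ΛL ΛP S χ t) :
    NOfWt ΛL ΛP S χ (s.add t) := by
  intro a ha i j i' j' x hx hax h1 h2 h3 h4
  have e1 := h a ha i j i' j' x hx hax h1 h2 h3 h4
  have e2 := h' a ha i j i' j' x hx hax h1 h2 h3 h4
  simp only [NSec.add]
  linear_combination e1 + e2

theorem NOfWt.sum {ι : Type} {T : Finset ι} {s : ι → NSec L P K J U}
    (h : ∀ a ∈ T, NOfWt ΛL ΛP S χ (s a)) : NOfWt ΛL ΛP S χ (NSec.sum T s) := by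
  intro a ha i j i' j' x hx hax h1 h2 h3 h4
  simp only [NSec.sum]
  rw [Finset.mul_sum, Finset.mul_sum]
  exact Finset.sum_congr rfl fun b hb => h b hb a ha i j i' j' x hx hax h1 h2 h3 h4

theorem NOfWt.mul {s : NSec L P K J U} {t : NSec L P K' J' U} (h : NOfWt ΛL ΛP S χ s)
    (h' : NOfWt ΛL ΛP S χ' t) : NOfWt ΛL ΛP S (χ + χ') (s.mul t) := by
  intro a ha i j i' j' x hx hax h1 h2 h3 h4
  have e1 := h a ha i j i' j' x hx hax h1 h2 h3 h4
  have e2 := h' a ha i j i' j' x hx hax h1 h2 h3 h4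
  simp only [NSec.mul]
  rw [chr_add χ χ' ha.1]
  calc _ = (chr χ a * s.f i j (A.act a x)) * (chr χ' a * t.f i j (A.act a x)) := by ring
    _ = _ := by rw [e1, e2]; ring

theorem NOfWt.pow {s : NSec L P K J U} (h : NOfWt ΛL ΛP S χ s) (n : ℕ) :
    NOfWt ΛL ΛP S (fun c => n * χ c) (s.pow n) := by
  intro a ha i j i' j' x hx hax h1 h2 h3 h4
  have e1 := h a ha i j i' j' x hx hax h1 h2 h3 h4
  simp only [NSec.pow]
  rw [chr_nsmul, ← mul_pow, e1]
  ring

/-- The weight of a monomial in weight sections. -/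
theorem NOfWt.mono {ι : Type} {T : Finset ι} {s : ι → NSec L P K J U} {w : ι → Fin r → ℤ}
    (h : ∀ a ∈ T, NOfWt ΛL ΛP S (w a) (s a)) (l : ι → ℕ) (q : ℕ) (hq : ∑ a ∈ T, l a = q)
    (hχ : ∀ c ∈ S, ∑ a ∈ T, l a * w a c = χ c) : NOfWt ΛL ΛP S χ (NSec.mono T s l q hq) := by
  intro a ha i j i' j' x hx hax h1 h2 h3 h4
  have e1 := fun b (hb : b ∈ T) => h b hb a ha i j i' j' x hx hax h1 h2 h3 h4
  have e2 : chr χ a = ∏ b ∈ T, chr (w b) a ^ l b := by
    unfold chr
    have e3 : ∀ b ∈ T, (∏ c, a c ^ w b c) ^ l b = ∏ c, a c ^ (l b * w b c) := by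
      intro b _
      rw [← Finset.prod_pow]
      refine Finset.prod_congr rfl fun c _ => ?_
      rw [mul_comm, zpow_mul, zpow_natCast]
    rw [Finset.prod_congr rfl e3, Finset.prod_comm]
    refine Finset.prod_congr rfl fun c _ => ?_
    by_cases hc : c ∈ S
    · rw [← hχ c hc]
      have h0 := ha.1 c
      have e4 : ∀ T' : Finset ι, ∏ b ∈ T', a c ^ ((l b : ℤ) * w b c) =
          a c ^ (∑ b ∈ T', (l b : ℤ) * w b c) := by
        classical
        intro T'
        induction T' using Finset.induction_on with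
        | empty => simp
        | insert b T' hb ih => rw [Finset.prod_insert hb, Finset.sum_insert hb, ih, zpow_add₀ h0]
      exact (e4 T).symm
    · rw [ha.2 c hc]
      simp
  simp only [NSec.mono]
  rw [e2, ← Finset.prod_mul_distrib]
  have e5 : ∀ b ∈ T, chr (w b) a ^ l b * (s b).f i j (A.act a x) ^ l b =
      (ΛL.lam i i' a x ^ K * ΛP.lam j j' a x ^ J) ^ l b * (s b).f i' j' x ^ l b := by
    intro b hb
    rw [← mul_pow, e1 b hb, mul_pow]
  rw [Finset.prod_congr rfl e5, Finset.prod_mul_distrib, Finset.prod_pow_eq_pow_sum, hq]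
  ring

end weights

section act

variable (A : NAct r N)

theorem nact_inv_act {a : Fin r → ℂ} (ha : InT a) (x : X) : A.act a⁻¹ (A.act a x) = x := by
  rw [← A.mul _ _ ha.inv ha, ha.inv_mul, A.one]

theorem nact_act_inv {a : Fin r → ℂ} (ha : InT a) (x : X) : A.act a (A.act a⁻¹ x) = x := by
  rw [← A.mul _ _ ha ha.inv, ha.mul_inv, A.one]

theorem nact_continuous {a : Fin r → ℂ} (ha : InT a) : Continuous (A.act a) := by
  rw [continuous_iff_continuousAt]
  intro x
  have h1 : ContinuousAt (fun y : X => (a, y)) x := by fun_prop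
  exact ContinuousAt.comp (g := fun v : (Fin r → ℂ) × X => A.act v.1 v.2)
    (f := fun y : X => (a, y)) (A.cont a ha x) h1

variable {A} {B : NLine N} (Λ : NLin A B)

/-- The function `lam i j a x` has no zero. -/
theorem nlam_ne_zero {a : Fin r → ℂ} (ha : InT a) {i j : B.ι} {x : X} (hj : x ∈ B.U j)
    (hi : A.act a x ∈ B.U i) : Λ.lam i j a x ≠ 0 := by
  intro h0
  have h1 := Λ.mul j i j a⁻¹ a x ha.inv ha hj hi (by rw [ha.inv_mul, A.one]; exact hj)
  rw [h0, mul_zero, ha.inv_mul, Λ.one j j x hj hj, B.one j x hj] at h1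
  exact zero_ne_one h1

/-- Change of frames at both ends. -/
theorem nlam_change {a : Fin r → ℂ} (ha : InT a) {i i' j j' : B.ι} {x : X} (hj : x ∈ B.U j)
    (hj' : x ∈ B.U j') (hi : A.act a x ∈ B.U i) (hi' : A.act a x ∈ B.U i') :
    Λ.lam i j a x = B.g i i' (A.act a x) * Λ.lam i' j' a x * B.g j' j x := by
  have h1 := Λ.mul i i' j 1 a x InT.one ha hj hi' (by rw [one_mul]; exact hi)
  rw [one_mul, Λ.one i i' _ hi hi'] at h1
  have h2 := Λ.mul i' j' j a 1 x ha InT.one hj (by rw [A.one]; exact hj')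
    (by rw [mul_one]; exact hi')
  rw [mul_one, A.one, Λ.one j' j x hj' hj] at h2
  rw [← h1, ← h2, mul_assoc]

end act

end Pool.Agent.Abn
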