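import Pool.Agent.H.MP_e23cd6_ag.GT.BertC

/-! The analytic Bertini lemma for countably many sequences of measures. -/

set_option autoImplicit false

open scoped ENNReal
open MeasureTheory Set

namespace Pool.Agent.Abn

open Pool.Agent.Abd

/-- `bertini_countable` for sequences of measures. -/
theorem bertini_seq {Λ J V : Type} [Fintype Λ] [Countable J] [MeasurableSpace V]
    (μ : J → ℕ → Measure V) [∀ j n, SFinite (μ j n)] (g : J → ℕ → Λ → V → ℂ)
    (hg : ∀ j n l, AEMeasurable (g j n l) (μ j n)) {τ : ℝ} (hτ : 0 < τ) (hτ2 : τ < 2)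
    (h : ∀ j, ∑' n, ∫⁻ v, (∑ l, ‖g j n l v‖ₑ) ^ (-τ) ∂(μ j n) < ⊤) :
    ∃ c : Λ → ℂ, ∀ j, ∑' n, ∫⁻ v, ‖∑ l, c l * g j n l v‖ₑ ^ (-τ) ∂(μ j n) < ⊤ := by
  have hemb : ∀ n : ℕ, MeasurableEmbedding (Prod.mk n : V → ℕ × V) := fun n =>
    measurableEmbedding_prodMk_left n
  have hint : ∀ (j : J) (f : ℕ × V → ℝ≥0∞),
      ∫⁻ p, f p ∂(Measure.sum fun n => (μ j n).map (Prod.mk n)) =
        ∑' n, ∫⁻ v, f (n, v) ∂(μ j n) := by
    intro j f
    rw [lintegral_sum_measure]
    exact tsum_congr fun n => (hemb n).lintegral_map _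
  obtain ⟨c, hc⟩ := bertini_countable (J := J) (Λ := Λ) (V := ℕ × V)
    (fun j => Measure.sum fun n => (μ j n).map (Prod.mk n))
    (fun j l p => g j p.1 l p.2)
    (fun j l => by
      rw [aemeasurable_sum_measure_iff]
      intro n
      rw [(hemb n).aemeasurable_map_iff]
      exact hg j n l) hτ hτ2 (fun j => by
      rw [hint]
      exact h j)
  refine ⟨c, fun j => ?_⟩
  have h1 := hc j
  rw [hint] at h1
  exact h1

end Pool.Agent.Abn
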