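import Pool.Agent.H.MP_e23cd6_ag.NT.ChamA

/-! MP_e23cd6_ag, torus actions: `T_{S + i}` acts properly and cocompactly on the chambers. -/

set_option autoImplicit false

open scoped Manifold ContDiff Topology ENNReal
open MeasureTheory Set Filter

namespace Pool.Agent.Abn

open Pool.Agent.Abd

variable {E : Type} [NormedAddCommGroup E] [NormedSpace ℂ E] [FiniteDimensional ℂ E] {r : ℕ}
  {X₀ X : Type} [TopologicalSpace X₀] [ChartedSpace E X₀] [IsManifold 𝓘(ℂ, E) ω X₀]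
  [TopologicalSpace X] [T2Space X] {Y : NSp E X₀ X}
  {L P : NLine Y} {A : NAct r Y}
  {ΛL : NLin A L} {ΛP : NLin A P} {S : Finset (Fin r)} {U : Set X}
  [CompactSpace X] [ConnectedSpace X]

/-- The elements of `T_{S + i}` are the products of the elements of `T_i` and `T_S`. PROOF.
`a₁ = Function.update 1 i (a i)`, `a₂ = Function.update a i 1`. -/
theorem inTS_split {i : Fin r} (hi : i ∉ S) {a : Fin r → ℂ} (ha : InTS (insert i S) a) :
    ∃ a₁ a₂, InTS {i} a₁ ∧ InTS S a₂ ∧ a = a₂ * a₁ ∧ a₁ i = a i ∧ a₂ i = 1 ∧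
      ∀ c, c ≠ i → a₁ c = 1 ∧ a₂ c = a c := by
  refine ⟨Function.update 1 i (a i), Function.update a i 1, ⟨fun c => ?_, fun c hc => ?_⟩,
    ⟨fun c => ?_, fun c hc => ?_⟩, ?_, ?_, ?_, fun c hc => ⟨?_, ?_⟩⟩
  · by_cases h : c = i
    · subst h
      rw [Function.update_self]
      exact ha.1 c
    · rw [Function.update_of_ne h]
      exact one_ne_zero
  · have h : c ≠ i := by simpa using hc
    rw [Function.update_of_ne h]
    rfl
  · by_cases h : c = i
    · subst h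
      rw [Function.update_self]
      exact one_ne_zero
    · rw [Function.update_of_ne h]
      exact ha.1 c
  · by_cases h : c = i
    · subst h
      rw [Function.update_self]
    · rw [Function.update_of_ne h]
      exact ha.2 c (by simp [h, hc])
  · funext c
    by_cases h : c = i
    · subst h
      rw [Pi.mul_apply, Function.update_self, Function.update_self, one_mul]
    · rw [Pi.mul_apply, Function.update_of_ne h, Function.update_of_ne h, Pi.one_apply, mul_one]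
  · rw [Function.update_self]
  · rw [Function.update_self]
  · rw [Function.update_of_ne hc]
    rfl
  · rw [Function.update_of_ne hc]

/-- The part of the chamber over the compact set `{sp ≤ B sm, sm ≤ B sp}` in a compact subset `C` of
`U` is compact. PROOF. It is the image under `Subtype.val` of a closed subset of the compact set
`C ⊆ U` in the subtype `U` (`m_cont`, `NQuo.mk_cont`), or: it is closed in `C`. It lies in the chamber
since `sp + sm = M > 0` (`GT.Fam.sp_add_sm`, `GT.Fam.M_pos`), so `sp ≤ B sm` and `sm ≤ B sp` force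
both to be positive. -/
theorem NLvl.slab_compact (D : NLvl ΛL ΛP S U) (V : GT.Fam D.sys) (σ : ℤ) (B : ℝ) {C : Set X}
    (hC : IsCompact C) (hCU : C ⊆ U) :
    IsCompact {x | x ∈ C ∧ ∃ hx : x ∈ U,
      V.sp σ (NQuo.mk A S U ⟨x, hx⟩) ≤ B * V.sm σ (NQuo.mk A S U ⟨x, hx⟩) ∧
      V.sm σ (NQuo.mk A S U ⟨x, hx⟩) ≤ B * V.sp σ (NQuo.mk A S U ⟨x, hx⟩)} ∧
    {x | x ∈ C ∧ ∃ hx : x ∈ U,
      V.sp σ (NQuo.mk A S U ⟨x, hx⟩) ≤ B * V.sm σ (NQuo.mk A S U ⟨x, hx⟩) ∧
      V.sm σ (NQuo.mk A S U ⟨x, hx⟩) ≤ B * V.sp σ (NQuo.mk A S U ⟨x, hx⟩)} ⊆ D.Cham V σ := by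
  have hsp : Continuous (V.sp σ) := V.m_cont (fun c => 0 < σ * c)
  have hsm : Continuous (V.sm σ) := V.m_cont (fun c => σ * c ≤ 0)
  constructor
  · have h1 : IsCompact (Subtype.val ⁻¹' C : Set U) := by
      rw [Subtype.isCompact_iff, Subtype.image_preimage_coe, inter_eq_right.2 hCU]
      exact hC
    have h2 : IsClosed {x : U | V.sp σ (NQuo.mk A S U x) ≤ B * V.sm σ (NQuo.mk A S U x) ∧
        V.sm σ (NQuo.mk A S U x) ≤ B * V.sp σ (NQuo.mk A S U x)} := by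
      have hk := NQuo.mk_cont A S U
      exact (isClosed_le (hsp.comp hk) (continuous_const.mul (hsm.comp hk))).inter
        (isClosed_le (hsm.comp hk) (continuous_const.mul (hsp.comp hk)))
    have h3 := (h1.inter_right h2).image continuous_subtype_val
    convert h3 using 1
    ext x
    constructor
    · rintro ⟨hxC, hx, h⟩
      exact ⟨⟨x, hx⟩, ⟨hxC, h⟩, rfl⟩
    · rintro ⟨y, ⟨hyC, h⟩, rfl⟩
      exact ⟨hyC, y.2, h⟩
  · rintro x ⟨_, hx, h1, h2⟩
    have h3 := V.sp_add_sm σ (NQuo.mk A S U ⟨x, hx⟩)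
    have h4 := V.M_pos (NQuo.mk A S U ⟨x, hx⟩)
    have h5 : 0 ≤ V.sp σ (NQuo.mk A S U ⟨x, hx⟩) := V.m_nonneg _ _
    have h6 : 0 ≤ V.sm σ (NQuo.mk A S U ⟨x, hx⟩) := V.m_nonneg _ _
    refine ⟨hx, lt_of_le_of_ne h5 (fun h0 => ?_), lt_of_le_of_ne h6 (fun h0 => ?_)⟩
    · rw [← h0, mul_zero] at h2
      linarith
    · rw [← h0, mul_zero] at h1
      linarith

/-- COCOMPACTNESS: there are a compact subset `C'` of `U` and `B` such that every point `x` of the
chamber is moved by `sh i n` and an element of `T_S` into the slab over `C'`.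

PROOF. `C` from `D.good.cocompact`, `B = A` from `GT.Fam.shiftS`: for `x` in the chamber there is `n`
with `f n (mk x)` in the slab; `f n (mk x) = mk (A.act (sh i (-n)) x)` (`f_mk`); choose `b ∈ T_S` with
`A.act b (A.act (sh i (-n)) x) ∈ C`; it has the same class (`NQuo.mk_eq`). -/
theorem NLvl.exists_slab (D : NLvl ΛL ΛP S U) (V : GT.Fam D.sys) {σ : ℤ} (hσ : σ = 1 ∨ σ = -1) :
    ∃ C ⊆ U, IsCompact C ∧ ∃ B : ℝ, ∀ x, x ∈ D.Cham V σ → ∃ (n : ℤ) (b : Fin r → ℂ), InTS S b ∧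
      A.act b (A.act (sh D.i n) x) ∈ C ∧ ∃ hx : A.act b (A.act (sh D.i n) x) ∈ U,
      V.sp σ (NQuo.mk A S U ⟨_, hx⟩) ≤ B * V.sm σ (NQuo.mk A S U ⟨_, hx⟩) ∧
      V.sm σ (NQuo.mk A S U ⟨_, hx⟩) ≤ B * V.sp σ (NQuo.mk A S U ⟨_, hx⟩) := by
  obtain ⟨C, hCU, hC, hcov⟩ := D.good.cocompact
  obtain ⟨B, _, hB⟩ := V.shiftS hσ
  refine ⟨C, hCU, hC, B, fun x hx => ?_⟩
  obtain ⟨hxU, h1, h2⟩ := hx
  obtain ⟨n, hn1, hn2⟩ := hB _ h1 h2
  have hy : A.act (sh D.i (-n)) x ∈ U := D.inv _ (sh_inTS D.i (-n)).1 x hxU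
  have e : D.sys.f n (NQuo.mk A S U ⟨x, hxU⟩) = NQuo.mk A S U ⟨A.act (sh D.i (-n)) x, hy⟩ := rfl
  rw [e] at hn1 hn2
  obtain ⟨b, hb, hbC⟩ := hcov _ hy
  have e2 : NQuo.mk A S U ⟨A.act (sh D.i (-n)) x, hy⟩ =
      NQuo.mk A S U ⟨A.act b (A.act (sh D.i (-n)) x), hCU hbC⟩ := NQuo.mk_eq.2 ⟨b, hb, rfl⟩
  rw [e2] at hn1 hn2
  exact ⟨-n, b, hb, hbC, hCU hbC, hn1, hn2⟩

end Pool.Agent.Abn
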