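import Pool.Agent.H.MP_e23cd6_ag.NT.ChamB

/-! MP_e23cd6_ag, torus actions: growth of the ratio along the orbits. -/

set_option autoImplicit false

open scoped Manifold ContDiff Topology ENNReal
open MeasureTheory Set Filter

namespace Pool.Agent.Abn

open Pool.Agent.Abd

variable {E : Type} [NormedAddCommGroup E] [NormedSpace ℂ E] [FiniteDimensional ℂ E] {r : ℕ}
  {X₀ X : Type} [TopologicalSpace X₀] [ChartedSpace E X₀] [IsManifold 𝓘(ℂ, E) ω X₀]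
  [TopologicalSpace X] [T2Space X] {Y : NSp E X₀ X}
  {L P : NLine Y} {A : NAct r Y}
  {ΛL : NLin A L} {ΛP : NLin A P} {S : Finset (Fin r)} {U : Set X}
  [CompactSpace X] [ConnectedSpace X]

/-- The value of an element of the family at `a x`. -/
private theorem NLvl.ChamB2_val (D : NLvl ΛL ΛP S U) (V : GT.Fam D.sys) {q : ℤ × (NQuo A S U → ℝ)}
    (hq : q ∈ V.F) {a : Fin r → ℂ} (ha : InTS {D.i} a) (x : U) :
    q.2 (NQuo.mk A S U ⟨A.act a x.1, D.inv a ha.1 x.1 x.2⟩) =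
      ‖a D.i‖ ^ (-q.1) * (D.hD.gr a x.1 ^ (V.k0 * V.N) * D.ha.gr a x.1 ^ V.N) *
        q.2 (NQuo.mk A S U x) := by
  obtain ⟨s, hs, hu⟩ := V.hF q hq
  rw [hu, hu]
  exact D.num_scale hs ha x.2

/-- The power of `|a_i|` in terms of `t = |a_i| ^ (-σ)`. -/
private theorem NLvl.ChamB2_pow (D : NLvl ΛL ΛP S U) {σ : ℤ} (hσ : σ = 1 ∨ σ = -1)
    {a : Fin r → ℂ} (ha : InT a) (c : ℤ) :
    ‖a D.i‖ ^ (-c) = (‖a D.i‖ ^ (-σ)) ^ (σ * c) := by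
  rw [← zpow_mul]
  congr 1
  rcases hσ with h | h <;> rw [h] <;> ring

/-- The ratio `sp / sm` grows at least like `|a_i| ^ (-1)` for `a ∈ T_i`, `|a_i| ≤ 1` (`σ = 1`), and
at least like `|a_i|` for `|a_i| ≥ 1` (`σ = -1`); written for `t = |a_i| ^ (-σ) ≥ 1`.

PROOF. For `q ∈ V.F` choose the section `s_q` of `R` (`V.hF`), with `q.2 (mk x) = num s_q x`. By
`num_scale`, `q.2 (mk (a x)) = |a_i| ^ (-q.1) * g * q.2 (mk x)` with
`g = hD.gr a x ^ (k0 N) * ha.gr a x ^ N > 0`. If `σ q.1 > 0` then `|a_i| ^ (-q.1) = t ^ (σ q.1) ≥ t`, and if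
`σ q.1 ≤ 0` then it is `≤ 1` (`t ≥ 1`, `σ * σ = 1`). Sum up: `sp (a x) ≥ t g sp x`, `sm (a x) ≤ g sm x`. -/
theorem NLvl.ratio_grow (D : NLvl ΛL ΛP S U) (V : GT.Fam D.sys) {σ : ℤ} (hσ : σ = 1 ∨ σ = -1)
    {a : Fin r → ℂ} (ha : InTS {D.i} a) (ht : 1 ≤ ‖a D.i‖ ^ (-σ)) (x : U) :
    ∃ g : ℝ, 0 < g ∧
      ‖a D.i‖ ^ (-σ) * g * V.sp σ (NQuo.mk A S U x) ≤
        V.sp σ (NQuo.mk A S U ⟨A.act a x.1, D.inv a ha.1 x.1 x.2⟩) ∧
      V.sm σ (NQuo.mk A S U ⟨A.act a x.1, D.inv a ha.1 x.1 x.2⟩) ≤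
        g * V.sm σ (NQuo.mk A S U x) := by
  classical
  have hax : A.act a x.1 ∈ U := D.inv a ha.1 x.1 x.2
  have ha0 : 0 < ‖a D.i‖ := norm_pos_iff.2 (ha.1 D.i)
  have hg1 := D.hD.gr_pos ha.1 x.2 hax
  have hg2 := D.ha.gr_pos ha.1 x.2 hax
  refine ⟨D.hD.gr a x.1 ^ (V.k0 * V.N) * D.ha.gr a x.1 ^ V.N, by positivity, ?_, ?_⟩
  · set g := D.hD.gr a x.1 ^ (V.k0 * V.N) * D.ha.gr a x.1 ^ V.N with hg
    have hg0 : 0 < g := by positivity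
    unfold GT.Fam.sp GT.Fam.m
    rw [Finset.mul_sum]
    refine Finset.sum_le_sum fun q hq => ?_
    simp only [Finset.mem_filter] at hq
    obtain ⟨hq, hσq⟩ := hq
    have h0 : 0 ≤ q.2 (NQuo.mk A S U x) := D.sys.nonneg _ _ _ _ (V.hF q hq) _
    have e := D.ChamB2_val V hq ha x
    rw [e, ← hg, D.ChamB2_pow hσ ha.1 q.1]
    have h1 : ‖a D.i‖ ^ (-σ) ≤ (‖a D.i‖ ^ (-σ)) ^ (σ * q.1) := by
      calc ‖a D.i‖ ^ (-σ) = (‖a D.i‖ ^ (-σ)) ^ (1 : ℤ) := (zpow_one _).symm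
        _ ≤ _ := zpow_le_zpow_right₀ ht (by omega)
    exact mul_le_mul_of_nonneg_right (mul_le_mul_of_nonneg_right h1 hg0.le) h0
  · set g := D.hD.gr a x.1 ^ (V.k0 * V.N) * D.ha.gr a x.1 ^ V.N with hg
    have hg0 : 0 < g := by positivity
    unfold GT.Fam.sm GT.Fam.m
    rw [Finset.mul_sum]
    refine Finset.sum_le_sum fun q hq => ?_
    simp only [Finset.mem_filter] at hq
    obtain ⟨hq, hσq⟩ := hq
    have h0 : 0 ≤ q.2 (NQuo.mk A S U x) := D.sys.nonneg _ _ _ _ (V.hF q hq) _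
    have e := D.ChamB2_val V hq ha x
    rw [e, ← hg, D.ChamB2_pow hσ ha.1 q.1]
    have h1 : (‖a D.i‖ ^ (-σ)) ^ (σ * q.1) ≤ 1 := by
      calc (‖a D.i‖ ^ (-σ)) ^ (σ * q.1) ≤ (‖a D.i‖ ^ (-σ)) ^ (0 : ℤ) :=
            zpow_le_zpow_right₀ ht hσq
        _ = 1 := zpow_zero _
    calc (‖a D.i‖ ^ (-σ)) ^ (σ * q.1) * g * q.2 (NQuo.mk A S U x)
        ≤ 1 * g * q.2 (NQuo.mk A S U x) :=
          mul_le_mul_of_nonneg_right (mul_le_mul_of_nonneg_right h1 hg0.le) h0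
      _ = g * q.2 (NQuo.mk A S U x) := by rw [one_mul]

/-- The `i`-coordinates of the elements of `T_{S + i}` which map a point of a compact subset of the
chamber into it are bounded.

PROOF. `sp / sm` is positive and continuous on `C`, so there is `B ≥ 1` with `sp ≤ B sm`, `sm ≤ B sp` on
`C` (`IsCompact.exists_bound_of_continuousOn` or extreme value theorem for the two continuous ratios).
Let `x`, `a x ∈ C`, `a = a₂ a₁` (`inTS_split`); the class of `a x` is the class of `a₁ x`. If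
`t = |a i| ^ (-σ) ≥ 1`, `ratio_grow` gives `t g sp x ≤ sp (a₁ x) ≤ B sm (a₁ x) ≤ B g sm x ≤ B ^ 2 g sp x`,
so `t ≤ B ^ 2`. If `t < 1` use `a⁻¹` and the point `a x`: `t⁻¹ ≤ B ^ 2`. So `|a i|` and its inverse are
`≤ B ^ 2`. -/
theorem NLvl.proper_i (D : NLvl ΛL ΛP S U) (V : GT.Fam D.sys) {σ : ℤ} (hσ : σ = 1 ∨ σ = -1)
    {C : Set X} (hC : IsCompact C) (hCV : C ⊆ D.Cham V σ) : ∃ R : ℝ, ∀ a,
      InTS (insert D.i S) a → ∀ x ∈ C, A.act a x ∈ C → ‖a D.i‖ ≤ R ∧ ‖(a D.i)⁻¹‖ ≤ R := by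
  classical
  have hCU : C ⊆ U := fun x hx => (hCV hx).1
  have hC' : IsCompact (Subtype.val ⁻¹' C : Set U) := by
    rw [Subtype.isCompact_iff, Subtype.image_preimage_coe, inter_eq_right.2 hCU]
    exact hC
  have hsp : ∀ x : U, x.1 ∈ C → 0 < V.sp σ (NQuo.mk A S U x) := fun x hx => (hCV hx).2.1
  have hsm : ∀ x : U, x.1 ∈ C → 0 < V.sm σ (NQuo.mk A S U x) := fun x hx => (hCV hx).2.2
  have cp : Continuous fun x : U => V.sp σ (NQuo.mk A S U x) :=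
    (V.m_cont _).comp (NQuo.mk_cont A S U)
  have cm : Continuous fun x : U => V.sm σ (NQuo.mk A S U x) :=
    (V.m_cont _).comp (NQuo.mk_cont A S U)
  obtain ⟨B₁, hB₁⟩ := hC'.exists_bound_of_continuousOn
    (f := fun x : U => V.sp σ (NQuo.mk A S U x) / V.sm σ (NQuo.mk A S U x))
    (cp.continuousOn.div cm.continuousOn fun x hx => (hsm x hx).ne')
  obtain ⟨B₂, hB₂⟩ := hC'.exists_bound_of_continuousOn
    (f := fun x : U => V.sm σ (NQuo.mk A S U x) / V.sp σ (NQuo.mk A S U x))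
    (cm.continuousOn.div cp.continuousOn fun x hx => (hsp x hx).ne')
  set B := max 1 (max B₁ B₂) with hB
  have hB1 : 1 ≤ B := le_max_left _ _
  have hBB₁ : B₁ ≤ B := (le_max_left _ _).trans (le_max_right _ _)
  have hBB₂ : B₂ ≤ B := (le_max_right _ _).trans (le_max_right _ _)
  have h1 : ∀ x : U, x.1 ∈ C → V.sp σ (NQuo.mk A S U x) ≤ B * V.sm σ (NQuo.mk A S U x) := by
    intro x hx
    have h := (le_abs_self _).trans ((hB₁ x hx).trans hBB₁)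
    rwa [div_le_iff₀ (hsm x hx)] at h
  have h2 : ∀ x : U, x.1 ∈ C → V.sm σ (NQuo.mk A S U x) ≤ B * V.sp σ (NQuo.mk A S U x) := by
    intro x hx
    have h := (le_abs_self _).trans ((hB₂ x hx).trans hBB₂)
    rwa [div_le_iff₀ (hsp x hx)] at h
  -- the main step
  have main : ∀ a, InTS (insert D.i S) a → ∀ x ∈ C, A.act a x ∈ C → 1 ≤ ‖a D.i‖ ^ (-σ) →
      ‖a D.i‖ ^ (-σ) ≤ B ^ 2 := by
    intro a ha x hx hax ht
    obtain ⟨a₁, a₂, h₁, h₂, e, ei, _, _⟩ := inTS_split D.hi ha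
    have hxU := hCU hx
    have haxU := hCU hax
    rw [← ei] at ht ⊢
    obtain ⟨g, hg, g1, g2⟩ := D.ratio_grow V hσ h₁ ht ⟨x, hxU⟩
    have e1 : NQuo.mk A S U ⟨A.act a₁ x, D.inv a₁ h₁.1 x hxU⟩ =
        NQuo.mk A S U ⟨A.act a x, haxU⟩ := by
      rw [NQuo.mk_eq]
      refine ⟨a₂, h₂, ?_⟩
      show A.act a₂ (A.act a₁ x) = A.act a x
      rw [e, A.mul a₂ a₁ h₂.1 h₁.1]
    rw [e1] at g1 g2
    have k1 := h1 ⟨A.act a x, haxU⟩ hax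
    have k2 := h2 ⟨x, hxU⟩ hx
    have k3 := hsp ⟨x, hxU⟩ hx
    have k4 : ‖a₁ D.i‖ ^ (-σ) * (g * V.sp σ (NQuo.mk A S U ⟨x, hxU⟩)) ≤
        B ^ 2 * (g * V.sp σ (NQuo.mk A S U ⟨x, hxU⟩)) := by
      calc ‖a₁ D.i‖ ^ (-σ) * (g * V.sp σ (NQuo.mk A S U ⟨x, hxU⟩))
          = ‖a₁ D.i‖ ^ (-σ) * g * V.sp σ (NQuo.mk A S U ⟨x, hxU⟩) := by ring
        _ ≤ _ := g1
        _ ≤ B * V.sm σ (NQuo.mk A S U ⟨A.act a x, haxU⟩) := k1
        _ ≤ B * (g * V.sm σ (NQuo.mk A S U ⟨x, hxU⟩)) :=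
            mul_le_mul_of_nonneg_left g2 (by linarith)
        _ ≤ B * (g * (B * V.sp σ (NQuo.mk A S U ⟨x, hxU⟩))) :=
            mul_le_mul_of_nonneg_left (mul_le_mul_of_nonneg_left k2 hg.le) (by linarith)
        _ = _ := by ring
    exact le_of_mul_le_mul_right k4 (mul_pos hg k3)
  have both : ∀ a, InTS (insert D.i S) a → ∀ x ∈ C, A.act a x ∈ C →
      ‖a D.i‖ ^ (-σ) ≤ B ^ 2 ∧ (‖a D.i‖ ^ (-σ))⁻¹ ≤ B ^ 2 := by
    intro a ha x hx hax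
    have hB2 : 1 ≤ B ^ 2 := one_le_pow₀ hB1
    have ha0 : 0 < ‖a D.i‖ ^ (-σ) := zpow_pos (norm_pos_iff.2 (ha.1 D.i)) _
    rcases le_total 1 (‖a D.i‖ ^ (-σ)) with ht | ht
    · exact ⟨main a ha x hx hax ht, (inv_le_one_of_one_le₀ ht).trans hB2⟩
    · refine ⟨ht.trans hB2, ?_⟩
      have e2 : ‖(a⁻¹) D.i‖ ^ (-σ) = (‖a D.i‖ ^ (-σ))⁻¹ := by
        rw [Pi.inv_apply, norm_inv, inv_zpow]
      have h := main a⁻¹ (inTS_inv ha) (A.act a x) hax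
        (by rw [nact_inv_act A ha.1]; exact hx) (by rw [e2]; exact (one_le_inv₀ ha0).2 ht)
      rwa [e2] at h
  refine ⟨B ^ 2, fun a ha x hx hax => ?_⟩
  obtain ⟨b1, b2⟩ := both a ha x hx hax
  rcases hσ with h | h
  · rw [h, zpow_neg, zpow_one] at b1 b2
    rw [inv_inv] at b2
    rw [norm_inv]
    exact ⟨b2, b1⟩
  · rw [h, neg_neg, zpow_one] at b1 b2
    rw [norm_inv]
    exact ⟨b1, b2⟩

end Pool.Agent.Abn
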