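import Pool.Agent.H.MP_e23cd6_ag.NT.ChamB2

/-! MP_e23cd6_ag, torus actions: `T_{S + i}` acts properly and cocompactly on the chambers. -/

set_option autoImplicit false

open scoped Manifold ContDiff Topology ENNReal
open MeasureTheory Set Filter

namespace Pool.Agent.Abn

open Pool.Agent.Abd

variable {E : Type} [NormedAddCommGroup E] [NormedSpace ℂ E] [FiniteDimensional ℂ E] {r : ℕ}
  {X₀ X : Type} [TopologicalSpace X₀] [ChartedSpace E X₀] [IsManifold 𝓘(ℂ, E) ω X₀]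
  [TopologicalSpace X] [T2Space X] {Y : NSp E X₀ X}
  {L P : NLine Y} {A : NAct r Y}
  {ΛL : NLin A L} {ΛP : NLin A P} {S : Finset (Fin r)} {U : Set X}
  [CompactSpace X] [ConnectedSpace X]

theorem chamB3_inT_update {i : Fin r} {z : ℂ} (hz : z ≠ 0) :
    InT (Function.update (1 : Fin r → ℂ) i z) := by
  intro c
  by_cases hc : c = i
  · subst hc
    rw [Function.update_self]
    exact hz
  · rw [Function.update_of_ne hc]
    exact one_ne_zero

omit [FiniteDimensional ℂ E] [T2Space X] in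
/-- The union of the translates of a compact set by a compact family of elements of `T_i` is
compact. -/
theorem chamB3_isCompact_image (A : NAct r Y) (i : Fin r) {K : ℝ} (hK : 0 < K)
    {C : Set X} (hC : IsCompact C) :
    IsCompact ((fun v : ℂ × X => A.act (Function.update 1 i v.1) v.2) ''
      ({z : ℂ | ‖z‖ ≤ K ∧ K⁻¹ ≤ ‖z‖} ×ˢ C)) := by
  have hZ : IsCompact {z : ℂ | ‖z‖ ≤ K ∧ K⁻¹ ≤ ‖z‖} := by
    refine Metric.isCompact_of_isClosed_isBounded ?_ ?_
    · exact (isClosed_le continuous_norm continuous_const).inter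
        (isClosed_le continuous_const continuous_norm)
    · refine (Metric.isBounded_closedBall (x := (0 : ℂ)) (r := K)).subset ?_
      intro z hz
      rw [Metric.mem_closedBall, dist_zero_right]
      exact hz.1
  refine (hZ.prod hC).image_of_continuousOn ?_
  rintro ⟨z, x⟩ ⟨hz, hx⟩
  have hz0 : z ≠ 0 := by
    rw [← norm_pos_iff]
    exact lt_of_lt_of_le (inv_pos.2 hK) hz.2
  have h1 : ContinuousAt (fun v : (Fin r → ℂ) × X => A.act v.1 v.2)
      (Function.update (1 : Fin r → ℂ) i z, x) :=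
    A.cont _ (chamB3_inT_update hz0) x
  have h2' : Continuous (fun v : ℂ × X => Function.update (1 : Fin r → ℂ) i v.1) :=
    Continuous.update (f := fun _ : ℂ × X => (1 : Fin r → ℂ)) continuous_const i continuous_fst
  have h2 : Continuous (fun v : ℂ × X => (Function.update (1 : Fin r → ℂ) i v.1, v.2)) :=
    h2'.prodMk continuous_snd
  have h3 : ContinuousAt ((fun v : (Fin r → ℂ) × X => A.act v.1 v.2) ∘
      (fun v : ℂ × X => (Function.update (1 : Fin r → ℂ) i v.1, v.2))) (z, x) :=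
    ContinuousAt.comp (x := (z, x)) h1 h2.continuousAt
  exact h3.continuousWithinAt

/-- PROPERNESS. PROOF. `R₁` from `proper_i` (may assume `R₁ ≥ 1`). The set `C'` of all `a₁ x`, `x ∈ C`,
`a₁ ∈ T_i` with `|a₁ i| ≤ R₁`, `|(a₁ i)⁻¹| ≤ R₁`, is a compact subset of `U` (image of a product of
compact sets under the continuous map `(z, x) ↦ A.act (Function.update 1 i z) x` on
`{z ≠ 0} × X`, `A.hol`; `D.inv`). Let `R₂` be given by `D.good.proper` for `C ∪ C'`. If `x`, `a x ∈ C`,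
`a = a₂ a₁`, then `a₁ x ∈ C'` and `a₂ (a₁ x) = a x ∈ C`, so the coordinates of `a₂` are bounded by `R₂`.
`R = max R₁ (max R₂ 1)`; the coordinates of `a` are those of `a₁` (at `i`) or `a₂`. -/
theorem NLvl.cham_proper (D : NLvl ΛL ΛP S U) (V : GT.Fam D.sys) {σ : ℤ} (hσ : σ = 1 ∨ σ = -1)
    {C : Set X} (hCV : C ⊆ D.Cham V σ) (hC : IsCompact C) : ∃ R : ℝ, ∀ a,
      InTS (insert D.i S) a → ∀ x ∈ C, A.act a x ∈ C → ∀ c, ‖a c‖ ≤ R ∧ ‖(a c)⁻¹‖ ≤ R := by
  obtain ⟨R₁, hR₁⟩ := D.proper_i V hσ hC hCV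
  have hK : (0 : ℝ) < max R₁ 1 := lt_of_lt_of_le one_pos (le_max_right _ _)
  have hCU : C ⊆ U := fun x hx => D.cham_sub V σ (hCV hx)
  have hC' := chamB3_isCompact_image A D.i hK hC
  obtain ⟨R₂, hR₂⟩ := D.good.proper (C ∪ (fun v : ℂ × X => A.act (Function.update 1 D.i v.1) v.2) ''
      ({z : ℂ | ‖z‖ ≤ max R₁ 1 ∧ (max R₁ 1)⁻¹ ≤ ‖z‖} ×ˢ C)) (by
    refine union_subset hCU ?_
    rintro _ ⟨⟨z, x⟩, ⟨hz, hx⟩, rfl⟩
    have hz0 : z ≠ 0 := by
      rw [← norm_pos_iff]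
      exact lt_of_lt_of_le (inv_pos.2 hK) hz.2
    exact D.inv _ (chamB3_inT_update hz0) x (hCU hx)) (hC.union hC')
  refine ⟨max R₁ R₂, fun a ha x hx hax c => ?_⟩
  obtain ⟨hb1, hb2⟩ := hR₁ a ha x hx hax
  by_cases hc : c = D.i
  · subst hc
    exact ⟨hb1.trans (le_max_left _ _), hb2.trans (le_max_left _ _)⟩
  · obtain ⟨a₁, a₂, h1, h2, he, hi1, hi2, hcc⟩ := inTS_split D.hi ha
    have e1 : Function.update (1 : Fin r → ℂ) D.i (a D.i) = a₁ := by
      funext d
      by_cases hd : d = D.i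
      · subst hd
        rw [Function.update_self, hi1]
      · rw [Function.update_of_ne hd, (hcc d hd).1]
        rfl
    have hmem : A.act a₁ x ∈ (fun v : ℂ × X => A.act (Function.update 1 D.i v.1) v.2) ''
        ({z : ℂ | ‖z‖ ≤ max R₁ 1 ∧ (max R₁ 1)⁻¹ ≤ ‖z‖} ×ˢ C) := by
      refine ⟨(a D.i, x), ⟨⟨hb1.trans (le_max_left _ _), ?_⟩, hx⟩, ?_⟩
      · have h0 : (0 : ℝ) < ‖a D.i‖ := norm_pos_iff.2 (ha.1 D.i)
        rw [norm_inv] at hb2
        rw [inv_le_comm₀ hK h0]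
        exact hb2.trans (le_max_left _ _)
      · beta_reduce
        rw [e1]
    have e2 : A.act a₂ (A.act a₁ x) = A.act a x := by
      rw [← A.mul a₂ a₁ h2.1 h1.1, ← he]
    have h3 := hR₂ a₂ h2 (A.act a₁ x) (Or.inr hmem) (Or.inl (by rw [e2]; exact hax)) c
    rw [(hcc c hc).2] at h3
    exact ⟨h3.1.trans (le_max_right _ _), h3.2.trans (le_max_right _ _)⟩

/-- THE CHAMBER IS GOOD. PROOF. `cham_open`, `cham_conn`, `cham_inv`, `cham_proper`; cocompactness:
`exists_slab` and `slab_compact`; `A.act b (A.act (sh i n) x) = A.act (b * sh i n) x` with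
`b * sh i n ∈ T_{S + i}`. -/
theorem NLvl.cham_good (D : NLvl ΛL ΛP S U) (V : GT.Fam D.sys) {σ : ℤ} (hσ : σ = 1 ∨ σ = -1)
    (hne : (D.Cham V σ).Nonempty) : NGood A (insert D.i S) (D.Cham V σ) := by
  refine ⟨D.cham_open V σ, D.cham_conn V hσ hne, fun a ha x hx => D.cham_inv V hσ a ha x hx, ?_,
    fun C hC hCc => D.cham_proper V hσ hC hCc⟩
  obtain ⟨C, hCU, hC, B, h⟩ := D.exists_slab V hσ
  obtain ⟨h1, h2⟩ := D.slab_compact V σ B hC hCU
  refine ⟨_, h2, h1, fun x hx => ?_⟩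
  obtain ⟨n, b, hb, hbC, hxU, hle⟩ := h x hx
  have hsh : InT (sh D.i n) := chamB3_inT_update (zpow_ne_zero n two_ne_zero)
  refine ⟨b * sh D.i n, ⟨fun c => mul_ne_zero (hb.1 c) (hsh c), fun c hc => ?_⟩, ?_⟩
  · have hc1 : c ≠ D.i := fun h => hc (h ▸ Finset.mem_insert_self _ _)
    have hc2 : c ∉ S := fun h => hc (Finset.mem_insert_of_mem h)
    rw [Pi.mul_apply, hb.2 c hc2, sh, Function.update_of_ne hc1, Pi.one_apply, one_mul]
  · rw [A.mul b (sh D.i n) hb.1 hsh]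
    exact ⟨hbC, hxU, hle⟩

end Pool.Agent.Abn
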