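import Pool.Agent.H.MP_e23cd6_ag.NT.ChamB3

/-! MP_e23cd6_ag, torus actions: the new nef bundle on the chambers, growth of the metric of `D`. -/

set_option autoImplicit false

open scoped Manifold ContDiff Topology ENNReal
open MeasureTheory Set Filter

namespace Pool.Agent.Abn

open Pool.Agent.Abd

variable {E : Type} [NormedAddCommGroup E] [NormedSpace ℂ E] [FiniteDimensional ℂ E] {r : ℕ}
  {X₀ X : Type} [TopologicalSpace X₀] [ChartedSpace E X₀] [IsManifold 𝓘(ℂ, E) ω X₀]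
  [TopologicalSpace X] [T2Space X] {Y : NSp E X₀ X}
  {L P : NLine Y} {A : NAct r Y}
  {ΛL : NLin A L} {ΛP : NLin A P} {S : Finset (Fin r)} {U : Set X}
  [CompactSpace X] [ConnectedSpace X]

/-- The degrees and the weight of the new ample bundle `a' = 2 N (k₀ D + a)`, with the weight at
`i` shifted by `σ`. -/
def NLvl.newK (D : NLvl ΛL ΛP S U) (V : GT.Fam D.sys) : ℕ := 2 * V.N * (V.k0 * D.K + D.K')

def NLvl.newJ (D : NLvl ΛL ΛP S U) (V : GT.Fam D.sys) : ℕ := 2 * V.N * D.J'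

def NLvl.newχ (D : NLvl ΛL ΛP S U) (V : GT.Fam D.sys) (σ : ℤ) : Fin r → ℤ :=
  fun d => 2 * V.N * (V.k0 * D.χ d + D.χ' d) + if d = D.i then σ else 0

/-- The bundles `n' D + a'` are semiample on the chamber, for all `n' ≥ 0`. -/
theorem NLvl.new_semi (D : NLvl ΛL ΛP S U) (V : GT.Fam D.sys) {σ : ℤ} (hσ : σ = 1 ∨ σ = -1)
    {p : NQuo A S U} (hp : D.Normal p) (n' : ℕ) :
    NSemiG ΛL ΛP (insert D.i S) (D.Cham V σ) (n' * D.K + D.newK V) (D.newJ V)
      (fun c => n' * D.χ c + D.newχ V σ c) := by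
  haveI : CompactSpace (NQuo A S U) := NQuo.compact D.good
  rcases (D.Cham V σ).eq_empty_or_nonempty with h0 | hne
  · refine ⟨1, le_rfl, fun x hx => ?_⟩
    rw [h0] at hx
    exact hx.elim
  · refine NSemiG.of_local (D.cham_good V hσ hne) fun x hx => ?_
    obtain ⟨hxU, h1, h2⟩ := hx
    obtain ⟨l, hl, u, hu, hpos⟩ :=
      V.nefnewS hσ hp.fixed hp.b hp.a n' (NQuo.mk A S U ⟨x, hxU⟩) h1 h2
    obtain ⟨s, hs, hnz⟩ := (D.cham_R_iff hxU).1 ⟨u, hu, hpos⟩
    have e1 : l * (n' + 2 * V.N * V.k0) * D.K + l * (2 * V.N) * D.K' =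
        l * (n' * D.K + D.newK V) := by
      unfold NLvl.newK
      ring
    have e2 : l * (n' + 2 * V.N * V.k0) * 0 + l * (2 * V.N) * D.J' = l * D.newJ V := by
      unfold NLvl.newJ
      ring
    refine ⟨l, hl, NSec.cast s e1 e2, ?_, ?_⟩
    · refine NOfWt.cast (NOfWt.congr_wt ?_ hs) e1 e2
      intro c _
      unfold NLvl.wt NLvl.newχ
      push_cast
      split_ifs <;> ring
    · rw [NSec.nz_cast]
      exact hnz

/-- The growth of the metric of `D` is bounded near each point of the chamber. -/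
theorem NLvl.growth (D : NLvl ΛL ΛP S U) (V : GT.Fam D.sys) {σ : ℤ} (hσ : σ = 1 ∨ σ = -1)
    {p : NQuo A S U} (hp : D.Normal p) {x₀ : X} (hx₀ : x₀ ∈ D.Cham V σ) :
    ∃ N ∈ 𝓝 x₀, ∃ C : ℝ, ∀ x ∈ N, x ∈ D.Cham V σ → ∀ n : ℤ, D.hD.gr (sh D.i n) x ≤ C := by
  haveI : CompactSpace (NQuo A S U) := NQuo.compact D.good
  obtain ⟨hxU, h1, h2⟩ := hx₀
  obtain ⟨B, hB1, hB2⟩ : ∃ B : ℝ, V.sp σ (NQuo.mk A S U ⟨x₀, hxU⟩) <
      B * V.sm σ (NQuo.mk A S U ⟨x₀, hxU⟩) ∧ V.sm σ (NQuo.mk A S U ⟨x₀, hxU⟩) <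
      B * V.sp σ (NQuo.mk A S U ⟨x₀, hxU⟩) := by
    generalize V.sp σ (NQuo.mk A S U ⟨x₀, hxU⟩) = P at *
    generalize V.sm σ (NQuo.mk A S U ⟨x₀, hxU⟩) = M at *
    refine ⟨P / M + M / P + 1, ?_, ?_⟩
    · have e : (P / M + M / P + 1) * M = P + M / P * M + M := by field_simp
      rw [e]
      have : 0 < M / P * M := by positivity
      linarith
    · have e : (P / M + M / P + 1) * P = P / M * P + M + P := by field_simp
      rw [e]
      have : 0 < P / M * P := by positivity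
      linarith
  obtain ⟨C, -, hC⟩ := V.growthS hσ hp.fixed hp.b hp.a B
  have hO : IsOpen {y : U | V.sp σ (NQuo.mk A S U y) < B * V.sm σ (NQuo.mk A S U y) ∧
      V.sm σ (NQuo.mk A S U y) < B * V.sp σ (NQuo.mk A S U y)} := by
    have c := NQuo.mk_cont A S U
    have cp : Continuous fun y : U => V.sp σ (NQuo.mk A S U y) := (V.m_cont _).comp c
    have cm : Continuous fun y : U => V.sm σ (NQuo.mk A S U y) := (V.m_cont _).comp c
    exact (isOpen_lt cp (continuous_const.mul cm)).inter (isOpen_lt cm (continuous_const.mul cp))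
  have hO2 := D.good.isOpen.isOpenMap_subtype_val _ hO
  refine ⟨_, hO2.mem_nhds ⟨⟨x₀, hxU⟩, ⟨hB1, hB2⟩, rfl⟩, C, ?_⟩
  rintro _ ⟨y, ⟨hy1, hy2⟩, rfl⟩ _ n
  have h3 := hC (NQuo.mk A S U y) hy1.le hy2.le (-n)
  have h4 : D.sys.GD (-n) (NQuo.mk A S U y) = D.hD.gr (sh D.i (- -n)) y.1 := D.GD_mk (-n) y
  rw [h4, neg_neg] at h3
  exact h3

/-- The norm of a section of `l D` over the chamber of `i`-weight `0` (relative to `χ i`) at
`f n x`. -/
theorem NMet.num_pow_shift {K : ℕ} {χ : Fin r → ℤ} (h : NMet ΛL ΛP S U K 0 χ) {V : Set X}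
    (hV : V ⊆ U) (hU : ∀ a, InT a → ∀ x ∈ U, A.act a x ∈ U) {i : Fin r} (l : ℕ)
    (H : NMet ΛL ΛP S U (l * K) 0 (fun c => l * χ c)) (hH : ∀ i j x, H.h i j x = h.h i j x ^ l)
    {s : NSec L P (l * K) 0 V} (hs : NOfWt ΛL ΛP (insert i S) (fun c => l * χ c) s)
    {a : Fin r → ℂ} (ha : InTS {i} a) {x : X} (hx : x ∈ V) (hax : A.act a x ∈ V) :
    H.num s (A.act a x) = h.gr a x ^ l * H.num s x := by
  have hs' : NOfWt ΛL ΛP (insert i S)
      (fun d => (l : ℤ) * χ d + if d = i then (0 : ℤ) else 0) s := by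
    refine NOfWt.congr_wt ?_ hs
    intro c _
    simp
  rw [H.num_shift hV hs' ha hx hax]
  have e : H.gr a x = h.gr a x ^ l := by
    unfold NMet.gr
    rw [hH, hH, chr_nsmul, norm_pow, div_pow, mul_pow, mul_pow, mul_pow, pow_zero, one_pow,
      mul_comm l K, pow_mul]
  rw [e, neg_zero, zpow_zero, one_mul]

/-- The power of a metric. -/
noncomputable def NMet.pow {K : ℕ} {χ : Fin r → ℤ} (h : NMet ΛL ΛP S U K 0 χ) (l : ℕ) :
    NMet ΛL ΛP S U (l * K) 0 (fun c => l * χ c) where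
  h := fun i j x => h.h i j x ^ l
  pos := fun i j x h1 h2 h3 => pow_pos (h.pos i j x h1 h2 h3) l
  cont := fun i j x h1 h2 h3 => (h.cont i j x h1 h2 h3).pow l
  equiv := by
    intro a ha i j i' j' x h1 h2 h3 h4 h5 h6
    have e := h.equiv a ha i j i' j' x h1 h2 h3 h4 h5 h6
    rw [chr_nsmul, norm_pow, ← mul_pow, ← e, mul_comm l K, pow_mul, pow_zero, mul_one, mul_one,
      mul_pow]

end Pool.Agent.Abn
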