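import Pool.Agent.H.MP_e23cd6_ag.NT.FourD

/-! Components of sections over the compact normal space `X`; translates of sections. -/

set_option autoImplicit false

open scoped Manifold ContDiff Topology ENNReal
open MeasureTheory Set Filter

namespace Pool.Agent.Abn

open Pool.Agent.Abd

variable {E : Type} [NormedAddCommGroup E] [NormedSpace ℂ E] [FiniteDimensional ℂ E] {r : ℕ}
  {X₀ X : Type} [TopologicalSpace X₀] [ChartedSpace E X₀] [IsManifold 𝓘(ℂ, E) ω X₀]
  [TopologicalSpace X] {N : NSp E X₀ X} {L P : NLine N} {K J K' J' : ℕ} {U V : Set X}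
  {A : NAct r N} {ΛL : NLin A L} {ΛP : NLin A P} {S : Finset (Fin r)} {χ χ' : Fin r → ℤ}

omit [NormedSpace ℂ E] [FiniteDimensional ℂ E] [IsManifold 𝓘(ℂ, E) ω X₀] in
/-- `X` is Good for `S = ∅`. -/
theorem good_univ [NormedSpace ℂ E] {N : NSp E X₀ X} [CompactSpace X] [ConnectedSpace X]
    (A : NAct r N) : NGood A ∅ (univ : Set X) where
  isOpen := isOpen_univ
  conn := isConnected_univ
  inv := fun _ _ _ _ => mem_univ _
  cocompact := ⟨univ, subset_rfl, isCompact_univ, fun _ _ =>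
    ⟨1, ⟨fun _ => one_ne_zero, fun _ _ => rfl⟩, mem_univ _⟩⟩
  proper := fun _ _ _ => ⟨1, fun a ha _ _ _ c => by
    rw [ha.2 c (Finset.notMem_empty c)]
    simp⟩

/-- Components over `X`. -/
theorem gt_components_univ [CompactSpace X] [ConnectedSpace X] [T2Space X] {i : Fin r}
    (hi : i ∉ S) (s : NSec L P K J univ)
    (hs : NOfWt ΛL ΛP S χ s) : ∃ (T : Finset ℤ) (t : ℤ → NSec L P K J univ),
      (∀ c, NOfWt ΛL ΛP (insert i S) (fun d => if d = i then c else χ d) (t c)) ∧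
      ∀ i₁ j x, NAt L P i₁ j x → s.f i₁ j x = ∑ c ∈ T, (t c).f i₁ j x := by
  have hG : NGood A ∅ (univ : Set X) := good_univ A
  obtain ⟨B, hB⟩ := weights_bounded hG (Finset.notMem_empty i) χ L P ΛL ΛP K J
  have hUo : IsOpen (N.inc ⁻¹' (univ : Set X)) := hG.isOpen.preimage N.emb.continuous
  have hinv : ∀ a, InT a → ∀ y ∈ N.inc ⁻¹' (univ : Set X), A.reg.act a y ∈ N.inc ⁻¹' (univ : Set X) :=
    fun a ha y hy => reg_inv hG.inv ha y hy
  have hex := fun ν => exists_fourier_wt ΛL.reg ΛP.reg hUo hinv hi s.reg hs.reg ν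
  choose tν hwt hval using hex
  choose sν hsν hsν2 using fun ν => exists_ofReg_wt hG.isOpen (tν ν) (hwt ν)
  have hout : ∀ ν, ν ∉ Finset.Icc (-B) B → B < |ν| := by
    intro ν hν
    rw [Finset.mem_Icc, not_and_or, not_le, not_le] at hν
    rcases hν with h | h
    · exact lt_of_lt_of_le (by linarith) (neg_le_abs ν)
    · exact lt_of_lt_of_le h (le_abs_self ν)
  refine ⟨Finset.Icc (-B) B, sν, fun c => ?_, ?_⟩
  · have e : (fun d => if d = i then c else χ d) = Function.update χ i c := by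
      funext d
      rw [Function.update_apply]
    rw [e]
    exact hsν c
  intro i₁ j x hat
  refine NSec.ext_reg s (NSec.sum (Finset.Icc (-B) B) sν) hG.isOpen ?_ (mem_univ x) hat
  intro i₁ j y hy hat
  have hat' : At L.reg P.reg i₁ j (chartAt E y) y := hat.reg
  have h0 : ∀ ν, ν ∉ Finset.Icc (-B) B →
      fco ΛL.reg ΛP.reg s.reg i ν i₁ j (chartAt E y) y = 0 := by
    intro ν hν
    have hsub : insert i (∅ : Finset (Fin r)) ⊆ insert i S :=
      Finset.insert_subset_insert i (Finset.empty_subset S)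
    have h1 := hB ν (hout ν hν) (sν ν)
      (fun a ha => hsν ν a ⟨ha.1, fun c hc => ha.2 c fun h => hc (hsub h)⟩) (N.inc y) hy
    rw [(sν ν).nz_iff hy hat, not_not, hsν2 ν i₁ j _ y hy hat', hval ν i₁ j _ y hy hat'] at h1
    exact h1
  have h1 := fco_sum ΛL.reg ΛP.reg hUo hinv s.reg i _ hy hat' h0
  rw [NSec.reg_f] at h1
  rw [h1]
  show _ = ∑ ν ∈ Finset.Icc (-B) B, (sν ν).f i₁ j (N.inc y)
  exact Finset.sum_congr rfl fun ν _ => by
    rw [hsν2 ν i₁ j _ y hy hat', hval ν i₁ j _ y hy hat']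

/-- The translate of a section by an element of the torus. -/
theorem gt_translate (hUo : IsOpen U) (hU : ∀ a, InT a → ∀ x ∈ U, A.act a x ∈ U)
    (s : NSec L P K J U) (hs : NOfWt ΛL ΛP S χ s) {b : Fin r → ℂ} (hb : InT b) :
    ∃ t : NSec L P K J U, NOfWt ΛL ΛP S χ t ∧ ∀ x ∈ U, (t.NZ x ↔ s.NZ (A.act b x)) := by
  have hUo' : IsOpen (N.inc ⁻¹' U) := hUo.preimage N.emb.continuous
  have hinv : ∀ a, InT a → ∀ y ∈ N.inc ⁻¹' U, A.reg.act a y ∈ N.inc ⁻¹' U :=
    fun a ha y hy => reg_inv hU ha y hy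
  obtain ⟨t₀, h1, h2, h3⟩ := exists_translate (ΛL := ΛL.reg) (ΛP := ΛP.reg) hUo' hinv s.reg hb
  obtain ⟨t, ht, ht2⟩ := exists_ofReg_wt hUo t₀ (h3 S χ hs.reg)
  refine ⟨t, ht, ?_⟩
  intro x hx
  have hbx := hU b hb x hx
  obtain ⟨i, j, hat⟩ := exists_nat L P x
  obtain ⟨i', j', hat'⟩ := exists_nat L P (A.act b x)
  have key : ΛL.lam i' i b x ^ K * ΛP.lam j' j b x ^ J * t.f i j x = s.f i' j' (A.act b x) := by
    have hc := (nact_continuous A hb).continuousAt (x := x)
    refine eq_of_reg N (f := fun x => ΛL.lam i' i b x ^ K * ΛP.lam j' j b x ^ J * t.f i j x)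
      (g := fun x => s.f i' j' (A.act b x)) ?_ ?_ ?_
    · exact (((nlam_continuousAt ΛL hb hat.memL hat'.memL).pow K).mul
        ((nlam_continuousAt ΛP hb hat.memP hat'.memP).pow J)).mul
        (Hol_continuousAt (t.hol' hx hat))
    · exact ContinuousAt.comp (f := A.act b) (Hol_continuousAt (s.hol' hbx hat')) hc
    · filter_upwards [hUo.mem_nhds hx, hat.eventually,
        hc.eventually hat'.eventually] with z k0 k1 k2 y hy
      subst hy
      have e : A.act b (N.inc y) = N.inc (A.reg.act b y) := A.inc b hb y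
      rw [e] at k2
      have k1' : At L.reg P.reg i j (chartAt E y) y := k1.reg
      have k2' : At L.reg P.reg i' j' (chartAt E (A.reg.act b y)) (A.reg.act b y) := k2.reg
      have e1 := mv_eq ΛL.reg ΛP.reg s.reg hb (hinv b hb y k0) k1' k2'
      have e2 := h1 i j (chartAt E y) y k0 k1'
      have e3 := ht2 i j (chartAt E y) y k0 k1'
      have n1 : ΛL.lam i' i b (N.inc y) ≠ 0 := nlam_ne_zero ΛL hb k1.memL (by
        rw [e]; exact k2.memL)
      have n2 : ΛP.lam j' j b (N.inc y) ≠ 0 := nlam_ne_zero ΛP hb k1.memP (by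
        rw [e]; exact k2.memP)
      rw [← e2, ← e3, pow_zero, mul_one] at e1
      have e4 : t.f i j (N.inc y) = s.f i' j' (N.inc (A.reg.act b y)) /
        (ΛL.lam i' i b (N.inc y) ^ K * ΛP.lam j' j b (N.inc y) ^ J) := e1
      rw [e4, e]
      field_simp
  rw [t.nz_iff hx hat, s.nz_iff hbx hat', ← key]
  have n1 : ΛL.lam i' i b x ≠ 0 := nlam_ne_zero ΛL hb hat.memL hat'.memL
  have n2 : ΛP.lam j' j b x ≠ 0 := nlam_ne_zero ΛP hb hat.memP hat'.memP
  constructor
  · intro h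
    exact mul_ne_zero (mul_ne_zero (pow_ne_zero _ n1) (pow_ne_zero _ n2)) h
  · intro h
    exact right_ne_zero_of_mul h

end Pool.Agent.Abn
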