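import Pool.Agent.H.MP_e23cd6_ag.NT.Defs

/-! MP_e23cd6_ag (abundance conjecture), torus actions on normal complex spaces: ample and nef line
bundles on `U / T_S`. -/

set_option autoImplicit false

open scoped Manifold ContDiff Topology ENNReal
open MeasureTheory Set Filter

namespace Pool.Agent.Abn

open Pool.Agent.Abd

variable {E : Type} [NormedAddCommGroup E] [NormedSpace ℂ E] {r : ℕ}
  {X₀ X : Type} [TopologicalSpace X₀] [ChartedSpace E X₀] [TopologicalSpace X]
  {Y : NSp E X₀ X} {L P : NLine Y} {A : NAct r Y} (ΛL : NLin A L) (ΛP : NLin A P)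

/-- The line bundle on `U / T_S` given by `L ^ K ⊗ P ^ J` and the weight `χ` is ample: it is
semiample and its powers have sections which separate the points of `U / T_S`. -/
def NAmpleQ (S : Finset (Fin r)) (U : Set X) (K J : ℕ) (χ : Fin r → ℤ) : Prop :=
  NSemiQ ΛL ΛP S U K J χ ∧ ∀ x ∈ U, ∀ y ∈ U, (¬ ∃ a, InTS S a ∧ y = A.act a x) →
    ∃ l : ℕ, 1 ≤ l ∧ ∃ s : NSec L P (l * K) (l * J) U,
      NOfWt ΛL ΛP S (fun c => l * χ c) s ∧ s.NZ x ∧ ¬ s.NZ y

/-- The line bundle on `U / T_S` given by `L ^ K` and the weight `χ` is nef: for some ample line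
bundle `H` on `U / T_S`, given by `L ^ K' ⊗ P ^ J'` and the weight `χ'`, the products of all its
positive powers with `H` are semiample. -/
def NNefQ (S : Finset (Fin r)) (U : Set X) (K : ℕ) (χ : Fin r → ℤ) : Prop :=
  ∃ (K' J' : ℕ) (χ' : Fin r → ℤ), NAmpleQ ΛL ΛP S U K' J' χ' ∧
    ∀ n : ℕ, 1 ≤ n → NSemiQ ΛL ΛP S U (n * K + K') J' (fun c => n * χ c + χ' c)

/-- The line bundle on `U / T_S` given by `L ^ K ⊗ P ^ J` and the weight `χ` is semiample by means
of sections over `X`: some power of it is generated by the sections of the corresponding weight of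
the power of `L ^ K ⊗ P ^ J` over the whole of `X`. -/
def NSemiG (S : Finset (Fin r)) (U : Set X) (K J : ℕ) (χ : Fin r → ℤ) : Prop :=
  ∃ l : ℕ, 1 ≤ l ∧ ∀ x ∈ U, ∃ s : NSec L P (l * K) (l * J) univ,
    NOfWt ΛL ΛP S (fun c => l * χ c) s ∧ s.NZ x

/-- The line bundle on `U / T_S` given by `L ^ K ⊗ P ^ J` and the weight `χ` is ample by means of
sections over `X`. -/
def NAmpleG (S : Finset (Fin r)) (U : Set X) (K J : ℕ) (χ : Fin r → ℤ) : Prop :=
  NSemiG ΛL ΛP S U K J χ ∧ ∀ x ∈ U, ∀ y ∈ U, (¬ ∃ a, InTS S a ∧ y = A.act a x) →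
    ∃ l : ℕ, 1 ≤ l ∧ ∃ s : NSec L P (l * K) (l * J) univ,
      NOfWt ΛL ΛP S (fun c => l * χ c) s ∧ s.NZ x ∧ ¬ s.NZ y

/-- The line bundle on `U / T_S` given by `L ^ K` and the weight `χ` is nef by means of sections
over `X`: for some ample line bundle `H` on `U / T_S`, given by `L ^ K' ⊗ P ^ J'` and the weight
`χ'`, the products of all its positive powers with `H` are semiample by means of sections over `X`. -/
def NNefG (S : Finset (Fin r)) (U : Set X) (K : ℕ) (χ : Fin r → ℤ) : Prop :=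
  ∃ (K' J' : ℕ) (χ' : Fin r → ℤ), NAmpleG ΛL ΛP S U K' J' χ' ∧
    ∀ n : ℕ, 1 ≤ n → NSemiG ΛL ΛP S U (n * K + K') J' (fun c => n * χ c + χ' c)

end Pool.Agent.Abn
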