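import Pool.Agent.H.MP_e23cd6_ag.NT.Ext
import Pool.Agent.H.MP_e23cd6_ag.GT.FreeD

/-! If some regular point has a finite stabiliser, then no factor of the torus acts trivially on the
quotient. -/

set_option autoImplicit false

open scoped Manifold ContDiff Topology ENNReal
open MeasureTheory Set Filter

namespace Pool.Agent.Abn

open Pool.Agent.Abd

section smooth

variable {E : Type} [NormedAddCommGroup E] [NormedSpace ℂ E] [FiniteDimensional ℂ E] {r : ℕ}
  {X : Type} [TopologicalSpace X] [ChartedSpace E X] [IsManifold 𝓘(ℂ, E) ω X] [T2Space X]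
  {A : TorusAction E r X} {U : Set X}

/-- The version of `exists_not_fixed` without cocompactness. -/
theorem exists_not_fixed' {S : Finset (Fin r)} (hinv : ∀ a, InT a → ∀ x ∈ U, A.act a x ∈ U)
    (hp : ∀ C ⊆ U, IsCompact C → ∃ R : ℝ, ∀ a, InTS S a → ∀ x ∈ C, A.act a x ∈ C →
      ∀ c, ‖a c‖ ≤ R ∧ ‖(a c)⁻¹‖ ≤ R) (hd : Dense U) {i₀ : Fin r}
    (hi₀ : i₀ ∉ S) (hfin : ∃ x0, {a : Fin r → ℂ | InT a ∧ A.act a x0 = x0}.Finite) :
    ∃ x ∈ U, ∃ a, InTS {i₀} a ∧ ∀ b, InTS S b → A.act a x ≠ A.act b x := by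
  by_contra hcon
  push Not at hcon
  have key : ∀ x ∈ U, ∃ v : Fin r → ℂ, ‖v‖ = 1 ∧
      ∀ s : ℝ, A.act (fun c => Complex.exp (s * v c)) x = x := by
    intro x hx
    apply exists_one_param
    intro ε hε
    -- the elements `a_n`
    set t : ℕ → ℝ := fun n => 1 + 1 / ((n : ℝ) + 1) with ht
    have htp : ∀ n, 0 < t n := fun n => by
      have : (0 : ℝ) < 1 / ((n : ℝ) + 1) := by positivity
      simp only [ht]
      linarith
    have htI : ∀ n, t n ∈ Icc (1 : ℝ) 2 := fun n => by
      have h1 : (0 : ℝ) < 1 / ((n : ℝ) + 1) := by positivity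
      have h2 : 1 / ((n : ℝ) + 1) ≤ 1 := by
        rw [div_le_one (by positivity)]
        linarith [(Nat.cast_nonneg n : (0 : ℝ) ≤ n)]
      simp only [ht]
      exact ⟨by linarith, by linarith⟩
    have htinj : Function.Injective t := by
      intro n m hnm
      simp only [ht] at hnm
      have e4 : (1 / ((n : ℝ) + 1) : ℝ) = 1 / ((m : ℝ) + 1) := by linarith
      have e5 : ((n : ℝ) + 1) = (m : ℝ) + 1 := by
        have := congrArg (fun z : ℝ => z⁻¹) e4
        simpa using this
      exact_mod_cast add_right_cancel e5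
    have htl : Tendsto t atTop (𝓝 1) := by
      have := (tendsto_one_div_add_atTop_nhds_zero_nat (𝕜 := ℝ)).const_add 1
      simpa [ht] using this
    let q : ℝ → Fin r → ℂ := fun z => Function.update 1 i₀ (z : ℂ)
    have hqT : ∀ z : ℝ, 0 < z → InTS {i₀} (q z) := by
      intro z hz
      refine ⟨fun c => ?_, fun c hc => ?_⟩
      · by_cases hc : c = i₀
        · subst hc
          simp only [q, Function.update_self]
          exact_mod_cast hz.ne'
        · simp only [q, Function.update_of_ne hc]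
          exact one_ne_zero
      · rw [Finset.mem_singleton] at hc
        simp only [q, Function.update_of_ne hc, Pi.one_apply]
    have hqc : Continuous q := by
      refine continuous_pi fun c => ?_
      by_cases hc : c = i₀
      · subst hc
        simp only [q, Function.update_self]
        exact Complex.continuous_ofReal
      · simp only [q, Function.update_of_ne hc]
        exact continuous_const
    choose b hb hab using fun n => hcon x hx (q (t n)) (hqT _ (htp n))
    -- the compact set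
    have hC1 : IsCompact ((fun z : ℝ => A.act (q z) x) '' Icc 1 2) := by
      apply isCompact_Icc.image_of_continuousOn
      intro z hz
      apply ContinuousAt.continuousWithinAt
      have hz0 : 0 < z := lt_of_lt_of_le one_pos hz.1
      exact ContinuousAt.comp (g := fun v : (Fin r → ℂ) × X => A.act v.1 v.2)
        (f := fun z : ℝ => (q z, x)) (freed_cont A (hqT z hz0).1 x)
        ((hqc.prodMk continuous_const).continuousAt)
    have hC2 : ((fun z : ℝ => A.act (q z) x) '' Icc 1 2) ⊆ U := by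
      rintro _ ⟨z, hz, rfl⟩
      exact hinv _ (hqT z (lt_of_lt_of_le one_pos hz.1)).1 x hx
    have hxC : x ∈ ((fun z : ℝ => A.act (q z) x) '' Icc 1 2) := by
      refine ⟨1, ⟨le_refl _, one_le_two⟩, ?_⟩
      have : q 1 = 1 := by
        simp only [q, Complex.ofReal_one]
        exact Function.update_eq_self i₀ 1
      simp only [this, A.one]
    obtain ⟨R, hR⟩ := hp _ hC2 hC1
    have hbR : ∀ n c, ‖b n c‖ ≤ R ∧ ‖(b n c)⁻¹‖ ≤ R := fun n c => by
      refine hR (b n) (hb n) x hxC ?_ c
      rw [← hab n]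
      exact ⟨t n, htI n, rfl⟩
    -- a convergent subsequence of the inverses
    let d : ℕ → Fin r → ℂ := fun n => (b n)⁻¹
    obtain ⟨d0, hd0, φ, hφ, hlim⟩ := (isCompact_univ_pi
      (fun _ : Fin r => isCompact_closedBall (0 : ℂ) R)).tendsto_subseq (x := d) (by
        intro n c _
        rw [mem_closedBall_zero_iff]
        exact (hbR n c).2)
    have hd0T : InT d0 := by
      intro c h0
      have e1 : Tendsto (fun n => ‖d (φ n) c‖) atTop (𝓝 ‖d0 c‖) :=
        (((continuous_apply c).tendsto _).comp hlim).norm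
      rw [h0, norm_zero] at e1
      have hRpos : 0 < R := by
        have := (hbR 0 c).1
        exact lt_of_lt_of_le (norm_pos_iff.2 ((hb 0).1 c)) this
      have e2 : ∀ n, R⁻¹ ≤ ‖d (φ n) c‖ := by
        intro n
        simp only [d, Pi.inv_apply, norm_inv]
        exact inv_anti₀ (norm_pos_iff.2 ((hb _).1 c)) (hbR _ c).1
      have e3 := ge_of_tendsto e1 (Eventually.of_forall e2)
      exact absurd e3 (not_le.2 (inv_pos.2 hRpos))
    -- the elements `h_n`
    let g : ℕ → Fin r → ℂ := fun n => d (φ n) * q (t (φ n))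
    have hgT : ∀ n, InT (g n) := fun n => (hb (φ n)).1.inv.mul (hqT _ (htp _)).1
    have hgx : ∀ n, A.act (g n) x = x := by
      intro n
      simp only [g, d]
      rw [A.mul _ _ (hb (φ n)).1.inv (hqT _ (htp _)).1, hab (φ n), act_inv_act A (hb (φ n)).1]
    have hgl : Tendsto g atTop (𝓝 d0) := by
      have e1 : Tendsto (fun n => q (t (φ n))) atTop (𝓝 (q 1)) :=
        (hqc.tendsto 1).comp (htl.comp hφ.tendsto_atTop)
      have e2 : q 1 = 1 := by
        simp only [q, Complex.ofReal_one]
        exact Function.update_eq_self i₀ 1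
      rw [e2] at e1
      have := hlim.mul e1
      simpa [g, Function.comp_def] using this
    have hgi : ∀ n, g n i₀ = (t (φ n) : ℂ) := by
      intro n
      simp only [g, d, Pi.mul_apply, Pi.inv_apply, q, Function.update_self]
      rw [(hb (φ n)).2 i₀ hi₀]
      simp
    -- quotients
    have hql : Tendsto (fun n => (g n)⁻¹ * g (n + 1)) atTop (𝓝 1) := by
      rw [tendsto_pi_nhds]
      intro c
      have e1 : Tendsto (fun n => g n c) atTop (𝓝 (d0 c)) :=
        ((continuous_apply c).tendsto _).comp hgl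
      have e2 := (e1.inv₀ (hd0T c)).mul (e1.comp (tendsto_add_atTop_nat 1))
      rw [inv_mul_cancel₀ (hd0T c)] at e2
      simpa [Function.comp_def] using e2
    have hev : ∀ᶠ n in atTop, ∀ c, ‖((g n)⁻¹ * g (n + 1)) c - 1‖ < ε := by
      rw [eventually_all]
      intro c
      have e1 : Tendsto (fun n => ((g n)⁻¹ * g (n + 1)) c) atTop (𝓝 1) :=
        ((continuous_apply c).tendsto _).comp hql
      have e2 := (tendsto_iff_norm_sub_tendsto_zero.1 e1).eventually (gt_mem_nhds hε)
      exact e2
    obtain ⟨n, hn⟩ := hev.exists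
    refine ⟨(g n)⁻¹ * g (n + 1), (hgT n).inv.mul (hgT _), ?_, hn, ?_⟩
    · intro h1
      have e1 := congrFun h1 i₀
      simp only [Pi.mul_apply, Pi.inv_apply, Pi.one_apply] at e1
      have e2 : g n i₀ = g (n + 1) i₀ := by
        have h0 := (hgT n) i₀
        field_simp at e1
        exact e1.symm
      rw [hgi, hgi] at e2
      have e3 : t (φ n) = t (φ (n + 1)) := by exact_mod_cast e2
      have e4 := hφ.injective (htinj e3)
      omega
    · rw [A.mul _ _ (hgT n).inv (hgT _), hgx]
      conv_lhs => rw [← hgx n]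
      exact act_inv_act A (hgT n) x
  -- the limit
  obtain ⟨x0, hx0⟩ := hfin
  let Sp := Metric.sphere (0 : Fin r → ℂ) 1
  have : CompactSpace Sp := isCompact_iff_compactSpace.1 (isCompact_sphere _ _)
  let Z : Set (X × Sp) := ⋂ s : ℝ, {p | A.act (fun c => Complex.exp (s * (p.2 : Fin r → ℂ) c)) p.1
    = p.1}
  have hZ : IsClosed Z := by
    apply isClosed_iInter
    intro s
    have hcont : Continuous (fun p : X × Sp => (fun c => (s : ℂ) * (p.2 : Fin r → ℂ) c :
        Fin r → ℂ)) := by
      refine continuous_pi fun c => ?_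
      exact continuous_const.mul ((continuous_apply c).comp
        (continuous_subtype_val.comp continuous_snd))
    exact isClosed_eq (freed_cexp A hcont continuous_fst) continuous_fst
  have hI : IsClosed (Prod.fst '' Z) := isClosedMap_fst_of_compactSpace Z hZ
  have hUI : U ⊆ Prod.fst '' Z := by
    intro x hx
    obtain ⟨v, hv, hs⟩ := key x hx
    refine ⟨(x, ⟨v, by simpa [Sp] using hv⟩), ?_, rfl⟩
    exact Set.mem_iInter.2 fun s => hs s
  have hall : x0 ∈ Prod.fst '' Z := hI.closure_subset_iff.2 hUI (hd x0)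
  obtain ⟨⟨y, v⟩, hy, hyx⟩ := hall
  have hyx' : y = x0 := hyx
  subst hyx'
  refine freed_infinite (A := A) (x := y) (v := v) ?_ ?_ hx0
  · simpa [Sp] using v.2
  · intro s
    exact Set.mem_iInter.1 hy s

end smooth

variable {E : Type} [NormedAddCommGroup E] [NormedSpace ℂ E] [FiniteDimensional ℂ E] {r : ℕ}
  {X₀ X : Type} [TopologicalSpace X₀] [ChartedSpace E X₀] [IsManifold 𝓘(ℂ, E) ω X₀]
  [TopologicalSpace X] [T2Space X] {N : NSp E X₀ X} {U : Set X}
  {A : NAct r N} {S : Finset (Fin r)}

/-- If some point of `X` has a finite stabiliser then no factor of the torus acts trivially on the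
quotient of a dense open set. -/
theorem exists_moving (hG : NGood A S U) (hd : Dense U) {i : Fin r} (hi : i ∉ S)
    (hst : ∃ y : X₀, {a : Fin r → ℂ | InT a ∧ A.reg.act a y = y}.Finite) :
    ¬ ∀ x ∈ U, ∀ a, InTS {i} a → ∃ b, InTS S b ∧ A.act b x = A.act a x := by
  intro h
  haveI : T2Space X₀ := N.emb.toIsEmbedding.t2Space
  have hinv : ∀ a, InT a → ∀ y ∈ N.inc ⁻¹' U, A.reg.act a y ∈ N.inc ⁻¹' U := by
    intro a ha y hy
    show N.inc (A.reg.act a y) ∈ U
    rw [← A.inc a ha y]
    exact hG.inv a ha _ hy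
  have hp : ∀ C ⊆ N.inc ⁻¹' U, IsCompact C → ∃ R : ℝ, ∀ a, InTS S a → ∀ x ∈ C,
      A.reg.act a x ∈ C → ∀ c, ‖a c‖ ≤ R ∧ ‖(a c)⁻¹‖ ≤ R := by
    intro C hC hCc
    obtain ⟨R, hR⟩ := hG.proper (N.inc '' C) (by
      rintro _ ⟨y, hy, rfl⟩
      exact hC hy) (hCc.image N.emb.continuous)
    refine ⟨R, fun a ha x hx hax => hR a ha (N.inc x) ⟨x, hx, rfl⟩ ?_⟩
    rw [A.inc a ha.1 x]
    exact ⟨_, hax, rfl⟩
  have hd' : Dense (N.inc ⁻¹' U) := hd.preimage N.emb.isOpenMap
  obtain ⟨x, hx, a, ha, hb⟩ := exists_not_fixed' hinv hp hd' hi hst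
  obtain ⟨b, hb1, hb2⟩ := h (N.inc x) hx a ha
  rw [A.inc b hb1.1 x, A.inc a ha.1 x] at hb2
  exact hb b hb1 (N.emb.injective hb2).symm

end Pool.Agent.Abn
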