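import Pool.Agent.H.MP_e23cd6_ag.NT.Ext
import Pool.Agent.H.MP_e23cd6_ag.GT.ConnT
import Pool.Agent.H.MP_e23cd6_ag.GT.ExtR

/-! The zero loci of sections over the normal space `X`: density and connectedness of the
complement, extension of bounded sections. -/

set_option autoImplicit false

open scoped Manifold ContDiff Topology ENNReal
open MeasureTheory Set Filter

namespace Pool.Agent.Abn

open Pool.Agent.Abd

variable {E : Type} [NormedAddCommGroup E] [NormedSpace ℂ E] {r : ℕ}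
  {X₀ X : Type} [TopologicalSpace X₀] [ChartedSpace E X₀] [IsManifold 𝓘(ℂ, E) ω X₀]
  [TopologicalSpace X]
  {N : NSp E X₀ X} {L P : NLine N} {K J K' J' : ℕ} {U V : Set X}

omit [IsManifold 𝓘(ℂ, E) ω X₀] in
theorem nnz_eventually (hU : IsOpen U) (s : NSec L P K J U) {x : X} (hx : x ∈ U) (hs : s.NZ x) :
    ∀ᶠ y in 𝓝 x, y ∈ U ∧ s.NZ y := by
  obtain ⟨i, j, hAt⟩ := exists_nat L P x
  have h0 := (s.nz_iff hx hAt).1 hs
  have h1 : ContinuousAt (s.f i j) x := Hol_continuousAt (s.hol' hx hAt)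
  filter_upwards [hU.mem_nhds hx, hAt.eventually, h1.eventually_ne h0] with y h2 h3 h4
  exact ⟨h2, (s.nz_iff h2 h3).2 h4⟩

omit [IsManifold 𝓘(ℂ, E) ω X₀] in
/-- The nonzero locus of a section is open. -/
theorem nnz_isOpen (hU : IsOpen U) (s : NSec L P K J U) : IsOpen {x | x ∈ U ∧ s.NZ x} := by
  rw [isOpen_iff_mem_nhds]
  rintro x ⟨hx, hs⟩
  exact nnz_eventually hU s hx hs

/-- A section which does not vanish at a point does not vanish at a regular point. -/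
theorem nnz_reg (hU : IsOpen U) (s : NSec L P K J U) {x : X} (hx : x ∈ U) (hs : s.NZ x) :
    ∃ y ∈ N.inc ⁻¹' U, s.reg.NZ y := by
  obtain ⟨y, hy⟩ := exists_reg N (nnz_isOpen hU s) ⟨x, hx, hs⟩
  exact ⟨y, hy.1, (NSec.nz_reg s).2 hy.2⟩

/-- Identity theorem: on a connected open set the points where a nonzero section does not vanish
are dense. -/
theorem exists_nz (hUo : IsOpen U) (hUc : IsConnected U) (s : NSec L P K J U) {x₀ : X}
    (hx₀ : x₀ ∈ U) (hs : s.NZ x₀) {V : Set X} (hV : IsOpen V) (hVU : V ⊆ U) (hVn : V.Nonempty) :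
    ∃ y ∈ V, s.NZ y := by
  obtain ⟨y, hy, hsy⟩ := nnz_reg hUo s hx₀ hs
  obtain ⟨y', hy'⟩ := exists_reg N hV hVn
  obtain ⟨z, hz, hz2⟩ := nz_dense (hUo.preimage N.emb.continuous)
    (N.conn U hUo hUc).isPreconnected s.reg ⟨y, hy, hsy⟩ (hV.preimage N.emb.continuous)
    (fun z hz => hVU hz) ⟨y', hy'⟩
  exact ⟨N.inc z, hz, (NSec.nz_reg s).1 hz2⟩

/-- The complement of a thin set in a connected open set is connected. -/
theorem isConnected_of_thin (hUo : IsOpen U) (hUc : IsConnected U) {V : Set X} (hVU : V ⊆ U)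
    (v : NSec L P K J U) {x₀ : X} (hx₀ : x₀ ∈ U) (hv : v.NZ x₀)
    (hVv : ∀ x ∈ U, v.NZ x → x ∈ V) : IsConnected V := by
  obtain ⟨y, hy, hsy⟩ := nnz_reg hUo v hx₀ hv
  have h1 : IsConnected {y | N.inc y ∈ U ∧ v.reg.NZ y} :=
    conn_of_nz (hUo.preimage N.emb.continuous) (N.conn U hUo hUc) v.reg ⟨y, hy, hsy⟩
      (fun z hz => hz.1) (fun z hz hz2 => ⟨hz, hz2⟩)
  have h2 : IsConnected (N.inc '' {y | N.inc y ∈ U ∧ v.reg.NZ y}) :=
    h1.image _ N.emb.continuous.continuousOn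
  refine h2.subset_closure ?_ ?_
  · rintro _ ⟨z, hz, rfl⟩
    exact hVv _ hz.1 ((NSec.nz_reg v).1 hz.2)
  · intro x hx
    rw [mem_closure_iff]
    intro W hW hxW
    obtain ⟨z, hz, hz2⟩ := exists_nz hUo hUc v hx₀ hv (hW.inter hUo) inter_subset_right
      ⟨x, hxW, hVU hx⟩
    obtain ⟨y', hy'⟩ := exists_reg N ((nnz_isOpen hUo v).inter hW) ⟨z, ⟨hz.2, hz2⟩, hz.1⟩
    exact ⟨N.inc y', hy'.2, y', ⟨hy'.1.1, (NSec.nz_reg v).2 hy'.1.2⟩, rfl⟩

section extension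

variable [FiniteDimensional ℂ E] {A : NAct r N} {ΛL : NLin A L} {ΛP : NLin A P}
  {S : Finset (Fin r)} {χ : Fin r → ℤ}

/-- Extension of locally bounded sections across a thin set. -/
theorem nextend (hU : IsOpen U) (hc : IsConnected U) {V : Set X} (hV : IsOpen V) (hVU : V ⊆ U)
    (v : NSec L P K' J' U) {x₀ : X} (hx₀ : x₀ ∈ U) (hv : v.NZ x₀)
    (hVv : ∀ x ∈ U, v.NZ x → x ∈ V) (hVinv : ∀ a, InTS S a → ∀ x ∈ V, A.act a x ∈ V)
    (s : NSec L P K J V) (hs : NOfWt ΛL ΛP S χ s)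
    (hb : ∀ x ∈ U, ∀ i j, NAt L P i j x → ∃ W ∈ 𝓝 x, ∃ C : ℝ, ∀ y ∈ W, y ∈ V →
      ‖s.f i j y‖ ≤ C) :
    ∃ t : NSec L P K J U, NOfWt ΛL ΛP S χ t ∧
      ∀ i j x, x ∈ V → NAt L P i j x → t.f i j x = s.f i j x := by
  obtain ⟨y, hy, hsy⟩ := nnz_reg hU v hx₀ hv
  obtain ⟨F, hF1, hF2⟩ := extend_sec ΛL.reg ΛP.reg (hU.preimage N.emb.continuous)
    (N.conn U hU hc).isPreconnected (hV.preimage N.emb.continuous) (fun z hz => hVU hz) v.reg
    ⟨y, hy, hsy⟩ (fun z hz hz2 => hVv _ hz ((NSec.nz_reg v).1 hz2)) s.reg (by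
      intro y0 hy0 i j φ hat
      obtain ⟨W, hW, C, hC⟩ := hb (N.inc y0) hy0 i j (NAt.of_reg hat)
      exact ⟨N.inc ⁻¹' W, N.emb.continuous.continuousAt.preimage_mem_nhds hW, C,
        fun y hy hyV => hC _ hy hyV⟩)
  have hw : OfWt ΛL.reg ΛP.reg S χ F := hF2 S χ (fun a ha z hz => by
    have h1 := hVinv a ha _ hz
    rw [A.inc a ha.1 z] at h1
    exact h1) hs.reg
  obtain ⟨t, ht, ht2⟩ := exists_ofReg_wt hU F hw
  refine ⟨t, ht, ?_⟩
  intro i j x hx hat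
  have h1 := NSec.ext_reg (t.res hVU) s hV (fun i j y hy hat' => by
    have h2 := ht2 i j (chartAt E y) y (hVU hy) hat'.reg
    show t.f i j (N.inc y) = s.f i j (N.inc y)
    rw [h2]
    exact hF1 i j _ y hy hat'.reg) hx hat
  exact h1

end extension

end Pool.Agent.Abn
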