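import Pool.Agent.H.MP_e23cd6_ag.NT.MetG
import Pool.Agent.H.MP_e23cd6_ag.NT.DefsG
import Pool.Agent.H.MP_e23cd6_ag.NT.Comp
import Pool.Agent.H.MP_e23cd6_ag.NT.Thin
import Pool.Agent.H.MP_e23cd6_ag.NT.FreeD

/-! MP_e23cd6_ag, torus actions on normal complex spaces: extension of bounded sections. -/

set_option autoImplicit false

open scoped Manifold ContDiff Topology ENNReal
open MeasureTheory Set Filter

namespace Pool.Agent.Abn

open Pool.Agent.Abd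

variable {E : Type} [NormedAddCommGroup E] [NormedSpace ℂ E] [FiniteDimensional ℂ E] {r : ℕ}
  {X₀ X : Type} [TopologicalSpace X₀] [ChartedSpace E X₀] [IsManifold 𝓘(ℂ, E) ω X₀]
  [TopologicalSpace X] [T2Space X] {Y : NSp E X₀ X}
  {L P : NLine Y} {A : NAct r Y}
  {ΛL : NLin A L} {ΛP : NLin A P} {S : Finset (Fin r)} {U : Set X}
  {K J K' J' k m : ℕ} {χ χ' : Fin r → ℤ}

/-- Extension of bounded sections of a given weight across a thin set. -/
theorem exists_extension (hG : NGood A S U) {V : Set X} (hVU : V ⊆ U) (hV : IsOpen V)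
    (hVinv : ∀ a, InTS S a → ∀ x ∈ V, A.act a x ∈ V) (v : NSec L P K' J' U) {x₀ : X}
    (hx₀ : x₀ ∈ U) (hv : v.NZ x₀) (hVv : ∀ x ∈ U, v.NZ x → x ∈ V) (h : NMet ΛL ΛP S U K J χ)
    (s : NSec L P K J V) (hs : NOfWt ΛL ΛP S χ s) {C : ℝ} (hC : ∀ x ∈ V, h.num s x ≤ C) :
    ∃ t : NSec L P K J U, NOfWt ΛL ΛP S χ t ∧
      ∀ i j x, x ∈ V → NAt L P i j x → t.f i j x = s.f i j x := by
  refine nextend hG.isOpen hG.conn hV hVU v hx₀ hv hVv hVinv s hs ?_
  intro x0 hx0 i j hat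
  have hp := h.pos i j x0 hx0 hat.memL hat.memP
  have hc := h.cont i j x0 hx0 hat.memL hat.memP
  have h3 : ∀ᶠ x in 𝓝 x0, h.h i j x0 / 2 < h.h i j x :=
    hc.eventually (lt_mem_nhds (by linarith))
  have h4 : ∀ᶠ x in 𝓝 x0, NAt L P i j x := hat.eventually
  refine ⟨_, h3.and h4, C / (h.h i j x0 / 2), ?_⟩
  intro x hx hxV
  have h5 : h.h i j x0 / 2 < h.h i j x := hx.1
  have h6 := h.num_eq hVU s hxV hx.2
  have h7 := hC x hxV
  rw [h6] at h7
  rw [le_div_iff₀ (by linarith)]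
  calc ‖s.f i j x‖ * (h.h i j x0 / 2) ≤ ‖s.f i j x‖ * h.h i j x :=
        mul_le_mul_of_nonneg_left h5.le (norm_nonneg _)
    _ ≤ C := h7

end Pool.Agent.Abn
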