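import Pool.Agent.H.MP_e23cd6_ag.NT.LvlG
import Pool.Agent.H.MP_e23cd6_ag.NT.Iface

/-! MP_e23cd6_ag, torus actions: weight sections over `X` and limits of one-parameter subgroups. -/

set_option autoImplicit false

open scoped Manifold ContDiff Topology ENNReal
open MeasureTheory Set Filter

namespace Pool.Agent.Abn

open Pool.Agent.Abd

variable {E : Type} [NormedAddCommGroup E] [NormedSpace ℂ E] [FiniteDimensional ℂ E] {r : ℕ}
  {X₀ X : Type} [TopologicalSpace X₀] [ChartedSpace E X₀] [IsManifold 𝓘(ℂ, E) ω X₀]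
  [TopologicalSpace X] [T2Space X] {Y : NSp E X₀ X}
  {L P : NLine Y} {A : NAct r Y}
  {ΛL : NLin A L} {ΛP : NLin A P} {S : Finset (Fin r)} {U : Set X}
  {K J m : ℕ} [CompactSpace X] [ConnectedSpace X]

/-- For `S = ∅` the weight condition is void. PROOF. `InTS ∅ a` means `a = 1`; `A.one`, `ΛL.one`,
`ΛP.one`, `chr χ 1 = 1`, `A.jac 1 x = jac x` (`A.act 1 = id`, unfold), and `s.trans`. -/
theorem ofWt_empty (s : NSec L P K J U) (χ : Fin r → ℤ) : NOfWt ΛL ΛP ∅ χ s := by
  intro a ha i j i' j' x hx hax h1 h2 h3 h4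
  have e : a = 1 := funext fun c => ha.2 c (Finset.notMem_empty c)
  subst e
  have e2 : A.act 1 x = x := A.one x
  rw [e2] at h1 h2
  have hchr : chr χ (1 : Fin r → ℂ) = 1 := by simp [chr]
  rw [hchr, one_mul, e2, ΛL.one i i' x h1 h3, ΛP.one j j' x h2 h4]
  exact s.trans i j i' j' x hx h1 h2 h3 h4

/-- PROOF. By induction on `S` there is a section of `T_S`-weight for some `χ` which does not vanish at
`x`: start with `ofWt_empty`; for `insert i S`, `i ∉ S`, use `gt_components_univ` and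
`Finset.exists_ne_zero_of_sum_ne_zero` (frames at `x`: `exists_nat`, `nz_iff`). -/
theorem exists_full_weight (ΛL : NLin A L) (ΛP : NLin A P)
    (s : NSec L P K J univ) {x : X} (h : s.NZ x) :
    ∃ (χ : Fin r → ℤ) (t : NSec L P K J univ), NOfWt ΛL ΛP Finset.univ χ t ∧ t.NZ x := by
  classical
  have key : ∀ S : Finset (Fin r), ∃ (χ : Fin r → ℤ) (t : NSec L P K J univ),
      NOfWt ΛL ΛP S χ t ∧ t.NZ x := by
    intro S
    induction S using Finset.induction_on with
    | empty => exact ⟨0, s, ofWt_empty s 0, h⟩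
    | insert i S hi ih =>
      obtain ⟨χ, t, ht, hn⟩ := ih
      obtain ⟨T, t', ht', hsum⟩ := gt_components_univ hi t ht
      obtain ⟨i₁, j, hat⟩ := exists_nat L P x
      have h0 := (t.nz_iff (mem_univ x) hat).1 hn
      rw [hsum i₁ j x hat] at h0
      obtain ⟨c, _, hne⟩ := Finset.exists_ne_zero_of_sum_ne_zero h0
      exact ⟨_, t' c, ht' c, ((t' c).nz_iff (mem_univ x) hat).2 hne⟩
  exact key Finset.univ

/-- PROOF. `exists_full_weight` at each point and compactness of `X` (`NSec.nz_open`). -/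
theorem exists_full_family (ΛL : NLin A L) (ΛP : NLin A P)
    (h : ∀ x : X, ∃ s : NSec L P K J univ, s.NZ x) :
    ∃ (n : ℕ) (w : Fin n → Fin r → ℤ) (t : Fin n → NSec L P K J univ),
      (∀ b, NOfWt ΛL ΛP Finset.univ (w b) (t b)) ∧ ∀ x, ∃ b, (t b).NZ x := by
  classical
  have h' : ∀ x : X, ∃ (χ : Fin r → ℤ) (t : NSec L P K J univ),
      NOfWt ΛL ΛP Finset.univ χ t ∧ t.NZ x := by
    intro x
    obtain ⟨s, hs⟩ := h x
    exact exists_full_weight ΛL ΛP s hs
  choose χ t ht using h'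
  obtain ⟨T, -, hT⟩ := (isCompact_univ (X := X)).elim_nhds_subcover
    (fun x => {y | y ∈ univ ∧ (t x).NZ y})
    (fun x _ => (t x).nz_open isOpen_univ (mem_univ x) (ht x).2)
  refine ⟨T.card, fun b => χ (T.equivFin.symm b), fun b => t (T.equivFin.symm b),
    fun b => (ht _).1, fun x => ?_⟩
  have h1 := hT (mem_univ x)
  rw [mem_iUnion₂] at h1
  obtain ⟨y, hy, h2⟩ := h1
  refine ⟨T.equivFin ⟨y, hy⟩, ?_⟩
  beta_reduce
  rw [Equiv.symm_apply_apply]
  exact h2.2

end Pool.Agent.Abn
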