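import Pool.Agent.H.MP_e23cd6_ag.GT.DefsG

/-! MP_e23cd6_ag (abundance conjecture), torus actions on normal complex spaces: the definitions. A
normal complex space `X` is described by its regular part, an open dense subset of `X` which is a
complex manifold `X₀`. -/

set_option autoImplicit false

open scoped Manifold ContDiff Topology ENNReal
open MeasureTheory Set Filter

namespace Pool.Agent.Abn

open Pool.Agent.Abd

/-- `X` is a normal complex space with the regular part `X₀` (or any open subset of the regular part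
whose complement in `X` has codimension at least two): the complex manifold `X₀` is an open dense
subset of `X` (embedded by `inc`), connected open subsets of `X` have connected intersection with
`X₀`, and holomorphic functions on the intersection with `X₀` of an open subset `V` of `X` extend to
continuous functions on `V`. -/
structure NSp (E X₀ X : Type) [NormedAddCommGroup E] [NormedSpace ℂ E] [TopologicalSpace X₀]
    [ChartedSpace E X₀] [TopologicalSpace X] where
  inc : X₀ → X
  emb : Topology.IsOpenEmbedding inc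
  dense : DenseRange inc
  conn : ∀ V : Set X, IsOpen V → IsConnected V → IsConnected (inc ⁻¹' V)
  ext : ∀ V : Set X, IsOpen V → ∀ g : X₀ → ℂ, (∀ y, inc y ∈ V → HolAt E g y) →
    ∃ f : X → ℂ, ContinuousOn f V ∧ ∀ y, inc y ∈ V → f (inc y) = g y

variable {E : Type} [NormedAddCommGroup E] [NormedSpace ℂ E] {r : ℕ}
  {X₀ X : Type} [TopologicalSpace X₀] [ChartedSpace E X₀] [TopologicalSpace X]

/-- The function `f` is holomorphic near the point `x` of the normal complex space `X`: continuous
near `x`, and holomorphic at the regular points near `x`. -/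
def NSp.Hol (N : NSp E X₀ X) (f : X → ℂ) (x : X) : Prop :=
  ∃ V : Set X, IsOpen V ∧ x ∈ V ∧ ContinuousOn f V ∧
    ∀ y, N.inc y ∈ V → HolAt E (fun y => f (N.inc y)) y

/-- A holomorphic line bundle on the normal complex space `X`, given by transition functions. -/
structure NLine (N : NSp E X₀ X) where
  ι : Type
  U : ι → Set X
  isOpen : ∀ i, IsOpen (U i)
  cover : ∀ x, ∃ i, x ∈ U i
  g : ι → ι → X → ℂ
  hol : ∀ i j x, x ∈ U i → x ∈ U j → N.Hol (g i j) x
  one : ∀ i x, x ∈ U i → g i i x = 1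
  mul : ∀ i j l x, x ∈ U i → x ∈ U j → x ∈ U l → g i j x * g j l x = g i l x

/-- A holomorphic action of the torus `(ℂ^*)^r` on the normal complex space `X` (it preserves the
regular part). -/
structure NAct (r : ℕ) (N : NSp E X₀ X) where
  act : (Fin r → ℂ) → X → X
  reg : TorusAction E r X₀
  inc : ∀ a, InT a → ∀ y, act a (N.inc y) = N.inc (reg.act a y)
  one : ∀ x, act 1 x = x
  mul : ∀ a b, InT a → InT b → ∀ x, act (a * b) x = act a (act b x)
  cont : ∀ a, InT a → ∀ x, ContinuousAt (fun v : (Fin r → ℂ) × X => act v.1 v.2) (a, x)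

/-- A linearisation of the line bundle `B`: a lift of the torus action to `B`. -/
structure NLin {N : NSp E X₀ X} (A : NAct r N) (B : NLine N) where
  lam : B.ι → B.ι → (Fin r → ℂ) → X → ℂ
  cont : ∀ i j a x, InT a → x ∈ B.U j → A.act a x ∈ B.U i →
    ContinuousAt (fun v : (Fin r → ℂ) × X => lam i j v.1 v.2) (a, x)
  hol : ∀ i j a y, InT a → N.inc y ∈ B.U j → A.act a (N.inc y) ∈ B.U i →
    ContMDiffAt (𝓘(ℂ, Fin r → ℂ).prod 𝓘(ℂ, E)) 𝓘(ℂ) ω
      (fun v : (Fin r → ℂ) × X₀ => lam i j v.1 (N.inc v.2)) (a, y)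
  one : ∀ i j x, x ∈ B.U i → x ∈ B.U j → lam i j 1 x = B.g i j x
  mul : ∀ i j l a b x, InT a → InT b → x ∈ B.U l → A.act b x ∈ B.U j → A.act (a * b) x ∈ B.U i →
    lam i j a (A.act b x) * lam j l b x = lam i l (a * b) x

/-- The restriction of the line bundle to the regular part. -/
def NLine.reg {N : NSp E X₀ X} (B : NLine N) : LineBundle E X₀ where
  ι := B.ι
  U := fun i => N.inc ⁻¹' B.U i
  isOpen := fun i => (B.isOpen i).preimage N.emb.continuous
  cover := fun y => B.cover (N.inc y)
  g := fun i j y => B.g i j (N.inc y)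
  hol := fun i j y hi hj => by
    obtain ⟨V, -, h2, -, h4⟩ := B.hol i j (N.inc y) hi hj
    exact h4 y h2
  one := fun i y hy => B.one i (N.inc y) hy
  mul := fun i j l y h1 h2 h3 => B.mul i j l (N.inc y) h1 h2 h3

/-- The linearisation of the restriction of the line bundle to the regular part. -/
def NLin.reg {N : NSp E X₀ X} {A : NAct r N} {B : NLine N} (Λ : NLin A B) :
    Linearization A.reg B.reg where
  lam := fun i j a y => Λ.lam i j a (N.inc y)
  hol := fun i j a y ha hj hi => Λ.hol i j a y ha hj (by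
    have hi' : N.inc (A.reg.act a y) ∈ B.U i := hi
    rw [A.inc a ha y]
    exact hi')
  one := fun i j y hi hj => Λ.one i j (N.inc y) hi hj
  mul := fun i j l a b y ha hb hl hj hi => by
    have hab : InT (a * b) := fun c => mul_ne_zero (ha c) (hb c)
    have h1 : A.act b (N.inc y) = N.inc (A.reg.act b y) := A.inc b hb y
    have h2 : A.act (a * b) (N.inc y) = N.inc (A.reg.act (a * b) y) := A.inc _ hab y
    have hj' : A.act b (N.inc y) ∈ B.U j := by rw [h1]; exact hj
    have hi' : A.act (a * b) (N.inc y) ∈ B.U i := by rw [h2]; exact hi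
    have := Λ.mul i j l a b (N.inc y) ha hb hl hj' hi'
    rw [h1] at this
    exact this

/-- A holomorphic section of `L ^ K ⊗ P ^ J` over the open subset `U` of the normal complex
space `X`. -/
structure NSec {N : NSp E X₀ X} (L P : NLine N) (K J : ℕ) (U : Set X) where
  f : L.ι → P.ι → X → ℂ
  hol : ∀ i j, ∀ x ∈ U, x ∈ L.U i → x ∈ P.U j → N.Hol (f i j) x
  trans : ∀ i j i' j', ∀ x ∈ U, x ∈ L.U i → x ∈ P.U j → x ∈ L.U i' → x ∈ P.U j' →
    f i j x = L.g i i' x ^ K * P.g j j' x ^ J * f i' j' x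

variable {N : NSp E X₀ X} {L P : NLine N} {K J m : ℕ} {U : Set X}

/-- The section `s` does not vanish at the point `x`. -/
def NSec.NZ (s : NSec L P K J U) (x : X) : Prop :=
  ∃ i j, x ∈ L.U i ∧ x ∈ P.U j ∧ s.f i j x ≠ 0

variable {A : NAct r N} (ΛL : NLin A L) (ΛP : NLin A P)

/-- The section `s` over the invariant open set `U` has `T_S`-weight `χ`: `a s = χ(a) s` for all
`a ∈ T_S`. -/
def NOfWt (S : Finset (Fin r)) (χ : Fin r → ℤ) (s : NSec L P K J U) : Prop :=
  ∀ a, InTS S a → ∀ i j i' j', ∀ x ∈ U, A.act a x ∈ U →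
    A.act a x ∈ L.U i → A.act a x ∈ P.U j → x ∈ L.U i' → x ∈ P.U j' →
    chr χ a * s.f i j (A.act a x) = ΛL.lam i i' a x ^ K * ΛP.lam j j' a x ^ J * s.f i' j' x

/-- `U / T_S` is a compact normal complex space, a geometric quotient: `U` is open, connected and
`T`-invariant, `U` is the union of the `T_S`-orbits of a compact set, and `T_S` acts properly on
`U`. -/
structure NGood (A : NAct r N) (S : Finset (Fin r)) (U : Set X) : Prop where
  isOpen : IsOpen U
  conn : IsConnected U
  inv : ∀ a, InT a → ∀ x ∈ U, A.act a x ∈ U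
  cocompact : ∃ C ⊆ U, IsCompact C ∧ ∀ x ∈ U, ∃ a, InTS S a ∧ A.act a x ∈ C
  proper : ∀ C ⊆ U, IsCompact C → ∃ R : ℝ, ∀ a, InTS S a → ∀ x ∈ C, A.act a x ∈ C →
    ∀ c, ‖a c‖ ≤ R ∧ ‖(a c)⁻¹‖ ≤ R

/-- The line bundle on `U / T_S` whose sections are the sections of `L ^ K ⊗ P ^ J` over `U` of
`T_S`-weight `χ` is semiample. -/
def NSemiQ (S : Finset (Fin r)) (U : Set X) (K J : ℕ) (χ : Fin r → ℤ) : Prop :=
  ∃ l : ℕ, 1 ≤ l ∧ ∀ x ∈ U, ∃ s : NSec L P (l * K) (l * J) U,
    NOfWt ΛL ΛP S (fun c => l * χ c) s ∧ s.NZ x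

/-- The section `s` of `L ^ K ⊗ P ^ J ⊗ K_X ^ (-m)` over the regular part of `U` defines a klt pair:
every point `x` of `U` has a neighbourhood `V` such that `|s| ^ (-2/m)`, in the frames `i`, `j` near
`x`, is integrable on the regular part of `V`, that is, the regular part of `V` is the union of
countably many measurable subsets `φ_n⁻¹ (B_n)` of the domains of charts `φ_n` such that the sum of
the integrals over the sets `B_n` is finite. -/
def NKlt [MeasureSpace E] (s : Sec2 L.reg P.reg K J m (N.inc ⁻¹' U)) : Prop :=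
  ∀ x ∈ U, ∀ i j, x ∈ L.U i → x ∈ P.U j → ∃ V ∈ 𝓝 x,
    ∃ (φ : ℕ → OpenPartialHomeomorph X₀ E) (B : ℕ → Set E),
      (∀ n, φ n ∈ Charts E X₀ ∧ MeasurableSet (B n) ∧ B n ⊆ (φ n).target) ∧
      (N.inc ⁻¹' V ⊆ ⋃ n, (φ n).symm '' B n) ∧
      ∑' n, ∫⁻ z in B n, ‖s.f i j (φ n) ((φ n).symm z)‖ₑ ^ (-(2 : ℝ) / m) < ⊤

/-- There is an effective `ℚ`-divisor `N` on `Y = U / T_S` with `(Y, N)` klt and `mq (K_Y + N)`
linearly equivalent to `kq` times the line bundle given by `L ^ K` and the weight `χ`: the pull back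
to `U` of `K_Y + N` is `K_U + (1/(mq)) div s` (so `N` contains the divisors `D_i` with the
coefficients `1 - 1/e_i`, where `e_i` is the order of the stabilisers in `T_S` along `D_i`), and
`(Y, N)` is klt if and only if `(U, (1/(mq)) div s)` is klt. -/
def NKltQ [MeasureSpace E] (S : Finset (Fin r)) (U : Set X) (K : ℕ) (χ : Fin r → ℤ)
    (k m : ℕ) : Prop :=
  ∃ q : ℕ, 1 ≤ q ∧ ∃ s : Sec2 L.reg P.reg (k * q * K) 0 (m * q) (N.inc ⁻¹' U),
    OfWt ΛL.reg ΛP.reg S (fun c => k * q * χ c) s ∧ NKlt s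

end Pool.Agent.Abn
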