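import Pool.Agent.H.MP_e23cd6_ag.NT.DefsG

/-! MP_e23cd6_ag (abundance conjecture), torus actions on normal complex spaces: semiample, ample and
nef line bundles on `X`. -/

set_option autoImplicit false

open scoped Manifold ContDiff Topology ENNReal
open MeasureTheory Set Filter

namespace Pool.Agent.Abn

open Pool.Agent.Abd

variable {E : Type} [NormedAddCommGroup E] [NormedSpace ℂ E]
  {X₀ X : Type} [TopologicalSpace X₀] [ChartedSpace E X₀] [TopologicalSpace X]
  {Y : NSp E X₀ X}

/-- The line bundle given by `L ^ K ⊗ P ^ J` on the compact normal complex space `X` is semiample: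
some power of it is generated by its sections. -/
def SemiX (L P : NLine Y) (K J : ℕ) : Prop :=
  ∃ l : ℕ, 1 ≤ l ∧ ∀ x : X, ∃ s : NSec L P (l * K) (l * J) univ, s.NZ x

/-- The line bundle `P` on the compact normal complex space `X` is ample: it is semiample and the
sections of its powers separate the points of `X`. -/
def AmpleX (L P : NLine Y) : Prop :=
  SemiX L P 0 1 ∧ ∀ x y : X, x ≠ y → ∃ l : ℕ, 1 ≤ l ∧ ∃ s : NSec L P (l * 0) (l * 1) univ,
    s.NZ x ∧ ¬ s.NZ y

/-- The line bundle `L` is nef, in terms of the ample line bundle `P`: all the line bundles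
`L ^ n ⊗ P`, `n ≥ 1`, are semiample (by Kleiman this is the same as nonnegative degree on all
curves). -/
def NefX (L P : NLine Y) : Prop := ∀ n : ℕ, 1 ≤ n → SemiX L P n 1

end Pool.Agent.Abn
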