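import Pool.Agent.H.MP_e23cd6_ag.NT.Alg

/-! Sections over the normal space `X` and over its regular part. -/

set_option autoImplicit false

open scoped Manifold ContDiff Topology ENNReal
open MeasureTheory Set Filter

namespace Pool.Agent.Abn

open Pool.Agent.Abd

variable {E : Type} [NormedAddCommGroup E] [NormedSpace ℂ E] {r : ℕ}
  {X₀ X : Type} [TopologicalSpace X₀] [ChartedSpace E X₀] [TopologicalSpace X]
  {N : NSp E X₀ X} {L P : NLine N} {K J K' J' : ℕ} {U V : Set X}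

/-- Two functions which are continuous at `x` and agree at the regular points near `x` agree at
`x`. -/
theorem eq_of_reg (N : NSp E X₀ X) {F : Type} [TopologicalSpace F] [T2Space F] {f g : X → F}
    {x : X} (hf : ContinuousAt f x) (hg : ContinuousAt g x)
    (h : ∀ᶠ z in 𝓝 x, ∀ y, N.inc y = z → f z = g z) : f x = g x := by
  have h0 : x ∈ closure (range N.inc) := N.dense x
  haveI : (𝓝[range N.inc] x).NeBot := mem_closure_iff_nhdsWithin_neBot.1 h0
  have h1 : Tendsto f (𝓝[range N.inc] x) (𝓝 (f x)) := hf.mono_left nhdsWithin_le_nhds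
  have h2 : Tendsto g (𝓝[range N.inc] x) (𝓝 (g x)) := hg.mono_left nhdsWithin_le_nhds
  have h3 : f =ᶠ[𝓝[range N.inc] x] g := by
    filter_upwards [self_mem_nhdsWithin, nhdsWithin_le_nhds h] with z hz hz2
    obtain ⟨y, hy⟩ := hz
    exact hz2 y hy
  exact tendsto_nhds_unique (h1.congr' h3) h2

/-- Regular points are dense in every nonempty open set. -/
theorem exists_reg (N : NSp E X₀ X) (hV : IsOpen V) (h : V.Nonempty) : ∃ y, N.inc y ∈ V := by
  exact N.dense.exists_mem_open hV h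

theorem NAt.reg [IsManifold 𝓘(ℂ, E) ω X₀] {i : L.ι} {j : P.ι} {y : X₀}
    (h : NAt L P i j (N.inc y)) :
    At L.reg P.reg i j (chartAt E y) y :=
  ⟨IsManifold.chart_mem_maximalAtlas y, h.memL, h.memP, mem_chart_source E y⟩

theorem NAt.reg' {i : L.ι} {j : P.ι} {y : X₀} {φ : OpenPartialHomeomorph X₀ E}
    (h : NAt L P i j (N.inc y)) (hφ : φ ∈ Charts E X₀) (hy : y ∈ φ.source) :
    At L.reg P.reg i j φ y :=
  ⟨hφ, h.memL, h.memP, hy⟩

theorem NAt.of_reg {i : L.ι} {j : P.ι} {y : X₀} {φ : OpenPartialHomeomorph X₀ E}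
    (h : At L.reg P.reg i j φ y) : NAt L P i j (N.inc y) :=
  ⟨h.memL, h.memP⟩

/-- The restriction of a section to the regular part. -/
def NSec.reg (s : NSec L P K J U) : Sec2 L.reg P.reg K J 0 (N.inc ⁻¹' U) where
  f := fun i j _ y => s.f i j (N.inc y)
  hol := fun i j _ _ y hy hi hj _ => Hol_reg (s.hol i j (N.inc y) hy hi hj)
  trans := fun i j i' j' φ _ ψ _ y hy h1 h2 h3 h4 _ _ => by
    rw [pow_zero, mul_one]
    exact s.trans i j i' j' (N.inc y) hy h1 h2 h3 h4

theorem NSec.reg_f (s : NSec L P K J U) (i : L.ι) (j : P.ι) (φ : OpenPartialHomeomorph X₀ E)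
    (y : X₀) : s.reg.f i j φ y = s.f i j (N.inc y) := rfl

theorem NSec.nz_reg [IsManifold 𝓘(ℂ, E) ω X₀] (s : NSec L P K J U) {y : X₀} :
    s.reg.NZ y ↔ s.NZ (N.inc y) := by
  constructor
  · rintro ⟨i, j, φ, -, h1, h2, -, h3⟩
    exact ⟨i, j, h1, h2, h3⟩
  · rintro ⟨i, j, h1, h2, h3⟩
    exact ⟨i, j, chartAt E y, IsManifold.chart_mem_maximalAtlas y, h1, h2, mem_chart_source E y,
      h3⟩

/-- Sections which agree on the regular part agree. -/
theorem NSec.ext_reg (s t : NSec L P K J U) (hU : IsOpen U)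
    (h : ∀ i j y, N.inc y ∈ U → NAt L P i j (N.inc y) → s.f i j (N.inc y) = t.f i j (N.inc y))
    {i j x} (hx : x ∈ U) (hat : NAt L P i j x) : s.f i j x = t.f i j x := by
  refine eq_of_reg N (Hol_continuousAt (s.hol' hx hat)) (Hol_continuousAt (t.hol' hx hat)) ?_
  filter_upwards [hU.mem_nhds hx, hat.eventually] with z hz hz2 y hy
  subst hy
  exact h i j y hz hz2

/-- Sections over the regular part extend. -/
theorem exists_ofReg [IsManifold 𝓘(ℂ, E) ω X₀] (hU : IsOpen U)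
    (t : Sec2 L.reg P.reg K J 0 (N.inc ⁻¹' U)) :
    ∃ s : NSec L P K J U, ∀ i j φ y, N.inc y ∈ U → At L.reg P.reg i j φ y →
      s.f i j (N.inc y) = t.f i j φ y := by
  have hV : ∀ i j, IsOpen (U ∩ (L.U i ∩ P.U j)) := fun i j =>
    hU.inter ((L.isOpen i).inter (P.isOpen j))
  have hcomp : ∀ i j φ y, N.inc y ∈ U → At L.reg P.reg i j φ y →
      t.f i j (chartAt E y) y = t.f i j φ y := by
    intro i j φ y hy hat
    have h1 : At L.reg P.reg i j (chartAt E y) y :=
      ⟨IsManifold.chart_mem_maximalAtlas y, hat.memL, hat.memP, mem_chart_source E y⟩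
    rw [t.trans' hy h1 hat, L.reg.one i y hat.memL, P.reg.one j y hat.memP]
    simp
  have hhol : ∀ i j y, N.inc y ∈ U ∩ (L.U i ∩ P.U j) →
      HolAt E (fun y => t.f i j (chartAt E y) y) y := by
    intro i j y hy
    have h1 : At L.reg P.reg i j (chartAt E y) y :=
      ⟨IsManifold.chart_mem_maximalAtlas y, hy.2.1, hy.2.2, mem_chart_source E y⟩
    refine (t.hol' hy.1 h1).congr_of_eventuallyEq ?_
    filter_upwards [((hV i j).preimage N.emb.continuous).mem_nhds hy, h1.eventually] with z hz hz2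
    exact hcomp i j _ z hz.1 hz2
  choose f hf hf2 using fun (i : L.ι) (j : P.ι) => N.ext _ (hV i j) _ (hhol i j)
  have hval : ∀ i j φ y, N.inc y ∈ U → At L.reg P.reg i j φ y →
      f i j (N.inc y) = t.f i j φ y := by
    intro i j φ y hy hat
    rw [hf2 i j y ⟨hy, hat.memL, hat.memP⟩]
    exact hcomp i j φ y hy hat
  refine ⟨⟨f, ?_, ?_⟩, hval⟩
  · intro i j x hx hi hj
    refine ⟨U ∩ (L.U i ∩ P.U j), hV i j, ⟨hx, hi, hj⟩, hf i j, ?_⟩
    intro y hy
    refine (hhol i j y hy).congr_of_eventuallyEq ?_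
    filter_upwards [((hV i j).preimage N.emb.continuous).mem_nhds hy] with z hz
    exact hf2 i j z hz
  · intro i j i' j' x hx h1 h2 h3 h4
    have c1 : ∀ i j, x ∈ L.U i → x ∈ P.U j → ContinuousAt (f i j) x := fun i j h1 h2 =>
      (hf i j).continuousAt ((hV i j).mem_nhds ⟨hx, h1, h2⟩)
    refine eq_of_reg N (g := fun x => L.g i i' x ^ K * P.g j j' x ^ J * f i' j' x)
      (c1 i j h1 h2) ?_ ?_
    · exact (((Hol_continuousAt (L.hol i i' x h1 h3)).pow K).mul
        ((Hol_continuousAt (P.hol j j' x h2 h4)).pow J)).mul (c1 i' j' h3 h4)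
    · filter_upwards [hU.mem_nhds hx, (L.isOpen i).mem_nhds h1, (P.isOpen j).mem_nhds h2,
        (L.isOpen i').mem_nhds h3, (P.isOpen j').mem_nhds h4] with z k0 k1 k2 k3 k4 y hy
      subst hy
      have a1 : At L.reg P.reg i j (chartAt E y) y :=
        ⟨IsManifold.chart_mem_maximalAtlas y, k1, k2, mem_chart_source E y⟩
      have a2 : At L.reg P.reg i' j' (chartAt E y) y :=
        ⟨IsManifold.chart_mem_maximalAtlas y, k3, k4, mem_chart_source E y⟩
      rw [hval i j _ y k0 a1, hval i' j' _ y k0 a2, t.trans' k0 a1 a2, pow_zero, mul_one]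
      rfl

section weights

variable {A : NAct r N} {ΛL : NLin A L} {ΛP : NLin A P} {S : Finset (Fin r)} {χ χ' : Fin r → ℤ}

theorem NOfWt.reg {s : NSec L P K J U} (h : NOfWt ΛL ΛP S χ s) :
    OfWt ΛL.reg ΛP.reg S χ s.reg := by
  intro a ha i j i' j' φ _ ψ _ y hy hay h1 h2 h3 h4 _ _
  have e : A.act a (N.inc y) = N.inc (A.reg.act a y) := A.inc a ha.1 y
  have h1' : A.act a (N.inc y) ∈ L.U i := by rw [e]; exact h1
  have h2' : A.act a (N.inc y) ∈ P.U j := by rw [e]; exact h2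
  have hay' : A.act a (N.inc y) ∈ U := by rw [e]; exact hay
  have := h a ha i j i' j' (N.inc y) hy hay' h1' h2' h3 h4
  rw [pow_zero, mul_one]
  rw [e] at this
  exact this

theorem nlam_continuousAt {B : NLine N} (Λ : NLin A B) {a : Fin r → ℂ} (ha : InT a) {i j : B.ι}
    {x : X} (hj : x ∈ B.U j) (hi : A.act a x ∈ B.U i) : ContinuousAt (Λ.lam i j a) x := by
  have h1 : ContinuousAt (fun y : X => (a, y)) x := by fun_prop
  exact ContinuousAt.comp (g := fun v : (Fin r → ℂ) × X => Λ.lam i j v.1 v.2)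
    (f := fun y : X => (a, y)) (Λ.cont i j a x ha hj hi) h1

/-- The weight may be tested on the regular part. -/
theorem NOfWt.of_reg [IsManifold 𝓘(ℂ, E) ω X₀] (hU : IsOpen U) {s : NSec L P K J U}
    (h : OfWt ΛL.reg ΛP.reg S χ s.reg) : NOfWt ΛL ΛP S χ s := by
  intro a ha i j i' j' x hx hax h1 h2 h3 h4
  have hc := (nact_continuous A ha.1).continuousAt (x := x)
  have c1 : ContinuousAt (s.f i j) (A.act a x) := Hol_continuousAt (s.hol i j _ hax h1 h2)
  refine eq_of_reg N (f := fun x => chr χ a * s.f i j (A.act a x))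
    (g := fun x => ΛL.lam i i' a x ^ K * ΛP.lam j j' a x ^ J * s.f i' j' x) ?_ ?_ ?_
  · exact continuousAt_const.mul (ContinuousAt.comp (f := A.act a) c1 hc)
  · exact (((nlam_continuousAt ΛL ha.1 h3 h1).pow K).mul
      ((nlam_continuousAt ΛP ha.1 h4 h2).pow J)).mul (Hol_continuousAt (s.hol i' j' x hx h3 h4))
  · filter_upwards [hU.mem_nhds hx, hc.preimage_mem_nhds (hU.mem_nhds hax),
      hc.preimage_mem_nhds ((L.isOpen i).mem_nhds h1),
      hc.preimage_mem_nhds ((P.isOpen j).mem_nhds h2), (L.isOpen i').mem_nhds h3,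
      (P.isOpen j').mem_nhds h4] with z k0 k1 k2 k3 k4 k5 y hy
    subst hy
    have e : A.act a (N.inc y) = N.inc (A.reg.act a y) := A.inc a ha.1 y
    have k1' : N.inc (A.reg.act a y) ∈ U := by rw [← e]; exact k1
    have k2' : N.inc (A.reg.act a y) ∈ L.U i := by rw [← e]; exact k2
    have k3' : N.inc (A.reg.act a y) ∈ P.U j := by rw [← e]; exact k3
    have := h a ha i j i' j' (chartAt E (A.reg.act a y)) (IsManifold.chart_mem_maximalAtlas _)
      (chartAt E y) (IsManifold.chart_mem_maximalAtlas _) y k0 k1' k2' k3' k4 k5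
      (mem_chart_source E _) (mem_chart_source E _)
    rw [pow_zero, mul_one] at this
    show chr χ a * s.f i j (A.act a (N.inc y)) = _
    rw [e]
    exact this

/-- Extension of a section with a weight. -/
theorem exists_ofReg_wt [IsManifold 𝓘(ℂ, E) ω X₀] (hU : IsOpen U)
    (t : Sec2 L.reg P.reg K J 0 (N.inc ⁻¹' U)) (ht : OfWt ΛL.reg ΛP.reg S χ t) :
    ∃ s : NSec L P K J U, NOfWt ΛL ΛP S χ s ∧ ∀ i j φ y, N.inc y ∈ U →
      At L.reg P.reg i j φ y → s.f i j (N.inc y) = t.f i j φ y := by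
  obtain ⟨s, hs⟩ := exists_ofReg hU t
  refine ⟨s, NOfWt.of_reg hU ?_, hs⟩
  intro a ha i j i' j' φ hφ ψ hψ y hy hay h1 h2 h3 h4 h5 h6
  rw [NSec.reg_f, NSec.reg_f, hs i j φ _ hay ⟨hφ, h1, h2, h5⟩, hs i' j' ψ y hy ⟨hψ, h3, h4, h6⟩]
  exact ht a ha i j i' j' φ hφ ψ hψ y hy hay h1 h2 h3 h4 h5 h6

end weights

end Pool.Agent.Abn
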