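import Pool.Agent.H.MP_e23cd6_ag.NT.StepC
import Pool.Agent.H.MP_e23cd6_ag.NT.ConvC
import Pool.Agent.H.MP_e23cd6_ag.NT.DefsI

/-! MP_e23cd6_ag, torus actions on normal complex spaces: the equivalence for the compact normal
space `X`. -/

set_option autoImplicit false

open scoped Manifold ContDiff Topology ENNReal
open MeasureTheory Set Filter

namespace Pool.Agent.Abn

open Pool.Agent.Abd

variable {E : Type} [NormedAddCommGroup E] [NormedSpace ℂ E] [FiniteDimensional ℂ E] {r : ℕ}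
  {X₀ X : Type} [TopologicalSpace X₀] [ChartedSpace E X₀] [IsManifold 𝓘(ℂ, E) ω X₀]
  [TopologicalSpace X] [T2Space X] {Y : NSp E X₀ X}
  {L P : NLine Y} {A : NAct r Y} (ΛL : NLin A L) (ΛP : NLin A P) {k m : ℕ}
  [CompactSpace X] [ConnectedSpace X]

omit [FiniteDimensional ℂ E] [IsManifold 𝓘(ℂ, E) ω X₀] [T2Space X] [CompactSpace X]
  [ConnectedSpace X] in
/-- For `S = ∅` the weight condition is void. -/
theorem ofWt_empty_reg {K J : ℕ} {V : Set X₀} (s : Sec2 L.reg P.reg K J m V) (χ : Fin r → ℤ) :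
    OfWt ΛL.reg ΛP.reg ∅ χ s := by
  intro a ha i j i' j' φ hφ ψ hψ x hx hax h1 h2 h3 h4 h5 h6
  have e : a = 1 := funext fun c => ha.2 c (Finset.notMem_empty c)
  subst e
  have e1 : A.reg.act 1 = id := funext A.reg.one
  have e2 : A.reg.act 1 x = x := A.reg.one x
  rw [e2] at h1 h2 h5
  have hchr : chr χ (1 : Fin r → ℂ) = 1 := by simp [chr]
  have hjac : A.reg.jac φ ψ 1 x = jac φ ψ x := by
    unfold TorusAction.jac jac
    rw [e1]
    rfl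
  rw [hchr, one_mul, hjac, e2, ΛL.reg.one i i' x h1 h3, ΛP.reg.one j j' x h2 h4]
  exact s.trans i j i' j' φ hφ ψ hψ x hx h1 h2 h3 h4 h5 h6

/-- An ample line bundle is ample on the quotient of `X` by the trivial group. -/
theorem AmpleX.ampleG (hP : AmpleX L P) : NAmpleG ΛL ΛP ∅ univ 0 1 0 := by
  refine ⟨?_, ?_⟩
  · obtain ⟨l, hl, h⟩ := hP.1
    refine ⟨l, hl, fun x _ => ?_⟩
    obtain ⟨s, hs⟩ := h x
    exact ⟨s, ofWt_empty _ _, hs⟩
  · intro x _ y _ hxy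
    have hne : x ≠ y := by
      rintro rfl
      exact hxy ⟨1, ⟨fun _ => one_ne_zero, fun _ _ => rfl⟩, (A.one x).symm⟩
    obtain ⟨l, hl, s, h1, h2⟩ := hP.2 x y hne
    exact ⟨l, hl, s, ofWt_empty _ _, h1, h2⟩

/-- A nef line bundle is nef on the quotient of `X` by the trivial group. -/
theorem NefX.nefG (hP : AmpleX L P) (hL : NefX L P) : NNefG ΛL ΛP ∅ univ 1 0 := by
  refine ⟨0, 1, 0, hP.ampleG ΛL ΛP, fun N hN => ?_⟩
  obtain ⟨l, hl, h⟩ := hL N hN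
  refine ⟨l, hl, fun x _ => ?_⟩
  obtain ⟨s, hs⟩ := h x
  exact ⟨s.cast (by rw [Nat.mul_one, Nat.add_zero]) rfl, ofWt_empty _ _, hs⟩

variable [SecondCountableTopology X₀] [MeasureSpace E] [BorelSpace E]
  [(volume : Measure E).IsAddHaarMeasure]

/-- THE EQUIVALENCE. -/
theorem gn_main (hst : ∃ y : X₀, {a : Fin r → ℂ | InT a ∧ A.reg.act a y = y}.Finite)
    (hP : AmpleX L P) (hL : NefX L P) (hk : 1 ≤ k) (hm : 1 ≤ m)
    (s : Sec2 L.reg P.reg k 0 m (Y.inc ⁻¹' univ)) (hs : NKlt s) :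
    SemiX L P 1 0 ↔ ∀ (U : Set X) (K : ℕ) (χ : Fin r → ℤ) (k' m' : ℕ), NGood A Finset.univ U →
      1 ≤ K → 1 ≤ k' → 1 ≤ m' → NNefG ΛL ΛP Finset.univ U K χ →
        NKltQ ΛL ΛP Finset.univ U K χ k' m' → NSemiQ ΛL ΛP Finset.univ U K 0 χ := by
  constructor
  · rintro ⟨l₀, hl₀, h₀⟩ U K χ k' m' hG hK _ _ hN _
    obtain ⟨l₁, hl₁, h₁⟩ := hP.1
    refine NSemiQ.of_semiample hG hl₀ (fun x => ?_) hl₁ (fun x => ?_) hN
    · obtain ⟨t, ht⟩ := h₀ x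
      exact ⟨t.cast (Nat.mul_one l₀) (Nat.mul_zero l₀), ht⟩
    · obtain ⟨t, ht⟩ := h₁ x
      exact ⟨t.cast (Nat.mul_zero l₁) (Nat.mul_one l₁), ht⟩
  · intro H
    have h1 : NAbG ΛL ΛP ∅ univ := ab_all hst
      (fun U _ hG K χ k' m' hK hk' hm' hN hklt =>
        H U K χ k' m' hG hK hk' hm' hN hklt.toQ) ∅ univ
      dense_univ (good_univ A)
    have h2 : NKltQ ΛL ΛP ∅ univ 1 0 k m := by
      refine ⟨1, le_rfl, s.cast (by ring) rfl (by ring), ofWt_empty_reg ΛL ΛP _ _, ?_⟩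
      intro x hx i j hi hj
      obtain ⟨V, hV, φ, B, h3, h4, h5⟩ := hs x hx i j hi hj
      refine ⟨V, hV, φ, B, h3, h4, ?_⟩
      have h6 : ((m * 1 : ℕ) : ℝ) = (m : ℝ) := by rw [Nat.mul_one]
      rw [h6]
      exact h5
    obtain ⟨l, hl, h⟩ := h1 1 0 k m le_rfl hk hm (hL.nefG ΛL ΛP hP)
      (h2.toF (hP.ampleG ΛL ΛP))
    refine ⟨l, hl, fun x => ?_⟩
    obtain ⟨t, _, ht⟩ := h x (mem_univ x)
    exact ⟨t, ht⟩

end Pool.Agent.Abn
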