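import Pool.Agent.H.MP_e23cd6_ag.NT.Ext
import Pool.Agent.H.MP_e23cd6_ag.GT.FourD

/-! Finiteness of the weights of sections over the normal space `X`, and their components. -/

set_option autoImplicit false

open scoped Manifold ContDiff Topology ENNReal
open MeasureTheory Set Filter

namespace Pool.Agent.Abn

open Pool.Agent.Abd

variable {E : Type} [NormedAddCommGroup E] [NormedSpace ℂ E] {r : ℕ}
  {X₀ X : Type} [TopologicalSpace X₀] [ChartedSpace E X₀]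
  [TopologicalSpace X] [T2Space X] [LocallyCompactSpace X]
  {N : NSp E X₀ X} {L P : NLine N} {K J K' J' : ℕ} {U V : Set X}
  {A : NAct r N} {ΛL : NLin A L} {ΛP : NLin A P}

/-- Finiteness of weights over a cocompact set. -/
theorem weights_bounded {S : Finset (Fin r)} (hG : NGood A S U) {i₀ : Fin r} (hi₀ : i₀ ∉ S)
    (χ : Fin r → ℤ) (L' P' : NLine N) (ΛL : NLin A L')
    (ΛP : NLin A P') (K J : ℕ) : ∃ B : ℤ, ∀ ν : ℤ, B < |ν| →
      ∀ t : NSec L' P' K J U, NOfWt ΛL ΛP (insert i₀ S) (Function.update χ i₀ ν) t →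
        ∀ x ∈ U, ¬ t.NZ x := by
  classical
  obtain ⟨C, hCU, hC, hcov⟩ := hG.cocompact
  -- compact pieces with frames
  have hpiece : ∀ x : X, ∃ (i : L'.ι) (j : P'.ι), x ∈ U → ∃ W : Set X, IsCompact W ∧ W ∈ 𝓝 x ∧
      W ⊆ U ∧ ∀ y ∈ W, NAt L' P' i j y := by
    intro x
    obtain ⟨i, j, h⟩ := exists_nat L' P' x
    refine ⟨i, j, fun hx => ?_⟩
    have h1 : ∀ᶠ y in 𝓝 x, y ∈ U ∧ NAt L' P' i j y :=
      Filter.Eventually.and (hG.isOpen.mem_nhds hx) h.eventually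
    obtain ⟨W, hW, hsub, hc⟩ := LocallyCompactSpace.local_compact_nhds x _ h1
    exact ⟨W, hc, hW, fun y hy => (hsub hy).1, fun y hy => (hsub hy).2⟩
  choose fi fj hP0 using hpiece
  have hP1 : ∀ x : X, ∃ W : Set X, x ∈ U → IsCompact W ∧ W ∈ 𝓝 x ∧
      W ⊆ U ∧ ∀ y ∈ W, NAt L' P' (fi x) (fj x) y := by
    intro x
    by_cases hx : x ∈ U
    · obtain ⟨W, h⟩ := hP0 x hx
      exact ⟨W, fun _ => h⟩
    · exact ⟨∅, fun h => absurd h hx⟩
  choose Nb hPP using hP1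
  obtain ⟨T, hTC, hTcov⟩ := hC.elim_nhds_subcover Nb (fun x hx => (hPP x (hCU hx)).2.1)
  have hTU : ∀ p ∈ T, p ∈ U := fun p hp => hCU (hTC p hp)
  -- properness
  let C' : Set X := C ∪ ⋃ p ∈ T, (A.act (el i₀ 2) '' Nb p ∪ A.act (el i₀ 2⁻¹) '' Nb p)
  have h2 : InT (el i₀ (2 : ℂ)) := el_inT i₀ two_ne_zero
  have h2' : InT (el i₀ (2⁻¹ : ℂ)) := el_inT i₀ (inv_ne_zero two_ne_zero)
  have hC'U : C' ⊆ U := by
    intro x hx
    rcases hx with hx | hx
    · exact hCU hx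
    · simp only [mem_iUnion] at hx
      obtain ⟨p, hp, ⟨y, hy, rfl⟩ | ⟨y, hy, rfl⟩⟩ := hx
      · exact hG.inv _ h2 _ ((hPP p (hTU p hp)).2.2.1 hy)
      · exact hG.inv _ h2' _ ((hPP p (hTU p hp)).2.2.1 hy)
  have hC' : IsCompact C' := by
    apply hC.union
    apply T.isCompact_biUnion
    intro p hp
    exact (((hPP p (hTU p hp)).1.image (nact_continuous A h2)).union
      ((hPP p (hTU p hp)).1.image (nact_continuous A h2')))
  obtain ⟨R0, hR0⟩ := hG.proper C' hC'U hC'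
  set R1 : ℝ := max R0 1 with hR1
  have hR1pos : 0 < R1 := lt_of_lt_of_le one_pos (le_max_right _ _)
  set R : ℝ := 2 * R1 with hRdef
  have hRpos : 0 < R := by positivity
  -- bounds of the factors
  let Fct : X → X → (Fin r → ℂ) × X → ℂ := fun p q v =>
    ΛL.lam (fi p) (fi q) v.1 v.2 ^ K * ΛP.lam (fj p) (fj q) v.1 v.2 ^ J
  have hbd : ∀ p ∈ T, ∀ q ∈ T, ∃ B0 : ℝ, ∀ v : (Fin r → ℂ) × X, v.1 ∈ fourdG r R → v.2 ∈ Nb q →
      A.act v.1 v.2 ∈ Nb p → ‖Fct p q v‖ ≤ B0 := by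
    intro p hp q hq
    obtain ⟨cp, -, cpU, cpA⟩ := hPP p (hTU p hp)
    obtain ⟨cq, -, cqU, cqA⟩ := hPP q (hTU q hq)
    have hK1 : IsCompact (fourdG r R ×ˢ Nb q) := (fourdG_compact r R).prod cq
    have hact : ContinuousOn (fun v : (Fin r → ℂ) × X => A.act v.1 v.2) (fourdG r R ×ˢ Nb q) := by
      rintro ⟨a, y⟩ ⟨ha, -⟩
      exact (A.cont a (fourdG_inT hRpos ha) y).continuousWithinAt
    have hcl : IsClosed ((fourdG r R ×ˢ Nb q) ∩
        (fun v : (Fin r → ℂ) × X => A.act v.1 v.2) ⁻¹' Nb p) :=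
      hact.preimage_isClosed_of_isClosed hK1.isClosed cp.isClosed
    have hK2 : IsCompact ((fourdG r R ×ˢ Nb q) ∩
        (fun v : (Fin r → ℂ) × X => A.act v.1 v.2) ⁻¹' Nb p) :=
      hK1.of_isClosed_subset hcl inter_subset_left
    have hcont : ContinuousOn (Fct p q) ((fourdG r R ×ˢ Nb q) ∩
        (fun v : (Fin r → ℂ) × X => A.act v.1 v.2) ⁻¹' Nb p) := by
      rintro ⟨a, y⟩ ⟨⟨ha, hy⟩, hay⟩
      have haT := fourdG_inT hRpos ha
      have e1 := cqA y hy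
      have e2 := cpA _ hay
      apply ContinuousAt.continuousWithinAt
      exact ((ΛL.cont _ _ a y haT e1.memL e2.memL).pow K).mul
        ((ΛP.cont _ _ a y haT e1.memP e2.memP).pow J)
    obtain ⟨B0, hB0⟩ := hK2.exists_bound_of_continuousOn hcont
    exact ⟨B0, fun v h1 h3 h4 => hB0 v ⟨⟨h1, h3⟩, h4⟩⟩
  choose! B0 hB0 using hbd
  obtain ⟨B1, hB1⟩ := (fourdG_compact r R).exists_bound_of_continuousOn (f := chr χ)
    (fun a ha => (chr_contDiffAt χ (fourdG_inT hRpos ha)).continuousAt.continuousWithinAt)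
  -- a common bound
  obtain ⟨B2, hB2, hB2'⟩ : ∃ B2 : ℝ, 0 ≤ B2 ∧ ∀ p ∈ T, ∀ q ∈ T, B0 p q ≤ B2 := by
    refine ⟨∑ p ∈ T, ∑ q ∈ T, |B0 p q|, Finset.sum_nonneg fun p _ =>
      Finset.sum_nonneg fun q _ => abs_nonneg _, fun p hp q hq => ?_⟩
    calc B0 p q ≤ |B0 p q| := le_abs_self _
      _ ≤ ∑ q ∈ T, |B0 p q| :=
        Finset.single_le_sum (f := fun q => |B0 p q|) (fun q _ => abs_nonneg _) hq
      _ ≤ ∑ p ∈ T, ∑ q ∈ T, |B0 p q| :=
        Finset.single_le_sum (f := fun p => ∑ q ∈ T, |B0 p q|)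
          (fun p _ => Finset.sum_nonneg fun q _ => abs_nonneg _) hp
  have hB1' : ∀ a ∈ fourdG r R, ‖chr χ a‖ ≤ |B1| := fun a ha => (hB1 a ha).trans (le_abs_self _)
  obtain ⟨n, hn⟩ : ∃ n : ℕ, |B1| * B2 < 2 ^ n := pow_unbounded_of_one_lt _ one_lt_two
  refine ⟨n, fun ν hν t ht => ?_⟩
  by_contra hcon
  push Not at hcon
  obtain ⟨x1, hx1, hnz1⟩ := hcon
  set χ' : Fin r → ℤ := Function.update χ i₀ ν with hχ'
  -- the values on the pieces
  have hval : ∀ p ∈ T, ∃ y ∈ Nb p, ∀ z ∈ Nb p,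
      ‖t.f (fi p) (fj p) z‖ ≤ ‖t.f (fi p) (fj p) y‖ := by
    intro p hp
    obtain ⟨cp, cpn, cpU, cpA⟩ := hPP p (hTU p hp)
    have h1 : ContinuousOn (fun z => ‖t.f (fi p) (fj p) z‖) (Nb p) := by
      intro z hz
      have h3 : ContinuousAt (t.f (fi p) (fj p)) z :=
        Hol_continuousAt (t.hol' (cpU hz) (cpA z hz))
      exact h3.norm.continuousWithinAt
    obtain ⟨y, hy, hmax⟩ := cp.exists_isMaxOn ⟨p, mem_of_mem_nhds cpn⟩ h1
    exact ⟨y, hy, fun z hz => hmax hz⟩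
  choose! yy hyy hyymax using hval
  -- the nonvanishing point moved into `C`
  obtain ⟨a1, ha1, ha1C⟩ := hcov x1 hx1
  have hins : ∀ a, InTS S a → InTS (insert i₀ S) a := fun a ha =>
    ⟨ha.1, fun c hc => ha.2 c fun h => hc (Finset.mem_insert_of_mem h)⟩
  have hTne : T.Nonempty := by
    have h1 := hTcov ha1C
    simp only [mem_iUnion] at h1
    obtain ⟨p, hp, -⟩ := h1
    exact ⟨p, hp⟩
  obtain ⟨p0, hp0, hp0max⟩ := T.exists_max_image
    (fun p => ‖t.f (fi p) (fj p) (yy p)‖) hTne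
  set x0 : X := yy p0 with hx0
  obtain ⟨cp0, -, cp0U, cp0A⟩ := hPP p0 (hTU p0 hp0)
  have hx0N : x0 ∈ Nb p0 := hyy p0 hp0
  have hMax : ∀ p ∈ T, ∀ z ∈ Nb p, ‖t.f (fi p) (fj p) z‖ ≤
      ‖t.f (fi p0) (fj p0) x0‖ :=
    fun p hp z hz => (hyymax p hp z hz).trans (hp0max p hp)
  -- the maximum is positive
  have hpos : 0 < ‖t.f (fi p0) (fj p0) x0‖ := by
    have h1 := hTcov ha1C
    simp only [mem_iUnion] at h1
    obtain ⟨p, hp, hpN⟩ := h1
    obtain ⟨-, -, cpU, cpA⟩ := hPP p (hTU p hp)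
    obtain ⟨i, j, hat⟩ := exists_nat L' P' x1
    have h3 := ht.rule (hins _ ha1) hx1 (cpU hpN) (cpA _ hpN) hat
    refine lt_of_lt_of_le ?_ (hMax p hp _ hpN)
    rw [norm_pos_iff]
    intro h0
    -- use the inverse element
    have h4 : InTS (insert i₀ S) a1⁻¹ := by
      refine ⟨ha1.1.inv, fun c hc => ?_⟩
      rw [Pi.inv_apply, (hins _ ha1).2 c hc, inv_one]
    have h5 : A.act a1⁻¹ (A.act a1 x1) = x1 := nact_inv_act A ha1.1 x1
    have h6 := ht.rule h4 (cpU hpN) (x := A.act a1 x1) (i := i) (j := j)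
      (by rw [h5]; exact hx1) (by rw [h5]; exact hat) (cpA _ hpN)
    rw [h0, mul_zero, h5] at h6
    rcases mul_eq_zero.mp h6 with h7 | h7
    · exact chr_ne_zero _ ha1.1.inv h7
    · exact (t.nz_iff hx1 hat).mp hnz1 h7
  -- the contraction
  obtain ⟨β, hβ0, hβC, hβn, hβR, hβR'⟩ : ∃ β : ℂ, β ≠ 0 ∧ A.act (el i₀ β) x0 ∈ C' ∧
      ‖β ^ ν‖ = (2 : ℝ) ^ (-|ν|) ∧ ‖β‖ ≤ 2 ∧ 2⁻¹ ≤ ‖β‖ := by
    rcases le_total 0 ν with h | h
    · refine ⟨2⁻¹, inv_ne_zero two_ne_zero, ?_, ?_, ?_, ?_⟩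
      · right
        simp only [mem_iUnion]
        exact ⟨p0, hp0, Or.inr ⟨x0, hx0N, rfl⟩⟩
      · rw [abs_of_nonneg h, norm_zpow, norm_inv, Complex.norm_ofNat, inv_zpow, zpow_neg]
      · rw [norm_inv, Complex.norm_ofNat]; norm_num
      · rw [norm_inv, Complex.norm_ofNat]
    · refine ⟨2, two_ne_zero, ?_, ?_, ?_, ?_⟩
      · right
        simp only [mem_iUnion]
        exact ⟨p0, hp0, Or.inl ⟨x0, hx0N, rfl⟩⟩
      · rw [abs_of_nonpos h, neg_neg, norm_zpow, Complex.norm_ofNat]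
      · rw [Complex.norm_ofNat]
      · rw [Complex.norm_ofNat]; norm_num
  have hbT : InT (el i₀ β) := el_inT i₀ hβ0
  obtain ⟨a, ha, haC⟩ := hcov _ (hC'U hβC)
  have haR := hR0 a ha _ hβC (Or.inl haC)
  have hq := hTcov haC
  simp only [mem_iUnion] at hq
  obtain ⟨q, hq, hqN⟩ := hq
  obtain ⟨-, -, cqU, cqA⟩ := hPP q (hTU q hq)
  -- norms of the coordinates of `a` and of `g = a b`
  have haR1 : ∀ c, ‖a c‖ ≤ R1 ∧ R1⁻¹ ≤ ‖a c‖ := by
    intro c
    obtain ⟨h1, h3⟩ := haR c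
    refine ⟨h1.trans (le_max_left _ _), ?_⟩
    have h4 : 0 < ‖a c‖ := norm_pos_iff.mpr (ha.1 c)
    rw [norm_inv] at h3
    have h5 : ‖a c‖⁻¹ ≤ R1 := h3.trans (le_max_left _ _)
    rw [inv_le_comm₀ hR1pos h4]
    exact h5
  have haG : a ∈ fourdG r R := by
    intro c
    obtain ⟨h1, h3⟩ := haR1 c
    constructor
    · refine le_trans ?_ h3
      rw [inv_le_inv₀ hRpos hR1pos]
      linarith
    · linarith
  set g : Fin r → ℂ := a * el i₀ β with hg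
  have hgT : InT g := ha.1.mul hbT
  have hel : ∀ c, ‖el i₀ β c‖ ≤ 2 ∧ 2⁻¹ ≤ ‖el i₀ β c‖ := by
    intro c
    by_cases hc : c = i₀
    · subst hc
      simp only [el, Function.update_self]
      exact ⟨hβR, hβR'⟩
    · simp only [el, Function.update_of_ne hc, Pi.one_apply, norm_one]
      norm_num
  have hgG : g⁻¹ ∈ fourdG r R := by
    intro c
    obtain ⟨h1, h3⟩ := haR1 c
    obtain ⟨h4, h5⟩ := hel c
    have h6 : 0 < ‖a c‖ := norm_pos_iff.mpr (ha.1 c)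
    have h7 : 0 < ‖el i₀ β c‖ := norm_pos_iff.mpr (hbT c)
    have h8 : ‖g c‖ = ‖a c‖ * ‖el i₀ β c‖ := by rw [hg, Pi.mul_apply, norm_mul]
    have h9 : ‖g c‖ ≤ R := by
      rw [h8, hRdef, mul_comm (2 : ℝ)]
      exact mul_le_mul h1 h4 h7.le hR1pos.le
    have h10 : R⁻¹ ≤ ‖g c‖ := by
      rw [h8, hRdef, mul_comm (2 : ℝ), mul_inv]
      exact mul_le_mul h3 h5 (by norm_num) h6.le
    have h11 : 0 < ‖g c‖ := norm_pos_iff.mpr (hgT c)
    rw [Pi.inv_apply, norm_inv]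
    constructor
    · rw [inv_le_inv₀ hRpos h11]; exact h9
    · rw [inv_le_comm₀ h11 hRpos]; exact h10
  set y : X := A.act a (A.act (el i₀ β) x0) with hy
  have hgy : A.act g x0 = y := A.mul a (el i₀ β) ha.1 hbT x0
  have hgy' : A.act g⁻¹ y = x0 := by rw [← hgy]; exact nact_inv_act A hgT x0
  have hgS : InTS (insert i₀ S) g⁻¹ := by
    refine ⟨hgT.inv, fun c hc => ?_⟩
    have h1 : c ∉ S := fun h => hc (Finset.mem_insert_of_mem h)
    have h3 : c ≠ i₀ := fun h => hc (by rw [h]; exact Finset.mem_insert_self _ _)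
    rw [Pi.inv_apply, hg, Pi.mul_apply, ha.2 c h1]
    simp [el, Function.update_of_ne h3]
  have hrule := ht.rule hgS (cqU hqN) (x := y) (i := fi p0) (j := fj p0)
    (by rw [hgy']; exact cp0U hx0N) (by rw [hgy']; exact cp0A x0 hx0N) (cqA y hqN)
  rw [hgy'] at hrule
  have hFb : ‖Fct p0 q (g⁻¹, y)‖ ≤ B2 :=
    (hB0 p0 hp0 q hq (g⁻¹, y) hgG hqN (by rw [hgy']; exact hx0N)).trans (hB2' p0 hp0 q hq)
  -- the character
  have hchr : ‖chr χ' g‖ ≤ |B1| * (2 : ℝ) ^ (-|ν|) := by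
    rw [hg, chr_mul, norm_mul, chr_el, hχ', Function.update_self, hβn]
    refine mul_le_mul_of_nonneg_right ?_ (zpow_nonneg (by norm_num) _)
    have h1 : chr (Function.update χ i₀ ν) a = chr χ a := by
      unfold chr
      refine Finset.prod_congr rfl fun c _ => ?_
      by_cases hc : c = i₀
      · rw [hc, ha.2 i₀ hi₀, one_zpow, one_zpow]
      · rw [Function.update_of_ne hc]
    rw [h1]
    exact hB1' a haG
  have hinvchr : chr χ' g * chr χ' g⁻¹ = 1 := by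
    rw [← chr_mul, hgT.mul_inv]
    simp [chr]
  have heq : t.f (fi p0) (fj p0) x0 =
      chr χ' g * (Fct p0 q (g⁻¹, y) * t.f (fi q) (fj q) y) := by
    have h1 : t.f (fi p0) (fj p0) x0 =
        chr χ' g * (chr χ' g⁻¹ * t.f (fi p0) (fj p0) x0) := by
      rw [← mul_assoc, hinvchr, one_mul]
    rw [h1, hrule]
  have hlt : |B1| * (2 : ℝ) ^ (-|ν|) * B2 < 1 := by
    have h1 : (2 : ℝ) ^ (-|ν|) ≤ ((2 : ℝ) ^ n)⁻¹ := by
      rw [← zpow_natCast, ← zpow_neg]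
      exact zpow_le_zpow_right₀ one_le_two (by omega)
    have h3 : (0 : ℝ) < 2 ^ n := by positivity
    calc |B1| * (2 : ℝ) ^ (-|ν|) * B2 = (|B1| * B2) * (2 : ℝ) ^ (-|ν|) := by ring
      _ ≤ (|B1| * B2) * ((2 : ℝ) ^ n)⁻¹ :=
        mul_le_mul_of_nonneg_left h1 (mul_nonneg (abs_nonneg _) hB2)
      _ < 1 := by
        rw [← div_eq_mul_inv, div_lt_one h3]
        exact hn
  have hfin : ‖t.f (fi p0) (fj p0) x0‖ ≤
      (|B1| * (2 : ℝ) ^ (-|ν|) * B2) * ‖t.f (fi p0) (fj p0) x0‖ := by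
    have h1 : ‖t.f (fi p0) (fj p0) x0‖ =
        ‖chr χ' g‖ * (‖Fct p0 q (g⁻¹, y)‖ * ‖t.f (fi q) (fj q) y‖) := by
      conv_lhs => rw [heq]
      rw [norm_mul, norm_mul]
    rw [h1, mul_assoc (|B1| * (2 : ℝ) ^ (-|ν|))]
    refine mul_le_mul hchr ?_ (by positivity)
      (mul_nonneg (abs_nonneg _) (zpow_nonneg (by norm_num) _))
    rw [← h1]
    exact mul_le_mul hFb (hMax q hq y hqN) (norm_nonneg _) hB2
  nlinarith

section comp

variable [FiniteDimensional ℂ E] [IsManifold 𝓘(ℂ, E) ω X₀]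

omit [T2Space X] [LocallyCompactSpace X] [FiniteDimensional ℂ E] [IsManifold 𝓘(ℂ, E) ω X₀] in
theorem reg_inv (hinv : ∀ a, InT a → ∀ x ∈ U, A.act a x ∈ U) {a : Fin r → ℂ} (ha : InT a)
    (y : X₀) (hy : y ∈ N.inc ⁻¹' U) : A.reg.act a y ∈ N.inc ⁻¹' U := by
  show N.inc (A.reg.act a y) ∈ U
  rw [← A.inc a ha y]
  exact hinv a ha _ hy

/-- The decomposition of a section into its finitely many components. -/
theorem exists_components {S : Finset (Fin r)} (hG : NGood A S U) {i₀ : Fin r} (hi₀ : i₀ ∉ S)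
    {χ : Fin r → ℤ} (s : NSec L P K J U) (hs : NOfWt ΛL ΛP S χ s) :
    ∃ (Ξ : Finset ℤ) (sν : ℤ → NSec L P K J U),
      (∀ ν, NOfWt ΛL ΛP (insert i₀ S) (Function.update χ i₀ ν) (sν ν)) ∧
      (∀ x ∈ U, ∀ i j, NAt L P i j x → s.f i j x = ∑ ν ∈ Ξ, (sν ν).f i j x) := by
  obtain ⟨B, hB⟩ := weights_bounded hG hi₀ χ L P ΛL ΛP K J
  have hUo : IsOpen (N.inc ⁻¹' U) := hG.isOpen.preimage N.emb.continuous
  have hinv : ∀ a, InT a → ∀ y ∈ N.inc ⁻¹' U, A.reg.act a y ∈ N.inc ⁻¹' U :=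
    fun a ha y hy => reg_inv hG.inv ha y hy
  have hex := fun ν => exists_fourier_wt ΛL.reg ΛP.reg hUo hinv hi₀ s.reg hs.reg ν
  choose tν hwt hval using hex
  choose sν hsν hsν2 using fun ν => exists_ofReg_wt hG.isOpen (tν ν) (hwt ν)
  have hout : ∀ ν, ν ∉ Finset.Icc (-B) B → B < |ν| := by
    intro ν hν
    rw [Finset.mem_Icc, not_and_or, not_le, not_le] at hν
    rcases hν with h | h
    · exact lt_of_lt_of_le (by linarith) (neg_le_abs ν)
    · exact lt_of_lt_of_le h (le_abs_self ν)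
  refine ⟨Finset.Icc (-B) B, sν, hsν, ?_⟩
  intro x hx i j hat
  refine NSec.ext_reg s (NSec.sum (Finset.Icc (-B) B) sν) hG.isOpen ?_ hx hat
  intro i j y hy hat
  have hat' : At L.reg P.reg i j (chartAt E y) y := hat.reg
  have h0 : ∀ ν, ν ∉ Finset.Icc (-B) B → fco ΛL.reg ΛP.reg s.reg i₀ ν i j (chartAt E y) y = 0 := by
    intro ν hν
    have h1 := hB ν (hout ν hν) (sν ν) (hsν ν) (N.inc y) hy
    rw [(sν ν).nz_iff hy hat, not_not, hsν2 ν i j _ y hy hat', hval ν i j _ y hy hat'] at h1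
    exact h1
  have h1 := fco_sum ΛL.reg ΛP.reg hUo hinv s.reg i₀ _ hy hat' h0
  rw [NSec.reg_f] at h1
  rw [h1]
  show _ = ∑ ν ∈ Finset.Icc (-B) B, (sν ν).f i j (N.inc y)
  exact Finset.sum_congr rfl fun ν _ => by
    rw [hsν2 ν i j _ y hy hat', hval ν i j _ y hy hat']

/-- Decomposition into finitely many components for the `i`-th factor of the torus. -/
theorem gt_components {S : Finset (Fin r)} {χ : Fin r → ℤ} (hG : NGood A S U) {i : Fin r}
    (hi : i ∉ S) (s : NSec L P K J U)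
    (hs : NOfWt ΛL ΛP S χ s) : ∃ (T : Finset ℤ) (t : ℤ → NSec L P K J U),
      (∀ c, NOfWt ΛL ΛP (insert i S) (fun d => if d = i then c else χ d) (t c)) ∧
      ∀ i₁ j x, x ∈ U → NAt L P i₁ j x → s.f i₁ j x = ∑ c ∈ T, (t c).f i₁ j x := by
  obtain ⟨Ξ, sν, h1, h3⟩ := exists_components (ΛL := ΛL) (ΛP := ΛP) hG hi s hs
  refine ⟨Ξ, sν, fun c => ?_, fun i₁ j x hx hat => h3 x hx i₁ j hat⟩
  have e : (fun d => if d = i then c else χ d) = Function.update χ i c := by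
    funext d
    rw [Function.update_apply]
  rw [e]
  exact h1 c

end comp

end Pool.Agent.Abn
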