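import Pool.Agent.H.MP_e23cd6_ag.GT.Alg

/-! Sections which are finite sums of weight vectors of the torus. -/

set_option autoImplicit false

open scoped Manifold ContDiff Topology ENNReal
open MeasureTheory Set Filter

namespace Pool.Agent.Abn

open Pool.Agent.Abd

variable {E : Type} [NormedAddCommGroup E] [NormedSpace ℂ E] {r : ℕ}
  {X : Type} [TopologicalSpace X] [ChartedSpace E X]
  {L P : LineBundle E X} {K J m K' J' m' : ℕ} {U V : Set X}
  {A : TorusAction E r X} (ΛL : Linearization A L) (ΛP : Linearization A P)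

/-- The functions `F` (a section of `L ^ K ⊗ P ^ J ⊗ K_X ^ (-m)` over `U`) are a finite sum of weight
vectors of the torus, with weights which agree with `χ` on `S`. -/
def TFin (K J m : ℕ) (U : Set X) (S : Finset (Fin r)) (χ : Fin r → ℤ)
    (F : L.ι → P.ι → OpenPartialHomeomorph X E → X → ℂ) : Prop :=
  ∃ (ι : Type) (_ : Fintype ι) (t : ι → Sec2 L P K J m U) (w : ι → Fin r → ℤ),
    (∀ e, OfWt ΛL ΛP Finset.univ (w e) (t e)) ∧ (∀ e, ∀ c ∈ S, w e c = χ c) ∧
    ∀ i j φ x, x ∈ U → At L P i j φ x → F i j φ x = ∑ e, (t e).f i j φ x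

variable {ΛL ΛP} {S : Finset (Fin r)} {χ χ' : Fin r → ℤ}
  {F G : L.ι → P.ι → OpenPartialHomeomorph X E → X → ℂ}

theorem TFin.congr (h : TFin ΛL ΛP K J m U S χ F)
    (hFG : ∀ i j φ x, x ∈ U → At L P i j φ x → G i j φ x = F i j φ x) :
    TFin ΛL ΛP K J m U S χ G := by
  obtain ⟨ι, hι, t, w, h1, h2, h3⟩ := h
  exact ⟨ι, hι, t, w, h1, h2, fun i j φ x hx hat => (hFG i j φ x hx hat).trans (h3 i j φ x hx hat)⟩

theorem TFin.congr_wt (h : TFin ΛL ΛP K J m U S χ F) (hχ : ∀ c ∈ S, χ c = χ' c) :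
    TFin ΛL ΛP K J m U S χ' F := by
  obtain ⟨ι, hι, t, w, h1, h2, h3⟩ := h
  exact ⟨ι, hι, t, w, h1, fun e c hc => (h2 e c hc).trans (hχ c hc), h3⟩

theorem TFin.res (h : TFin ΛL ΛP K J m U S χ F) (hV : V ⊆ U) : TFin ΛL ΛP K J m V S χ F := by
  obtain ⟨ι, hι, t, w, h1, h2, h3⟩ := h
  exact ⟨ι, hι, fun e => (t e).res hV, w, fun e => (h1 e).res hV, h2,
    fun i j φ x hx hat => h3 i j φ x (hV hx) hat⟩

theorem TFin.of_wt {s : Sec2 L P K J m U} (h : OfWt ΛL ΛP Finset.univ χ s) :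
    TFin ΛL ΛP K J m U S χ s.f :=
  ⟨Unit, inferInstance, fun _ => s, fun _ => χ, fun _ => h, fun _ _ _ => rfl,
    fun i j φ x _ _ => by simp⟩

theorem TFin.smul (c : ℂ) (h : TFin ΛL ΛP K J m U S χ F) :
    TFin ΛL ΛP K J m U S χ (fun i j φ x => c * F i j φ x) := by
  obtain ⟨ι, hι, t, w, h1, h2, h3⟩ := h
  refine ⟨ι, hι, fun e => Sec2.smul c (t e), w, fun e => (h1 e).smul c, h2, ?_⟩
  intro i j φ x hx hat
  show c * F i j φ x = _
  rw [h3 i j φ x hx hat, Finset.mul_sum]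
  rfl

theorem TFin.sum {α : Type} [Fintype α] {H : α → L.ι → P.ι → OpenPartialHomeomorph X E → X → ℂ}
    (h : ∀ a, TFin ΛL ΛP K J m U S χ (H a)) :
    TFin ΛL ΛP K J m U S χ (fun i j φ x => ∑ a, H a i j φ x) := by
  choose ι hι t w h1 h2 h3 using h
  refine ⟨Σ a, ι a, inferInstance, fun p => t p.1 p.2, fun p => w p.1 p.2, fun p => h1 p.1 p.2,
    fun p => h2 p.1 p.2, ?_⟩
  intro i j φ x hx hat
  rw [Fintype.sum_sigma]
  exact Finset.sum_congr rfl fun a _ => h3 a i j φ x hx hat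

theorem TFin.mul (h : TFin ΛL ΛP K J m U S χ F) (h' : TFin ΛL ΛP K' J' m' U S χ' G) :
    TFin ΛL ΛP (K + K') (J + J') (m + m') U S (χ + χ') (fun i j φ x => F i j φ x * G i j φ x) := by
  obtain ⟨ι, hι, t, w, h1, h2, h3⟩ := h
  obtain ⟨ι', hι', t', w', h1', h2', h3'⟩ := h'
  refine ⟨ι × ι', inferInstance, fun p => (t p.1).mul (t' p.2), fun p => w p.1 + w' p.2,
    fun p => (h1 p.1).mul (h1' p.2), fun p c hc => ?_, ?_⟩
  · show w p.1 c + w' p.2 c = χ c + χ' c
    rw [h2 p.1 c hc, h2' p.2 c hc]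
  intro i j φ x hx hat
  show F i j φ x * G i j φ x = _
  rw [h3 i j φ x hx hat, h3' i j φ x hx hat, Finset.sum_mul_sum, Fintype.sum_prod_type]
  rfl

theorem TFin.one : TFin ΛL ΛP 0 0 0 U S 0 (fun _ _ _ _ => 1) := by
  refine (TFin.of_wt (s := Sec2.one) (χ := 0) ?_).congr (fun _ _ _ _ _ _ => rfl)
  intro a ha i j i' j' φ _ ψ _ x _ _ _ _ _ _ _ _
  simp [Sec2.one, chr]

theorem TFin.pow (h : TFin ΛL ΛP K J m U S χ F) (n : ℕ) :
    TFin ΛL ΛP (n * K) (n * J) (n * m) U S (fun c => n * χ c) (fun i j φ x => F i j φ x ^ n) := by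
  induction n with
  | zero =>
    have h1 : TFin ΛL ΛP (0 * K) (0 * J) (0 * m) U S 0 (fun _ _ _ _ => 1) := by
      rw [zero_mul, zero_mul, zero_mul]
      exact TFin.one
    exact (h1.congr (fun _ _ _ _ _ _ => pow_zero _)).congr_wt (fun c _ => by simp)
  | succ n ih =>
    have h1 := ih.mul h
    rw [← Nat.succ_mul, ← Nat.succ_mul, ← Nat.succ_mul] at h1
    exact (h1.congr (fun _ _ _ _ _ _ => pow_succ _ _)).congr_wt (fun c _ => by
      simp only [Pi.add_apply]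
      push_cast
      ring)

/-- Monomials. -/
theorem TFin.mono {α : Type} (T : Finset α) {s : α → Sec2 L P K J m U} {w : α → Fin r → ℤ}
    (h : ∀ a ∈ T, TFin ΛL ΛP K J m U S (w a) (s a).f) (l : α → ℕ) {q : ℕ}
    (hq : ∑ a ∈ T, l a = q) (hχ : ∀ c ∈ S, ∑ a ∈ T, l a * w a c = χ c) :
    TFin ΛL ΛP (q * K) (q * J) (q * m) U S χ (Sec2.mono T s l q hq).f := by
  classical
  have key : ∀ T' : Finset α, T' ⊆ T → TFin ΛL ΛP ((∑ a ∈ T', l a) * K) ((∑ a ∈ T', l a) * J)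
      ((∑ a ∈ T', l a) * m) U S (fun c => ∑ a ∈ T', l a * w a c)
      (fun i j φ x => ∏ a ∈ T', (s a).f i j φ x ^ l a) := by
    intro T'
    induction T' using Finset.induction_on with
    | empty =>
      intro _
      simp only [Finset.sum_empty, Finset.prod_empty, zero_mul]
      exact TFin.one
    | insert b T'' hb ih =>
      intro hT
      have h1 := ((h b (hT (Finset.mem_insert_self b T''))).pow (l b)).mul
        (ih (fun a ha => hT (Finset.mem_insert_of_mem ha)))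
      rw [← add_mul, ← add_mul, ← add_mul] at h1
      simp only [Finset.sum_insert hb, Finset.prod_insert hb]
      exact h1
  have h1 := key T (Finset.Subset.refl T)
  rw [hq] at h1
  exact (h1.congr (fun _ _ _ _ _ _ => rfl)).congr_wt hχ

/-- A finite sum of weight vectors whose weights agree with `χ` on `S` has `T_S`-weight `χ`. -/
theorem TFin.toWt {s : Sec2 L P K J m U} (h : TFin ΛL ΛP K J m U S χ s.f) :
    OfWt ΛL ΛP S χ s := by
  obtain ⟨ι, hι, t, w, h1, h2, h3⟩ := h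
  intro a ha i j i' j' φ hφ ψ hψ x hx hax k1 k2 k3 k4 k5 k6
  have a1 : At L P i j φ (A.act a x) := ⟨hφ, k1, k2, k5⟩
  have a2 : At L P i' j' ψ x := ⟨hψ, k3, k4, k6⟩
  rw [h3 i j φ _ hax a1, h3 i' j' ψ x hx a2, Finset.mul_sum, Finset.mul_sum]
  refine Finset.sum_congr rfl fun e _ => ?_
  have e1 : chr χ a = chr (w e) a := by
    unfold chr
    refine Finset.prod_congr rfl fun c _ => ?_
    by_cases hc : c ∈ S
    · rw [h2 e c hc]
    · rw [ha.2 c hc, one_zpow, one_zpow]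
  rw [e1]
  exact (h1 e).rule ⟨ha.1, fun c hc => absurd (Finset.mem_univ c) hc⟩ hx hax a1 a2

/-- The components for the `i₀`-th factor. -/
theorem TFin.components {i₀ : Fin r} (hi₀ : i₀ ∉ S) {s : Sec2 L P K J m U}
    (h : TFin ΛL ΛP K J m U S χ s.f) :
    ∃ (Ξ : Finset ℤ) (sν : ℤ → Sec2 L P K J m U),
      (∀ ν, TFin ΛL ΛP K J m U (insert i₀ S) (Function.update χ i₀ ν) (sν ν).f) ∧
      ∀ x ∈ U, ∀ i j φ, At L P i j φ x → s.f i j φ x = ∑ ν ∈ Ξ, (sν ν).f i j φ x := by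
  classical
  obtain ⟨ι, hι, t, w, h1, h2, h3⟩ := h
  refine ⟨Finset.univ.image (fun e => w e i₀),
    fun ν => Sec2.sum (Finset.univ.filter fun e => w e i₀ = ν) t, ?_, ?_⟩
  · intro ν
    refine ⟨{e // w e i₀ = ν}, inferInstance, fun e => t e.1, fun e => w e.1, fun e => h1 e.1,
      fun e c hc => ?_, ?_⟩
    · by_cases hci : c = i₀
      · subst hci
        rw [Function.update_self]
        exact e.2
      · rw [Function.update_of_ne hci]
        exact h2 e.1 c (Finset.mem_of_mem_insert_of_ne hc hci)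
    · intro i j φ x _ _
      show ∑ e ∈ Finset.univ.filter (fun e => w e i₀ = ν), (t e).f i j φ x = _
      rw [Finset.sum_subtype (p := fun e => w e i₀ = ν) _ (by simp)]
  · intro x hx i j φ hat
    rw [h3 i j φ x hx hat]
    show _ = ∑ ν ∈ _, ∑ e ∈ Finset.univ.filter (fun e => w e i₀ = ν), (t e).f i j φ x
    rw [Finset.sum_fiberwise_of_maps_to (fun e _ => Finset.mem_image_of_mem _ (Finset.mem_univ e))]

end Pool.Agent.Abn
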