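import Pool.Agent.H.MP_e23cd6_ag.NT.Ext
import Pool.Agent.H.MP_e23cd6_ag.NT.TFin

/-! Klt pairs on the quotients given by a finite sum of weight vectors. -/

set_option autoImplicit false

open scoped Manifold ContDiff Topology ENNReal
open MeasureTheory Set Filter

namespace Pool.Agent.Abn

open Pool.Agent.Abd

variable {E : Type} [NormedAddCommGroup E] [NormedSpace ℂ E] {r : ℕ}
  {X₀ X : Type} [TopologicalSpace X₀] [ChartedSpace E X₀]
  [TopologicalSpace X] {N : NSp E X₀ X} {L P : NLine N} {K J m k : ℕ} {U V : Set X}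
  {A : NAct r N} (ΛL : NLin A L) (ΛP : NLin A P) (S : Finset (Fin r))

/-- The condition `NKltQ` with a section which is a finite sum of weight vectors of the torus. -/
def NKltF [MeasureSpace E] (U : Set X) (K : ℕ) (χ : Fin r → ℤ) (k m : ℕ) : Prop :=
  ∃ q : ℕ, 1 ≤ q ∧ ∃ s : Sec2 L.reg P.reg (k * q * K) 0 (m * q) (N.inc ⁻¹' U),
    TFin ΛL.reg ΛP.reg (k * q * K) 0 (m * q) (N.inc ⁻¹' U) S (fun c => k * q * χ c) s.f ∧ NKlt s

variable {ΛL ΛP S} {χ χ' : Fin r → ℤ} [MeasureSpace E]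

theorem NKltF.toQ (h : NKltF ΛL ΛP S U K χ k m) : NKltQ ΛL ΛP S U K χ k m := by
  obtain ⟨q, hq, s, hs, hk⟩ := h
  exact ⟨q, hq, s, hs.toWt, hk⟩

theorem NKltF.congr_wt (h : NKltF ΛL ΛP S U K χ k m) (hχ : ∀ c ∈ S, χ c = χ' c) :
    NKltF ΛL ΛP S U K χ' k m := by
  obtain ⟨q, hq, s, hs, hk⟩ := h
  exact ⟨q, hq, s, hs.congr_wt (fun c hc => by rw [hχ c hc]), hk⟩

theorem NKltF.nsmul (h : NKltF ΛL ΛP S U K χ k m) {l : ℕ} (hl : 1 ≤ l) :
    NKltF ΛL ΛP S U (l * K) (fun c => l * χ c) k (l * m) := by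
  obtain ⟨q, hq, s, hs, hk⟩ := h
  refine ⟨q, hq, (s.pow l).cast (by ring) (by ring) (by ring), ?_, ?_⟩
  · have h1 := hs.pow l
    rw [show l * (k * q * K) = k * q * (l * K) by ring, show l * 0 = 0 by ring,
      show l * (m * q) = l * m * q by ring] at h1
    exact (h1.congr (fun _ _ _ _ _ _ => rfl)).congr_wt (fun c _ => by push_cast; ring)
  · intro x hx i j hi hj
    obtain ⟨V, hV, φ, B, h1, h2, h3⟩ := hk x hx i j hi hj
    refine ⟨V, hV, φ, B, h1, h2, ?_⟩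
    have hl0 : (l : ℝ) ≠ 0 := by
      have : 0 < l := hl
      positivity
    have e : ∀ n, ∀ z, ‖((s.pow l).cast (by ring) (by ring) (by ring) :
        Sec2 L.reg P.reg (k * q * (l * K)) 0 (l * m * q) (N.inc ⁻¹' U)).f i j (φ n)
          ((φ n).symm z)‖ₑ ^ (-(2 : ℝ) / ((l * m * q : ℕ) : ℝ)) =
        ‖s.f i j (φ n) ((φ n).symm z)‖ₑ ^ (-(2 : ℝ) / ((m * q : ℕ) : ℝ)) := by
      intro n z
      have e1 : ((s.pow l).cast (by ring) (by ring) (by ring) :
        Sec2 L.reg P.reg (k * q * (l * K)) 0 (l * m * q) (N.inc ⁻¹' U)).f i j (φ n)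
          ((φ n).symm z) = s.f i j (φ n) ((φ n).symm z) ^ l := rfl
      rw [e1, enorm_pow, ← ENNReal.rpow_natCast, ← ENNReal.rpow_mul]
      congr 1
      push_cast
      field_simp
    simp only [e]
    exact h3

end Pool.Agent.Abn
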