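import Pool.Agent.H.MP_e23cd6_ag.NT.Ext
import Pool.Agent.H.MP_e23cd6_ag.KltChart

/-! The klt condition on the normal space may be checked in one frame near each point. -/

set_option autoImplicit false

open scoped Manifold ContDiff Topology ENNReal
open MeasureTheory Set Filter

namespace Pool.Agent.Abn

open Pool.Agent.Abd

variable {E : Type} [NormedAddCommGroup E] [NormedSpace ℂ E]
  [MeasureSpace E] [BorelSpace E]
  {X₀ X : Type} [TopologicalSpace X₀] [ChartedSpace E X₀] [IsManifold 𝓘(ℂ, E) ω X₀]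
  [TopologicalSpace X] {N : NSp E X₀ X} {L P : NLine N} {K J m : ℕ} {U : Set X}

omit [MeasureSpace E] [BorelSpace E] in
theorem nfactor_continuousAt {i i' : L.ι} {j j' : P.ι} {x : X} (hi : x ∈ L.U i)
    (hi' : x ∈ L.U i') (hj : x ∈ P.U j) (hj' : x ∈ P.U j') :
    ContinuousAt (fun y => ‖L.g i i' y ^ K * P.g j j' y ^ J‖) x :=
  (((Hol_continuousAt (L.hol i i' x hi hi')).pow K).mul
    ((Hol_continuousAt (P.hol j j' x hj hj')).pow J)).norm

/-- The klt condition may be checked in one frame near each point. -/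
theorem nklt_of_local (hU : IsOpen U) (t : Sec2 L.reg P.reg K J m (N.inc ⁻¹' U))
    (ht : ∀ x ∈ U, ∃ i j, x ∈ L.U i ∧ x ∈ P.U j ∧ ∃ V ∈ 𝓝 x,
      ∃ (φ : ℕ → OpenPartialHomeomorph X₀ E) (B : ℕ → Set E),
        (∀ n, φ n ∈ Charts E X₀ ∧ MeasurableSet (B n) ∧ B n ⊆ (φ n).target) ∧
        (N.inc ⁻¹' V ⊆ ⋃ n, (φ n).symm '' B n) ∧
        ∑' n, ∫⁻ z in B n, ‖t.f i j (φ n) ((φ n).symm z)‖ₑ ^ (-(2 : ℝ) / m) < ⊤) : NKlt t := by
  intro x hx i' j' hi' hj'
  obtain ⟨i, j, hi, hj, V, hV, φ, B, hB, hcov, hint⟩ := ht x hx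
  set τ : ℝ := 2 / m with hτd
  have hτ : 0 ≤ τ := by positivity
  have hτe : -(2 : ℝ) / m = -τ := by rw [hτd, neg_div]
  rw [hτe] at hint ⊢
  set C : ℝ := ‖L.g i i' x ^ K * P.g j j' x ^ J‖ + 1 with hC
  have hCpos : 0 < C := by positivity
  have hev1 : ∀ᶠ y in 𝓝 x, ‖L.g i i' y ^ K * P.g j j' y ^ J‖ < C :=
    (nfactor_continuousAt hi hi' hj hj').eventually_lt continuousAt_const (by rw [hC]; linarith)
  have hev2 : ∀ᶠ y in 𝓝 x, y ∈ V ∧ y ∈ U ∧ y ∈ L.U i ∧ y ∈ L.U i' ∧ y ∈ P.U j ∧ y ∈ P.U j' ∧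
      ‖L.g i i' y ^ K * P.g j j' y ^ J‖ < C := by
    filter_upwards [hV, hU.mem_nhds hx, (L.isOpen i).mem_nhds hi, (L.isOpen i').mem_nhds hi',
      (P.isOpen j).mem_nhds hj, (P.isOpen j').mem_nhds hj', hev1] with y h1 h2 h3 h4 h5 h6 h7
    exact ⟨h1, h2, h3, h4, h5, h6, h7⟩
  obtain ⟨W, hW, hWo, hxW⟩ := eventually_nhds_iff.1 hev2
  refine ⟨W, hWo.mem_nhds hxW, φ,
    fun n => B n ∩ ((φ n).target ∩ (φ n).symm ⁻¹' (N.inc ⁻¹' W)), ?_, ?_, ?_⟩
  · intro n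
    refine ⟨(hB n).1, (hB n).2.1.inter ?_, fun z hz => (hB n).2.2 hz.1⟩
    exact ((φ n).symm.isOpen_inter_preimage (hWo.preimage N.emb.continuous)).measurableSet
  · intro y hy
    have h1 := hcov (hW _ hy).1
    simp only [mem_iUnion] at h1 ⊢
    obtain ⟨n, z, hz, rfl⟩ := h1
    exact ⟨n, z, ⟨hz, (hB n).2.2 hz, hy⟩, rfl⟩
  · have hCt : (ENNReal.ofReal C) ^ τ ≠ ⊤ :=
      ENNReal.rpow_ne_top_of_nonneg hτ ENNReal.ofReal_ne_top
    have hle : ∀ n, ∫⁻ z in B n ∩ ((φ n).target ∩ (φ n).symm ⁻¹' (N.inc ⁻¹' W)),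
        ‖t.f i' j' (φ n) ((φ n).symm z)‖ₑ ^ (-τ) ≤
        (ENNReal.ofReal C) ^ τ * ∫⁻ z in B n, ‖t.f i j (φ n) ((φ n).symm z)‖ₑ ^ (-τ) := by
      intro n
      rw [← lintegral_const_mul' _ _ hCt]
      refine le_trans (setLIntegral_mono' ?_ ?_) (lintegral_mono_set inter_subset_left)
      · exact (hB n).2.1.inter
          ((φ n).symm.isOpen_inter_preimage (hWo.preimage N.emb.continuous)).measurableSet
      intro z hz
      obtain ⟨h1, h2, h3⟩ := hz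
      obtain ⟨-, k2, k3, k4, k5, k6, k7⟩ := hW _ h3
      have hs : (φ n).symm z ∈ (φ n).source := (φ n).map_target h2
      have a1 : At L.reg P.reg i j (φ n) ((φ n).symm z) := ⟨(hB n).1, k3, k5, hs⟩
      have a2 : At L.reg P.reg i' j' (φ n) ((φ n).symm z) := ⟨(hB n).1, k4, k6, hs⟩
      refine kltchart_enorm_rpow (by simpa using hCpos) ENNReal.ofReal_ne_top hτ ?_
      have e1 := t.trans' k2 a1 a2
      have e2 : jac (φ n) (φ n) ((φ n).symm z) = 1 := by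
        have h4 : (φ n ∘ (φ n).symm : E → E) =ᶠ[𝓝 (φ n ((φ n).symm z))] id := by
          filter_upwards [(φ n).open_target.mem_nhds ((φ n).map_source hs)] with w hw
          exact (φ n).right_inv hw
        unfold jac
        rw [h4.fderiv_eq, fderiv_id]
        exact LinearMap.det_id
      rw [e2, one_pow, mul_one] at e1
      rw [e1, enorm_mul]
      refine mul_le_mul' ?_ le_rfl
      rw [← ofReal_norm]
      exact ENNReal.ofReal_le_ofReal k7.le
    refine lt_of_le_of_lt (ENNReal.tsum_le_tsum hle) ?_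
    rw [ENNReal.tsum_mul_left]
    exact ENNReal.mul_lt_top hCt.lt_top hint

end Pool.Agent.Abn
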