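import Pool.Agent.H.MP_e23cd6_ag.NT.KltPt
import Pool.Agent.H.MP_e23cd6_ag.NT.KltLoc
import Pool.Agent.H.MP_e23cd6_ag.NT.BertS
import Pool.Agent.H.MP_e23cd6_ag.NT.TFin

/-! The klt pair on the quotient of the normal space. -/

set_option autoImplicit false

open scoped Manifold ContDiff Topology ENNReal
open MeasureTheory Set Filter

namespace Pool.Agent.Abn

open Pool.Agent.Abd

variable {E : Type} [NormedAddCommGroup E] [NormedSpace ℂ E] [FiniteDimensional ℂ E]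
  [MeasureSpace E] [BorelSpace E] [(volume : Measure E).IsAddHaarMeasure] {r : ℕ}
  {X₀ X : Type} [TopologicalSpace X₀] [ChartedSpace E X₀] [IsManifold 𝓘(ℂ, E) ω X₀]
  [SecondCountableTopology X₀] [TopologicalSpace X] [T2Space X] [LocallyCompactSpace X]
  {N : NSp E X₀ X} {L P : NLine N} {K J m k : ℕ} {U : Set X}
  {A : NAct r N} (ΛL : NLin A L) (ΛP : NLin A P)

/-- The klt transfer. -/
theorem nklt_transfer {S : Finset (Fin r)} (hG : NGood A S U) {i₀ : Fin r} (hi₀ : i₀ ∉ S)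
    {U' : Set X} (hU'U : U' ⊆ U) (hG' : NGood A (insert i₀ S) U')
    (hm : 1 ≤ m) {χ : Fin r → ℤ} (h : NormOn L.reg P.reg K J (N.inc ⁻¹' U))
    (hh : h.Inv ΛL.reg ΛP.reg S χ)
    (hlow : ∀ x ∈ U, ∀ i j, NAt L P i j x → ∃ W ∈ 𝓝 x, ∃ δ > (0 : ℝ), ∀ y, N.inc y ∈ W →
      δ ≤ h.h i j y)
    (hup : ∀ x ∈ U, ∀ i j, NAt L P i j x → ∃ W ∈ 𝓝 x, ∃ H : ℝ, ∀ y, N.inc y ∈ W →
      h.h i j y ≤ H)
    (s : Sec2 L.reg P.reg (k * K) (k * J) m (N.inc ⁻¹' U))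
    (hs : TFin ΛL.reg ΛP.reg (k * K) (k * J) m (N.inc ⁻¹' U) S (fun c => k * χ c) s.f)
    (hklt : NKlt s)
    (hgr : ∀ x0 ∈ U', ∃ V ∈ 𝓝 x0, ∃ C : ℝ, ∀ y, N.inc y ∈ V → ∀ n : ℤ,
      h.gr ΛL.reg ΛP.reg (el i₀ ((2 : ℂ) ^ n)) y ≤ C * ‖chr χ (el i₀ ((2 : ℂ) ^ n))‖) :
    ∃ q : ℕ, 1 ≤ q ∧ ∃ t : Sec2 L.reg P.reg (q * (k * K)) (q * (k * J)) (q * m) (N.inc ⁻¹' U'),
      TFin ΛL.reg ΛP.reg (q * (k * K)) (q * (k * J)) (q * m) (N.inc ⁻¹' U') (insert i₀ S)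
        (fun c => q * (k * χ c)) t.f ∧ NKlt t := by
  classical
  have hU' := hG'.isOpen
  have hp := hG'.proper
  have hne : U'.Nonempty := hG'.conn.nonempty
  obtain ⟨y₀, -⟩ := exists_reg N hU' hne
  haveI : Nonempty X₀ := ⟨y₀⟩
  haveI : T2Space X₀ := N.emb.toIsEmbedding.t2Space
  have hU'₀ : IsOpen (N.inc ⁻¹' U') := hU'.preimage N.emb.continuous
  have hsub₀ : N.inc ⁻¹' U' ⊆ N.inc ⁻¹' U := fun y hy => hU'U hy
  obtain ⟨φ, D, hφ, hDφ, hDm, hDd, hDcov⟩ := exists_atlas (E := E) (X₀ := X₀)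
  obtain ⟨Ξ, sν, hTν, hsum⟩ := hs.components hi₀
  have hsν := fun ν => (hTν ν).toWt
  obtain ⟨q, hq, Λ, hΛ, c0, hc0, hc0', hfm⟩ := fm_sum Ξ m hm (k * χ i₀) 1 le_rfl
  have hpt : ∀ x0 : {x // x ∈ U'}, ∃ i j, ∃ V, IsOpen V ∧ x0.1 ∈ V ∧ V ⊆ U' ∧
      (∀ x ∈ V, NAt L P i j x) ∧
      ∑' n, ∫⁻ w in φ n '' (N.inc ⁻¹' V ∩ D n),
        (∑ l : Λ, ‖∏ ν : Ξ, (sν ν).f i j (φ n) ((φ n).symm w) ^ (l : Ξ → ℕ) ν‖ₑ) ^
        (-(2 : ℝ) / (m * q : ℕ)) < ⊤ := fun x0 =>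
    nklt_point ΛL ΛP hG hi₀ hU' hU'U hp hm h hh hlow hup s hs.toWt hklt Ξ sν hsν hsum hgr hc0
      hc0' hfm hφ hDφ hDm hDd x0.2
  choose i j V hVo hxV hVU hAt hint using hpt
  -- countably many points suffice on the regular part; on `X` we use all the sets `V` through
  -- a countable subfamily which covers `U'`
  obtain ⟨T, hTc, hT⟩ : ∃ T : Set {x // x ∈ U'}, T.Countable ∧ U' ⊆ ⋃ t ∈ T, V t := by
    obtain ⟨Kh, hKh, hKhU, hKhx⟩ := exists_khat hG'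
    have h1 : ∀ n : Fin r → ℤ, ∃ T : Finset {x // x ∈ U'},
        A.act (lat n)⁻¹ '' Kh ⊆ ⋃ t ∈ T, V t := by
      intro n
      have hc : IsCompact (A.act (lat n)⁻¹ '' Kh) :=
        hKh.image (nact_continuous A (lat_inT n).inv)
      refine hc.elim_finite_subcover V hVo ?_
      rintro _ ⟨x, hx, rfl⟩
      have h2 : A.act (lat n)⁻¹ x ∈ U' := hG'.inv _ (lat_inT n).inv x (hKhU hx)
      exact mem_iUnion.2 ⟨⟨_, h2⟩, hxV _⟩
    choose T hT using h1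
    refine ⟨⋃ n, (T n : Set {x // x ∈ U'}), countable_iUnion fun n => (T n).countable_toSet, ?_⟩
    intro x hx
    obtain ⟨n, -, hn⟩ := hKhx x hx
    have h2 : x ∈ A.act (lat n)⁻¹ '' Kh := ⟨_, hn, nact_inv_act A (lat_inT n) x⟩
    obtain ⟨t, ht, hxt⟩ := mem_iUnion₂.1 (hT n h2)
    exact mem_iUnion₂.2 ⟨t, mem_iUnion.2 ⟨n, ht⟩, hxt⟩
  have hcount : Countable T := hTc.to_subtype
  have hmq : 2 ≤ m * q := by nlinarith
  have hmq' : (2 : ℝ) ≤ ((m * q : ℕ) : ℝ) := by exact_mod_cast hmq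
  have hτ : (0 : ℝ) < 2 / ((m * q : ℕ) : ℝ) := by positivity
  have hτ2 : (2 : ℝ) / ((m * q : ℕ) : ℝ) < 2 := by
    rw [div_lt_iff₀ (by linarith)]
    linarith
  have hWm : ∀ (t : {x // x ∈ U'}) (n : ℕ), MeasurableSet (φ n '' (N.inc ⁻¹' V t ∩ D n)) := fun t n =>
    CM.image (hφ n) ((CM.of_isOpen ((hVo t).preimage N.emb.continuous)).inter (hDm n))
      (fun y hy => hDφ n hy.2)
  obtain ⟨C, hC⟩ := bertini_seq (J := T) (Λ := Λ)
    (fun t n => volume.restrict (φ n '' (N.inc ⁻¹' V t.1 ∩ D n)))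
    (fun t n l w => ∏ ν : Ξ, (sν ν).f (i t.1) (j t.1) (φ n) ((φ n).symm w) ^ (l : Ξ → ℕ) ν)
    (fun t n l => by
      refine ContinuousOn.aemeasurable ?_ (hWm t.1 n)
      rintro w ⟨y, hy, rfl⟩
      apply ContinuousAt.continuousWithinAt
      have hs1 : y ∈ (φ n).source := hDφ n hy.2
      have h1 : ContinuousAt (φ n).symm (φ n y) :=
        (φ n).continuousAt_symm ((φ n).map_source hs1)
      refine tendsto_finsetProd _ ?_
      intro ν _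
      apply ContinuousAt.pow
      have h2 := ((sν ν).hol' (hU'U (hVU t.1 hy.1))
        ((hAt t.1 _ hy.1).reg' (hφ n) hs1)).continuousAt
      rw [← (φ n).left_inv hs1] at h2
      exact ContinuousAt.comp (f := (φ n).symm) h2 h1) hτ hτ2 (fun t => by
      have h1 := hint t.1
      rwa [neg_div] at h1)
  refine ⟨q, by omega, Sec2.sum Finset.univ (fun l : Λ => Sec2.smul (C l)
    (Sec2.mono Finset.univ (fun ν : Ξ => (sν ν).res hsub₀) (l : Ξ → ℕ) q (hΛ l l.2).1)), ?_, ?_⟩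
  · have h1 : TFin ΛL.reg ΛP.reg (q * (k * K)) (q * (k * J)) (q * m) (N.inc ⁻¹' U') (insert i₀ S)
        (fun c => q * (k * χ c)) (fun i j φ y => ∑ l : Λ, C l *
          (Sec2.mono Finset.univ (fun ν : Ξ => (sν ν).res hsub₀) (l : Ξ → ℕ) q
            (hΛ l l.2).1).f i j φ y) := by
      apply TFin.sum
      intro l
      apply TFin.smul
      refine TFin.mono (s := fun ν : Ξ => (sν ν).res hsub₀)
        (w := fun ν : Ξ => Function.update (fun c => (k : ℤ) * χ c) i₀ (ν : ℤ))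
        Finset.univ (fun ν _ => (hTν ν).res hsub₀) _ _ ?_
      intro c hc
      by_cases hci : c = i₀
      · subst hci
        have h1 := (hΛ l l.2).2
        simp only [Function.update_self]
        push_cast at h1
        linarith
      · simp only [Function.update_of_ne hci]
        rw [← Finset.sum_mul]
        have h1 := (hΛ l l.2).1
        rw [← h1]
        push_cast
        rfl
    exact h1.congr (fun _ _ _ _ _ _ => rfl)
  · apply nklt_of_local hU'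
    intro x hx
    have h1 := hT hx
    simp only [mem_iUnion, exists_prop] at h1
    obtain ⟨t, htT, hxt⟩ := h1
    refine ⟨i t, j t, (hAt t x hxt).memL, (hAt t x hxt).memP, V t, (hVo t).mem_nhds hxt, φ,
      fun n => φ n '' (N.inc ⁻¹' V t ∩ D n), fun n => ⟨hφ n, hWm t n, ?_⟩, ?_, ?_⟩
    · rintro w ⟨y, hy, rfl⟩
      exact (φ n).map_source (hDφ n hy.2)
    · intro y hy
      obtain ⟨n, hn⟩ := hDcov y
      exact mem_iUnion.2 ⟨n, φ n y, ⟨y, ⟨hy, hn⟩, rfl⟩, (φ n).left_inv (hDφ n hn)⟩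
    · have h2 := hC ⟨t, htT⟩
      have h3 : -(2 : ℝ) / ((q * m : ℕ) : ℝ) = -(2 / ((m * q : ℕ) : ℝ)) := by
        rw [mul_comm q m, neg_div]
      rw [h3]
      exact h2

end Pool.Agent.Abn
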