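import Pool.Agent.H.MP_e23cd6_ag.NT.Ext
import Pool.Agent.H.MP_e23cd6_ag.GT.Wander

/-! Wandering neighbourhoods for the discrete subgroup, on the normal space `X`. -/

set_option autoImplicit false

open scoped Manifold ContDiff Topology ENNReal
open MeasureTheory Set Filter

namespace Pool.Agent.Abn

open Pool.Agent.Abd

variable {E : Type} [NormedAddCommGroup E] [NormedSpace ℂ E] {r : ℕ}
  {X₀ X : Type} [TopologicalSpace X₀] [ChartedSpace E X₀]
  [TopologicalSpace X] {N : NSp E X₀ X} {U V : Set X}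
  {A : NAct r N} {S : Finset (Fin r)}

/-- Properness gives wandering neighbourhoods for the discrete subgroup. -/
theorem exists_wander [LocallyCompactSpace X] (hU : IsOpen U) (hp : ∀ C ⊆ U, IsCompact C → ∃ R : ℝ, ∀ a, InTS S a →
      ∀ x ∈ C, A.act a x ∈ C → ∀ c, ‖a c‖ ≤ R ∧ ‖(a c)⁻¹‖ ≤ R) {x0 : X} (hx0 : x0 ∈ U) :
    ∃ V : Set X, IsOpen V ∧ x0 ∈ V ∧ V ⊆ U ∧
      {n : Fin r → ℤ | (∀ c, c ∉ S → n c = 0) ∧ ∃ x ∈ V, A.act (lat n) x ∈ V}.Finite := by
  obtain ⟨K, hK, hxK, hKU⟩ := exists_compact_subset hU hx0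
  obtain ⟨R, hR⟩ := hp K hKU hK
  obtain ⟨M, hM⟩ := pow_unbounded_of_one_lt R (one_lt_two : (1 : ℝ) < 2)
  refine ⟨interior K, isOpen_interior, hxK, interior_subset.trans hKU, ?_⟩
  refine (Set.finite_Icc (fun _ : Fin r => -(M : ℤ)) (fun _ => (M : ℤ))).subset ?_
  rintro n ⟨hn, x, hx, hnx⟩
  have h := hR (lat n) (lat_inTS hn) x (interior_subset hx) (interior_subset hnx)
  have hk : ∀ k : ℤ, (2 : ℝ) ^ k ≤ R → k ≤ M := by
    intro k hk
    have h1 : (2 : ℝ) ^ k < (2 : ℝ) ^ (M : ℤ) := by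
      rw [zpow_natCast]
      exact lt_of_le_of_lt hk hM
    exact ((zpow_lt_zpow_iff_right₀ (one_lt_two : (1 : ℝ) < 2)).1 h1).le
  constructor
  · intro c
    have h1 := (h c).2
    rw [lat, ← zpow_neg, norm_zpow, Complex.norm_two] at h1
    have h2 := hk _ h1
    show -(M : ℤ) ≤ n c
    linarith
  · intro c
    have h1 := (h c).1
    rw [lat, norm_zpow, Complex.norm_two] at h1
    exact hk _ h1

/-- A compact set which is met by the orbits of the discrete subgroup of `T_S`. -/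
theorem exists_khat (hG : NGood A S U) : ∃ Kh : Set X, IsCompact Kh ∧ Kh ⊆ U ∧
    ∀ x ∈ U, ∃ n : Fin r → ℤ, (∀ c, c ∉ S → n c = 0) ∧ A.act (lat n) x ∈ Kh := by
  classical
  obtain ⟨C, hCU, hC, hcov⟩ := hG.cocompact
  have hDc := wander_isCompact S
  have hD0 : ∀ t ∈ wander_D S, InT t := by
    intro t ht c
    by_cases hc : c ∈ S
    · have h1 := ((ht c).1 hc).1
      intro h0
      rw [h0, norm_zero] at h1
      linarith
    · rw [(ht c).2 hc]
      exact one_ne_zero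
  refine ⟨(fun v : (Fin r → ℂ) × X => A.act v.1 v.2) '' (wander_D S ×ˢ C), ?_, ?_, ?_⟩
  · refine (hDc.prod hC).image_of_continuousOn ?_
    intro v hv
    have h1 : ContinuousAt (fun v : (Fin r → ℂ) × X => A.act v.1 v.2) (v.1, v.2) :=
      A.cont v.1 (hD0 v.1 hv.1) v.2
    exact h1.continuousWithinAt
  · rintro _ ⟨v, hv, rfl⟩
    exact hG.inv v.1 (hD0 v.1 hv.1) v.2 (hCU hv.2)
  · intro x hx
    obtain ⟨a, ha, hax⟩ := hcov x hx
    have hex : ∀ c, ∃ k : ℤ, ‖a c‖ ∈ Set.Ioc ((2 : ℝ) ^ k) ((2 : ℝ) ^ (k + 1)) := fun c =>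
      exists_mem_Ioc_zpow (norm_pos_iff.2 (ha.1 c)) one_lt_two
    choose k hk using hex
    have hn0 : ∀ c, c ∉ S → (fun c => if c ∈ S then k c + 1 else 0) c = (0 : ℤ) := by
      intro c hc
      simp [hc]
    refine ⟨fun c => if c ∈ S then k c + 1 else 0, hn0, ?_⟩
    set n : Fin r → ℤ := fun c => if c ∈ S then k c + 1 else 0 with hn
    have hlat : lat n = (lat n * a⁻¹) * a := by
      rw [mul_assoc, ha.1.inv_mul, mul_one]
    have ht : lat n * a⁻¹ ∈ wander_D S := by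
      intro c
      constructor
      · intro hc
        have h1 : n c = k c + 1 := by simp [hn, hc]
        have h2 : (lat n * a⁻¹) c = (2 : ℂ) ^ (k c + 1) * (a c)⁻¹ := by
          show (2 : ℂ) ^ n c * (a c)⁻¹ = _
          rw [h1]
        have hpos : 0 < ‖a c‖ := norm_pos_iff.2 (ha.1 c)
        rw [h2, norm_mul, norm_inv, norm_zpow, Complex.norm_two, ← div_eq_mul_inv, le_div_iff₀ hpos,
          div_le_iff₀ hpos, one_mul]
        refine ⟨(hk c).2, ?_⟩
        rw [zpow_add_one₀ two_ne_zero, mul_comm]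
        have := (hk c).1
        linarith
      · intro hc
        have h1 : n c = 0 := by simp [hn, hc]
        show (2 : ℂ) ^ n c * (a c)⁻¹ = _
        rw [h1, ha.2 c hc, zpow_zero, inv_one, one_mul]
    refine ⟨(lat n * a⁻¹, A.act a x), ⟨ht, hax⟩, ?_⟩
    show A.act (lat n * a⁻¹) (A.act a x) = A.act (lat n) x
    rw [← A.mul _ _ (hD0 _ ht) ha.1, ← hlat]

end Pool.Agent.Abn
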