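import Pool.Agent.H.MP_e23cd6_ag.NT.SumInt
import Pool.Agent.H.MP_e23cd6_ag.NT.Wander
import Pool.Agent.H.MP_e23cd6_ag.GT.KltPt

/-! Integrability of the sum of the monomials near a point of the normal space. -/

set_option autoImplicit false

open scoped Manifold ContDiff Topology ENNReal
open MeasureTheory Set Filter

namespace Pool.Agent.Abn

open Pool.Agent.Abd

section atlas

variable {E : Type} [NormedAddCommGroup E] [NormedSpace ℂ E] [MeasurableSpace E] [BorelSpace E]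
  {X₀ : Type} [TopologicalSpace X₀] [ChartedSpace E X₀] [IsManifold 𝓘(ℂ, E) ω X₀]

/-- A countable atlas with disjoint measurable pieces. -/
theorem exists_atlas [SecondCountableTopology X₀] [Nonempty X₀] :
    ∃ (φ : ℕ → OpenPartialHomeomorph X₀ E) (D : ℕ → Set X₀), (∀ n, φ n ∈ Charts E X₀) ∧
      (∀ n, D n ⊆ (φ n).source) ∧ (∀ n, CM E (D n)) ∧
      (∀ n n' x, x ∈ D n → x ∈ D n' → n = n') ∧ ∀ x, ∃ n, x ∈ D n := by
  obtain ⟨T, hTc, hT⟩ := TopologicalSpace.countable_cover_nhds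
    (f := fun x : X₀ => (chartAt E x).source)
    (fun x => (chartAt E x).open_source.mem_nhds (mem_chart_source E x))
  have hne : T.Nonempty := by
    obtain ⟨x⟩ := ‹Nonempty X₀›
    have h1 : x ∈ ⋃ x ∈ T, (chartAt E x).source := by rw [hT]; exact mem_univ x
    simp only [mem_iUnion] at h1
    obtain ⟨t, ht, -⟩ := h1
    exact ⟨t, ht⟩
  obtain ⟨g, hg⟩ := hTc.exists_eq_range hne
  have hcov : ∀ x, ∃ n, x ∈ (chartAt E (g n)).source := by
    intro x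
    have h1 : x ∈ ⋃ x ∈ T, (chartAt E x).source := by rw [hT]; exact mem_univ x
    simp only [mem_iUnion] at h1
    obtain ⟨t, ht, hx⟩ := h1
    rw [hg] at ht
    obtain ⟨n, rfl⟩ := ht
    exact ⟨n, hx⟩
  refine ⟨fun n => chartAt E (g n), fun n => (chartAt E (g n)).source \
    ⋃ m ∈ Finset.range n, (chartAt E (g m)).source,
    fun n => IsManifold.chart_mem_maximalAtlas (g n), fun n x hx => hx.1, ?_, ?_, ?_⟩
  · intro n
    refine CM.diff (CM.of_isOpen (chartAt E (g n)).open_source) (CM.of_isOpen ?_)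
    exact isOpen_biUnion fun m _ => (chartAt E (g m)).open_source
  · intro n n' x hx hx'
    by_contra hne
    rcases lt_or_gt_of_ne hne with h | h
    · exact hx'.2 (mem_iUnion₂.2 ⟨n, Finset.mem_range.2 h, hx.1⟩)
    · exact hx.2 (mem_iUnion₂.2 ⟨n', Finset.mem_range.2 h, hx'.1⟩)
  · intro x
    classical
    refine ⟨Nat.find (hcov x), Nat.find_spec (hcov x), ?_⟩
    intro h1
    obtain ⟨m, hm, hxm⟩ := mem_iUnion₂.1 h1
    exact Nat.find_min (hcov x) (Finset.mem_range.1 hm) hxm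

theorem CM.image {φ : OpenPartialHomeomorph X₀ E} (hφ : φ ∈ Charts E X₀) {W : Set X₀}
    (hW : CM E W) (h : W ⊆ φ.source) : MeasurableSet (φ '' W) := by
  have h1 : φ '' W = φ.target ∩ φ.symm ⁻¹' W := by
    ext w
    constructor
    · rintro ⟨x, hx, rfl⟩
      refine ⟨φ.map_source (h hx), ?_⟩
      show φ.symm (φ x) ∈ W
      rw [φ.left_inv (h hx)]
      exact hx
    · rintro ⟨h1, h2⟩
      exact ⟨φ.symm w, h2, φ.right_inv h1⟩
  rw [h1]
  exact hW φ hφ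

end atlas

variable {E : Type} [NormedAddCommGroup E] [NormedSpace ℂ E] [FiniteDimensional ℂ E]
  [MeasureSpace E] [BorelSpace E] [(volume : Measure E).IsAddHaarMeasure] {r : ℕ}
  {X₀ X : Type} [TopologicalSpace X₀] [ChartedSpace E X₀] [IsManifold 𝓘(ℂ, E) ω X₀]
  [TopologicalSpace X] [T2Space X] [LocallyCompactSpace X]
  {N : NSp E X₀ X} {L P : NLine N} {K J m k : ℕ} {U : Set X}
  {A : NAct r N} (ΛL : NLin A L) (ΛP : NLin A P)

/-- Integrability of the sum of the monomials near a point `x0` of `U'`. -/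
theorem nklt_point {S : Finset (Fin r)} (hG : NGood A S U) {i₀ : Fin r} (hi₀ : i₀ ∉ S)
    {U' : Set X} (hU' : IsOpen U') (hU'U : U' ⊆ U)
    (hp : ∀ C ⊆ U', IsCompact C → ∃ R : ℝ, ∀ a, InTS (insert i₀ S) a →
      ∀ x ∈ C, A.act a x ∈ C → ∀ c, ‖a c‖ ≤ R ∧ ‖(a c)⁻¹‖ ≤ R)
    (hm : 1 ≤ m) {χ : Fin r → ℤ} (h : NormOn L.reg P.reg K J (N.inc ⁻¹' U))
    (hh : h.Inv ΛL.reg ΛP.reg S χ)
    (hlow : ∀ x ∈ U, ∀ i j, NAt L P i j x → ∃ W ∈ 𝓝 x, ∃ δ > (0 : ℝ), ∀ y, N.inc y ∈ W →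
      δ ≤ h.h i j y)
    (hup : ∀ x ∈ U, ∀ i j, NAt L P i j x → ∃ W ∈ 𝓝 x, ∃ H : ℝ, ∀ y, N.inc y ∈ W →
      h.h i j y ≤ H)
    (s : Sec2 L.reg P.reg (k * K) (k * J) m (N.inc ⁻¹' U))
    (hs : OfWt ΛL.reg ΛP.reg S (fun c => k * χ c) s) (hklt : NKlt s)
    (Ξ : Finset ℤ) (sν : ℤ → Sec2 L.reg P.reg (k * K) (k * J) m (N.inc ⁻¹' U))
    (hsν : ∀ ν, OfWt ΛL.reg ΛP.reg (insert i₀ S) (Function.update (fun c => k * χ c) i₀ ν) (sν ν))
    (hsum : ∀ y ∈ N.inc ⁻¹' U, ∀ i j φ, At L.reg P.reg i j φ y →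
      s.f i j φ y = ∑ ν ∈ Ξ, (sν ν).f i j φ y)
    (hgr : ∀ x0 ∈ U', ∃ V ∈ 𝓝 x0, ∃ C : ℝ, ∀ y, N.inc y ∈ V → ∀ n : ℤ,
      h.gr ΛL.reg ΛP.reg (el i₀ ((2 : ℂ) ^ n)) y ≤ C * ‖chr χ (el i₀ ((2 : ℂ) ^ n))‖)
    {q : ℕ} {Λ : Finset (Ξ → ℕ)} {c0 : ℝ≥0∞} (hc0 : c0 ≠ 0) (hc0' : c0 ≠ ⊤)
    (hfm : ∀ z : Ξ → ℂ, c0 * (∑ l : Λ, ‖∏ ν, z ν ^ (l : Ξ → ℕ) ν‖ₑ) ^ (-(2 : ℝ) / (m * q : ℕ)) ≤
      ∑' n : ℤ, (‖∑ ν : Ξ, (2 : ℂ) ^ (-(n * (ν : ℤ))) * z ν‖ₑ *
        ENNReal.ofReal ((2 : ℝ) ^ ((n : ℝ) * (k * χ i₀ : ℤ) / (1 : ℕ)))) ^ (-(2 : ℝ) / m))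
    {φ : ℕ → OpenPartialHomeomorph X₀ E} {D : ℕ → Set X₀} (hφ : ∀ n, φ n ∈ Charts E X₀)
    (hDφ : ∀ n, D n ⊆ (φ n).source) (hDm : ∀ n, CM E (D n))
    (hDd : ∀ n n' x, x ∈ D n → x ∈ D n' → n = n')
    {x0 : X} (hx0 : x0 ∈ U') :
    ∃ i j, ∃ V, IsOpen V ∧ x0 ∈ V ∧ V ⊆ U' ∧ (∀ x ∈ V, NAt L P i j x) ∧
      ∑' n, ∫⁻ w in φ n '' (N.inc ⁻¹' V ∩ D n),
        (∑ l : Λ, ‖∏ ν : Ξ, (sν ν).f i j (φ n) ((φ n).symm w) ^ (l : Ξ → ℕ) ν‖ₑ) ^
        (-(2 : ℝ) / (m * q : ℕ)) < ⊤ := by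
  haveI : T2Space X₀ := N.emb.toIsEmbedding.t2Space
  have hU := hG.isOpen
  have hU₀ : IsOpen (N.inc ⁻¹' U) := hU.preimage N.emb.continuous
  have hinv : ∀ a, InT a → ∀ y ∈ N.inc ⁻¹' U, A.reg.act a y ∈ N.inc ⁻¹' U := by
    intro a ha y hy
    show N.inc (A.reg.act a y) ∈ U
    rw [← A.inc a ha y]
    exact hG.inv a ha _ hy
  obtain ⟨i, j, hat⟩ := exists_nat L P x0
  obtain ⟨Vw, hVw, hx0w, hVwU, hfin⟩ := exists_wander (A := A) hU' hp hx0
  obtain ⟨Vg, hVg, C, hC⟩ := hgr x0 hx0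
  obtain ⟨Kh, hKh, hKhU, hKhx⟩ := exists_khat hG
  have hx0U : x0 ∈ U := hU'U hx0
  obtain ⟨Vh, hVh, H₀, hH₀⟩ := hup x0 hx0U i j hat
  have hnb : Vw ∩ (Vg ∩ ({x | NAt L P i j x} ∩ Vh)) ∈ 𝓝 x0 :=
    Filter.inter_mem (hVw.mem_nhds hx0w) (Filter.inter_mem hVg
      (Filter.inter_mem hat.eventually hVh))
  set V := interior (Vw ∩ (Vg ∩ ({x | NAt L P i j x} ∩ Vh))) with hVdef
  have hV : IsOpen V := isOpen_interior
  have hx0V : x0 ∈ V := mem_interior_iff_mem_nhds.2 hnb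
  have hVsub := fun {x : X} (hx : x ∈ V) => interior_subset hx
  have hVU' : V ⊆ U' := fun x hx => hVwU (hVsub hx).1
  have hVU : V ⊆ U := fun x hx => hU'U (hVU' hx)
  have hVat : ∀ x ∈ V, NAt L P i j x := fun x hx => (hVsub hx).2.2.1
  refine ⟨i, j, V, hV, hx0V, hVU', hVat, ?_⟩
  -- the pieces
  set W : ℕ → Set X₀ := fun n => N.inc ⁻¹' V ∩ D n with hWdef
  have hV₀ : IsOpen (N.inc ⁻¹' V) := hV.preimage N.emb.continuous
  have hW : ∀ n, CM E (W n) := fun n => (CM.of_isOpen hV₀).inter (hDm n)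
  have hWφ : ∀ n, W n ⊆ (φ n).source := fun n y hy => hDφ n hy.2
  have hWU : ∀ n, W n ⊆ N.inc ⁻¹' U := fun n y hy => hVU hy.1
  have hWat : ∀ n, ∀ y ∈ W n, At L.reg P.reg i j (φ n) y := fun n y hy =>
    (hVat _ hy.1).reg' (hφ n) (hWφ n hy)
  -- the compact set
  have hKhx₀ : ∀ y ∈ N.inc ⁻¹' U, ∃ n : Fin r → ℤ, (∀ c, c ∉ S → n c = 0) ∧
      A.reg.act (lat n) y ∈ N.inc ⁻¹' Kh := by
    intro y hy
    obtain ⟨n, hn, hn2⟩ := hKhx _ hy
    refine ⟨n, hn, ?_⟩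
    show N.inc (A.reg.act (lat n) y) ∈ Kh
    rw [← A.inc _ (lat_inT n) y]
    exact hn2
  obtain ⟨I, hI, ψ, Cp, hψ, hCm, hCψ, hCU, hcov, hCfin⟩ := exists_npieces h hU hlow s hklt hKh hKhU
  -- constants
  set C1 : ℝ := max C 1 with hC1
  have hC1pos : 0 < C1 := lt_of_lt_of_le one_pos (le_max_right _ _)
  set H : ℝ := max H₀ 1 with hH
  have hHpos : 0 < H := lt_of_lt_of_le one_pos (le_max_right _ _)
  set κ : ℝ≥0∞ := ENNReal.ofReal ((C1 * H) ^ k) ^ (-(2 : ℝ) / m) with hκ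
  have hbase : ENNReal.ofReal ((C1 * H) ^ k) ≠ 0 := by
    rw [ne_eq, ENNReal.ofReal_eq_zero, not_le]
    positivity
  have hκ0 : κ ≠ 0 := by
    rw [hκ, ne_eq, ENNReal.rpow_eq_zero_iff]
    push Not
    exact ⟨fun h => absurd h hbase, fun h => absurd h ENNReal.ofReal_ne_top⟩
  have hκT : κ ≠ ⊤ := by
    rw [hκ, ne_eq, ENNReal.rpow_eq_top_iff]
    push Not
    exact ⟨fun h => absurd h hbase, fun h => absurd h ENNReal.ofReal_ne_top⟩
  -- the sets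
  let DD := {n : Fin r → ℤ // ∀ c, c ∉ insert i₀ S → n c = 0}
  have hcD : Countable DD := Subtype.countable
  let B : ℕ → DD → Set E := fun n d => φ n '' (W n ∩ {y | A.reg.act (lat d.1) y ∈ N.inc ⁻¹' Kh})
  let f : ℕ → DD → E → ℝ≥0∞ := fun n d w => ENNReal.ofReal (dens h s
    (pull A.reg (lat_inT d.1).inv (φ n)) (A.reg.act (lat d.1) ((φ n).symm w))) ^ (-(2 : ℝ) / m)
  have hWm : ∀ n, MeasurableSet (φ n '' W n) := fun n => CM.image (hφ n) (hW n) (hWφ n)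
  have hsymm : ∀ n, ∀ w ∈ φ n '' W n, (φ n).symm w ∈ W n := by
    rintro n w ⟨x, hx, rfl⟩
    rw [(φ n).left_inv (hWφ n hx)]
    exact hx
  have htgt : ∀ n, φ n '' W n ⊆ (φ n).target := by
    rintro n w ⟨x, hx, rfl⟩
    exact (φ n).map_source (hWφ n hx)
  have hKc : IsOpen (N.inc ⁻¹' Kh)ᶜ := by
    rw [← preimage_compl]
    exact hKh.isClosed.isOpen_compl.preimage N.emb.continuous
  have hB : ∀ n d, MeasurableSet (B n d) := by
    intro n d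
    have h1 : CM E (W n ∩ {y | A.reg.act (lat d.1) y ∈ N.inc ⁻¹' Kh}) := by
      have h2 : W n ∩ {y | A.reg.act (lat d.1) y ∈ N.inc ⁻¹' Kh} =
          W n \ (A.reg.act (lat d.1) ⁻¹' (N.inc ⁻¹' Kh)ᶜ) := by
        ext y
        simp only [mem_inter_iff, Set.mem_sdiff, mem_preimage, mem_compl_iff, not_not,
          mem_ofPred_eq]
      rw [h2]
      exact (hW n).diff (CM.of_isOpen (hKc.preimage (act_continuous A.reg (lat_inT d.1))))
    exact CM.image (hφ n) h1 (fun y hy => hWφ n hy.1)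
  have hBV : ∀ n d, B n d ⊆ φ n '' W n := fun n d => Set.image_mono Set.inter_subset_left
  have hf : ∀ n d, AEMeasurable (f n d) (volume.restrict (φ n '' W n)) := by
    intro n d
    have h2 : ContinuousOn (fun w => dens h s (pull A.reg (lat_inT d.1).inv (φ n))
        (A.reg.act (lat d.1) ((φ n).symm w))) (φ n '' W n) := by
      intro w hw
      have h3 := hsymm n w hw
      have h4 : ContinuousAt (dens h s (pull A.reg (lat_inT d.1).inv (φ n)))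
          (A.reg.act (lat d.1) ((φ n).symm w)) := by
        apply kltpt_cont h hU₀ s (pull_mem A.reg (lat_inT d.1).inv (hφ n))
          (hinv _ (lat_inT d.1) _ (hWU n h3))
        rw [mem_pull_source, act_inv_act A.reg (lat_inT d.1)]
        exact hWφ n h3
      have h5 : ContinuousAt (fun w => A.reg.act (lat d.1) ((φ n).symm w)) w :=
        ((act_continuous A.reg (lat_inT d.1)).continuousAt).comp
          ((φ n).continuousAt_symm (htgt n hw))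
      exact (ContinuousAt.comp (f := fun w => A.reg.act (lat d.1) ((φ n).symm w))
        h4 h5).continuousWithinAt
    have h5 : AEMeasurable (fun w => dens h s (pull A.reg (lat_inT d.1).inv (φ n))
        (A.reg.act (lat d.1) ((φ n).symm w))) (volume.restrict (φ n '' W n)) :=
      h2.aemeasurable (hWm n)
    exact h5.ennreal_ofReal.pow_const _
  have hWun : ∀ y ∈ ⋃ n, W n, N.inc y ∈ V := by
    intro y hy
    obtain ⟨n, hn⟩ := mem_iUnion.1 hy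
    exact hn.1
  have htot := sum_int_lt_top' (A := A.reg) h hinv hm s (Kh := N.inc ⁻¹' Kh) hψ hCm hCψ
    (fun y hy => hcov y hy) hCfin (insert i₀ S) hφ hW hWU hWφ
    (fun n n' y hy hy' => hDd n n' y hy.2 hy'.2)
    (hfin.subset (fun n hn => ⟨hn.1, by
      obtain ⟨y, hy, hy2⟩ := hn.2
      refine ⟨N.inc y, (hVsub (hWun y hy)).1, ?_⟩
      rw [A.inc _ (lat_inT n) y]
      exact (hVsub (hWun _ hy2)).1⟩))
  have hint : ∀ n, ∫⁻ w in φ n '' W n, ∑' d : DD, (B n d).indicator (f n d) w =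
      ∑' d : DD, ∫⁻ w in B n d, f n d w := by
    intro n
    rw [lintegral_tsum (fun d => (hf n d).indicator (hB n d))]
    refine tsum_congr fun d => ?_
    rw [lintegral_indicator (hB n d), Measure.restrict_restrict (hB n d),
      Set.inter_eq_left.2 (hBV n d)]
  have hpt : ∀ n, ∀ w ∈ φ n '' W n, κ * (c0 * (∑ l : Λ, ‖∏ ν : Ξ,
      (sν ν).f i j (φ n) ((φ n).symm w) ^ (l : Ξ → ℕ) ν‖ₑ) ^ (-(2 : ℝ) / (m * q : ℕ))) ≤
        ∑' d : DD, (B n d).indicator (f n d) w := by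
    intro n w hw
    have h2 := hsymm n w hw
    refine (kltpt_point ΛL.reg ΛP.reg hi₀ hinv hm h hh s hs Ξ sν hsν hsum hfm hKhx₀ (hWU n h2)
      (hWat n _ h2) hC1pos (fun n' => ?_) hHpos
      ((hH₀ _ (hVsub h2.1).2.2.2).trans (le_max_left _ _))).trans ?_
    · refine (hC _ (hVsub h2.1).2.1 n').trans ?_
      exact mul_le_mul_of_nonneg_right (le_max_left _ _) (norm_nonneg _)
    · refine ENNReal.tsum_le_tsum fun d => ?_
      by_cases h3 : A.reg.act (lat d.1) ((φ n).symm w) ∈ N.inc ⁻¹' Kh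
      · rw [Set.indicator_of_mem (show (φ n).symm w ∈ {y | A.reg.act (lat d.1) y ∈ N.inc ⁻¹' Kh}
            from h3),
          Set.indicator_of_mem (show w ∈ B n d from
            ⟨(φ n).symm w, ⟨h2, h3⟩, (φ n).right_inv (htgt n hw)⟩)]
      · rw [Set.indicator_of_notMem (show (φ n).symm w ∉
          {y | A.reg.act (lat d.1) y ∈ N.inc ⁻¹' Kh} from h3)]
        exact bot_le
  have hfinal : κ * (c0 * ∑' n, ∫⁻ w in φ n '' W n, (∑ l : Λ, ‖∏ ν : Ξ,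
      (sν ν).f i j (φ n) ((φ n).symm w) ^ (l : Ξ → ℕ) ν‖ₑ) ^ (-(2 : ℝ) / (m * q : ℕ))) < ⊤ := by
    rw [← ENNReal.tsum_mul_left, ← ENNReal.tsum_mul_left]
    refine lt_of_le_of_lt (ENNReal.tsum_le_tsum fun n => ?_) htot
    rw [← lintegral_const_mul' _ _ hc0', ← lintegral_const_mul' _ _ hκT]
    exact (setLIntegral_mono' (hWm n) (hpt n)).trans (le_of_eq (hint n))
  by_contra hcon
  rw [not_lt, top_le_iff] at hcon
  rw [hcon, ENNReal.mul_top hc0, ENNReal.mul_top hκ0] at hfinal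
  exact lt_irrefl _ hfinal

end Pool.Agent.Abn
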