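import Pool.Agent.H.MP_e23cd6_ag.NT.Iface
import Pool.Agent.H.MP_e23cd6_ag.NT.KltF
import Pool.Agent.H.MP_e23cd6_ag.NT.KltFin

/-! Transfer of klt pairs to the quotients, for metrics on line bundles on `U / T_S`. -/

set_option autoImplicit false

open scoped Manifold ContDiff Topology ENNReal
open MeasureTheory Set Filter

namespace Pool.Agent.Abn

open Pool.Agent.Abd

variable {E : Type} [NormedAddCommGroup E] [NormedSpace ℂ E] {r : ℕ}
  {X₀ X : Type} [TopologicalSpace X₀] [ChartedSpace E X₀] [TopologicalSpace X] {Y : NSp E X₀ X}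
  {L P : NLine Y} {A : NAct r Y}
  {ΛL : NLin A L} {ΛP : NLin A P} {S : Finset (Fin r)} {U : Set X}
  {K J k m : ℕ} {χ χ' : Fin r → ℤ}

theorem TFin.degs {X : Type} [TopologicalSpace X] [ChartedSpace E X] {L P : LineBundle E X}
    {A : TorusAction E r X} {ΛL : Linearization A L} {ΛP : Linearization A P}
    {K J m K' J' m' : ℕ} {U : Set X} {S : Finset (Fin r)} {χ : Fin r → ℤ}
    {F : L.ι → P.ι → OpenPartialHomeomorph X E → X → ℂ}
    (h : TFin ΛL ΛP K J m U S χ F) (hK : K = K') (hJ : J = J') (hm : m = m') :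
    TFin ΛL ΛP K' J' m' U S χ F := by
  subst hK hJ hm
  exact h

/-- The norm on the regular part given by a metric. -/
def NMet.toNormOn (h : NMet ΛL ΛP S U K J χ) : NormOn L.reg P.reg K J (Y.inc ⁻¹' U) where
  h := fun i j y => h.h i j (Y.inc y)
  pos := fun i j y hy hi hj => h.pos i j (Y.inc y) hy hi hj
  cont := fun i j y hy hi hj => ContinuousAt.comp (f := Y.inc) (g := h.h i j)
    (h.cont i j (Y.inc y) hy hi hj) Y.emb.continuous.continuousAt
  trans := by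
    intro i j i' j' y hy h1 h2 h3 h4
    have := h.trans (x := Y.inc y) hy h1 h2 h3 h4
    rw [← this]
    show _ = ‖L.g i i' (Y.inc y)‖ ^ K * ‖P.g j j' (Y.inc y)‖ ^ J * _
    ring

section

variable [IsManifold 𝓘(ℂ, E) ω X₀]

theorem NMet.toNormOn_gr (h : NMet ΛL ΛP S U K J χ) {a : Fin r → ℂ} (ha : InT a) {y : X₀}
    (hy : y ∈ Y.inc ⁻¹' U) (hay : A.reg.act a y ∈ Y.inc ⁻¹' U) :
    h.toNormOn.gr ΛL.reg ΛP.reg a y = h.gr a (Y.inc y) * ‖chr χ a‖ := by
  have e : A.act a (Y.inc y) = Y.inc (A.reg.act a y) := A.inc a ha y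
  obtain ⟨i, j, hat⟩ := exists_nat L P (Y.inc (A.reg.act a y))
  obtain ⟨i', j', hat'⟩ := exists_nat L P (Y.inc y)
  have h4 : ‖chr χ a‖ ≠ 0 := norm_ne_zero_iff.2 (chr_ne_zero χ ha)
  have h5 := (h.pos i' j' _ hy hat'.memL hat'.memP).ne'
  have e1 := Abd.gr_eq ΛL.reg ΛP.reg h.toNormOn (i := i) (j := j) (i' := i') (j' := j') ha hy hay
    hat.memL hat.memP hat'.memL hat'.memP
  have e2 : h.toNormOn.gr ΛL.reg ΛP.reg a y * h.h i' j' (Y.inc y) =
      ‖ΛL.lam i i' a (Y.inc y)‖ ^ K * ‖ΛP.lam j j' a (Y.inc y)‖ ^ J *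
        h.h i j (Y.inc (A.reg.act a y)) := e1
  rw [← eq_div_iff h5] at e2
  rw [e2, h.gr_eq (i := i) (j := j) (i' := i') (j' := j') ha hy (by rw [e]; exact hay)
    (by rw [e]; exact hat.memL) (by rw [e]; exact hat.memP) hat'.memL hat'.memP, e]
  rw [div_mul_eq_mul_div, div_eq_div_iff h5 (mul_ne_zero h4 h5)]
  ring

theorem NMet.toNormOn_inv (h : NMet ΛL ΛP S U K J χ) : h.toNormOn.Inv ΛL.reg ΛP.reg S χ := by
  intro a ha y hy hay
  have e : A.act a (Y.inc y) = Y.inc (A.reg.act a y) := A.inc a ha.1 y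
  rw [h.toNormOn_gr ha.1 hy hay, h.gr_S ha hy (by rw [e]; exact hay), one_mul]

end

variable [FiniteDimensional ℂ E] [MeasureSpace E] [BorelSpace E]
  [(volume : Measure E).IsAddHaarMeasure] [IsManifold 𝓘(ℂ, E) ω X₀]
  [SecondCountableTopology X₀] [T2Space X]

/-- Transfer of klt pairs: `χ i` is the normalised weight, so that the growth of the metric of
`L ^ K` along the `i`-th factor of the torus is bounded on `V`. -/
theorem NKltF.transfer [CompactSpace X]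
    (hG : NGood A S U) {i : Fin r} (hi : i ∉ S) {V : Set X} (hVU : V ⊆ U)
    (hGV : NGood A (insert i S) V) (h : NMet ΛL ΛP S U K 0 χ)
    (hgr : ∀ x₀ ∈ V, ∃ W ∈ 𝓝 x₀, ∃ C : ℝ, ∀ x ∈ W, x ∈ V → ∀ n : ℤ, h.gr (sh i n) x ≤ C)
    (hm : 1 ≤ m) (hklt : NKltF ΛL ΛP S U K χ k m) :
    NKltF ΛL ΛP (insert i S) V K χ k m := by
  obtain ⟨q₀, hq₀, s, hs, hk⟩ := hklt
  have hm' : 1 ≤ m * q₀ := Nat.mul_pos hm hq₀
  have hs' : TFin ΛL.reg ΛP.reg (k * q₀ * K) (k * q₀ * 0) (m * q₀) (Y.inc ⁻¹' U) S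
      (fun c => (((k * q₀ : ℕ) : ℤ)) * χ c)
      (s.cast rfl (Nat.mul_zero (k * q₀)).symm rfl :
        Sec2 L.reg P.reg (k * q₀ * K) (k * q₀ * 0) (m * q₀) (Y.inc ⁻¹' U)).f := by
    have h1 := hs.degs rfl (Nat.mul_zero (k * q₀)).symm rfl
    exact (h1.congr (fun _ _ _ _ _ _ => rfl)).congr_wt (fun c _ => by push_cast; ring)
  have hk' : NKlt (s.cast rfl (Nat.mul_zero (k * q₀)).symm rfl :
      Sec2 L.reg P.reg (k * q₀ * K) (k * q₀ * 0) (m * q₀) (Y.inc ⁻¹' U)) := hk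
  obtain ⟨q, hq, t, ht, htk⟩ := nklt_transfer ΛL ΛP hG hi hVU hGV hm'
    h.toNormOn h.toNormOn_inv (by
      intro x hx i j hat
      have hp := h.pos i j x hx hat.memL hat.memP
      have hc := h.cont i j x hx hat.memL hat.memP
      have h3 : ∀ᶠ z in 𝓝 x, h.h i j x / 2 < h.h i j z :=
        hc.eventually (lt_mem_nhds (by linarith))
      exact ⟨_, h3, h.h i j x / 2, by linarith, fun y hy => (show h.h i j x / 2 < h.h i j (Y.inc y)
        from hy).le⟩) (by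
      intro x hx i j hat
      have hc := h.cont i j x hx hat.memL hat.memP
      have h3 : ∀ᶠ z in 𝓝 x, h.h i j z < h.h i j x + 1 :=
        hc.eventually (gt_mem_nhds (by linarith))
      exact ⟨_, h3, h.h i j x + 1, fun y hy => (show h.h i j (Y.inc y) < h.h i j x + 1
        from hy).le⟩) _ hs' hk' (by
      intro x0 hx0
      obtain ⟨W, hW, C, hC⟩ := hgr x0 hx0
      refine ⟨W ∩ V, inter_mem hW (hGV.isOpen.mem_nhds hx0), C, ?_⟩
      intro y hy n
      have hin : InT (el i ((2 : ℂ) ^ n)) := el_inT i (zpow_ne_zero n two_ne_zero)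
      have hyU : y ∈ Y.inc ⁻¹' U := hVU hy.2
      rw [h.toNormOn_gr hin hyU (reg_inv hG.inv hin y hyU)]
      exact mul_le_mul_of_nonneg_right (hC _ hy.1 hy.2 n) (norm_nonneg _))
  refine ⟨q₀ * q, Nat.mul_pos hq₀ hq, t.cast (by ring) (by ring) (by ring), ?_, ?_⟩
  · have h1 := ht.degs (show q * (k * q₀ * K) = k * (q₀ * q) * K by ring)
      (show q * (k * q₀ * 0) = 0 by ring) (show q * (m * q₀) = m * (q₀ * q) by ring)
    exact (h1.congr (fun _ _ _ _ _ _ => rfl)).congr_wt (fun c _ => by push_cast; ring)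
  · have e : ((m * (q₀ * q) : ℕ) : ℝ) = ((q * (m * q₀) : ℕ) : ℝ) := by
      push_cast
      ring
    intro x hx i' j' h1 h2
    obtain ⟨W, hW, φ, B, hB, hcov, hI⟩ := htk x hx i' j' h1 h2
    refine ⟨W, hW, φ, B, hB, hcov, ?_⟩
    rw [e]
    exact hI

end Pool.Agent.Abn
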