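import Pool.Agent.H.MP_e23cd6_ag.NT.LvlA

/-! MP_e23cd6_ag, torus actions: a semiample bundle on `U / T_S` has a continuous metric. -/

set_option autoImplicit false

open scoped Manifold ContDiff Topology ENNReal
open MeasureTheory Set Filter

namespace Pool.Agent.Abn

open Pool.Agent.Abd

variable {E : Type} [NormedAddCommGroup E] [NormedSpace ℂ E] {r : ℕ}
  {X₀ X : Type} [TopologicalSpace X₀] [ChartedSpace E X₀] [TopologicalSpace X]
  {Y : NSp E X₀ X}
  {L P : NLine Y} {A : NAct r Y}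
  {ΛL : NLin A L} {ΛP : NLin A P} {S : Finset (Fin r)} {U : Set X}
  {K J : ℕ} {χ : Fin r → ℤ}

/-- The sum of the norms of the sections of the family, in the frames `i`, `j`. -/
noncomputable def famSum {l n : ℕ} (s : Fin n → NSec L P (l * K) (l * J) U) (i : L.ι) (j : P.ι)
    (x : X) : ℝ :=
  ∑ b, ‖(s b).f i j x‖

theorem famSum_eq {l n : ℕ} (s : Fin n → NSec L P (l * K) (l * J) U)
    {i : L.ι} {j : P.ι} {x : X} (_hx : x ∈ U)
    (_h : NAt L P i j x) : famSum s i j x = ∑ b, ‖(s b).f i j x‖ := rfl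

theorem famSum_pos {l n : ℕ} (s : Fin n → NSec L P (l * K) (l * J) U)
    (hgen : ∀ x ∈ U, ∃ b, (s b).NZ x) {i : L.ι} {j : P.ι} {x : X} (hx : x ∈ U)
    (hi : x ∈ L.U i) (hj : x ∈ P.U j) : 0 < famSum s i j x := by
  have h' : NAt L P i j x :=
    ⟨hi, hj⟩
  obtain ⟨b, hb⟩ := hgen x hx
  rw [(s b).nz_iff hx h'] at hb
  unfold famSum
  exact Finset.sum_pos' (fun c _ => norm_nonneg _) ⟨b, Finset.mem_univ b, norm_pos_iff.2 hb⟩

theorem famSum_cont {l n : ℕ} (s : Fin n → NSec L P (l * K) (l * J) U)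
    (hU : IsOpen U) {i : L.ι} {j : P.ι} {x : X} (hx : x ∈ U)
    (hi : x ∈ L.U i) (hj : x ∈ P.U j) : ContinuousAt (famSum s i j) x := by
  have h' : NAt L P i j x :=
    ⟨hi, hj⟩
  have h1 : famSum s i j =ᶠ[𝓝 x] fun y => ∑ b, ‖(s b).f i j y‖ := by
    filter_upwards [h'.eventually, hU.mem_nhds hx] with y hy hyU
    exact famSum_eq s hyU hy
  refine ContinuousAt.congr ?_ h1.symm
  exact tendsto_finsetSum _ fun b _ => (Hol_continuousAt ((s b).hol' hx h')).norm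

theorem famSum_equiv {l n : ℕ} (s : Fin n → NSec L P (l * K) (l * J) U)
    (hs : ∀ b, NOfWt ΛL ΛP S (fun c => l * χ c) (s b))
    {a : Fin r → ℂ} (ha : InTS S a) {i i' : L.ι} {j j' : P.ι} {x : X} (hx : x ∈ U)
    (hax : A.act a x ∈ U) (h1 : A.act a x ∈ L.U i) (h2 : A.act a x ∈ P.U j) (h3 : x ∈ L.U i')
    (h4 : x ∈ P.U j') : ‖chr χ a‖ ^ l * famSum s i j (A.act a x) =
      (‖ΛL.lam i i' a x‖ ^ K * ‖ΛP.lam j j' a x‖ ^ J) ^ l * famSum s i' j' x := by
  have hat : NAt L P i j (A.act a x) :=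
    ⟨h1, h2⟩
  have hat' : NAt L P i' j' x :=
    ⟨h3, h4⟩
  unfold famSum
  rw [Finset.mul_sum, Finset.mul_sum]
  refine Finset.sum_congr rfl fun b _ => ?_
  have e := congrArg norm ((hs b).rule ha hx hax hat hat')
  rw [chr_nsmul] at e
  simp only [norm_mul, norm_pow, pow_zero, mul_one] at e
  rw [e]
  ring

/-- The metric given by a finite generating family of sections of the `l`-th power: the norm of the
frame is `(∑ b, |s b|) ^ (-1/l)`.

PROOF. `h i j x = (∑ b, ‖(s b).f i j x‖) ^ (-(1 / l : ℝ))`. For `m = 0` the value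
`(s b).f i j x` does not depend on the chart `φ` at `x` (`NSec.trans'`, `jac ^ 0 = 1`,
`L.g i i x = 1`). Positivity: the sum is positive as some `s b` does not vanish at `x` (`nz_iff`).
Continuity at `x`: near `x` replace `chartAt E y` by the fixed chart `chartAt E x`. `equiv`: by the
weight rule `‖chr (l χ) a‖ * ‖(s b).f i j (a x)‖ = ‖lam‖ ^ (l K) ‖lam'‖ ^ (l J) ‖(s b).f i' j' x‖`
for each `b`; sum over `b`, take the power `-1/l` (`Real.mul_rpow`, `Real.pow_rpow_inv_natCast`,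
`Real.rpow_neg`), `chr (l χ) = chr χ ^ l` (`chr_nsmul`). -/
theorem exists_met_of_family (hU : IsOpen U) {l : ℕ} (hl : 1 ≤ l) {n : ℕ}
    (s : Fin n → NSec L P (l * K) (l * J) U) (hs : ∀ b, NOfWt ΛL ΛP S (fun c => l * χ c) (s b))
    (hgen : ∀ x ∈ U, ∃ b, (s b).NZ x) : Nonempty (NMet ΛL ΛP S U K J χ) := by
  have hl0 : l ≠ 0 := by omega
  refine ⟨{ h := fun i j x => ((famSum s i j x) ^ ((l : ℝ)⁻¹))⁻¹
            pos := ?_
            cont := ?_
            equiv := ?_ }⟩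
  · intro i j x hx hi hj
    exact inv_pos.2 (Real.rpow_pos_of_pos (famSum_pos s hgen hx hi hj) _)
  · intro i j x hx hi hj
    have h0 := famSum_pos s hgen hx hi hj
    exact ContinuousAt.inv₀ ((famSum_cont s hU hx hi hj).rpow_const (Or.inl h0.ne'))
      (Real.rpow_pos_of_pos h0 _).ne'
  · intro a ha i j i' j' x hx hax h1 h2 h3 h4
    have p1 := famSum_pos s hgen hax h1 h2
    have p2 := famSum_pos s hgen hx h3 h4
    have e := famSum_equiv s hs ha hx hax h1 h2 h3 h4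
    have c0 : 0 ≤ ‖chr χ a‖ := norm_nonneg _
    have q0 : 0 ≤ ‖ΛL.lam i i' a x‖ ^ K * ‖ΛP.lam j j' a x‖ ^ J := by positivity
    have e2 := congrArg (fun t : ℝ => t ^ ((l : ℝ)⁻¹)) e
    rw [Real.mul_rpow (pow_nonneg c0 l) p1.le, Real.mul_rpow (pow_nonneg q0 l) p2.le,
      Real.pow_rpow_inv_natCast c0 hl0, Real.pow_rpow_inv_natCast q0 hl0] at e2
    have r1 := Real.rpow_pos_of_pos p1 ((l : ℝ)⁻¹)
    have r2 := Real.rpow_pos_of_pos p2 ((l : ℝ)⁻¹)
    show ((famSum s i j (A.act a x)) ^ ((l : ℝ)⁻¹))⁻¹ *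
      (‖ΛL.lam i i' a x‖ ^ K * ‖ΛP.lam j j' a x‖ ^ J) =
      ‖chr χ a‖ * ((famSum s i' j' x) ^ ((l : ℝ)⁻¹))⁻¹
    rw [inv_mul_eq_div, ← div_eq_mul_inv, div_eq_div_iff r1.ne' r2.ne', e2]

theorem NSemiQ.exists_met (hG : NGood A S U)
    (h : NSemiQ ΛL ΛP S U K J χ) : Nonempty (NMet ΛL ΛP S U K J χ) := by
  obtain ⟨l, hl, n, s, hs, hgen⟩ := h.exists_family hG
  exact exists_met_of_family hG.isOpen hl s hs hgen

end Pool.Agent.Abn
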