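import Pool.Agent.H.MP_e23cd6_ag.NT.Met

/-! MP_e23cd6_ag, torus actions: norms of sections. -/

set_option autoImplicit false

open scoped Manifold ContDiff Topology ENNReal
open MeasureTheory Set Filter

namespace Pool.Agent.Abn

open Pool.Agent.Abd

variable {E : Type} [NormedAddCommGroup E] [NormedSpace ℂ E] {r : ℕ}
  {X₀ X : Type} [TopologicalSpace X₀] [ChartedSpace E X₀] [TopologicalSpace X]
  {Y : NSp E X₀ X}
  {L P : NLine Y} {A : NAct r Y}
  {ΛL : NLin A L} {ΛP : NLin A P} {S : Finset (Fin r)} {U : Set X}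
  {K J K' J' : ℕ} {χ χ' : Fin r → ℤ}

/-- PROOF. `NMet.trans` and `NSec.trans'` (with `m = 0`), `norm_mul`, and `L.g i i' x ≠ 0`
(`NLine.g_ne`). -/
theorem NMet.num_eq (h : NMet ΛL ΛP S U K J χ) {V : Set X} (hV : V ⊆ U) (s : NSec L P K J V)
    {i j} {x : X} (hx : x ∈ V) (hat : NAt L P i j x) : h.num s x = ‖s.f i j x‖ * h.h i j x := by
  have hx' : ∃ i j, NAt L P i j x := ⟨i, j, hat⟩
  have e0 : h.num s x = ‖s.f hx'.choose hx'.choose_spec.choose x‖ *
      h.h hx'.choose hx'.choose_spec.choose x := by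
    unfold NMet.num
    rw [dif_pos hx']
  have hat0 : NAt L P hx'.choose hx'.choose_spec.choose x := hx'.choose_spec.choose_spec
  have e1 := s.trans' hx hat0 hat
  have e2 := h.trans (hV hx) hat0.memL hat0.memP hat.memL hat.memP
  rw [e0, e1, ← e2]
  simp only [norm_mul, norm_pow, pow_zero, mul_one]
  ring

theorem NMet.num_nonneg (h : NMet ΛL ΛP S U K J χ) {V : Set X} (hV : V ⊆ U)
    (s : NSec L P K J V) {x : X} (hx : x ∈ V) : 0 ≤ h.num s x := by
  obtain ⟨i, j, hat⟩ := exists_nat L P x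
  rw [h.num_eq hV s hx hat]
  exact mul_nonneg (norm_nonneg _) (h.pos i j x (hV hx) hat.memL hat.memP).le

theorem NMet.num_pos_iff (h : NMet ΛL ΛP S U K J χ) {V : Set X} (hV : V ⊆ U)
    (s : NSec L P K J V) {x : X} (hx : x ∈ V) :
    0 < h.num s x ↔ s.NZ x := by
  obtain ⟨i, j, hat⟩ := exists_nat L P x
  rw [h.num_eq hV s hx hat, s.nz_iff hx hat,
    mul_pos_iff_of_pos_right (h.pos i j x (hV hx) hat.memL hat.memP), norm_pos_iff]

/-- PROOF. Near `x` the formula `num_eq` holds with fixed frames and chart (`At.eventually`), `s.f`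
is continuous (`HolAt` implies `ContinuousAt`). -/
theorem NMet.num_cont (h : NMet ΛL ΛP S U K J χ) {V : Set X} (hV : V ⊆ U) (hVo : IsOpen V)
    (s : NSec L P K J V) {x : X} (hx : x ∈ V) :
    ContinuousAt (h.num s) x := by
  obtain ⟨i, j, hat⟩ := exists_nat L P x
  have h1 : h.num s =ᶠ[𝓝 x] fun y => ‖s.f i j y‖ * h.h i j y := by
    filter_upwards [hat.eventually, hVo.mem_nhds hx] with y hy hyV
    exact h.num_eq hV s hyV hy
  have h2 : ContinuousAt (s.f i j) x := Hol_continuousAt (s.hol' hx hat)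
  exact (h2.norm.mul (h.cont i j x (hV hx) hat.memL hat.memP)).congr h1.symm

/-- The norm of a section of `T_S`-weight `χ` is `T_S`-invariant. PROOF. `NOfWt.rule` (`m = 0`),
`NMet.equiv`, `num_eq`; divide by `‖chr χ a‖ ≠ 0`. -/
theorem NMet.num_act (h : NMet ΛL ΛP S U K J χ) {V : Set X} (hV : V ⊆ U)
    {s : NSec L P K J V} (hs : NOfWt ΛL ΛP S χ s) {a : Fin r → ℂ} (ha : InTS S a) {x : X}
    (hx : x ∈ V) (hax : A.act a x ∈ V) : h.num s (A.act a x) = h.num s x := by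
  obtain ⟨i, j, hat⟩ := exists_nat L P (A.act a x)
  obtain ⟨i', j', hat'⟩ := exists_nat L P x
  rw [h.num_eq hV s hax hat, h.num_eq hV s hx hat']
  have e1 := hs.rule ha hx hax hat hat'
  have e2 := h.equiv a ha i j i' j' x (hV hx) (hV hax) hat.memL hat.memP hat'.memL hat'.memP
  have e3 : ‖chr χ a‖ * ‖s.f i j (A.act a x)‖ =
      ‖ΛL.lam i i' a x‖ ^ K * ‖ΛP.lam j j' a x‖ ^ J * ‖s.f i' j' x‖ := by
    rw [← norm_mul, e1]
    simp only [norm_mul, norm_pow, pow_zero, mul_one]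
  have h0 : ‖chr χ a‖ ≠ 0 := norm_ne_zero_iff.mpr (chr_ne_zero χ ha.1)
  apply mul_left_cancel₀ h0
  calc ‖chr χ a‖ * (‖s.f i j (A.act a x)‖ * h.h i j (A.act a x)) =
        (‖chr χ a‖ * ‖s.f i j (A.act a x)‖) * h.h i j (A.act a x) := by
        ring
    _ = ‖s.f i' j' x‖ * (h.h i j (A.act a x) *
        (‖ΛL.lam i i' a x‖ ^ K * ‖ΛP.lam j j' a x‖ ^ J)) := by rw [e3]; ring
    _ = ‖chr χ a‖ * (‖s.f i' j' x‖ * h.h i' j' x) := by rw [e2]; ring

theorem NMet.num_comb (h : NMet ΛL ΛP S U K J χ) (h' : NMet ΛL ΛP S U K' J' χ') (k j k' j' : ℕ)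
    {V : Set X} (hV : V ⊆ U)
    (s : NSec L P (k * K + j * K') (k * J + j * J') V)
    (t : NSec L P (k' * K + j' * K') (k' * J + j' * J') V)
    (st : NSec L P ((k + k') * K + (j + j') * K') ((k + k') * J + (j + j') * J') V)
    (hst : ∀ i j x, st.f i j x = s.f i j x * t.f i j x) {x : X} (hx : x ∈ V) :
    (h.comb h' (k + k') (j + j')).num st x = (h.comb h' k j).num s x * (h.comb h' k' j').num t x := by
  obtain ⟨i, i', hat⟩ := exists_nat L P x
  rw [NMet.num_eq _ hV st hx hat, NMet.num_eq _ hV s hx hat, NMet.num_eq _ hV t hx hat, hst, norm_mul]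
  simp only [NMet.comb]
  ring

end Pool.Agent.Abn
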