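import Pool.Agent.H.MP_e23cd6_ag.NT.ChamC

/-! MP_e23cd6_ag, torus actions: sections of multiples of `D` over a chamber extend to `U` and are
bounded from below near the fixed point. -/

set_option autoImplicit false

open scoped Manifold ContDiff Topology ENNReal
open MeasureTheory Set Filter

namespace Pool.Agent.Abn

open Pool.Agent.Abd

variable {E : Type} [NormedAddCommGroup E] [NormedSpace ℂ E] [FiniteDimensional ℂ E] {r : ℕ}
  {X₀ X : Type} [TopologicalSpace X₀] [ChartedSpace E X₀] [IsManifold 𝓘(ℂ, E) ω X₀]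
  [TopologicalSpace X] [T2Space X] {Y : NSp E X₀ X}
  {L P : NLine Y} {A : NAct r Y}
  {ΛL : NLin A L} {ΛP : NLin A P} {S : Finset (Fin r)} {U : Set X}
  [CompactSpace X] [ConnectedSpace X]

/-- The norm at a point of the chamber and at the corresponding point `z` of the slab.

PROOF. Let `y = A.act (sh i n) x`. `mk z = mk y` and `mk x = f n (mk z)` (as `f n (mk y) = mk (A.act
(sh i (-n)) y) = mk x`). `num s z = num s y` (`NMet.num_act` for `S`, the point `z = A.act b y`), and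
`num s x = gr (sh i (-n)) y ^ l * num s y` (`NMet.num_pow_shift` for the point `y` and `a = sh i (-n)`),
where `gr (sh i (-n)) y = GD n (mk y)` (`GD_mk`). All points lie in the chamber (`cham_inv`). -/
theorem NLvl.num_slab (D : NLvl ΛL ΛP S U) (V : GT.Fam D.sys) {σ : ℤ} (hσ : σ = 1 ∨ σ = -1) (l : ℕ)
    {s : NSec L P (l * D.K) 0 (D.Cham V σ)}
    (hs : NOfWt ΛL ΛP (insert D.i S) (fun c => l * D.χ c) s) {x : X} (hx : x ∈ D.Cham V σ) {n : ℤ}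
    {b : Fin r → ℂ} (hb : InTS S b) (hz : A.act b (A.act (sh D.i n) x) ∈ U) :
    (D.hD.pow l).num s x = D.GD n (NQuo.mk A S U ⟨_, hz⟩) ^ l *
        (D.hD.pow l).num s (A.act b (A.act (sh D.i n) x)) ∧
      NQuo.mk A S U ⟨x, hx.1⟩ = D.f n (NQuo.mk A S U ⟨_, hz⟩) := by
  have hy : A.act (sh D.i n) x ∈ D.Cham V σ := D.cham_inv V hσ _ (sh_inTS D.i n).1 x hx
  have hzc : A.act b (A.act (sh D.i n) x) ∈ D.Cham V σ := D.cham_inv V hσ _ hb.1 _ hy
  have hyU : A.act (sh D.i n) x ∈ U := hy.1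
  have e0 : A.act (sh D.i (-n)) (A.act (sh D.i n) x) = x := by
    rw [← A.mul _ _ (sh_inTS D.i (-n)).1 (sh_inTS D.i n).1, ← sh_add, neg_add_cancel, sh_zero,
      A.one]
  have e1 : NQuo.mk A S U ⟨A.act b (A.act (sh D.i n) x), hz⟩ =
      NQuo.mk A S U ⟨A.act (sh D.i n) x, hyU⟩ := (NQuo.mk_eq.2 ⟨b, hb, rfl⟩).symm
  rw [e1]
  constructor
  · have h1 := NMet.num_pow_shift D.hD (D.cham_sub V σ) D.inv l (D.hD.pow l) (fun _ _ _ => rfl) hs
      (sh_inTS D.i (-n)) hy (by rw [e0]; exact hx)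
    rw [e0] at h1
    have h2 := (D.hD.pow l).num_act (D.cham_sub V σ)
      (NOfWt.mono_S (Finset.subset_insert D.i S) hs) hb hy hzc
    rw [h2, D.GD_mk]
    exact h1
  · rw [D.f_mk]
    congr 1
    exact Subtype.ext e0.symm

/-- Sections over the chamber which generate: upper bound on the chamber, lower bound near `p`.

PROOF. `C`, `B` from `exists_slab`, `Z` the compact slab over `C` (`slab_compact`), `Z ⊆` chamber. The
function `∑ b, num (s b)` is continuous (`NMet.num_cont`) and positive (`NMet.num_pos_iff`, `hgen`) at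
the points of `Z`, so it has values in `[c₁, C₁]` on `Z`, `c₁ > 0` (if `Z` is empty then the chamber is
empty and nothing is to prove). `C₂` from `GT.Fam.growthS` for `B`, `O`, `ε` from `GT.Fam.lowerS` for
`B`. For `x` in the chamber take `n`, `b`, `z` as in `exists_slab`; by `num_slab` each
`num (s b) x = GD n (mk z) ^ l * num (s b) z ≤ C₂ ^ l * C₁`, and if `mk x = f n (mk z) ∈ O` then
`∑ b, num (s b) x ≥ ε ^ l * c₁`. -/
theorem NLvl.cham_bounds (D : NLvl ΛL ΛP S U) (V : GT.Fam D.sys) {σ : ℤ} (hσ : σ = 1 ∨ σ = -1)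
    {p : NQuo A S U} (hp : D.Normal p) {l n : ℕ}
    (s : Fin n → NSec L P (l * D.K) 0 (D.Cham V σ))
    (hs : ∀ b, NOfWt ΛL ΛP (insert D.i S) (fun c => l * D.χ c) (s b))
    (hgen : ∀ x ∈ D.Cham V σ, ∃ b, (s b).NZ x) :
    (∃ C : ℝ, ∀ b, ∀ x ∈ D.Cham V σ, (D.hD.pow l).num (s b) x ≤ C) ∧
    ∃ O ∈ 𝓝 p, ∃ ε : ℝ, 0 < ε ∧ ∀ x, ∀ hx : x ∈ D.Cham V σ, NQuo.mk A S U ⟨x, hx.1⟩ ∈ O →
      ε ≤ ∑ b, (D.hD.pow l).num (s b) x := by
  haveI := NQuo.compact D.good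
  obtain ⟨C, hCU, hC, B, hslab⟩ := D.exists_slab V hσ
  obtain ⟨hZ, hZc⟩ := D.slab_compact V σ B hC hCU
  set Z : Set X := {x | x ∈ C ∧ ∃ hx : x ∈ U,
      V.sp σ (NQuo.mk A S U ⟨x, hx⟩) ≤ B * V.sm σ (NQuo.mk A S U ⟨x, hx⟩) ∧
      V.sm σ (NQuo.mk A S U ⟨x, hx⟩) ≤ B * V.sp σ (NQuo.mk A S U ⟨x, hx⟩)} with hZdef
  have hnn : ∀ b, ∀ x ∈ D.Cham V σ, 0 ≤ (D.hD.pow l).num (s b) x := fun b x hx =>
    (D.hD.pow l).num_nonneg (D.cham_sub V σ) (s b) hx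
  have hpos : ∀ x ∈ D.Cham V σ, 0 < ∑ b, (D.hD.pow l).num (s b) x := by
    intro x hx
    obtain ⟨b, hb⟩ := hgen x hx
    exact Finset.sum_pos' (fun b _ => hnn b x hx)
      ⟨b, Finset.mem_univ b, ((D.hD.pow l).num_pos_iff (D.cham_sub V σ) (s b) hx).2 hb⟩
  have hcont : ContinuousOn (fun x => ∑ b, (D.hD.pow l).num (s b) x) Z := by
    intro x hx
    refine ContinuousAt.continuousWithinAt ?_
    exact tendsto_finsetSum _ fun b _ =>
      (D.hD.pow l).num_cont (D.cham_sub V σ) (D.cham_open V σ) (s b) (hZc hx)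
  obtain ⟨C₁, hC₁⟩ := hZ.exists_bound_of_continuousOn hcont
  obtain ⟨c₁, hc₁, hlow⟩ : ∃ c₁ : ℝ, 0 < c₁ ∧ ∀ x ∈ Z, c₁ ≤ ∑ b, (D.hD.pow l).num (s b) x := by
    rcases Z.eq_empty_or_nonempty with h0 | h0
    · exact ⟨1, one_pos, fun x hx => absurd (h0 ▸ hx) (Set.notMem_empty x)⟩
    · obtain ⟨x₀, hx₀, hmin⟩ := hZ.exists_isMinOn h0 hcont
      exact ⟨_, hpos x₀ (hZc hx₀), fun x hx => hmin hx⟩
  obtain ⟨C₂, _, hgrow⟩ := V.growthS hσ hp.fixed hp.b hp.a B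
  obtain ⟨O, hO, ε, hε, hlower⟩ := V.lowerS hσ hp.fixed hp.b hp.a B
  refine ⟨⟨C₂ ^ l * C₁, fun b₀ x hx => ?_⟩, O, hO, ε ^ l * c₁, by positivity,
    fun x hx hxO => ?_⟩
  · obtain ⟨n₀, b, hb, hzC, hzU, k1, k2⟩ := hslab x hx
    have hzZ : A.act b (A.act (sh D.i n₀) x) ∈ Z := ⟨hzC, hzU, k1, k2⟩
    rw [(D.num_slab V hσ l (hs b₀) hx hb hzU).1]
    have g1 := hgrow _ k1 k2 n₀
    have g2 : 0 < D.GD n₀ (NQuo.mk A S U ⟨_, hzU⟩) := D.GD_pos n₀ _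
    have g3 : (D.hD.pow l).num (s b₀) (A.act b (A.act (sh D.i n₀) x)) ≤ C₁ :=
      (Finset.single_le_sum (f := fun b' => (D.hD.pow l).num (s b') (A.act b (A.act (sh D.i n₀) x)))
        (fun b' _ => hnn b' _ (hZc hzZ)) (Finset.mem_univ b₀)).trans
        ((le_abs_self _).trans (hC₁ _ hzZ))
    exact mul_le_mul (pow_le_pow_left₀ g2.le g1 l) g3 (hnn b₀ _ (hZc hzZ))
      (pow_nonneg (g2.le.trans g1) l)
  · obtain ⟨n₀, b, hb, hzC, hzU, k1, k2⟩ := hslab x hx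
    have hzZ : A.act b (A.act (sh D.i n₀) x) ∈ Z := ⟨hzC, hzU, k1, k2⟩
    have e : ∑ b', (D.hD.pow l).num (s b') x = D.GD n₀ (NQuo.mk A S U ⟨_, hzU⟩) ^ l *
        ∑ b', (D.hD.pow l).num (s b') (A.act b (A.act (sh D.i n₀) x)) := by
      rw [Finset.mul_sum]
      exact Finset.sum_congr rfl fun b' _ => (D.num_slab V hσ l (hs b') hx hb hzU).1
    rw [e]
    have hcl : ∀ b', NQuo.mk A S U ⟨x, hx.1⟩ = D.f n₀ (NQuo.mk A S U ⟨_, hzU⟩) := fun b' =>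
      (D.num_slab V hσ l (hs b') hx hb hzU).2
    obtain ⟨b₁, _⟩ := hgen x hx
    have g1 : ε ≤ D.GD n₀ (NQuo.mk A S U ⟨_, hzU⟩) :=
      hlower _ k1 k2 n₀ (by rw [hcl b₁] at hxO; exact hxO)
    exact mul_le_mul (pow_le_pow_left₀ hε.le g1 l) (hlow _ hzZ) hc₁.le
      (pow_nonneg (hε.le.trans g1) l)

end Pool.Agent.Abn
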