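import Pool.Agent.H.MP_e23cd6_ag.NT.Ext
import Pool.Agent.H.MP_e23cd6_ag.GT.SumInt

/-! A compact subset of the normal space is covered by countably many coordinate pieces of its
regular part on which the density of a klt section has finite integral. -/

set_option autoImplicit false

open scoped Manifold ContDiff Topology ENNReal
open MeasureTheory Set Filter

namespace Pool.Agent.Abn

open Pool.Agent.Abd

variable {E : Type} [NormedAddCommGroup E] [NormedSpace ℂ E]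
  [MeasureSpace E] [BorelSpace E]
  {X₀ X : Type} [TopologicalSpace X₀] [ChartedSpace E X₀] [IsManifold 𝓘(ℂ, E) ω X₀]
  [TopologicalSpace X] {N : NSp E X₀ X} {L P : NLine N} {K J m k : ℕ} {U : Set X}

/-- The pieces around one point. -/
theorem npieces_point (h : NormOn L.reg P.reg K J (N.inc ⁻¹' U)) (hU : IsOpen U)
    (hlow : ∀ x ∈ U, ∀ i j, NAt L P i j x → ∃ W ∈ 𝓝 x, ∃ δ > (0 : ℝ), ∀ y, N.inc y ∈ W →
      δ ≤ h.h i j y)
    (s : Sec2 L.reg P.reg (k * K) (k * J) m (N.inc ⁻¹' U)) (hs : NKlt s) {x : X} (hx : x ∈ U) :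
    ∃ V ∈ 𝓝 x, ∃ (φ : ℕ → OpenPartialHomeomorph X₀ E) (B : ℕ → Set E),
      (∀ n, φ n ∈ Charts E X₀) ∧ (∀ n, MeasurableSet (B n)) ∧ (∀ n, B n ⊆ (φ n).target) ∧
      (∀ n, ∀ v ∈ B n, (φ n).symm v ∈ N.inc ⁻¹' U) ∧
      (∀ y, N.inc y ∈ V → ∃ n, y ∈ (φ n).source ∧ φ n y ∈ B n) ∧
      ∑' n, ∫⁻ v in B n, ENNReal.ofReal (dens h s (φ n) ((φ n).symm v)) ^ (-(2 : ℝ) / m) < ⊤ := by
  obtain ⟨i, j, hat⟩ := exists_nat L P x
  obtain ⟨V, hV, φ, B, hB, hcov, hint⟩ := hs x hx i j hat.memL hat.memP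
  obtain ⟨W₂, hW₂, δ, hδ0, hδ⟩ := hlow x hx i j hat
  set τ : ℝ := 2 / m with hτd
  have hτ : 0 ≤ τ := by positivity
  have hτe : -(2 : ℝ) / m = -τ := by rw [hτd, neg_div]
  rw [hτe] at hint ⊢
  have hev2 : ∀ᶠ y in 𝓝 x, y ∈ V ∧ y ∈ W₂ ∧ y ∈ U ∧ NAt L P i j y := by
    filter_upwards [hV, hW₂, hU.mem_nhds hx, hat.eventually] with y h1 h2 h3 h4
    exact ⟨h1, h2, h3, h4⟩
  obtain ⟨W, hW, hWo, hxW⟩ := eventually_nhds_iff.1 hev2
  have hmeas : ∀ n, MeasurableSet (B n ∩ ((φ n).target ∩ (φ n).symm ⁻¹' (N.inc ⁻¹' W))) := fun n =>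
    (hB n).2.1.inter
      ((φ n).symm.isOpen_inter_preimage (hWo.preimage N.emb.continuous)).measurableSet
  refine ⟨W, hWo.mem_nhds hxW, φ,
    fun n => B n ∩ ((φ n).target ∩ (φ n).symm ⁻¹' (N.inc ⁻¹' W)), fun n => (hB n).1,
    hmeas, fun n z hz => (hB n).2.2 hz.1, fun n v hv => (hW _ hv.2.2).2.2.1, ?_, ?_⟩
  · intro y hy
    have h1 := hcov (hW _ hy).1
    simp only [mem_iUnion] at h1
    obtain ⟨n, z, hz, rfl⟩ := h1
    have hzt := (hB n).2.2 hz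
    refine ⟨n, (φ n).map_target hzt, ?_⟩
    rw [(φ n).right_inv hzt]
    exact ⟨hz, hzt, hy⟩
  · have hc0 : ENNReal.ofReal (δ ^ k) ≠ 0 := by
      have : 0 < δ ^ k := by positivity
      simpa using this
    have hctop : ENNReal.ofReal (δ ^ k) ^ (-τ) ≠ ⊤ := by
      rw [ENNReal.rpow_neg]
      refine ENNReal.inv_ne_top.2 ?_
      intro h0
      rcases (ENNReal.rpow_eq_zero_iff).1 h0 with h2 | h2
      · exact hc0 h2.1
      · exact ENNReal.ofReal_ne_top h2.1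
    have hle : ∀ n, ∫⁻ z in B n ∩ ((φ n).target ∩ (φ n).symm ⁻¹' (N.inc ⁻¹' W)),
        ENNReal.ofReal (dens h s (φ n) ((φ n).symm z)) ^ (-τ) ≤
        ENNReal.ofReal (δ ^ k) ^ (-τ) * ∫⁻ z in B n, ‖s.f i j (φ n) ((φ n).symm z)‖ₑ ^ (-τ) := by
      intro n
      rw [← lintegral_const_mul' _ _ hctop]
      refine le_trans (setLIntegral_mono' (hmeas n) ?_) (lintegral_mono_set inter_subset_left)
      intro z hz
      obtain ⟨h1, h2, h3⟩ := hz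
      obtain ⟨-, k2, k3, k4⟩ := hW _ h3
      have hsrc : (φ n).symm z ∈ (φ n).source := (φ n).map_target h2
      have a1 : At L.reg P.reg i j (φ n) ((φ n).symm z) := k4.reg' (hB n).1 hsrc
      rw [dens_eq h s k3 a1, ← ENNReal.mul_rpow_of_ne_top ENNReal.ofReal_ne_top enorm_ne_top]
      refine sumint_enorm_le hτ ?_
      rw [← ofReal_norm, ← ENNReal.ofReal_mul (by positivity)]
      refine ENNReal.ofReal_le_ofReal ?_
      rw [mul_comm]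
      exact mul_le_mul_of_nonneg_left (pow_le_pow_left₀ hδ0.le (hδ _ k2) k) (norm_nonneg _)
    refine lt_of_le_of_lt (ENNReal.tsum_le_tsum hle) ?_
    rw [ENNReal.tsum_mul_left]
    exact ENNReal.mul_lt_top hctop.lt_top hint

/-- The pieces of a compact set. -/
theorem exists_npieces (h : NormOn L.reg P.reg K J (N.inc ⁻¹' U)) (hU : IsOpen U)
    (hlow : ∀ x ∈ U, ∀ i j, NAt L P i j x → ∃ W ∈ 𝓝 x, ∃ δ > (0 : ℝ), ∀ y, N.inc y ∈ W →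
      δ ≤ h.h i j y)
    (s : Sec2 L.reg P.reg (k * K) (k * J) m (N.inc ⁻¹' U)) (hs : NKlt s) {Kh : Set X}
    (hKh : IsCompact Kh) (hKU : Kh ⊆ U) :
    ∃ (I : Type) (_ : Countable I) (ψ : I → OpenPartialHomeomorph X₀ E) (C : I → Set E),
      (∀ p, ψ p ∈ Charts E X₀) ∧ (∀ p, MeasurableSet (C p)) ∧ (∀ p, C p ⊆ (ψ p).target) ∧
      (∀ p, ∀ v ∈ C p, (ψ p).symm v ∈ N.inc ⁻¹' U) ∧
      (∀ y, N.inc y ∈ Kh → ∃ p, y ∈ (ψ p).source ∧ ψ p y ∈ C p) ∧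
      ∑' p, ∫⁻ v in C p, ENNReal.ofReal (dens h s (ψ p) ((ψ p).symm v)) ^ (-(2 : ℝ) / m) < ⊤ := by
  choose V hV φ B h1 h2 h3 h4 h5 h6 using fun (x : {x // x ∈ U}) =>
    npieces_point h hU hlow s hs x.2
  obtain ⟨t, hcov⟩ := hKh.elim_nhds_subcover' (fun x hx => V ⟨x, hKU hx⟩)
    (fun x hx => hV ⟨x, hKU hx⟩)
  refine ⟨{x // x ∈ t} × ℕ, inferInstance, fun p => φ ⟨p.1.1, hKU p.1.1.2⟩ p.2,
    fun p => B ⟨p.1.1, hKU p.1.1.2⟩ p.2,
    fun p => h1 _ _, fun p => h2 _ _, fun p => h3 _ _, fun p => h4 _ _, ?_, ?_⟩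
  · intro y hy
    obtain ⟨p, hp, hy2⟩ := mem_iUnion₂.1 (hcov hy)
    obtain ⟨n, hn⟩ := h5 ⟨p, hKU p.2⟩ y hy2
    exact ⟨(⟨p, hp⟩, n), hn⟩
  · rw [ENNReal.tsum_prod (f := fun (p : {x // x ∈ t}) (n : ℕ) =>
      ∫⁻ v in B ⟨p.1, hKU p.1.2⟩ n, ENNReal.ofReal (dens h s (φ ⟨p.1, hKU p.1.2⟩ n)
        ((φ ⟨p.1, hKU p.1.2⟩ n).symm v)) ^ (-(2 : ℝ) / m)), tsum_fintype]
    exact ENNReal.sum_lt_top.2 fun p _ => h6 ⟨p.1, hKU p.1.2⟩

end Pool.Agent.Abn
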