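import Pool.Agent.H.MP_e23cd6_ag.NT.LvlA
import Pool.Agent.H.MP_e23cd6_ag.GT.Quo

/-! MP_e23cd6_ag, torus actions: the quotient space `U / T_S`. -/

set_option autoImplicit false

open scoped Manifold ContDiff Topology ENNReal
open MeasureTheory Set Filter

namespace Pool.Agent.Abn

open Pool.Agent.Abd

variable {E : Type} [NormedAddCommGroup E] [NormedSpace ℂ E] {r : ℕ}
  {X₀ X : Type} [TopologicalSpace X₀] [ChartedSpace E X₀] [TopologicalSpace X]
  {Y : NSp E X₀ X}

/-- The equivalence relation on `U` whose classes are the `T_S`-orbits. -/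
def orbSetoid (A : NAct r Y) (S : Finset (Fin r)) (U : Set X) : Setoid U where
  r := fun x y => ∃ a, InTS S a ∧ A.act a x.1 = y.1
  iseqv := by
    refine ⟨fun x => ⟨1, inTS_one S, A.one _⟩, ?_, ?_⟩
    · rintro x y ⟨a, ha, h⟩
      refine ⟨a⁻¹, inTS_inv ha, ?_⟩
      rw [← h]
      exact nact_inv_act A ha.1 _
    · rintro x y z ⟨a, ha, h⟩ ⟨b, hb, h'⟩
      refine ⟨b * a, inTS_mul hb ha, ?_⟩
      rw [A.mul b a hb.1 ha.1, h, h']

/-- The quotient space `U / T_S`. -/
def NQuo (A : NAct r Y) (S : Finset (Fin r)) (U : Set X) : Type := Quotient (orbSetoid A S U)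

instance (A : NAct r Y) (S : Finset (Fin r)) (U : Set X) : TopologicalSpace (NQuo A S U) :=
  inferInstanceAs (TopologicalSpace (Quotient (orbSetoid A S U)))

/-- The orbit of a point. -/
def NQuo.mk (A : NAct r Y) (S : Finset (Fin r)) (U : Set X) (x : U) : NQuo A S U :=
  Quotient.mk (orbSetoid A S U) x

theorem NQuo.mk_cont (A : NAct r Y) (S : Finset (Fin r)) (U : Set X) :
    Continuous (NQuo.mk A S U) := continuous_quotient_mk'

theorem NQuo.mk_surj (A : NAct r Y) (S : Finset (Fin r)) (U : Set X) :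
    Function.Surjective (NQuo.mk A S U) := Quotient.mk_surjective

theorem NQuo.mk_eq {A : NAct r Y} {S : Finset (Fin r)} {U : Set X} {x y : U} :
    NQuo.mk A S U x = NQuo.mk A S U y ↔ ∃ a, InTS S a ∧ A.act a x.1 = y.1 := Quotient.eq

/-- `U / T_S` is compact. PROOF. It is the image of the compact set `C` of `NGood.cocompact` (as a
subset of the subtype `U`: `isCompact_iff_isCompact_univ`, `Subtype.isCompact_iff` or
`Topology.IsInducing.isCompact_preimage`) under `NQuo.mk`: every `x ∈ U` has `a x ∈ C` for some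
`a ∈ T_S`. -/
theorem NQuo.compact {A : NAct r Y} {S : Finset (Fin r)} {U : Set X} (hG : NGood A S U) :
    CompactSpace (NQuo A S U) := by
  obtain ⟨C, hCU, hC, hcov⟩ := hG.cocompact
  have h1 : IsCompact (Subtype.val ⁻¹' C : Set U) := by
    rw [Subtype.isCompact_iff, Subtype.image_preimage_coe, inter_eq_right.2 hCU]
    exact hC
  refine ⟨?_⟩
  have h2 : (univ : Set (NQuo A S U)) = NQuo.mk A S U '' (Subtype.val ⁻¹' C : Set U) := by
    symm
    rw [eq_univ_iff_forall]
    intro q
    obtain ⟨x, rfl⟩ := NQuo.mk_surj A S U q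
    obtain ⟨a, ha, hax⟩ := hcov x.1 x.2
    exact ⟨⟨A.act a x.1, hCU hax⟩, hax, (NQuo.mk_eq.2 ⟨a, ha, rfl⟩).symm⟩
  rw [h2]
  exact h1.image (NQuo.mk_cont A S U)

/-- A real function on `X` which is continuous at the points of `U` and `T_S`-invariant on `U`
defines a continuous function on `U / T_S`. -/
theorem NQuo.exists_lift {A : NAct r Y} {S : Finset (Fin r)} {U : Set X} (g : X → ℝ)
    (hg : ∀ x ∈ U, ContinuousAt g x)
    (hinv : ∀ x ∈ U, ∀ a, InTS S a → A.act a x ∈ U → g (A.act a x) = g x) :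
    ∃ u : NQuo A S U → ℝ, Continuous u ∧ ∀ x : U, u (NQuo.mk A S U x) = g x.1 := by
  refine ⟨Quotient.lift (fun x : U => g x.1) ?_, ?_, fun x => rfl⟩
  · rintro x y ⟨a, ha, h⟩
    show g x.1 = g y.1
    rw [← h]
    exact (hinv x.1 x.2 a ha (by rw [h]; exact y.2)).symm
  · apply Continuous.quotient_lift
    rw [continuous_iff_continuousAt]
    intro x
    exact (hg x.1 x.2).comp continuous_subtype_val.continuousAt

/-- The action of the torus element `a` on `U / T_S`. -/
noncomputable def NQuo.act {A : NAct r Y} {S : Finset (Fin r)} {U : Set X}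
    (hU : ∀ a, InT a → ∀ x ∈ U, A.act a x ∈ U) (a : Fin r → ℂ) (ha : InT a) :
    NQuo A S U → NQuo A S U :=
  Quotient.map (fun x : U => (⟨A.act a x.1, hU a ha x.1 x.2⟩ : U)) (by
    rintro x y ⟨b, hb, h⟩
    refine ⟨b, hb, ?_⟩
    show A.act b (A.act a x.1) = A.act a y.1
    rw [nact_comm A hb.1 ha, h])

theorem NQuo.act_mk {A : NAct r Y} {S : Finset (Fin r)} {U : Set X}
    (hU : ∀ a, InT a → ∀ x ∈ U, A.act a x ∈ U) (a : Fin r → ℂ) (ha : InT a) (x : U) :
    NQuo.act hU a ha (NQuo.mk A S U x) = NQuo.mk A S U ⟨A.act a x.1, hU a ha x.1 x.2⟩ := rfl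

/-- PROOF. `Continuous.quotient_map'` or `continuous_quot_lift`-style; the map
`x ↦ ⟨A.act a x, _⟩` is continuous by `A.hol` (`ContMDiffAt` of two variables, restricted to
`x ↦ (a, x)`). -/
theorem NQuo.act_cont {A : NAct r Y} {S : Finset (Fin r)} {U : Set X}
    (hU : ∀ a, InT a → ∀ x ∈ U, A.act a x ∈ U) (a : Fin r → ℂ) (ha : InT a) :
    Continuous (NQuo.act (S := S) hU a ha) := by
  unfold NQuo.act
  apply Continuous.quotient_map'
  have h1 : Continuous (A.act a) := by
    rw [continuous_iff_continuousAt]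
    intro y
    have h2 : ContinuousAt (fun v : (Fin r → ℂ) × X => A.act v.1 v.2) (a, y) :=
      A.cont a ha y
    have h3 : ContinuousAt (fun x : X => ((a, x) : (Fin r → ℂ) × X)) y :=
      continuousAt_const.prodMk continuousAt_id
    exact ContinuousAt.comp (g := fun v : (Fin r → ℂ) × X => A.act v.1 v.2)
      (f := fun x : X => ((a, x) : (Fin r → ℂ) × X)) h2 h3
  exact (h1.comp continuous_subtype_val).subtype_mk _

end Pool.Agent.Abn
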