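import Mathlib

/-! Functions which separate the points of an open set have independent differentials at some point. -/

set_option autoImplicit false

open scoped Topology ContDiff
open Set Filter Module

namespace Pool.Agent.Abn

variable {E : Type} [NormedAddCommGroup E] [NormedSpace ℂ E] [FiniteDimensional ℂ E]

omit [FiniteDimensional ℂ E] in
/-- Linearly independent functionals have a dual family of vectors. -/
theorem rankL_dual_family {ρ : ℕ} (L : Fin ρ → E →L[ℂ] ℂ) (hli : LinearIndependent ℂ L) :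
    ∃ e : Fin ρ → E, ∀ j k, L j (e k) = if j = k then 1 else 0 := by
  set Λ : E →ₗ[ℂ] (Fin ρ → ℂ) := LinearMap.pi fun j => (L j : E →ₗ[ℂ] ℂ) with hΛ
  have hsurj : LinearMap.range Λ = ⊤ := by
    by_contra hne
    obtain ⟨f, hf0, hf⟩ := Submodule.exists_le_ker_of_lt_top _ (lt_top_iff_ne_top.mpr hne)
    have h1 : ∀ w : E, ∑ j, f (Pi.single j 1) * L j w = 0 := by
      intro w
      have h2 : f (Λ w) = 0 := hf (LinearMap.mem_range_self Λ w)
      have h3 : Λ w = ∑ j, (L j w) • (Pi.single j (1 : ℂ) : Fin ρ → ℂ) := by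
        ext i
        simp [hΛ, Finset.sum_apply, Pi.single_apply]
      rw [h3, map_sum] at h2
      rw [← h2]
      refine Finset.sum_congr rfl fun j _ => ?_
      rw [map_smul, smul_eq_mul, mul_comm]
    have h4 : ∑ j, f (Pi.single j 1) • L j = 0 := by
      ext w
      simpa [sum_apply] using h1 w
    have h5 : ∀ j, f (Pi.single j 1) = 0 := Fintype.linearIndependent_iff.mp hli _ h4
    apply hf0
    refine LinearMap.pi_ext' fun j => ?_
    ext
    simpa using h5 j
  have h6 : ∀ k, ∃ w, Λ w = Pi.single k 1 := fun k => by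
    have : (Pi.single k 1 : Fin ρ → ℂ) ∈ LinearMap.range Λ := by
      rw [hsurj]
      exact Submodule.mem_top
    exact this
  choose e he using h6
  refine ⟨e, fun j k => ?_⟩
  have h7 := congrFun (he k) j
  rw [hΛ] at h7
  simpa [Pi.single_apply] using h7

/-- A curve in the common level sets of `ρ` functions with independent differentials at `z`. -/
theorem exists_level_curve {z : E} {ρ : ℕ} (F : Fin ρ → E → ℂ)
    (hF : ∀ k, ContDiffAt ℂ ω (F k) z)
    (hli : LinearIndependent ℂ (fun k => fderiv ℂ (F k) z)) {v : E} (hv : v ≠ 0)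
    (hker : ∀ k, fderiv ℂ (F k) z v = 0) :
    ∃ γ : ℂ → E, γ 0 = z ∧ (∀ᶠ t in 𝓝 (0 : ℂ), DifferentiableAt ℂ γ t) ∧
      (∀ᶠ t in 𝓝 (0 : ℂ), ∀ k, F k (γ t) = F k z) ∧
      (∀ᶠ t in 𝓝[≠] (0 : ℂ), γ t ≠ z) := by
  have : CompleteSpace E := FiniteDimensional.complete ℂ E
  obtain ⟨e, he⟩ := rankL_dual_family (fun k => fderiv ℂ (F k) z) hli
  have hn : (ω : WithTop ℕ∞) ≠ 0 := by simp
  set Φ : E → E := fun w => w + ∑ k, (F k w - F k z - fderiv ℂ (F k) z (w - z)) • e k with hΦdef
  have hΦz : Φ z = z := by simp [hΦdef]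
  have hΦc : ContDiffAt ℂ ω Φ z := by
    rw [hΦdef]
    refine contDiffAt_id.add (ContDiffAt.sum fun k _ => ?_)
    refine ContDiffAt.smul (ContDiffAt.sub ((hF k).sub contDiffAt_const) ?_) contDiffAt_const
    exact (fderiv ℂ (F k) z).contDiff.contDiffAt.comp z (contDiffAt_id.sub contDiffAt_const)
  have hΦd : HasFDerivAt Φ ((ContinuousLinearEquiv.refl ℂ E : E ≃L[ℂ] E) : E →L[ℂ] E) z := by
    have h1 : HasFDerivAt Φ (ContinuousLinearMap.id ℂ E +
        ∑ k, (fderiv ℂ (F k) z - fderiv ℂ (F k) z).smulRight (e k)) z := by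
      rw [hΦdef]
      refine (hasFDerivAt_id z).add (HasFDerivAt.fun_sum fun k _ => ?_)
      refine HasFDerivAt.smul_const ?_ (e k)
      have h2 : HasFDerivAt (F k) (fderiv ℂ (F k) z) z :=
        ((hF k).differentiableAt hn).hasFDerivAt
      have h3 : HasFDerivAt (fun w => fderiv ℂ (F k) z (w - z)) (fderiv ℂ (F k) z) z := by
        have := (fderiv ℂ (F k) z).hasFDerivAt.comp z ((hasFDerivAt_id z).sub_const z)
        rw [ContinuousLinearMap.comp_id] at this
        exact this
      exact (h2.sub_const (F k z)).sub h3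
    have h4 : (ContinuousLinearMap.id ℂ E +
        ∑ k, (fderiv ℂ (F k) z - fderiv ℂ (F k) z).smulRight (e k)) =
        ((ContinuousLinearEquiv.refl ℂ E : E ≃L[ℂ] E) : E →L[ℂ] E) := by
      ext w
      simp
    rwa [h4] at h1
  have hkey : ∀ j w, fderiv ℂ (F j) z (Φ w - z) = F j w - F j z := by
    intro j w
    have h1 : Φ w - z = (w - z) + ∑ k, (F k w - F k z - fderiv ℂ (F k) z (w - z)) • e k := by
      rw [hΦdef]
      simp only
      abel
    rw [h1, map_add, map_sum]
    have h2 : ∀ k, fderiv ℂ (F j) z ((F k w - F k z - fderiv ℂ (F k) z (w - z)) • e k) =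
        if j = k then (F k w - F k z - fderiv ℂ (F k) z (w - z)) else 0 := by
      intro k
      rw [map_smul, he j k]
      split_ifs <;> simp
    rw [Finset.sum_congr rfl fun k _ => h2 k, Finset.sum_ite_eq]
    simp
  set g := hΦc.localInverse hΦd hn with hg
  have hgz : g z = z := by
    have := hΦc.localInverse_apply_image hΦd hn
    rwa [hΦz] at this
  have hgc : ContDiffAt ℂ ω g z := by
    have := hΦc.to_localInverse hΦd hn
    rwa [hΦz] at this
  have hright : ∀ᶠ y in 𝓝 z, Φ (g y) = y := by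
    have := (hΦc.hasStrictFDerivAt' hΦd hn).eventually_right_inverse
    rwa [hΦz] at this
  have htend : Tendsto (fun t : ℂ => z + t • v) (𝓝 0) (𝓝 z) := by
    have : Continuous fun t : ℂ => z + t • v := by fun_prop
    simpa using this.tendsto 0
  refine ⟨fun t => g (z + t • v), by simp [hgz], ?_, ?_, ?_⟩
  · have h1 : ∀ᶠ y in 𝓝 z, ContDiffAt ℂ ω g y := hgc.eventually (by simp)
    filter_upwards [htend.eventually h1] with t ht
    refine DifferentiableAt.comp t (ht.differentiableAt hn) ?_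
    fun_prop
  · filter_upwards [htend.eventually hright] with t ht j
    have h1 := hkey j (g (z + t • v))
    rw [ht, add_sub_cancel_left, map_smul, hker j, smul_zero] at h1
    exact (sub_eq_zero.mp h1.symm)
  · rw [eventually_nhdsWithin_iff]
    filter_upwards [htend.eventually hright] with t ht ht0 hc
    rw [hc, hΦz] at ht
    have : t • v = 0 := by
      have h2 : z + t • v = z + 0 := by rw [← ht, add_zero]
      exact add_left_cancel h2
    rcases smul_eq_zero.mp this with h | h
    · exact ht0 h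
    · exact hv h

/-- If the functions `F ∈ 𝓐`, holomorphic on the nonempty open subset `Ω` of the `n`-dimensional
space `E`, separate the points of `Ω`, then `n` of them have linearly independent differentials at
some point of `Ω`. -/
theorem exists_independent {Ω : Set E} (hΩ : IsOpen Ω) (hne : Ω.Nonempty) (𝓐 : Set (E → ℂ))
    (hA : ∀ F ∈ 𝓐, ∀ z ∈ Ω, ContDiffAt ℂ ω F z)
    (hsep : ∀ x ∈ Ω, ∀ y ∈ Ω, x ≠ y → ∃ F ∈ 𝓐, F x ≠ F y) :
    ∃ z ∈ Ω, ∃ F : Fin (finrank ℂ E) → E → ℂ, (∀ e, F e ∈ 𝓐) ∧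
      LinearIndependent ℂ (fun e => fderiv ℂ (F e) z) := by
  classical
  have hn : (ω : WithTop ℕ∞) ≠ 0 := by simp
  by_contra hcon
  set P : ℕ → Prop := fun k => ∃ z ∈ Ω, ∃ F : Fin k → E → ℂ, (∀ e, F e ∈ 𝓐) ∧
      LinearIndependent ℂ (fun e => fderiv ℂ (F e) z) with hP
  have hPn : ¬ P (finrank ℂ E) := hcon
  have hP0 : P 0 := by
    obtain ⟨z, hz⟩ := hne
    exact ⟨z, hz, fun e => e.elim0, fun e => e.elim0, linearIndependent_empty_type⟩
  obtain ⟨ρ, hρP, hρn, hρmax⟩ : ∃ ρ, P ρ ∧ ρ < finrank ℂ E ∧ ¬ P (ρ + 1) := by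
    refine ⟨Nat.findGreatest P (finrank ℂ E), Nat.findGreatest_spec (Nat.zero_le _) hP0, ?_, ?_⟩
    · refine lt_of_le_of_ne (Nat.findGreatest_le _) fun h => hPn ?_
      rw [← h]
      exact Nat.findGreatest_spec (Nat.zero_le _) hP0
    · intro h
      have hlt : Nat.findGreatest P (finrank ℂ E) < finrank ℂ E := by
        refine lt_of_le_of_ne (Nat.findGreatest_le _) fun h => hPn ?_
        rw [← h]
        exact Nat.findGreatest_spec (Nat.zero_le _) hP0
      exact Nat.findGreatest_is_greatest (Nat.lt_succ_self _) hlt h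
  obtain ⟨z, hz, F, hFA, hli⟩ := hρP
  obtain ⟨v, hvker, hv0⟩ : ∃ v : E, (∀ k, fderiv ℂ (F k) z v = 0) ∧ v ≠ 0 := by
    set Λ : E →ₗ[ℂ] (Fin ρ → ℂ) := LinearMap.pi fun j => (fderiv ℂ (F j) z : E →ₗ[ℂ] ℂ) with hΛ
    have h1 : LinearMap.ker Λ ≠ ⊥ := by
      refine LinearMap.ker_ne_bot_of_finrank_lt ?_
      simpa using hρn
    obtain ⟨v, hv, hv0⟩ := Submodule.exists_mem_ne_zero_of_ne_bot h1
    refine ⟨v, fun k => ?_, hv0⟩
    have := congrFun (LinearMap.mem_ker.mp hv) k
    simpa [hΛ] using this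
  obtain ⟨γ, hγ0, hγd, hγF, hγz⟩ := exists_level_curve F (fun k => hA _ (hFA k) z hz) hli hv0 hvker
  have hγc : Tendsto γ (𝓝 0) (𝓝 z) := by
    have := hγd.self_of_nhds.continuousAt
    rw [ContinuousAt, hγ0] at this
    exact this
  have hLIw : ∀ᶠ w in 𝓝 z, LinearIndependent ℂ (fun e => fderiv ℂ (F e) w) := by
    have hc : ContinuousAt (fun w => fun e => fderiv ℂ (F e) w) z := by
      refine continuousAt_pi.mpr fun e => ?_
      exact ((hA _ (hFA e) z hz).fderiv_right (m := 0) (by simp)).continuousAt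
    exact hc.eventually hli.eventually
  obtain ⟨r, hr, hball⟩ := Metric.eventually_nhds_iff_ball.mp
    ((hγd.and hγF).and ((hγc.eventually (hΩ.mem_nhds hz)).and (hγc.eventually hLIw)))
  have hmain : ∀ G ∈ 𝓐, ∀ t ∈ Metric.ball (0 : ℂ) r, G (γ t) = G z := by
    intro G hG t ht
    have hd : ∀ s ∈ Metric.ball (0 : ℂ) r,
        HasDerivAt (fun t => G (γ t)) (fderiv ℂ G (γ s) (deriv γ s)) s := by
      intro s hs
      obtain ⟨⟨h1, -⟩, h3, -⟩ := hball s hs
      exact ((hA G hG _ h3).differentiableAt hn).hasFDerivAt.comp_hasDerivAt s h1.hasDerivAt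
    have hzero : ∀ s ∈ Metric.ball (0 : ℂ) r, fderiv ℂ G (γ s) (deriv γ s) = 0 := by
      intro s hs
      obtain ⟨⟨h1, -⟩, h3, h4⟩ := hball s hs
      have hFk : ∀ k, fderiv ℂ (F k) (γ s) (deriv γ s) = 0 := by
        intro k
        have h5 : HasDerivAt (fun t => F k (γ t)) (fderiv ℂ (F k) (γ s) (deriv γ s)) s :=
          ((hA _ (hFA k) _ h3).differentiableAt hn).hasFDerivAt.comp_hasDerivAt s h1.hasDerivAt
        have h6 : (fun t => F k (γ t)) =ᶠ[𝓝 s] fun _ => F k z := by
          filter_upwards [Metric.isOpen_ball.mem_nhds hs] with t ht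
          exact (hball t ht).1.2 k
        exact h5.unique ((hasDerivAt_const s (F k z)).congr_of_eventuallyEq h6)
      have hmem : fderiv ℂ G (γ s) ∈ Submodule.span ℂ (range fun e => fderiv ℂ (F e) (γ s)) := by
        by_contra hnot
        apply hρmax
        refine ⟨γ s, h3, Fin.cons G F, ?_, ?_⟩
        · intro e
          refine Fin.cases ?_ (fun i => ?_) e
          · simpa using hG
          · simpa using hFA i
        · have h7 : (fun e => fderiv ℂ ((Fin.cons G F : Fin (ρ + 1) → E → ℂ) e) (γ s)) =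
              (Fin.cons (fderiv ℂ G (γ s)) (fun e => fderiv ℂ (F e) (γ s)) :
                Fin (ρ + 1) → (E →L[ℂ] ℂ)) := by
            funext e
            refine Fin.cases ?_ (fun i => ?_) e <;> simp
          rw [h7]
          exact linearIndependent_finCons.mpr ⟨h4, hnot⟩
      have hle : Submodule.span ℂ (range fun e => fderiv ℂ (F e) (γ s)) ≤
          LinearMap.ker ((ContinuousLinearMap.apply ℂ ℂ (deriv γ s) : (E →L[ℂ] ℂ) →L[ℂ] ℂ) :
            (E →L[ℂ] ℂ) →ₗ[ℂ] ℂ) := by
        rw [Submodule.span_le]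
        rintro _ ⟨e, rfl⟩
        simpa using hFk e
      have := hle hmem
      simpa using this
    have hconst := IsOpen.is_const_of_deriv_eq_zero (f := fun t => G (γ t)) Metric.isOpen_ball
      (convex_ball (0 : ℂ) r).isPreconnected
      (fun s hs => (hd s hs).differentiableAt.differentiableWithinAt)
      (fun s hs => by
        show deriv (fun t => G (γ t)) s = 0
        rw [(hd s hs).deriv, hzero s hs]) ht
      (Metric.mem_ball_self hr)
    rw [hγ0] at hconst
    exact hconst
  have hball' : Metric.ball (0 : ℂ) r ∈ 𝓝[≠] (0 : ℂ) :=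
    mem_nhdsWithin_of_mem_nhds (Metric.ball_mem_nhds _ hr)
  obtain ⟨t, ht1, ht2⟩ := (hγz.and hball').exists
  obtain ⟨G, hG, hGne⟩ := hsep (γ t) (hball t ht2).2.1 z hz ht1
  exact hGne (hmain G hG t ht2)

end Pool.Agent.Abn
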