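import Pool.Agent.H.MP_e23cd6_ag.NT.ChamB3

/-! MP_e23cd6_ag, torus actions: the sections of the multiples of `B = k₀ D + a`: products, powers,
linear combinations, monomials of the weight of `a'`, separation of `T_S`-orbits. -/

set_option autoImplicit false

open scoped Manifold ContDiff Topology ENNReal
open MeasureTheory Set Filter

namespace Pool.Agent.Abn

open Pool.Agent.Abd

variable {E : Type} [NormedAddCommGroup E] [NormedSpace ℂ E] [FiniteDimensional ℂ E] {r : ℕ}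
  {X₀ X : Type} [TopologicalSpace X₀] [ChartedSpace E X₀] [IsManifold 𝓘(ℂ, E) ω X₀]
  [TopologicalSpace X] [T2Space X] {Y : NSp E X₀ X}
  {L P : NLine Y} {A : NAct r Y}
  {ΛL : NLin A L} {ΛP : NLin A P} {S : Finset (Fin r)} {U : Set X}
  [CompactSpace X] [ConnectedSpace X]

/-- PROOF. `NSec.mul`, `NSec.cast`, `NOfWt.mul`, `NOfWt.congr_wt`. -/
theorem NLvl.B_mul (D : NLvl ΛL ΛP S U) (k₀ : ℕ) {l l' : ℕ} {c c' : ℤ} {v : D.SecT (k₀ * l) l}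
    (hv : NOfWt ΛL ΛP (insert D.i S) (D.wt (k₀ * l) l c) v) {w : D.SecT (k₀ * l') l'}
    (hw : NOfWt ΛL ΛP (insert D.i S) (D.wt (k₀ * l') l' c') w) :
    ∃ m : D.SecT (k₀ * (l + l')) (l + l'),
      NOfWt ΛL ΛP (insert D.i S) (D.wt (k₀ * (l + l')) (l + l') (c + c')) m ∧
      ∀ i j x, m.f i j x = v.f i j x * w.f i j x := by
  have e1 : k₀ * l * D.K + l * D.K' + (k₀ * l' * D.K + l' * D.K') =
      k₀ * (l + l') * D.K + (l + l') * D.K' := by ring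
  have e2 : k₀ * l * 0 + l * D.J' + (k₀ * l' * 0 + l' * D.J') =
      k₀ * (l + l') * 0 + (l + l') * D.J' := by ring
  refine ⟨(v.mul w).cast e1 e2, ?_, fun _ _ _ => rfl⟩
  refine NOfWt.cast (NOfWt.congr_wt ?_ (hv.mul hw)) _ _
  intro d _
  simp only [Pi.add_apply, NLvl.wt]
  push_cast
  split_ifs <;> ring

/-- PROOF. `NSec.pow`, `NSec.cast`, `NOfWt.pow`, `NOfWt.congr_wt`. -/
theorem NLvl.B_pow (D : NLvl ΛL ΛP S U) (k₀ : ℕ) {l : ℕ} {c : ℤ} {v : D.SecT (k₀ * l) l}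
    (hv : NOfWt ΛL ΛP (insert D.i S) (D.wt (k₀ * l) l c) v) (e : ℕ) :
    ∃ m : D.SecT (k₀ * (e * l)) (e * l),
      NOfWt ΛL ΛP (insert D.i S) (D.wt (k₀ * (e * l)) (e * l) (e * c)) m ∧
      ∀ i j x, m.f i j x = v.f i j x ^ e := by
  have e1 : e * (k₀ * l * D.K + l * D.K') = k₀ * (e * l) * D.K + e * l * D.K' := by ring
  have e2 : e * (k₀ * l * 0 + l * D.J') = k₀ * (e * l) * 0 + e * l * D.J' := by ring
  refine ⟨(v.pow e).cast e1 e2, ?_, fun _ _ _ => rfl⟩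
  refine NOfWt.cast (NOfWt.congr_wt ?_ (hv.pow e)) _ _
  intro d _
  simp only [NLvl.wt]
  push_cast
  split_ifs <;> ring

/-- PROOF. `NSec.add`, `NSec.smul`, `NOfWt.add`, `NOfWt.smul`. -/
theorem NLvl.B_lin (D : NLvl ΛL ΛP S U) {k j : ℕ} {χ : Fin r → ℤ} {v w : D.SecT k j}
    (hv : NOfWt ΛL ΛP (insert D.i S) χ v) (hw : NOfWt ΛL ΛP (insert D.i S) χ w) (a b : ℂ) :
    ∃ m : D.SecT k j, NOfWt ΛL ΛP (insert D.i S) χ m ∧
      ∀ i j x, m.f i j x = a * v.f i j x + b * w.f i j x := by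
  exact ⟨(NSec.smul a v).add (NSec.smul b w), (hv.smul a).add (hw.smul b), fun _ _ _ => rfl⟩

/-- The two sections at a point of the chamber. PROOF. `sp > 0`, `sm > 0` and `GT.Fam.m_pos_iff` give
`q, q' ∈ V.F`, which are in `R (k0 N) N` (`V.hF`), i.e. come from sections (`num_pos_iff`). -/
theorem NLvl.exists_pm (D : NLvl ΛL ΛP S U) (V : GT.Fam D.sys) (σ : ℤ) {x : X}
    (hx : x ∈ D.Cham V σ) : ∃ (cp cm : ℤ) (vp vm : D.SecT (V.k0 * V.N) V.N), 0 < σ * cp ∧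
      σ * cm ≤ 0 ∧ NOfWt ΛL ΛP (insert D.i S) (D.wt (V.k0 * V.N) V.N cp) vp ∧
      NOfWt ΛL ΛP (insert D.i S) (D.wt (V.k0 * V.N) V.N cm) vm ∧ vp.NZ x ∧ vm.NZ x := by
  obtain ⟨hxU, h1, h2⟩ := hx
  obtain ⟨q, hq, hc, hqx⟩ := (V.m_pos_iff _ _).1 h1
  obtain ⟨q', hq', hc', hqx'⟩ := (V.m_pos_iff _ _).1 h2
  obtain ⟨s, hs, hsn⟩ := (D.cham_R_iff hxU).1 ⟨q.2, V.hF q hq, hqx⟩
  obtain ⟨s', hs', hsn'⟩ := (D.cham_R_iff hxU).1 ⟨q'.2, V.hF q' hq', hqx'⟩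
  exact ⟨q.1, q'.1, s, s', hc, hc', hs, hs', hsn, hsn'⟩

end Pool.Agent.Abn
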