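import Pool.Agent.H.MP_e23cd6_ag.NT.SepB

/-! MP_e23cd6_ag, torus actions: monomials of the weight of `a'`. -/

set_option autoImplicit false

open scoped Manifold ContDiff Topology ENNReal
open MeasureTheory Set Filter

namespace Pool.Agent.Abn

open Pool.Agent.Abd

variable {E : Type} [NormedAddCommGroup E] [NormedSpace ℂ E] [FiniteDimensional ℂ E] {r : ℕ}
  {X₀ X : Type} [TopologicalSpace X₀] [ChartedSpace E X₀] [IsManifold 𝓘(ℂ, E) ω X₀]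
  [TopologicalSpace X] [T2Space X] {Y : NSp E X₀ X}
  {L P : NLine Y} {A : NAct r Y}
  {ΛL : NLin A L} {ΛP : NLin A P} {S : Finset (Fin r)} {U : Set X}
  [CompactSpace X] [ConnectedSpace X]

/-- Change of the degree and of the weight. -/
theorem NLvl.sepB2_cast (D : NLvl ΛL ΛP S U) (k₀ : ℕ) {l₁ l₂ : ℕ} {c₁ c₂ : ℤ} (hl : l₁ = l₂)
    (hc : c₁ = c₂) {m : D.SecT (k₀ * l₁) l₁}
    (hm : NOfWt ΛL ΛP (insert D.i S) (D.wt (k₀ * l₁) l₁ c₁) m) :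
    ∃ m' : D.SecT (k₀ * l₂) l₂, NOfWt ΛL ΛP (insert D.i S) (D.wt (k₀ * l₂) l₂ c₂) m' ∧
      ∀ i j x, m'.f i j x = m.f i j x := by
  subst hl
  subst hc
  exact ⟨m, hm, fun _ _ _ => rfl⟩

/-- The arithmetic of the exponents. -/
theorem sepB2_arith {N l : ℕ} (hN : 1 ≤ N) {σ c cp cm : ℤ} (hσ : σ = 1 ∨ σ = -1)
    (hcp : 0 < σ * cp) (hcm : σ * cm ≤ 0) (hl : 1 ≤ l) :
    ∃ l'' e α β : ℕ, 1 ≤ l'' ∧ 1 ≤ e ∧ 1 ≤ α ∧ 1 ≤ β ∧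
      e * l + α * N + β * N = 2 * N * l'' ∧
      (e : ℤ) * c + α * cp + β * cm = σ * l'' := by
  have hσσ : σ * σ = 1 := by rcases hσ with h | h <;> rw [h] <;> norm_num
  obtain ⟨p, hp⟩ : ∃ p : ℕ, σ * cp = p + 1 := ⟨(σ * cp - 1).toNat, by omega⟩
  obtain ⟨q, hq⟩ : ∃ q : ℕ, σ * cm = -(q : ℤ) := ⟨(-(σ * cm)).toNat, by omega⟩
  obtain ⟨a, b, ha, hb, hw⟩ : ∃ a b : ℕ, 1 ≤ a ∧ 1 ≤ b ∧
      (b : ℤ) - a = 2 * N * (σ * c) - l := by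
    rcases le_total 0 (2 * (N : ℤ) * (σ * c) - l) with h | h
    · exact ⟨1, (2 * (N : ℤ) * (σ * c) - l).toNat + 1, le_rfl, by omega, by omega⟩
    · exact ⟨(-(2 * (N : ℤ) * (σ * c) - l)).toNat + 1, 1, by omega, le_rfl, by omega⟩
  set P := N * (2 * p + 1) with hP
  set Q := N * (2 * q + 1) with hQ
  have hP1 : 1 ≤ P := Nat.mul_pos hN (by omega)
  have hQ1 : 1 ≤ Q := Nat.mul_pos hN (by omega)
  have h2N : 1 ≤ 2 * N := by omega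
  refine ⟨P * Q * l + (Q * a + P * b) * N, 2 * N * (P * Q), 2 * N * (Q * a), 2 * N * (P * b),
    ?_, Nat.mul_pos h2N (Nat.mul_pos hP1 hQ1), Nat.mul_pos h2N (Nat.mul_pos hQ1 ha),
    Nat.mul_pos h2N (Nat.mul_pos hP1 hb), by ring, ?_⟩
  · have : 1 ≤ P * Q * l := Nat.mul_pos (Nat.mul_pos hP1 hQ1) hl
    omega
  · have hPz : (P : ℤ) = N * (2 * p + 1) := by rw [hP]; push_cast; ring
    have hQz : (Q : ℤ) = N * (2 * q + 1) := by rw [hQ]; push_cast; ring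
    have h1 : σ * ((2 * N * (P * Q) : ℕ) * c + (2 * N * (Q * a) : ℕ) * cp
        + (2 * N * (P * b) : ℕ) * cm) = ((P * Q * l + (Q * a + P * b) * N : ℕ) : ℤ) := by
      push_cast
      have e1 : (2 : ℤ) * N * (σ * c) = b - a + l := by linarith
      have e2 : (2 : ℤ) * N * (σ * cp) = P + N := by rw [hp, hPz]; ring
      have e3 : (2 : ℤ) * N * (σ * cm) = N - Q := by rw [hq, hQz]; ring
      calc σ * (2 * (N : ℤ) * (P * Q) * c + 2 * N * (Q * a) * cp + 2 * N * (P * b) * cm)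
          = P * Q * (2 * N * (σ * c)) + Q * a * (2 * N * (σ * cp))
            + P * b * (2 * N * (σ * cm)) := by ring
        _ = P * Q * l + (Q * a + P * b) * N := by rw [e1, e2, e3]; ring
    rw [← h1, ← mul_assoc σ σ, hσσ, one_mul]

/-- Monomials of the weight of `a'`: for a section `v` of `l B` of weight `c` and sections `vp`, `vm` of
`N B` of weights `cp`, `cm` on the two sides. -/
theorem NLvl.B_mono (D : NLvl ΛL ΛP S U) (V : GT.Fam D.sys) {σ : ℤ} (hσ : σ = 1 ∨ σ = -1)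
    {l : ℕ} (hl : 1 ≤ l) {c cp cm : ℤ} (hcp : 0 < σ * cp) (hcm : σ * cm ≤ 0)
    {v : D.SecT (V.k0 * l) l} (hv : NOfWt ΛL ΛP (insert D.i S) (D.wt (V.k0 * l) l c) v)
    {vp vm : D.SecT (V.k0 * V.N) V.N}
    (hvp : NOfWt ΛL ΛP (insert D.i S) (D.wt (V.k0 * V.N) V.N cp) vp)
    (hvm : NOfWt ΛL ΛP (insert D.i S) (D.wt (V.k0 * V.N) V.N cm) vm) :
    ∃ l'' : ℕ, 1 ≤ l'' ∧ ∃ m : D.SecT (V.k0 * (2 * V.N * l'')) (2 * V.N * l''),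
      NOfWt ΛL ΛP (insert D.i S) (D.wt (V.k0 * (2 * V.N * l'')) (2 * V.N * l'') (σ * l'')) m ∧
      ∃ e α β : ℕ, 1 ≤ e ∧ 1 ≤ α ∧ 1 ≤ β ∧
        ∀ i j x, m.f i j x = v.f i j x ^ e * vp.f i j x ^ α * vm.f i j x ^ β := by
  obtain ⟨l'', e, α, β, hl'', he, hα, hβ, h1, h2⟩ := sepB2_arith V.hN hσ hcp hcm hl (c := c)
  obtain ⟨m₁, hm₁, hf₁⟩ := D.B_pow V.k0 hv e
  obtain ⟨m₂, hm₂, hf₂⟩ := D.B_pow V.k0 hvp α
  obtain ⟨m₃, hm₃, hf₃⟩ := D.B_pow V.k0 hvm β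
  obtain ⟨m₄, hm₄, hf₄⟩ := D.B_mul V.k0 hm₁ hm₂
  obtain ⟨m₅, hm₅, hf₅⟩ := D.B_mul V.k0 hm₄ hm₃
  obtain ⟨m, hm, hf⟩ := D.sepB2_cast V.k0 h1 h2 hm₅
  refine ⟨l'', hl'', m, hm, e, α, β, he, hα, hβ, fun i j x => ?_⟩
  rw [hf, hf₅, hf₄, hf₁, hf₂, hf₃]

end Pool.Agent.Abn
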