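import Pool.Agent.H.MP_e23cd6_ag.NT.ChamB3

/-! MP_e23cd6_ag, torus actions: the multiples of `B = k₀ D + a` separate the `T_S`-orbits. -/

set_option autoImplicit false

open scoped Manifold ContDiff Topology ENNReal
open MeasureTheory Set Filter

namespace Pool.Agent.Abn

open Pool.Agent.Abd

variable {E : Type} [NormedAddCommGroup E] [NormedSpace ℂ E] [FiniteDimensional ℂ E] {r : ℕ}
  {X₀ X : Type} [TopologicalSpace X₀] [ChartedSpace E X₀] [IsManifold 𝓘(ℂ, E) ω X₀]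
  [TopologicalSpace X] [T2Space X] {Y : NSp E X₀ X}
  {L P : NLine Y} {A : NAct r Y}
  {ΛL : NLin A L} {ΛP : NLin A P} {S : Finset (Fin r)} {U : Set X}
  [CompactSpace X] [ConnectedSpace X]

/-- The multiples of `B = k₀ D + a` separate the `T_S`-orbits.

PROOF. `D.ample.2` gives `l₁ ≥ 1` and `u`, a section of `l₁ a`, `u.NZ x`, `¬ u.NZ z`. If `k₀ = 0` cast
`u` to `D.SecT (0 * l₁) l₁`. If `k₀ ≥ 1` let `N₁ = k₀ (1 + l₁) ≥ 1`; `D.semi N₁` gives `l₂ ≥ 1` and `w`, a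
section of `l₂ (N₁ D + a)`, `w.NZ x`; `s = w * u ^ l₂` is a section of `l B`, `l = l₂ (1 + l₁)`:
`l₂ (N₁ K + K') + l₂ (l₁ K') = k₀ l K + l K'`; `s.NZ x`, `¬ s.NZ z` (`nz_mul`, `nz_pow`). -/
theorem NLvl.B_sep (D : NLvl ΛL ΛP S U) (k₀ : ℕ) {x z : X} (hx : x ∈ U) (hz : z ∈ U)
    (h : ¬ ∃ a, InTS S a ∧ z = A.act a x) : ∃ l : ℕ, 1 ≤ l ∧ ∃ s : D.SecT (k₀ * l) l,
      NOfWt ΛL ΛP S (fun d => ((k₀ * l : ℕ) : ℤ) * D.χ d + l * D.χ' d) s ∧ s.NZ x ∧ ¬ s.NZ z := by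
  obtain ⟨l₁, hl₁, u, hu, hux, huz⟩ := D.ample.2 x hx z hz h
  rcases Nat.eq_zero_or_pos k₀ with rfl | hk
  · refine ⟨l₁, hl₁, u.cast (by ring) (by ring), ?_, ?_, ?_⟩
    · refine NOfWt.cast (NOfWt.congr_wt ?_ hu) _ _
      intro d _
      push_cast
      ring
    · rw [NSec.nz_cast]
      exact hux
    · rw [NSec.nz_cast]
      exact huz
  · obtain ⟨l₂, hl₂, hsemi⟩ := D.semi (k₀ * (1 + l₁)) (Nat.mul_pos hk (by omega))
    obtain ⟨w, hw, hwx⟩ := hsemi x hx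
    refine ⟨l₂ * (1 + l₁), Nat.mul_pos hl₂ (by omega), (w.mul (u.pow l₂)).cast (by ring) (by ring), ?_, ?_, ?_⟩
    · refine NOfWt.cast (NOfWt.congr_wt ?_ (hw.mul (hu.pow l₂))) _ _
      intro d _
      simp only [Pi.add_apply]
      push_cast
      ring
    · rw [NSec.nz_cast, NSec.nz_mul _ _ (mem_univ x), NSec.nz_pow _ (by omega) (mem_univ x)]
      exact ⟨hwx, hux⟩
    · rw [NSec.nz_cast, NSec.nz_mul _ _ (mem_univ z), NSec.nz_pow _ (by omega) (mem_univ z)]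
      exact fun hh => huz hh.2

end Pool.Agent.Abn
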