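import Pool.Agent.H.MP_e23cd6_ag.NT.SepC
import Pool.Agent.H.MP_e23cd6_ag.GT.SepA

/-! MP_e23cd6_ag, torus actions: two points of the chamber which are not separated by the sections
of multiples of `a'`. -/

set_option autoImplicit false

open scoped Manifold ContDiff Topology ENNReal
open MeasureTheory Set Filter

namespace Pool.Agent.Abn

open Pool.Agent.Abd

variable {E : Type} [NormedAddCommGroup E] [NormedSpace ℂ E] [FiniteDimensional ℂ E] {r : ℕ}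
  {X₀ X : Type} [TopologicalSpace X₀] [ChartedSpace E X₀] [IsManifold 𝓘(ℂ, E) ω X₀]
  [TopologicalSpace X] [T2Space X] {Y : NSp E X₀ X}
  {L P : NLine Y} {A : NAct r Y}
  {ΛL : NLin A L} {ΛP : NLin A P} {S : Finset (Fin r)} {U : Set X}
  [CompactSpace X] [ConnectedSpace X]

/-- The quotient of the values at `x` and `y` does not depend on the section. -/
theorem NLvl.NoSep.sepC2_ratio (D : NLvl ΛL ΛP S U) (V : GT.Fam D.sys) {σ : ℤ}
    (hσ : σ = 1 ∨ σ = -1)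
    {x y : X} (hx : x ∈ D.Cham V σ) (H : D.NoSep V σ x y) {i j i' j'} (hxf : NAt L P i j x)
    (hyf : NAt L P i' j' y) {l : ℕ} {c : ℤ} (hl : 1 ≤ l) {v w : D.SecT (V.k0 * l) l}
    (hv : NOfWt ΛL ΛP (insert D.i S) (D.wt (V.k0 * l) l c) v)
    (hw : NOfWt ΛL ΛP (insert D.i S) (D.wt (V.k0 * l) l c) w) :
    w.f i' j' y * v.f i j x = v.f i' j' y * w.f i j x := by
  obtain ⟨m, hm, hmf⟩ := D.B_lin hv hw (w.f i' j' y) (-v.f i' j' y)
  by_contra hne
  have h1 : m.NZ x := by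
    rw [m.nz_iff (mem_univ x) hxf, hmf]
    intro h0
    apply hne
    linear_combination h0
  have h2 := NLvl.NoSep.nz D V hσ hx H hl hm h1
  rw [m.nz_iff (mem_univ y) hyf, hmf] at h2
  apply h2
  ring

/-- The values at `x` and `y` of the weight sections of multiples of `B` differ by a character.

PROOF. `exists_char` for `Γ l c`: `1 ≤ l` and some section `v` of `l B` of weight `c` does not vanish at
`y`; `θ l c = v(x) / v(y)` (values in the given frames) for a chosen such `v`. For two sections `v, w` of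
the same degree and weight with `v(y), w(y) ≠ 0`, `w(y) v - v(y) w` (`B_lin`) vanishes at `y`, so at
`x` (`NoSep.nz`), so `θ` does not depend on the choice. `Γ` is closed under addition and `θ` is
multiplicative (`B_mul`); `θ ≠ 0` by `NoSep.nz'`; `Γ` is not empty (`exists_pm` at `x` and `NoSep.nz`).
If `v(y) = 0` then `v(x) = 0` by `NoSep.nz`, so the formula holds for all `v`. -/
theorem NLvl.NoSep.char (D : NLvl ΛL ΛP S U) (V : GT.Fam D.sys) {σ : ℤ} (hσ : σ = 1 ∨ σ = -1)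
    {x y : X} (hx : x ∈ D.Cham V σ) (H : D.NoSep V σ x y) {i j i' j'} (hxf : NAt L P i j x)
    (hyf : NAt L P i' j' y) : ∃ c₀ b : ℂ, c₀ ≠ 0 ∧ b ≠ 0 ∧ ∀ (l : ℕ) (c : ℤ), 1 ≤ l →
      ∀ v : D.SecT (V.k0 * l) l, NOfWt ΛL ΛP (insert D.i S) (D.wt (V.k0 * l) l c) v →
        v.f i j x = c₀ ^ l * b ^ c * v.f i' j' y := by
  classical
  let Γ : ℕ → ℤ → Prop := fun l c => 1 ≤ l ∧ ∃ v : D.SecT (V.k0 * l) l,
    NOfWt ΛL ΛP (insert D.i S) (D.wt (V.k0 * l) l c) v ∧ v.f i' j' y ≠ 0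
  let θ : ℕ → ℤ → ℂ := fun l c => if h : Γ l c then
    h.2.choose.f i j x / h.2.choose.f i' j' y else 0
  have hθ : ∀ l c, 1 ≤ l → ∀ v : D.SecT (V.k0 * l) l,
      NOfWt ΛL ΛP (insert D.i S) (D.wt (V.k0 * l) l c) v → v.f i' j' y ≠ 0 →
      θ l c = v.f i j x / v.f i' j' y := by
    intro l c hl v hv hvy
    have hG : Γ l c := ⟨hl, v, hv, hvy⟩
    have e : θ l c = hG.2.choose.f i j x / hG.2.choose.f i' j' y := dif_pos hG
    obtain ⟨hu, huy⟩ := hG.2.choose_spec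
    rw [e, div_eq_div_iff huy hvy]
    have := NLvl.NoSep.sepC2_ratio D V hσ hx H hxf hyf hl hv hu
    linear_combination -this
  have hne : ∃ l c, Γ l c := by
    obtain ⟨cp, cm, vp, vm, hcp, hcm, hvp, hvm, hpx, hmx⟩ := D.exists_pm V σ hx
    have h := NLvl.NoSep.nz D V hσ hx H V.hN hvp hpx
    exact ⟨V.N, cp, V.hN, vp, hvp, (vp.nz_iff (mem_univ y) hyf).1 h⟩
  have hadd : ∀ l c l' c', Γ l c → Γ l' c' → Γ (l + l') (c + c') := by
    rintro l c l' c' ⟨hl, v, hv, hvy⟩ ⟨hl', w, hw, hwy⟩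
    obtain ⟨m, hm, hmf⟩ := D.B_mul V.k0 hv hw
    refine ⟨by omega, m, hm, ?_⟩
    rw [hmf]
    exact mul_ne_zero hvy hwy
  have h0 : ∀ l c, Γ l c → θ l c ≠ 0 := by
    rintro l c ⟨hl, v, hv, hvy⟩
    rw [hθ l c hl v hv hvy]
    have h := NLvl.NoSep.nz' D V hσ hx H hl hv ((v.nz_iff (mem_univ y) hyf).2 hvy)
    exact div_ne_zero ((v.nz_iff (mem_univ x) hxf).1 h) hvy
  have hmul : ∀ l c l' c', Γ l c → Γ l' c' → θ (l + l') (c + c') = θ l c * θ l' c' := by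
    rintro l c l' c' ⟨hl, v, hv, hvy⟩ ⟨hl', w, hw, hwy⟩
    obtain ⟨m, hm, hmf⟩ := D.B_mul V.k0 hv hw
    have hmy : m.f i' j' y ≠ 0 := by
      rw [hmf]
      exact mul_ne_zero hvy hwy
    rw [hθ l c hl v hv hvy, hθ l' c' hl' w hw hwy,
      hθ (l + l') (c + c') (by omega) m hm hmy, hmf, hmf, mul_div_mul_comm]
  obtain ⟨c₀, b, hc₀, hb, hch⟩ := exists_char Γ θ hne hadd h0 hmul
  refine ⟨c₀, b, hc₀, hb, ?_⟩
  intro l c hl v hv
  by_cases hvy : v.f i' j' y = 0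
  · have hvx : v.f i j x = 0 := by
      by_contra hcon
      have h := NLvl.NoSep.nz D V hσ hx H hl hv ((v.nz_iff (mem_univ x) hxf).2 hcon)
      exact (v.nz_iff (mem_univ y) hyf).1 h hvy
    rw [hvx, hvy, mul_zero]
  · have hG : Γ l c := ⟨hl, v, hv, hvy⟩
    rw [← hch l c hG, hθ l c hl v hv hvy, div_mul_cancel₀ _ hvy]

/-- The value of a character at an element of a factor of the torus. -/
theorem sepC2_chr_update (i : Fin r) (a : ℂ) (χ : Fin r → ℤ) :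
    chr χ (Function.update (1 : Fin r → ℂ) i a) = a ^ χ i := by
  unfold chr
  rw [Finset.prod_eq_single i]
  · simp
  · intro b _ hb
    simp [Function.update_of_ne hb]
  · simp

/-- A torus element `a ∈ T_i` such that the sections of `l B` of the right `T_S`-weight vanish at `x`
iff they vanish at `a y`.

PROOF. Frames at `x`, `y` (`exists_nat`), `c₀`, `b` from `NoSep.char`; `a = Function.update 1 i b⁻¹`,
frames `i₂, j₂, φ₂` at `a y`. For a section `v` of `l B` of weight `c`, the weight rule (`NOfWt.rule`, `m = 0`)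
gives `chr (wt (k₀ l) l c) a * v(a y) = lam ^ (k₀ l K + l K') * lam' ^ (l J') * v(y)`, where
`chr (wt ..) a = (b⁻¹) ^ ((k₀ l) χ i + l χ' i + c) = (b⁻¹ ^ (k₀ χ i + χ' i)) ^ l * (b⁻¹) ^ c`, so
`v(a y) = C ^ l * b ^ c * v(y)` with `C = lam ^ (k₀ K + K') * lam' ^ J' * b ^ (k₀ χ i + χ' i) ≠ 0`
(independent of `v`, `l`, `c`). So `v(x) = (c₀ / C) ^ l * v(a y)`. For general `s` decompose
(`exists_comp`) `s = ∑ c, t c` and sum up: `s(x) = (c₀ / C) ^ l * s(a y)`. -/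
theorem NLvl.NoSep.exists_shift (D : NLvl ΛL ΛP S U) (V : GT.Fam D.sys) {σ : ℤ}
    (hσ : σ = 1 ∨ σ = -1) {x y : X} (hx : x ∈ D.Cham V σ) (H : D.NoSep V σ x y) :
    ∃ a, InTS {D.i} a ∧ ∀ l : ℕ, 1 ≤ l → ∀ s : D.SecT (V.k0 * l) l,
      NOfWt ΛL ΛP S (fun d => ((V.k0 * l : ℕ) : ℤ) * D.χ d + l * D.χ' d) s →
      (s.NZ x ↔ s.NZ (A.act a y)) := by
  obtain ⟨i, j, hxf⟩ := exists_nat L P x
  obtain ⟨i', j', hyf⟩ := exists_nat L P y
  obtain ⟨c₀, b, hc₀, hb, hch⟩ := NLvl.NoSep.char D V hσ hx H hxf hyf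
  have hb' : b⁻¹ ≠ 0 := inv_ne_zero hb
  have haT : InT (Function.update (1 : Fin r → ℂ) D.i b⁻¹) := chamB3_inT_update hb'
  have hanot : ∀ c, c ≠ D.i → Function.update (1 : Fin r → ℂ) D.i b⁻¹ c = 1 := by
    intro c hc
    rw [Function.update_of_ne hc]
    rfl
  generalize hadef : Function.update (1 : Fin r → ℂ) D.i b⁻¹ = a at haT hanot
  have haS : InTS {D.i} a := ⟨haT, fun c hc => hanot c (by simpa using hc)⟩
  have haS' : InTS (insert D.i S) a :=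
    ⟨haT, fun c hc => hanot c (fun e => hc (e ▸ Finset.mem_insert_self _ _))⟩
  obtain ⟨i₂, j₂, haf⟩ := exists_nat L P (A.act a y)
  have hlam : ΛL.lam i₂ i' a y ≠ 0 := nlam_ne_zero ΛL haT hyf.memL haf.memL
  have hlam' : ΛP.lam j₂ j' a y ≠ 0 := nlam_ne_zero ΛP haT hyf.memP haf.memP
  let C : ℂ := ΛL.lam i₂ i' a y ^ (V.k0 * D.K + D.K') * ΛP.lam j₂ j' a y ^ D.J' *
    b ^ ((V.k0 : ℤ) * D.χ D.i + D.χ' D.i)
  have hC : C ≠ 0 := mul_ne_zero (mul_ne_zero (pow_ne_zero _ hlam) (pow_ne_zero _ hlam'))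
    (zpow_ne_zero _ hb)
  have key : ∀ l : ℕ, ∀ c : ℤ, ∀ v : D.SecT (V.k0 * l) l,
      NOfWt ΛL ΛP (insert D.i S) (D.wt (V.k0 * l) l c) v →
      v.f i₂ j₂ (A.act a y) =
        C ^ l * b ^ c * v.f i' j' y := by
    intro l c v hv
    have h := hv.rule haS' (mem_univ y) (mem_univ _) haf hyf
    have hchr : chr (D.wt (V.k0 * l) l c) a =
        (b ^ ((V.k0 : ℤ) * D.χ D.i + D.χ' D.i))⁻¹ ^ l * (b ^ c)⁻¹ := by
      rw [← hadef, sepC2_chr_update]
      simp only [NLvl.wt, if_true]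
      rw [inv_zpow, zpow_add₀ hb, mul_inv, inv_pow, ← zpow_natCast, ← zpow_mul]
      congr 3
      push_cast
      ring
    rw [hchr] at h
    have hb1 : b ^ ((V.k0 : ℤ) * D.χ D.i + D.χ' D.i) ≠ 0 := zpow_ne_zero _ hb
    have hb2 : b ^ c ≠ 0 := zpow_ne_zero _ hb
    have e1 : V.k0 * l * D.K + l * D.K' = (V.k0 * D.K + D.K') * l := by ring
    have e2 : V.k0 * l * 0 + l * D.J' = D.J' * l := by ring
    have e3 : ΛL.lam i₂ i' a y ^ (V.k0 * l * D.K + l * D.K') =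
        (ΛL.lam i₂ i' a y ^ (V.k0 * D.K + D.K')) ^ l := by rw [e1, pow_mul]
    have e4 : ΛP.lam j₂ j' a y ^ (V.k0 * l * 0 + l * D.J') =
        (ΛP.lam j₂ j' a y ^ D.J') ^ l := by rw [e2, pow_mul]
    rw [e3, e4] at h
    simp only [C, mul_pow]
    rw [inv_pow] at h
    have hb3 : (b ^ ((V.k0 : ℤ) * D.χ D.i + D.χ' D.i)) ^ l ≠ 0 := pow_ne_zero _ hb1
    generalize (b ^ ((V.k0 : ℤ) * D.χ D.i + D.χ' D.i)) ^ l = β at h hb3 ⊢
    generalize b ^ c = γ at h hb2 ⊢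
    field_simp at h
    linear_combination h
  refine ⟨a, haS, ?_⟩
  intro l hl s hs
  obtain ⟨T, t, ht, hsum⟩ := D.exists_comp s hs
  have e : s.f i j x = (c₀ / C) ^ l *
      s.f i₂ j₂ (A.act a y) := by
    rw [hsum _ _ _ hxf, hsum _ _ _ haf, Finset.mul_sum]
    refine Finset.sum_congr rfl fun c _ => ?_
    rw [key l c (t c) (ht c), hch l c hl (t c) (ht c), div_pow]
    have hCl : C ^ l ≠ 0 := pow_ne_zero _ hC
    field_simp
  rw [s.nz_iff (mem_univ x) hxf, s.nz_iff (mem_univ (A.act a y)) haf, e]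
  have hq : (c₀ / C) ^ l ≠ 0 := pow_ne_zero _ (div_ne_zero hc₀ hC)
  constructor
  · intro h h0
    exact h (by rw [h0, mul_zero])
  · intro h
    exact mul_ne_zero hq h

end Pool.Agent.Abn
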