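import Pool.Agent.H.MP_e23cd6_ag.NT.ChamA
import Pool.Agent.H.MP_e23cd6_ag.NT.LvlG
import Pool.Agent.H.MP_e23cd6_ag.GT.DynH

/-! MP_e23cd6_ag, torus actions: existence of levels, normalisation at a fixed point. -/

set_option autoImplicit false

open scoped Manifold ContDiff Topology ENNReal
open MeasureTheory Set Filter

namespace Pool.Agent.Abn

open Pool.Agent.Abd

variable {E : Type} [NormedAddCommGroup E] [NormedSpace ℂ E] [FiniteDimensional ℂ E] {r : ℕ}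
  {X₀ X : Type} [TopologicalSpace X₀] [ChartedSpace E X₀] [IsManifold 𝓘(ℂ, E) ω X₀]
  [TopologicalSpace X] [T2Space X] {Y : NSp E X₀ X}
  {L P : NLine Y} {A : NAct r Y}
  {ΛL : NLin A L} {ΛP : NLin A P} {S : Finset (Fin r)} {U : Set X}
  [CompactSpace X] [ConnectedSpace X]

/-- The data of a level exist. PROOF. The metric on `a` is given by `NSemiQ.exists_met` (for
`hA.1.toQ`), the one on `D + a` by `NSemiQ.exists_met` for `hN 1` (casts: `1 * K + K' = K + K'`,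
`(fun c => 1 * χ c + χ' c) = χ + χ'`), the one on `D` is `NMet.div`. -/
theorem exists_lvl (hG : NGood A S U) {i : Fin r} (hi : i ∉ S) {K K' J' : ℕ} {χ χ' : Fin r → ℤ}
    (hA : NAmpleG ΛL ΛP S U K' J' χ')
    (hN : ∀ N : ℕ, 1 ≤ N → NSemiG ΛL ΛP S U (N * K + K') J' (fun c => N * χ c + χ' c)) :
    ∃ D : NLvl ΛL ΛP S U, D.i = i ∧ D.K = K ∧ D.χ = χ ∧ D.K' = K' ∧ D.J' = J' ∧ D.χ' = χ' := by
  obtain ⟨ha⟩ := NSemiQ.exists_met hG hA.1.toQ
  have h1 := (hN 1 le_rfl).toQ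
  have e1 : 1 * K + K' = K + K' := by rw [one_mul]
  have e2 : (fun c => ((1 : ℕ) : ℤ) * χ c + χ' c) = χ + χ' := by
    funext c
    simp
  rw [e1, e2] at h1
  obtain ⟨hs⟩ := NSemiQ.exists_met hG h1
  exact ⟨⟨i, hi, hG, K, χ, K', J', χ', hA, hN, hs.div ha, ha⟩, rfl, rfl, rfl, rfl, rfl, rfl⟩

end Pool.Agent.Abn
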