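import Pool.Agent.H.MP_e23cd6_ag.NT.ChamA
import Pool.Agent.H.MP_e23cd6_ag.GT.DynH

/-! MP_e23cd6_ag, torus actions: the points of `U / T_S` which are not fixed are dense. -/

set_option autoImplicit false

open scoped Manifold ContDiff Topology ENNReal
open MeasureTheory Set Filter

namespace Pool.Agent.Abn

open Pool.Agent.Abd

variable {E : Type} [NormedAddCommGroup E] [NormedSpace ℂ E] [FiniteDimensional ℂ E] {r : ℕ}
  {X₀ X : Type} [TopologicalSpace X₀] [ChartedSpace E X₀] [IsManifold 𝓘(ℂ, E) ω X₀]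
  [TopologicalSpace X] [T2Space X] {Y : NSp E X₀ X}
  {L P : NLine Y} {A : NAct r Y}
  {ΛL : NLin A L} {ΛP : NLin A P} {S : Finset (Fin r)} {U : Set X}
  [CompactSpace X] [ConnectedSpace X]

/-- At a fixed point all the elements of `R 0 l c` which are positive have the same `c`. -/
theorem NLvl.StepB_same (D : NLvl ΛL ΛP S U) {z : NQuo A S U} (h : D.f 1 z = z) :
    ∀ l c c', ∀ u ∈ D.R 0 l c, ∀ u' ∈ D.R 0 l c', 1 ≤ l → 0 < u z → 0 < u' z → c = c' := by
  intro l c c' u hu u' hu' _ h1 h2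
  have e1 := D.sys.exp_fixed (z := z) h hu h1
  have e2 := D.sys.exp_fixed (z := z) h hu' h2
  have e3 : (c : ℝ) = c' := by rw [e1, e2]
  exact_mod_cast e3

/-- PROOF. If `mk x` is fixed then all functions in `R 0 l c` which are positive at it have
`c = l a(mk x)` (`GT.Sys.exp_fixed`), so `same_exp` applies at `x` to every `a ∈ T_i`. If all points were
fixed this would contradict `exists_moving`. -/
theorem NLvl.exists_moving (D : NLvl ΛL ΛP S U) (hd : Dense U)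
    (hst : ∃ y : X₀, {a : Fin r → ℂ | InT a ∧ A.reg.act a y = y}.Finite) :
    ∃ x : U, D.f 1 (NQuo.mk A S U x) ≠ NQuo.mk A S U x := by
  by_contra hcon
  push Not at hcon
  refine _root_.Pool.Agent.Abn.exists_moving D.good hd D.hi hst ?_
  intro x hx a ha
  exact D.same_exp ⟨x, hx⟩ (D.StepB_same (hcon ⟨x, hx⟩)) ha

/-- PROOF. `x₁` is not fixed, so by `NLvl.fix` there are `l ≥ 1`, `c ≠ c'` and `u ∈ R 0 l c`, `u' ∈ R 0 l c'`,
both positive at `mk x₁`, i.e. sections `s`, `s'` over `X` which do not vanish at `x₁`. By `exists_nz` for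
the restriction of `s.mul s'` to the connected set `U` and the open set `interior N ∩ U` there is `x` in
this set where both do not vanish. If `mk x` was fixed, `exp_fixed` would give `c = c'`. -/
theorem NLvl.moving_dense (D : NLvl ΛL ΛP S U)
    (h : ∃ x : U, D.f 1 (NQuo.mk A S U x) ≠ NQuo.mk A S U x) {x₀ : X} (hx₀ : x₀ ∈ U) :
    ∀ N ∈ 𝓝 x₀, ∃ x ∈ N, ∃ hx : x ∈ U, D.f 1 (NQuo.mk A S U ⟨x, hx⟩) ≠ NQuo.mk A S U ⟨x, hx⟩ := by
  intro N hN
  obtain ⟨x₁, hx₁⟩ := h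
  have h1 : ¬ ∀ l c c', ∀ u ∈ D.R 0 l c, ∀ u' ∈ D.R 0 l c', 1 ≤ l → 0 < u (NQuo.mk A S U x₁) →
      0 < u' (NQuo.mk A S U x₁) → c = c' := fun h2 => hx₁ (D.fix _ h2)
  push Not at h1
  obtain ⟨l, c, c', u, hu, u', hu', hl, hp, hp', hcc⟩ := h1
  have hu0 := hu
  have hu0' := hu'
  obtain ⟨s, hs, hus⟩ := hu0
  obtain ⟨s', hs', hus'⟩ := hu0'
  have hn : s.NZ x₁.1 := (D.num_pos_iff s x₁.2).1 (by rw [← hus x₁]; exact hp)
  have hn' : s'.NZ x₁.1 := (D.num_pos_iff s' x₁.2).1 (by rw [← hus' x₁]; exact hp')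
  have hmul : ((s.mul s').res (subset_univ U)).NZ x₁.1 := by
    rw [NSec.nz_res]
    exact (NSec.nz_mul s s' (mem_univ x₁.1)).2 ⟨hn, hn'⟩
  obtain ⟨y, hy, hyn⟩ := exists_nz D.good.isOpen D.good.conn _ x₁.2 hmul
    (isOpen_interior.inter D.good.isOpen) inter_subset_right
    ⟨x₀, mem_interior_iff_mem_nhds.2 hN, hx₀⟩
  rw [NSec.nz_res] at hyn
  obtain ⟨hy1, hy2⟩ := (NSec.nz_mul s s' (mem_univ y)).1 hyn
  refine ⟨y, interior_subset hy.1, hy.2, ?_⟩
  intro hfix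
  apply hcc
  refine D.StepB_same hfix l c c' u hu u' hu' hl ?_ ?_
  · rw [hus ⟨y, hy.2⟩]
    exact (D.num_pos_iff s hy.2).2 hy1
  · rw [hus' ⟨y, hy.2⟩]
    exact (D.num_pos_iff s' hy.2).2 hy2

/-- A section over `U` of some `T_{S + i}`-weight which does not vanish at `p` does not vanish at `x` if
the orbit of `mk x` comes arbitrarily close to `mk p`.

PROOF. The set `W` of the `y ∈ U` with `t.NZ y` is open (`NSec.nz_open`) and invariant under `T_{S + i}`
(`NOfWt.nz_act`), so its image `O` in `U / T_S` is open (its preimage under `NQuo.mk` is `W`;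
`isOpen_coinduced`) and contains `mk p`. There is `n` with `f n (mk x) ∈ O`, i.e.
`A.act (sh i (-n)) x ∈ W`, so `x ∈ W`. -/
theorem NLvl.nz_of_near (D : NLvl ΛL ΛP S U) {K J : ℕ} {χ : Fin r → ℤ} {t : NSec L P K J U}
    (ht : NOfWt ΛL ΛP (insert D.i S) χ t) {p x : X} (hp : p ∈ U) (hx : x ∈ U) (h : t.NZ p)
    (hn : ∀ O ∈ 𝓝 (NQuo.mk A S U ⟨p, hp⟩), ∃ n : ℤ, D.f n (NQuo.mk A S U ⟨x, hx⟩) ∈ O) :
    t.NZ x := by
  have hpre : NQuo.mk A S U ⁻¹' (NQuo.mk A S U '' {y : U | t.NZ y.1}) = {y : U | t.NZ y.1} := by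
    ext y
    constructor
    · rintro ⟨z, hz, hzy⟩
      obtain ⟨a, ha, hay⟩ := NQuo.mk_eq.1 hzy
      have ha' : InTS (insert D.i S) a := inTS_mono (Finset.subset_insert D.i S) ha
      have e : A.act a z.1 ∈ U := by rw [hay]; exact y.2
      show t.NZ y.1
      rw [← hay]
      exact (ht.nz_act ha' z.2 e).2 hz
    · intro hy
      exact ⟨y, hy, rfl⟩
  have hopen : IsOpen {y : U | t.NZ y.1} := by
    rw [isOpen_iff_mem_nhds]
    intro y hy
    have h1 := t.nz_open D.good.isOpen y.2 hy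
    have h2 : ∀ᶠ z : U in 𝓝 y, z.1 ∈ U ∧ t.NZ z.1 :=
      (continuous_subtype_val.tendsto y).eventually h1
    filter_upwards [h2] with z hz
    exact hz.2
  have hO : IsOpen (NQuo.mk A S U '' {y : U | t.NZ y.1}) := by
    have h3 : IsOpen (NQuo.mk A S U ⁻¹' (NQuo.mk A S U '' {y : U | t.NZ y.1})) := by
      rw [hpre]
      exact hopen
    exact h3
  obtain ⟨n, y, hy, hyn⟩ := hn _ (hO.mem_nhds ⟨⟨p, hp⟩, h, rfl⟩)
  rw [D.f_mk] at hyn
  obtain ⟨a, ha, hax⟩ := NQuo.mk_eq.1 hyn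
  have ha' : InTS (insert D.i S) a := inTS_mono (Finset.subset_insert D.i S) ha
  have hb' : InTS (insert D.i S) (sh D.i (-n)) := inTS_mono (by simp) (sh_inTS D.i (-n))
  have hbx : A.act (sh D.i (-n)) x ∈ U := D.inv _ (sh_inTS D.i (-n)).1 x hx
  have e : A.act a y.1 ∈ U := by rw [hax]; exact hbx
  have h4 : t.NZ (A.act a y.1) := (ht.nz_act ha' y.2 e).2 hy
  rw [hax] at h4
  exact (ht.nz_act hb' hx hbx).1 h4

end Pool.Agent.Abn
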