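import Pool.Agent.H.MP_e23cd6_ag.NT.WFinA
import Pool.Agent.H.MP_e23cd6_ag.NT.KltF

/-! The sections of `L ^ K ⊗ P ^ J ⊗ K_X ^ (-m)` over the regular part of `X` are finite sums of
weight vectors of the torus. -/

set_option autoImplicit false

open scoped Manifold ContDiff Topology ENNReal
open MeasureTheory Set Filter Module

namespace Pool.Agent.Abn

open Pool.Agent.Abd

variable {E : Type} [NormedAddCommGroup E] [NormedSpace ℂ E] [FiniteDimensional ℂ E] {r : ℕ}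
  {X₀ X : Type} [TopologicalSpace X₀] [ChartedSpace E X₀] [IsManifold 𝓘(ℂ, E) ω X₀]
  [TopologicalSpace X] [T2Space X] {N : NSp E X₀ X} {L P : NLine N} {K J K' J' m k : ℕ}
  {U V : Set X} {A : NAct r N} {ΛL : NLin A L} {ΛP : NLin A P} {S : Finset (Fin r)}
  {χ χ' : Fin r → ℤ}

omit [FiniteDimensional ℂ E] [IsManifold 𝓘(ℂ, E) ω X₀] [T2Space X] in
theorem NOfWt.congr_S {s : NSec L P K J U} (h : NOfWt ΛL ΛP S χ s)
    (hχ : ∀ c ∈ S, χ c = χ' c) : NOfWt ΛL ΛP S χ' s := by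
  intro a ha i j i' j' x hx hax h1 h2 h3 h4
  rw [← chr_congr_S ha hχ]
  exact h a ha i j i' j' x hx hax h1 h2 h3 h4

/-- Bound of the weights of the sections over the regular part. -/
theorem W_bound [CompactSpace X] [ConnectedSpace X] {K₁ J₁ : ℕ} {w : Fin r → ℤ}
    {W : WSec L.reg P.reg K₁ J₁ (N.inc ⁻¹' univ)} (hw : OfWtW ΛL.reg ΛP.reg Finset.univ w W)
    (hW : ∃ y ∈ N.inc ⁻¹' univ, W.NZ y) (i : Fin r) (K J m : ℕ) :
    ∃ B : ℤ, ∀ ν : ℤ, B < |ν| → ∀ (S : Finset (Fin r)) (χ : Fin r → ℤ), i ∈ S → χ i = ν →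
      ∀ s : Sec2 L.reg P.reg K J m (N.inc ⁻¹' univ), OfWt ΛL.reg ΛP.reg S χ s →
        ∀ y ∈ N.inc ⁻¹' univ, ¬ s.NZ y := by
  have hUo : IsOpen (N.inc ⁻¹' (univ : Set X)) := isOpen_univ.preimage N.emb.continuous
  have hUc : IsPreconnected (N.inc ⁻¹' (univ : Set X)) :=
    (N.conn univ isOpen_univ isConnected_univ).isPreconnected
  obtain ⟨B, hB⟩ := weights_bounded (good_univ A) (Finset.notMem_empty i) (0 : Fin r → ℤ) L P
    ΛL ΛP (K + m * K₁) (J + m * J₁)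
  refine ⟨B + m * |w i|, fun ν hν S χ hi hχ s hs => ?_⟩
  have hs' : OfWt ΛL.reg ΛP.reg {i} χ s := fun a ha =>
    hs a ⟨ha.1, fun c hc => ha.2 c fun h => hc (by rw [Finset.mem_singleton.1 h]; exact hi)⟩
  have hw' : OfWtW ΛL.reg ΛP.reg {i} w W := fun a ha =>
    hw a ⟨ha.1, fun c hc => absurd (Finset.mem_univ c) hc⟩
  have h1 := OfWt.mulW hs' hw'
  obtain ⟨t, ht, ht2⟩ := exists_ofReg_wt isOpen_univ (mulW s W) h1
  have ht' : NOfWt ΛL ΛP (insert i ∅) (Function.update (0 : Fin r → ℤ) i (ν + m * w i)) t := by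
    have e : insert i (∅ : Finset (Fin r)) = {i} := rfl
    rw [e]
    refine ht.congr_S fun c hc => ?_
    rw [Finset.mem_singleton.1 hc, Function.update_self, hχ]
  have hlt : B < |ν + m * w i| := by
    have h2 : |ν| ≤ |ν + m * w i| + m * |w i| := by
      have h3 : ν = (ν + m * w i) + -(m * w i) := by ring
      calc |ν| = |(ν + m * w i) + -(m * w i)| := by rw [← h3]
        _ ≤ |ν + m * w i| + |-(m * w i)| := abs_add_le _ _
        _ = _ := by rw [abs_neg, abs_mul, Nat.abs_cast]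
    linarith
  refine mulW_zero hUo hUc s W hW ?_
  intro y hy hnz
  refine hB _ hlt t ht' (N.inc y) (mem_univ _) ?_
  obtain ⟨i₁, j₁, φ, hφ, k1, k2, k3, k4⟩ := hnz
  refine ⟨i₁, j₁, k1, k2, ?_⟩
  rw [ht2 i₁ j₁ φ y (mem_univ _) ⟨hφ, k1, k2, k3⟩]
  exact k4

/-- Decomposition of a section over the regular part into finitely many components. -/
theorem reg_components [CompactSpace X] [ConnectedSpace X] {K₁ J₁ : ℕ} {w : Fin r → ℤ}
    {W : WSec L.reg P.reg K₁ J₁ (N.inc ⁻¹' univ)} (hw : OfWtW ΛL.reg ΛP.reg Finset.univ w W)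
    (hW : ∃ y ∈ N.inc ⁻¹' univ, W.NZ y) {i : Fin r} (hi : i ∉ S)
    (s : Sec2 L.reg P.reg K J m (N.inc ⁻¹' univ)) (hs : OfWt ΛL.reg ΛP.reg S χ s) :
    ∃ (T : Finset ℤ) (t : ℤ → Sec2 L.reg P.reg K J m (N.inc ⁻¹' univ)),
      (∀ c, OfWt ΛL.reg ΛP.reg (insert i S) (Function.update χ i c) (t c)) ∧
      ∀ i₁ j φ y, y ∈ N.inc ⁻¹' univ → At L.reg P.reg i₁ j φ y →
        s.f i₁ j φ y = ∑ c ∈ T, (t c).f i₁ j φ y := by
  have hUo : IsOpen (N.inc ⁻¹' (univ : Set X)) := isOpen_univ.preimage N.emb.continuous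
  obtain ⟨B, hB⟩ := W_bound hw hW i K J m
  have hinv : ∀ a, InT a → ∀ y ∈ N.inc ⁻¹' (univ : Set X),
      A.reg.act a y ∈ N.inc ⁻¹' (univ : Set X) := fun _ _ _ _ => mem_univ _
  choose t hwt hval using fun ν => exists_fourier_wt ΛL.reg ΛP.reg hUo hinv hi s hs ν
  refine ⟨Finset.Icc (-B) B, t, hwt, ?_⟩
  intro i₁ j φ y hy hat
  have h0 : ∀ ν, ν ∉ Finset.Icc (-B) B → fco ΛL.reg ΛP.reg s i ν i₁ j φ y = 0 := by
    intro ν hν
    have hlt : B < |ν| := by
      rw [Finset.mem_Icc, not_and_or, not_le, not_le] at hν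
      rcases hν with h | h
      · exact lt_of_lt_of_le (by linarith) (neg_le_abs ν)
      · exact lt_of_lt_of_le h (le_abs_self ν)
    have h1 := hB ν hlt (insert i S) (Function.update χ i ν) (Finset.mem_insert_self i S)
      (Function.update_self i ν χ) (t ν) (hwt ν) y hy
    rw [(t ν).nz_iff hy hat, not_not, hval ν i₁ j φ y hy hat] at h1
    exact h1
  rw [fco_sum ΛL.reg ΛP.reg hUo hinv s i _ hy hat h0]
  exact Finset.sum_congr rfl fun ν _ => (hval ν i₁ j φ y hy hat).symm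

omit [FiniteDimensional ℂ E] [IsManifold 𝓘(ℂ, E) ω X₀] [T2Space X] in
theorem ofwt_empty (s : Sec2 L.reg P.reg K J m (N.inc ⁻¹' U)) [IsManifold 𝓘(ℂ, E) ω X₀] :
    OfWt ΛL.reg ΛP.reg ∅ χ s := by
  intro a ha i j i' j' φ hφ ψ hψ x hx hax h1 h2 h3 h4 h5 h6
  have e := inTS_empty ha
  subst e
  have e1 : A.reg.jac φ ψ 1 x = jac φ ψ x := by
    unfold TorusAction.jac jac
    have : A.reg.act 1 = id := funext fun y => A.reg.one y
    rw [this, Function.id_comp]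
  have e2 : A.reg.act 1 x = x := A.reg.one x
  rw [e2] at h1 h2 h5 ⊢
  rw [ΛL.reg.one i i' x h1 h3, ΛP.reg.one j j' x h2 h4, e1,
    ← s.trans i j i' j' φ hφ ψ hψ x hx h1 h2 h3 h4 h5 h6]
  simp [chr]

/-- Every section over the regular part is a finite sum of weight vectors. -/
theorem tfin_of_ample [CompactSpace X] [ConnectedSpace X]
    (hA : NAmpleG ΛL ΛP ∅ univ K' J' χ')
    (s : Sec2 L.reg P.reg K J m (N.inc ⁻¹' univ)) :
    TFin ΛL.reg ΛP.reg K J m (N.inc ⁻¹' univ) ∅ χ s.f := by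
  classical
  obtain ⟨K₁, J₁, w, W, hw, hW⟩ := exists_W hA
  have key : ∀ S : Finset (Fin r), ∃ (ι : Type) (_ : Fintype ι)
      (t : ι → Sec2 L.reg P.reg K J m (N.inc ⁻¹' univ)) (w : ι → Fin r → ℤ),
      (∀ e, OfWt ΛL.reg ΛP.reg S (w e) (t e)) ∧
      ∀ i j φ x, x ∈ N.inc ⁻¹' univ → At L.reg P.reg i j φ x →
        s.f i j φ x = ∑ e, (t e).f i j φ x := by
    intro S
    induction S using Finset.induction_on with
    | empty =>
      exact ⟨Unit, inferInstance, fun _ => s, fun _ => 0, fun _ => ofwt_empty s,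
        fun i j φ x _ _ => by simp⟩
    | insert i S hi ih =>
      obtain ⟨ι, hι, t, w, h1, h2⟩ := ih
      choose T t' h3 h4 using fun e => reg_components hw hW hi (t e) (h1 e)
      refine ⟨Σ e, {c // c ∈ T e}, inferInstance, fun p => t' p.1 p.2.1,
        fun p => Function.update (w p.1) i p.2.1, fun p => h3 p.1 p.2.1, ?_⟩
      intro i₁ j φ x hx hat
      rw [h2 i₁ j φ x hx hat, Fintype.sum_sigma]
      refine Finset.sum_congr rfl fun e _ => ?_
      rw [h4 e i₁ j φ x hx hat]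
      exact (Finset.sum_coe_sort (T e) fun c => (t' e c).f i₁ j φ x).symm
  obtain ⟨ι, hι, t, w', h1, h2⟩ := key Finset.univ
  exact ⟨ι, hι, t, w', h1, fun e c hc => absurd hc (Finset.notMem_empty c), h2⟩

/-- The section of a klt pair on `X` may be assumed to be a finite sum of weight vectors. -/
theorem NKltQ.toF [MeasureSpace E] [CompactSpace X] [ConnectedSpace X]
    (hA : NAmpleG ΛL ΛP ∅ univ K' J' χ') (h : NKltQ ΛL ΛP ∅ univ K χ k m) :
    NKltF ΛL ΛP ∅ univ K χ k m := by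
  obtain ⟨q, hq, s, -, hk⟩ := h
  exact ⟨q, hq, s, tfin_of_ample hA s, hk⟩

end Pool.Agent.Abn
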