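import Pool.Agent.H.MP_e23cd6_ag.NT.Pieces

/-! The integral over the translates of a small set is finite (on the regular part). -/

set_option autoImplicit false

open scoped Manifold ContDiff Topology ENNReal
open MeasureTheory Set Filter

namespace Pool.Agent.Abn

open Pool.Agent.Abd

variable {E : Type} [NormedAddCommGroup E] [NormedSpace ℂ E]
  {X : Type} [TopologicalSpace X] [ChartedSpace E X]

variable (E) in
/-- The set `V` is measurable in the charts. -/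
def CM [MeasurableSpace E] (V : Set X) : Prop :=
  ∀ ψ ∈ Charts E X, MeasurableSet (ψ.target ∩ ψ.symm ⁻¹' V)

theorem CM.of_isOpen [MeasurableSpace E] [BorelSpace E] {V : Set X} (hV : IsOpen V) : CM E V :=
  fun ψ _ => (ψ.symm.isOpen_inter_preimage hV).measurableSet

theorem CM.inter [MeasurableSpace E] {V W : Set X} (hV : CM E V) (hW : CM E W) :
    CM E (V ∩ W) := by
  intro ψ hψ
  have h1 := (hV ψ hψ).inter (hW ψ hψ)
  have h2 : ψ.target ∩ ψ.symm ⁻¹' (V ∩ W) =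
      (ψ.target ∩ ψ.symm ⁻¹' V) ∩ (ψ.target ∩ ψ.symm ⁻¹' W) := by
    ext w
    simp only [mem_inter_iff, mem_preimage]
    tauto
  rw [h2]
  exact h1

theorem CM.diff [MeasurableSpace E] {V W : Set X} (hV : CM E V) (hW : CM E W) :
    CM E (V \ W) := by
  intro ψ hψ
  have h1 := (hV ψ hψ).diff (hW ψ hψ)
  have h2 : ψ.target ∩ ψ.symm ⁻¹' (V \ W) =
      (ψ.target ∩ ψ.symm ⁻¹' V) \ (ψ.target ∩ ψ.symm ⁻¹' W) := by
    ext w
    simp only [mem_inter_iff, mem_preimage, Set.mem_sdiff]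
    tauto
  rw [h2]
  exact h1

theorem preimage_restrict_val {α β : Type} {s : Set α} {f : α → β} {C : Set β} :
    (Subtype.val : s → α) '' (s.domRestrict f ⁻¹' C) = s ∩ f ⁻¹' C := by
  ext w
  constructor
  · rintro ⟨⟨w', hw'⟩, h2, rfl⟩
    exact ⟨hw', h2⟩
  · rintro ⟨h1, h2⟩
    exact ⟨⟨w, h1⟩, h2, rfl⟩

variable [FiniteDimensional ℂ E] [MeasureSpace E] [BorelSpace E]
  [(volume : Measure E).IsAddHaarMeasure] {r : ℕ} [IsManifold 𝓘(ℂ, E) ω X]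
  {A : TorusAction E r X} {L P : LineBundle E X} {K J m k : ℕ} {U : Set X}

/-- One translate: change of variables. -/
theorem int_move' (h : NormOn L P K J U)
    (hinv : ∀ a, InT a → ∀ x ∈ U, A.act a x ∈ U) (hm : 1 ≤ m)
    (s : Sec2 L P (k * K) (k * J) m U) {a : Fin r → ℂ} (ha : InT a)
    {φ ψ : OpenPartialHomeomorph X E} (hφ : φ ∈ Charts E X) (hψ : ψ ∈ Charts E X)
    {V : Set X} (hV : CM E V) (hVU : V ⊆ U) (hVφ : V ⊆ φ.source) {C : Set E}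
    (hC : MeasurableSet C) (hCψ : C ⊆ ψ.target) :
    ∫⁻ w in φ '' (V ∩ {x | A.act a x ∈ ψ.source ∧ ψ (A.act a x) ∈ C}),
        ENNReal.ofReal (dens h s (pull A ha.inv φ) (A.act a (φ.symm w))) ^ (-(2 : ℝ) / m) =
      ∫⁻ v in C ∩ {v | A.act a⁻¹ (ψ.symm v) ∈ V},
        ENNReal.ofReal (dens h s ψ (ψ.symm v)) ^ (-(2 : ℝ) / m) := by
  set φ' := pull A ha.inv φ with hφ'
  have hφ'm : φ' ∈ Charts E X := pull_mem A ha.inv hφ
  have hsymm : ∀ w, φ'.symm w = A.act a (φ.symm w) := by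
    intro w
    have h1 : φ'.symm w = A.act a⁻¹⁻¹ (φ.symm w) := rfl
    rw [h1, inv_inv]
  have htgt : φ'.target = φ.target := by
    simp [hφ', pull, actHomeo]
  have hsrc : ∀ y, y ∈ φ'.source ↔ A.act a⁻¹ y ∈ φ.source := fun y => mem_pull_source A ha.inv φ y
  set Q : Set E := φ '' (V ∩ {x | A.act a x ∈ ψ.source ∧ ψ (A.act a x) ∈ C}) with hQd
  -- the set in coordinates
  set O : Set E := φ.target ∩ φ.symm ⁻¹' (V ∩ (A.act a) ⁻¹' ψ.source) with hO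
  set O₁ : Set E := φ.target ∩ φ.symm ⁻¹' ((A.act a) ⁻¹' ψ.source) with hO₁
  have hOo : IsOpen O₁ := φ.symm.isOpen_inter_preimage
    (ψ.open_source.preimage (act_continuous A ha))
  have hQO : Q = O ∩ (fun w => ψ (A.act a (φ.symm w))) ⁻¹' C := by
    ext w
    constructor
    · rintro ⟨x, ⟨hx, h1, h2⟩, rfl⟩
      have h3 := φ.left_inv (hVφ hx)
      refine ⟨⟨φ.map_source (hVφ hx), ?_⟩, ?_⟩
      · show φ.symm (φ x) ∈ V ∩ (A.act a) ⁻¹' ψ.source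
        rw [h3]
        exact ⟨hx, h1⟩
      · show ψ (A.act a (φ.symm (φ x))) ∈ C
        rw [h3]
        exact h2
    · rintro ⟨⟨h1, h2, h3⟩, h4⟩
      exact ⟨φ.symm w, ⟨h2, h3, h4⟩, φ.right_inv h1⟩
  have hcont : ContinuousOn (fun w => ψ (A.act a (φ.symm w))) O₁ := by
    intro w hw
    have h1 : ContinuousAt φ.symm w := φ.symm.continuousAt hw.1
    have h2 : ContinuousAt (fun w => A.act a (φ.symm w)) w :=
      (act_continuous A ha).continuousAt.comp h1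
    have h3 : ContinuousAt ψ (A.act a (φ.symm w)) := ψ.continuousAt hw.2
    exact (ContinuousAt.comp (f := fun w => A.act a (φ.symm w)) (g := ψ) h3 h2).continuousWithinAt
  have hQm : MeasurableSet Q := by
    have h1 : MeasurableSet (O₁ ∩ (fun w => ψ (A.act a (φ.symm w))) ⁻¹' C) := by
      have h2 := hOo.measurableSet.subtype_image
        ((continuousOn_iff_continuous_restrict.1 hcont).measurable hC)
      rw [preimage_restrict_val] at h2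
      exact h2
    have h2 : Q = (φ.target ∩ φ.symm ⁻¹' V) ∩
        (O₁ ∩ (fun w => ψ (A.act a (φ.symm w))) ⁻¹' C) := by
      rw [hQO]
      ext w
      constructor
      · rintro ⟨⟨h1, h2, h3⟩, h4⟩
        exact ⟨⟨h1, h2⟩, ⟨h1, h3⟩, h4⟩
      · rintro ⟨⟨h1, h2⟩, ⟨-, h3⟩, h4⟩
        exact ⟨⟨h1, h2, h3⟩, h4⟩
    rw [h2]
    exact (hV φ hφ).inter h1
  have hQt : Q ⊆ φ'.target := by
    rw [htgt, hQO]
    exact fun w hw => hw.1.1
  have hQs : ∀ z ∈ Q, φ'.symm z ∈ ψ.source := by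
    intro z hz
    rw [hQO] at hz
    rw [hsymm]
    exact hz.1.2.2
  have himg : (fun z => ψ (φ'.symm z)) '' Q = C ∩ {v | A.act a⁻¹ (ψ.symm v) ∈ V} := by
    ext v
    constructor
    · rintro ⟨w, hw, rfl⟩
      have hw' := hw
      rw [hQO] at hw'
      refine ⟨?_, ?_⟩
      · show ψ (φ'.symm w) ∈ C
        rw [hsymm]
        exact hw'.2
      · show A.act a⁻¹ (ψ.symm (ψ (φ'.symm w))) ∈ V
        rw [ψ.left_inv (hQs w hw), hsymm, act_inv_act A ha]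
        exact hw'.1.2.1
    · rintro ⟨h1, h2⟩
      have h3 : v ∈ ψ.target := hCψ h1
      have h4 : A.act a (A.act a⁻¹ (ψ.symm v)) = ψ.symm v := act_act_inv A ha _
      have h2' : A.act a⁻¹ (ψ.symm v) ∈ V := h2
      refine ⟨φ (A.act a⁻¹ (ψ.symm v)), ⟨A.act a⁻¹ (ψ.symm v), ⟨h2', ?_⟩, rfl⟩, ?_⟩
      · show A.act a (A.act a⁻¹ (ψ.symm v)) ∈ ψ.source ∧
          ψ (A.act a (A.act a⁻¹ (ψ.symm v))) ∈ C
        rw [h4, ψ.right_inv h3]
        exact ⟨ψ.map_target h3, h1⟩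
      · show ψ (φ'.symm (φ (A.act a⁻¹ (ψ.symm v)))) = v
        rw [hsymm, φ.left_inv (hVφ h2'), h4, ψ.right_inv h3]
  rw [← himg, lintegral_chart_change hφ'm hψ hQm hQt hQs]
  refine setLIntegral_congr_fun hQm ?_
  intro w hw
  have hw' := hw
  rw [hQO] at hw'
  have h1 := hQs w hw
  have h2 : φ'.symm w ∈ φ'.source := φ'.map_target (hQt hw)
  have h3 : φ'.symm w ∈ U := by
    rw [hsymm]
    exact hinv a ha _ (hVU hw'.1.2.1)
  show ENNReal.ofReal (dens h s φ' (A.act a (φ.symm w))) ^ (-(2 : ℝ) / m) =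
    ‖jac ψ φ' (φ'.symm w)‖ₑ ^ 2 * ENNReal.ofReal (dens h s ψ (ψ.symm (ψ (φ'.symm w)))) ^
      (-(2 : ℝ) / m)
  rw [ψ.left_inv h1, dens_chart h s hψ hφ'm h3 h1 h2, ← hsymm]
  have hj : jac ψ φ' (φ'.symm w) ≠ 0 := pnorm_jac_ne_zero hψ hφ'm h1 h2
  have hm0 : (m : ℝ) ≠ 0 := by
    have : 0 < m := by omega
    positivity
  have hj0 : ‖jac ψ φ' (φ'.symm w)‖ₑ ≠ 0 := by simpa using hj
  rw [ENNReal.ofReal_mul (by positivity), ENNReal.ofReal_pow (norm_nonneg _), ofReal_norm,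
    ENNReal.mul_rpow_of_ne_top (ENNReal.pow_ne_top enorm_ne_top) ENNReal.ofReal_ne_top,
    ← mul_assoc]
  have e1 : (m : ℝ) * (-(2 : ℝ) / m) = -2 := by field_simp
  have e3 : (‖jac ψ φ' (φ'.symm w)‖ₑ ^ m) ^ (-(2 : ℝ) / m) =
      ‖jac ψ φ' (φ'.symm w)‖ₑ ^ (-2 : ℝ) := by
    rw [← ENNReal.rpow_natCast, ← ENNReal.rpow_mul, e1]
  rw [e3]
  have e2 : ‖jac ψ φ' (φ'.symm w)‖ₑ ^ 2 * ‖jac ψ φ' (φ'.symm w)‖ₑ ^ (-2 : ℝ) = 1 := by
    rw [← ENNReal.rpow_natCast, ← ENNReal.rpow_add _ _ hj0 enorm_ne_top]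
    norm_num
  rw [e2, one_mul]

theorem CM.act {a : Fin r → ℂ} (ha : InT a) {W : Set X} (hW : CM E W) :
    CM E {x | A.act a⁻¹ x ∈ W} := by
  intro ψ hψ
  have h1 := hW (pull A ha ψ) (pull_mem A ha hψ)
  have h2 : (pull A ha ψ).target ∩ (pull A ha ψ).symm ⁻¹' W =
      ψ.target ∩ ψ.symm ⁻¹' {x | A.act a⁻¹ x ∈ W} := by
    have htgt : (pull A ha ψ).target = ψ.target := by simp [pull, actHomeo]
    rw [htgt]
    rfl
  rw [h2] at h1
  exact h1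

/-- The sum over all translates by the discrete group is finite. -/
theorem sum_int_lt_top' (h : NormOn L P K J U)
    (hinv : ∀ a, InT a → ∀ x ∈ U, A.act a x ∈ U) (hm : 1 ≤ m)
    (s : Sec2 L P (k * K) (k * J) m U) {Kh : Set X}
    {I : Type} [Countable I] {ψ : I → OpenPartialHomeomorph X E} {C : I → Set E}
    (hψ : ∀ p, ψ p ∈ Charts E X) (hC : ∀ p, MeasurableSet (C p)) (hCψ : ∀ p, C p ⊆ (ψ p).target)
    (hcov : ∀ y ∈ Kh, ∃ p, y ∈ (ψ p).source ∧ ψ p y ∈ C p)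
    (hfin : ∑' p, ∫⁻ v in C p,
      ENNReal.ofReal (dens h s (ψ p) ((ψ p).symm v)) ^ (-(2 : ℝ) / m) < ⊤)
    (S' : Finset (Fin r)) {κ : Type} {φ : κ → OpenPartialHomeomorph X E}
    (hφ : ∀ e, φ e ∈ Charts E X) {W : κ → Set X} (hW : ∀ e, CM E (W e)) (hWU : ∀ e, W e ⊆ U)
    (hWφ : ∀ e, W e ⊆ (φ e).source) (hdisj : ∀ e e' x, x ∈ W e → x ∈ W e' → e = e')
    (hF : {n : Fin r → ℤ | (∀ c, c ∉ S' → n c = 0) ∧
      ∃ x ∈ ⋃ e, W e, A.act (lat n) x ∈ ⋃ e, W e}.Finite) :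
    ∑' e : κ, ∑' n : {n : Fin r → ℤ // ∀ c, c ∉ S' → n c = 0},
      ∫⁻ w in φ e '' (W e ∩ {x | A.act (lat n.1) x ∈ Kh}),
        ENNReal.ofReal (dens h s (pull A (lat_inT n.1).inv (φ e))
          (A.act (lat n.1) ((φ e).symm w))) ^ (-(2 : ℝ) / m) < ⊤ := by
  classical
  set D := {n : Fin r → ℤ // ∀ c, c ∉ S' → n c = 0} with hD
  set M : ℕ := hF.toFinset.card with hMd
  -- the term of `e` and `n`
  have h1 : ∀ q : κ × D, ∫⁻ w in φ q.1 '' (W q.1 ∩ {x | A.act (lat q.2.1) x ∈ Kh}),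
      ENNReal.ofReal (dens h s (pull A (lat_inT q.2.1).inv (φ q.1))
        (A.act (lat q.2.1) ((φ q.1).symm w))) ^ (-(2 : ℝ) / m) ≤
      ∑' p : I, ∫⁻ v in C p ∩ ((ψ p).target ∩ (ψ p).symm ⁻¹'
        {x | A.act (lat q.2.1)⁻¹ x ∈ W q.1}),
        ENNReal.ofReal (dens h s (ψ p) ((ψ p).symm v)) ^ (-(2 : ℝ) / m) := by
    intro q
    have h2 : φ q.1 '' (W q.1 ∩ {x | A.act (lat q.2.1) x ∈ Kh}) ⊆
        ⋃ p, φ q.1 '' (W q.1 ∩ {x | A.act (lat q.2.1) x ∈ (ψ p).source ∧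
          ψ p (A.act (lat q.2.1) x) ∈ C p}) := by
      rintro w ⟨x, ⟨hx, hx2⟩, rfl⟩
      obtain ⟨p, hp1, hp2⟩ := hcov _ hx2
      exact mem_iUnion.2 ⟨p, x, ⟨hx, hp1, hp2⟩, rfl⟩
    refine (lintegral_mono_set h2).trans ((lintegral_iUnion_le _ _).trans ?_)
    refine ENNReal.tsum_le_tsum fun p => ?_
    rw [int_move' h hinv hm s (lat_inT q.2.1) (hφ q.1) (hψ p) (hW q.1) (hWU q.1) (hWφ q.1)
      (hC p) (hCψ p)]
    refine lintegral_mono_set ?_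
    rintro v ⟨hv1, hv2⟩
    exact ⟨hv1, hCψ p hv1, hv2⟩
  have hmult : ∀ p : I, ∑' q : κ × D,
      ∫⁻ v in C p ∩ ((ψ p).target ∩ (ψ p).symm ⁻¹' {x | A.act (lat q.2.1)⁻¹ x ∈ W q.1}),
        ENNReal.ofReal (dens h s (ψ p) ((ψ p).symm v)) ^ (-(2 : ℝ) / m) ≤
      M * ∫⁻ v in C p, ENNReal.ofReal (dens h s (ψ p) ((ψ p).symm v)) ^ (-(2 : ℝ) / m) := by
    intro p
    refine sumint_mult (fun q => ?_) M _ (hC p) ?_
    · exact (hW q.1).act (A := A) (lat_inT q.2.1) (ψ p) (hψ p)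
    · intro v hv T hT
      rcases T.eq_empty_or_nonempty with h0 | ⟨q0, hq0⟩
      · simp [h0]
      · rw [hMd]
        refine Finset.card_le_card_of_injOn (fun q : κ × D => q0.2.1 - q.2.1) ?_ ?_
        · intro q hq
          have e0 : A.act (lat q0.2.1)⁻¹ ((ψ p).symm v) ∈ W q0.1 := (hT q0 hq0).2
          have e1 : A.act (lat q.2.1)⁻¹ ((ψ p).symm v) ∈ W q.1 := (hT q hq).2
          simp only [Finset.mem_coe, Finite.mem_toFinset, mem_ofPred_eq]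
          refine ⟨fun c hc => ?_, A.act (lat q0.2.1)⁻¹ ((ψ p).symm v), mem_iUnion.2 ⟨q0.1, e0⟩, ?_⟩
          · rw [Pi.sub_apply, q0.2.2 c hc, q.2.2 c hc, sub_zero]
          · rw [← A.mul _ _ (lat_inT _) (lat_inT q0.2.1).inv, ← sumint_lat]
            exact mem_iUnion.2 ⟨q.1, e1⟩
        · intro q hq q' hq' hqq
          have e2 : q0.2.1 - q.2.1 = q0.2.1 - q'.2.1 := hqq
          have e3 : q.2 = q'.2 := Subtype.ext (sub_right_injective e2)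
          have e4 : A.act (lat q.2.1)⁻¹ ((ψ p).symm v) ∈ W q.1 := (hT q hq).2
          have e5 : A.act (lat q'.2.1)⁻¹ ((ψ p).symm v) ∈ W q'.1 := (hT q' hq').2
          rw [← e3] at e5
          exact Prod.ext (hdisj _ _ _ e4 e5) e3
  rw [← ENNReal.tsum_prod (f := fun (e : κ) (n : D) =>
    ∫⁻ w in φ e '' (W e ∩ {x | A.act (lat n.1) x ∈ Kh}),
        ENNReal.ofReal (dens h s (pull A (lat_inT n.1).inv (φ e))
          (A.act (lat n.1) ((φ e).symm w))) ^ (-(2 : ℝ) / m))]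
  calc _ ≤ ∑' q : κ × D, ∑' p : I,
        ∫⁻ v in C p ∩ ((ψ p).target ∩ (ψ p).symm ⁻¹' {x | A.act (lat q.2.1)⁻¹ x ∈ W q.1}),
        ENNReal.ofReal (dens h s (ψ p) ((ψ p).symm v)) ^ (-(2 : ℝ) / m) :=
        ENNReal.tsum_le_tsum h1
    _ = ∑' p : I, ∑' q : κ × D,
        ∫⁻ v in C p ∩ ((ψ p).target ∩ (ψ p).symm ⁻¹' {x | A.act (lat q.2.1)⁻¹ x ∈ W q.1}),
        ENNReal.ofReal (dens h s (ψ p) ((ψ p).symm v)) ^ (-(2 : ℝ) / m) := ENNReal.tsum_comm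
    _ ≤ ∑' p : I, M * ∫⁻ v in C p,
        ENNReal.ofReal (dens h s (ψ p) ((ψ p).symm v)) ^ (-(2 : ℝ) / m) :=
        ENNReal.tsum_le_tsum hmult
    _ = M * ∑' p : I, ∫⁻ v in C p,
        ENNReal.ofReal (dens h s (ψ p) ((ψ p).symm v)) ^ (-(2 : ℝ) / m) := by
        rw [ENNReal.tsum_mul_left]
    _ < ⊤ := ENNReal.mul_lt_top (ENNReal.natCast_lt_top M) hfin

end Pool.Agent.Abn
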