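import Pool.Agent.H.MP_e23cd6_ag.NT.Quo
import Pool.Agent.H.MP_e23cd6_ag.NT.MetG
import Pool.Agent.H.MP_e23cd6_ag.NT.LvlM
import Pool.Agent.H.MP_e23cd6_ag.GT.DynA
import Pool.Agent.H.MP_e23cd6_ag.NT.DefsG

/-! MP_e23cd6_ag, torus actions: the numerical functions of sections on `U / T_S`. -/

set_option autoImplicit false

open scoped Manifold ContDiff Topology ENNReal
open MeasureTheory Set Filter

namespace Pool.Agent.Abn

open Pool.Agent.Abd

variable {E : Type} [NormedAddCommGroup E] [NormedSpace ℂ E] {r : ℕ}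
  {X₀ X : Type} [TopologicalSpace X₀] [ChartedSpace E X₀] [TopologicalSpace X]
  {Y : NSp E X₀ X}
  {L P : NLine Y} {A : NAct r Y}

/-- The data of one level: a line bundle `D` on `U / T_S`, given by `L ^ K` and the weight `χ`, an
ample line bundle `a`, given by `L ^ K' ⊗ P ^ J'` and the weight `χ'`, such that `N D + a` is
semiample for all `N ≥ 1` (by means of sections over `X`), metrics on `D` and `a`, and a further
factor `i` of the torus. -/
structure NLvl (ΛL : NLin A L) (ΛP : NLin A P) (S : Finset (Fin r))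
    (U : Set X) where
  i : Fin r
  hi : i ∉ S
  good : NGood A S U
  K : ℕ
  χ : Fin r → ℤ
  K' : ℕ
  J' : ℕ
  χ' : Fin r → ℤ
  ample : NAmpleG ΛL ΛP S U K' J' χ'
  semi : ∀ N : ℕ, 1 ≤ N → NSemiG ΛL ΛP S U (N * K + K') J' (fun c => N * χ c + χ' c)
  hD : NMet ΛL ΛP S U K 0 χ
  ha : NMet ΛL ΛP S U K' J' χ'

variable {ΛL : NLin A L} {ΛP : NLin A P} {S : Finset (Fin r)} {U : Set X}

/-- The weight of a section of `k D + j a` of `i`-weight `c` (relative to `χ i`, `χ' i`). -/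
def NLvl.wt (D : NLvl ΛL ΛP S U) (k j : ℕ) (c : ℤ) : Fin r → ℤ :=
  fun d => (k * D.χ d + j * D.χ' d) + if d = D.i then c else 0

/-- The sections of `k D + j a` over `X`. -/
abbrev NLvl.SecT (D : NLvl ΛL ΛP S U) (k j : ℕ) : Type :=
  NSec L P (k * D.K + j * D.K') (k * 0 + j * D.J') univ

/-- The norm of a section of `k D + j a` over `U`. -/
noncomputable def NLvl.num (D : NLvl ΛL ΛP S U) (k j : ℕ) (s : D.SecT k j) (x : X) : ℝ :=
  (D.hD.comb D.ha k j).num (s.res (subset_univ U)) x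

/-- The numerical functions of the sections of `k D + j a` of `T_S`-weight given by `D` and `a` and
`i`-weight `c`. -/
def NLvl.R (D : NLvl ΛL ΛP S U) (k j : ℕ) (c : ℤ) : Set (NQuo A S U → ℝ) :=
  {u | ∃ s : D.SecT k j, NOfWt ΛL ΛP (insert D.i S) (D.wt k j c) s ∧
    ∀ x : U, u (NQuo.mk A S U x) = D.num k j s x.1}

theorem NLvl.inv (D : NLvl ΛL ΛP S U) : ∀ a, InT a → ∀ x ∈ U, A.act a x ∈ U := D.good.inv

/-- A section with the weight `wt` has the `T_S`-weight `k χ + j χ'`. PROOF. `NOfWt.mono_S`,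
`NOfWt.congr_wt` (for `d ∈ S`, `d ≠ D.i`). -/
theorem NLvl.ofWt_S (D : NLvl ΛL ΛP S U) {k j : ℕ} {c : ℤ} {s : D.SecT k j}
    (hs : NOfWt ΛL ΛP (insert D.i S) (D.wt k j c) s) :
    NOfWt ΛL ΛP S (fun d => k * D.χ d + j * D.χ' d) s := by
  refine NOfWt.congr_wt ?_ (NOfWt.mono_S (Finset.subset_insert D.i S) hs)
  intro d hd
  have h : d ≠ D.i := fun e => D.hi (e ▸ hd)
  simp only [NLvl.wt, if_neg h, add_zero]

/-- The lift of the norm of a section. -/
theorem NLvl.SysA_lift (D : NLvl ΛL ΛP S U) {k j : ℕ} {c : ℤ}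
    {s : D.SecT k j} (hs : NOfWt ΛL ΛP (insert D.i S) (D.wt k j c) s) :
    ∃ u : NQuo A S U → ℝ, Continuous u ∧ ∀ x : U, u (NQuo.mk A S U x) = D.num k j s x.1 :=
  NQuo.exists_lift (D.num k j s)
    (fun _ hx => (D.hD.comb D.ha k j).num_cont (le_refl U) D.good.isOpen
      (s.res (subset_univ U)) hx)
    (fun _ hx _ ha hax => (D.hD.comb D.ha k j).num_act (le_refl U)
      ((D.ofWt_S hs).res (subset_univ U)) ha hx hax)

/-- Every section of the right weight defines an element of `R`. PROOF. `NQuo.exists_lift` for the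
function `D.num k j s` (`NMet.num_cont`, `NMet.num_act` with `ofWt_S`). -/
theorem NLvl.exists_R (D : NLvl ΛL ΛP S U) {k j : ℕ} {c : ℤ}
    {s : D.SecT k j} (hs : NOfWt ΛL ΛP (insert D.i S) (D.wt k j c) s) :
    ∃ u ∈ D.R k j c, ∀ x : U, u (NQuo.mk A S U x) = D.num k j s x.1 := by
  obtain ⟨u, _, hu⟩ := D.SysA_lift hs
  exact ⟨u, ⟨s, hs, hu⟩, hu⟩

theorem NLvl.R_nonneg (D : NLvl ΛL ΛP S U) (k j : ℕ) (c : ℤ)
    (u) (hu : u ∈ D.R k j c) (x : NQuo A S U) : 0 ≤ u x := by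
  obtain ⟨s, _, hu⟩ := hu
  obtain ⟨y, rfl⟩ := NQuo.mk_surj A S U x
  rw [hu y]
  exact (D.hD.comb D.ha k j).num_nonneg (le_refl U) (s.res (subset_univ U)) y.2

/-- PROOF. As in `exists_R`: `u` is the continuous lift of `exists_lift` (the lift is determined by its
values as `NQuo.mk` is surjective). -/
theorem NLvl.R_cont (D : NLvl ΛL ΛP S U) (k j : ℕ) (c : ℤ)
    (u) (hu : u ∈ D.R k j c) : Continuous u := by
  obtain ⟨s, hs, hu⟩ := hu
  obtain ⟨v, hv, hv'⟩ := D.SysA_lift hs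
  have e : u = v := by
    funext x
    obtain ⟨y, rfl⟩ := NQuo.mk_surj A S U x
    rw [hu y, hv' y]
  rw [e]
  exact hv

/-- PROOF. The product of the two sections with a cast of the degrees, `NMet.num_comb`;
`NOfWt.mul` and `NOfWt.congr_wt`. -/
theorem NLvl.R_mul (D : NLvl ΛL ΛP S U) (k j : ℕ) (c : ℤ) (k' j' : ℕ)
    (c' : ℤ) (u) (hu : u ∈ D.R k j c) (v) (hv : v ∈ D.R k' j' c') :
    (fun x => u x * v x) ∈ D.R (k + k') (j + j') (c + c') := by
  obtain ⟨s, hs, hu⟩ := hu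
  obtain ⟨t, ht, hv⟩ := hv
  have e1 : k * D.K + j * D.K' + (k' * D.K + j' * D.K') =
      (k + k') * D.K + (j + j') * D.K' := by ring
  have e2 : k * 0 + j * D.J' + (k' * 0 + j' * D.J') =
      (k + k') * 0 + (j + j') * D.J' := by ring
  refine ⟨(s.mul t).cast e1 e2, ?_, ?_⟩
  · refine NOfWt.cast (NOfWt.congr_wt ?_ (hs.mul ht)) _ _
    intro d _
    simp only [Pi.add_apply, NLvl.wt]
    push_cast
    split_ifs <;> ring
  · intro x
    show u (NQuo.mk A S U x) * v (NQuo.mk A S U x) = _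
    rw [hu x, hv x]
    exact (NMet.num_comb D.hD D.ha k j k' j' (le_refl U) (s.res (subset_univ U))
      (t.res (subset_univ U)) (((s.mul t).cast e1 e2).res (subset_univ U))
      (fun _ _ _ => rfl) x.2).symm

/-- The positivity of an element of `R` is the nonvanishing of the section. -/
theorem NLvl.num_pos_iff (D : NLvl ΛL ΛP S U) {k j : ℕ} (s : D.SecT k j)
    {x : X} (hx : x ∈ U) : 0 < D.num k j s x ↔ s.NZ x :=
  (D.hD.comb D.ha k j).num_pos_iff (le_refl U) (s.res (subset_univ U)) hx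

/-- The scaling of a section along the `i`-th factor of the torus. PROOF. `NMet.num_shift`,
`NMet.gr_comb`. -/
theorem NLvl.num_scale (D : NLvl ΛL ΛP S U) {k j : ℕ} {c : ℤ}
    {s : D.SecT k j} (hs : NOfWt ΛL ΛP (insert D.i S) (D.wt k j c) s) {a : Fin r → ℂ}
    (ha : InTS {D.i} a) {x : X} (hx : x ∈ U) :
    D.num k j s (A.act a x) = ‖a D.i‖ ^ (-c) * (D.hD.gr a x ^ k * D.ha.gr a x ^ j) *
      D.num k j s x := by
  have hax : A.act a x ∈ U := D.inv a ha.1 x hx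
  have h := (D.hD.comb D.ha k j).num_shift (le_refl U) (i := D.i) (c := c)
    (s := s.res (subset_univ U)) (hs.res (subset_univ U)) ha hx hax
  rw [NMet.gr_comb D.hD D.ha k j ha.1 hx hax] at h
  exact h

/-- The flow on `U / T_S`: `f n` is the action of `2 ^ (-n)` in the `i`-th factor. -/
noncomputable def NLvl.f (D : NLvl ΛL ΛP S U) (n : ℤ) : NQuo A S U → NQuo A S U :=
  NQuo.act D.inv (sh D.i (-n)) (sh_inTS D.i (-n)).1

theorem NLvl.f_mk (D : NLvl ΛL ΛP S U) (n : ℤ) (x : U) : D.f n (NQuo.mk A S U x) =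
    NQuo.mk A S U ⟨A.act (sh D.i (-n)) x.1, D.inv _ (sh_inTS D.i (-n)).1 x.1 x.2⟩ := rfl

theorem NLvl.f_zero (D : NLvl ΛL ΛP S U) (x) : D.f 0 x = x := by
  obtain ⟨y, rfl⟩ := NQuo.mk_surj A S U x
  rw [D.f_mk]
  congr 1
  apply Subtype.ext
  show A.act (sh D.i (-0)) y.1 = y.1
  rw [neg_zero, sh_zero, A.one]

theorem NLvl.f_add (D : NLvl ΛL ΛP S U) (m n : ℤ) (x) : D.f (m + n) x = D.f m (D.f n x) := by
  obtain ⟨y, rfl⟩ := NQuo.mk_surj A S U x
  rw [D.f_mk, D.f_mk, D.f_mk]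
  congr 1
  apply Subtype.ext
  show A.act (sh D.i (-(m + n))) y.1 = A.act (sh D.i (-m)) (A.act (sh D.i (-n)) y.1)
  rw [neg_add, sh_add, A.mul _ _ (sh_inTS D.i (-m)).1 (sh_inTS D.i (-n)).1]

/-- The growth factors as functions on `U / T_S`. PROOF. `NQuo.exists_lift`, `NMet.gr_cont`,
`NMet.gr_act`. -/
theorem NMet.exists_gr_lift {K J : ℕ} {χ : Fin r → ℤ} (h : NMet ΛL ΛP S U K J χ)
    (hG : NGood A S U) {a : Fin r → ℂ} (ha : InT a) :
    ∃ u : NQuo A S U → ℝ, Continuous u ∧ ∀ x : U, u (NQuo.mk A S U x) = h.gr a x.1 :=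
  NQuo.exists_lift (h.gr a) (fun _ hx => h.gr_cont hG.isOpen hG.inv ha hx)
    (fun _ hx _ hb _ => h.gr_act hG.inv ha hb hx)

end Pool.Agent.Abn
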