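import Pool.Agent.H.MP_e23cd6_ag.NT.SysA
import Pool.Agent.H.MP_e23cd6_ag.NT.Iface
import Pool.Agent.H.MP_e23cd6_ag.NT.LvlG

/-! MP_e23cd6_ag, torus actions: generating families of weight sections, and the fixed points of
the flow on `U / T_S`. -/

set_option autoImplicit false

open scoped Manifold ContDiff Topology ENNReal
open MeasureTheory Set Filter

namespace Pool.Agent.Abn

open Pool.Agent.Abd

variable {E : Type} [NormedAddCommGroup E] [NormedSpace ℂ E] [FiniteDimensional ℂ E] {r : ℕ}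
  {X₀ X : Type} [TopologicalSpace X₀] [ChartedSpace E X₀] [IsManifold 𝓘(ℂ, E) ω X₀]
 [TopologicalSpace X] [T2Space X] {Y : NSp E X₀ X}
  {L P : NLine Y} {A : NAct r Y}
  {ΛL : NLin A L} {ΛP : NLin A P} {S : Finset (Fin r)} {U : Set X}
  [CompactSpace X] [ConnectedSpace X]

/-- A section of `k D + j a` of the right `T_S`-weight is a finite sum of sections of the weights
`wt k j c`. PROOF. `gt_components_univ`; the component of `i`-weight `e` has the weight
`wt k j (e - (k χ i + j χ' i))` (`NOfWt.congr_wt`); reindex the finite sum. -/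
theorem NLvl.exists_comp (D : NLvl ΛL ΛP S U) {k j : ℕ} (s : D.SecT k j)
    (hs : NOfWt ΛL ΛP S (fun d => k * D.χ d + j * D.χ' d) s) :
    ∃ (T : Finset ℤ) (t : ℤ → D.SecT k j), (∀ c, NOfWt ΛL ΛP (insert D.i S) (D.wt k j c) (t c)) ∧
      ∀ i₁ j₁ x, NAt L P i₁ j₁ x → s.f i₁ j₁ x = ∑ c ∈ T, (t c).f i₁ j₁ x := by
  obtain ⟨T, t, ht, hsum⟩ := gt_components_univ D.hi s hs
  refine ⟨T.map (Equiv.subRight (k * D.χ D.i + j * D.χ' D.i)).toEmbedding,
    fun c => t (c + (k * D.χ D.i + j * D.χ' D.i)), ?_, ?_⟩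
  · intro c
    refine NOfWt.congr_wt ?_ (ht _)
    intro d _
    unfold NLvl.wt
    by_cases hd : d = D.i
    · subst hd
      simp only [if_true]
      ring
    · simp only [if_neg hd, add_zero]
  · intro i₁ j₁ x hat
    rw [hsum i₁ j₁ x hat, Finset.sum_map]
    refine Finset.sum_congr rfl fun c _ => ?_
    simp

/-- If a section of the right `T_S`-weight does not vanish at `x` then one of its components does not
vanish at `x`. -/
theorem NLvl.exists_comp_nz (D : NLvl ΛL ΛP S U) {k j : ℕ} (s : D.SecT k j)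
    (hs : NOfWt ΛL ΛP S (fun d => k * D.χ d + j * D.χ' d) s) {x : X} (h : s.NZ x) :
    ∃ (c : ℤ) (t : D.SecT k j), NOfWt ΛL ΛP (insert D.i S) (D.wt k j c) t ∧ t.NZ x := by
  obtain ⟨T, t, ht, hsum⟩ := D.exists_comp s hs
  obtain ⟨i₁, j₁, hat⟩ := exists_nat L P x
  have h1 := (s.nz_iff (mem_univ x) hat).1 h
  rw [hsum i₁ j₁ x hat] at h1
  obtain ⟨c, _, hc⟩ := Finset.exists_ne_zero_of_sum_ne_zero h1
  exact ⟨c, t c, ht c, ((t c).nz_iff (mem_univ x) hat).2 hc⟩

/-- PROOF. For `N ≥ 1` use `D.semi N`, for `N = 0` use `D.ample.1` (casts: `0 * K + K' = K'`).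
`NSemiQ.exists_family` gives `l` and sections `s b`, `b : Fin n`; cast them to `D.SecT (N * l) l`
(`N * l * K + l * K' = l * (N * K + K')`), decompose them (`exists_comp`), and let `F` consist of the
pairs `(c, u)`, `b : Fin n`, `c ∈ T b`, `u` the element of `R` given by `exists_R` for the component.
For `x = mk y` some `s b` does not vanish at `y`, so by the sum formula (`nz_iff`) some component with
`c ∈ T b` does not vanish at `y`, and `num_pos_iff`. -/
theorem NLvl.gen (D : NLvl ΛL ΛP S U) (N : ℕ) : ∃ l : ℕ, 1 ≤ l ∧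
    ∃ F : Finset (ℤ × (NQuo A S U → ℝ)), (∀ q ∈ F, q.2 ∈ D.R (N * l) l q.1) ∧
      ∀ x, ∃ q ∈ F, 0 < q.2 x := by
  classical
  have hsemi : NSemiG ΛL ΛP S U (N * D.K + D.K') D.J' (fun c => N * D.χ c + D.χ' c) := by
    rcases Nat.eq_zero_or_pos N with hN | hN
    · subst hN
      simpa using D.ample.1
    · exact D.semi N hN
  obtain ⟨l, hl, n, s, hs, hgen⟩ := hsemi.exists_family D.good
  refine ⟨l, hl, ?_⟩
  have e1 : l * (N * D.K + D.K') = N * l * D.K + l * D.K' := by ring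
  have e2 : l * D.J' = N * l * 0 + l * D.J' := by ring
  have hs' : ∀ b, NOfWt ΛL ΛP S (fun d => ((N * l : ℕ) : ℤ) * D.χ d + (l : ℤ) * D.χ' d)
      (((s b).cast e1 e2 : D.SecT (N * l) l)) := by
    intro b
    refine NOfWt.congr_wt ?_ ((hs b).cast e1 e2)
    intro c _
    push_cast
    ring
  choose T t ht hsum using fun b => D.exists_comp _ (hs' b)
  choose u hu hu' using fun b c => D.exists_R (ht b c)
  refine ⟨Finset.univ.biUnion fun b => (T b).image fun c => (c, u b c), ?_, ?_⟩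
  · intro q hq
    rw [Finset.mem_biUnion] at hq
    obtain ⟨b, _, hq⟩ := hq
    rw [Finset.mem_image] at hq
    obtain ⟨c, _, rfl⟩ := hq
    exact hu b c
  · intro x
    obtain ⟨y, rfl⟩ := NQuo.mk_surj A S U x
    obtain ⟨b, hb⟩ := hgen y.1 y.2
    obtain ⟨i₁, j₁, hat⟩ := exists_nat L P y.1
    have h1 : ((s b).cast e1 e2 : D.SecT (N * l) l).f i₁ j₁ y.1 ≠ 0 :=
      ((s b).nz_iff (mem_univ y.1) hat).1 hb
    rw [hsum b i₁ j₁ y.1 hat] at h1
    obtain ⟨c, hcT, hc⟩ := Finset.exists_ne_zero_of_sum_ne_zero h1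
    refine ⟨(c, u b c), ?_, ?_⟩
    · rw [Finset.mem_biUnion]
      exact ⟨b, Finset.mem_univ b, Finset.mem_image_of_mem _ hcT⟩
    · show 0 < u b c (NQuo.mk A S U y)
      rw [hu' b c y]
      exact (D.num_pos_iff (t b c) y.2).2 (((t b c).nz_iff (mem_univ y.1) hat).2 hc)

/-- If all sections of multiples of `a` which do not vanish at `x` have the same weight (for a given
degree) then the `i`-th factor of the torus maps `x` into its `T_S`-orbit.

PROOF. Let `y = a x` and assume `y` is not in the `T_S`-orbit of `x`. By `D.ample.2` there are `l ≥ 1`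
and a section `s` of `l a`, `s.NZ x`, `¬ s.NZ y`. Cast `s` to `D.SecT 0 l` and decompose it:
`s = ∑ c ∈ T, t c`. All `c` with `(t c).NZ x` are equal (hypothesis `h`, `exists_R`, `num_pos_iff`), to
`c₀` say, so `s.f .. x = (t c₀).f .. x ≠ 0`. By the weight rule for `a ∈ T_i ⊆ T_{S + i}` and its inverse
(`NOfWt.nz_act`) `t c` vanishes at `y` iff it vanishes at `x`. So `s.f .. y = (t c₀).f .. y ≠ 0`:
contradiction. -/
theorem NLvl.same_exp (D : NLvl ΛL ΛP S U) (x : U)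
    (h : ∀ l c c', ∀ u ∈ D.R 0 l c, ∀ u' ∈ D.R 0 l c', 1 ≤ l → 0 < u (NQuo.mk A S U x) →
      0 < u' (NQuo.mk A S U x) → c = c') {a : Fin r → ℂ} (ha : InTS {D.i} a) :
    ∃ b, InTS S b ∧ A.act b x.1 = A.act a x.1 := by
  by_contra hcon
  have hy : A.act a x.1 ∈ U := D.inv a ha.1 x.1 x.2
  have hxy : ¬ ∃ b, InTS S b ∧ A.act a x.1 = A.act b x.1 := by
    rintro ⟨b, hb, hb'⟩
    exact hcon ⟨b, hb, hb'.symm⟩
  obtain ⟨l, hl, s, hs, hnx, hny⟩ := D.ample.2 x.1 x.2 _ hy hxy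
  have e1 : l * D.K' = 0 * D.K + l * D.K' := by ring
  have e2 : l * D.J' = 0 * 0 + l * D.J' := by ring
  have hs' : NOfWt ΛL ΛP S (fun d => ((0 : ℕ) : ℤ) * D.χ d + (l : ℤ) * D.χ' d)
      (s.cast e1 e2 : D.SecT 0 l) := by
    refine NOfWt.congr_wt ?_ (hs.cast e1 e2)
    intro c _
    push_cast
    ring
  obtain ⟨T, t, ht, hsum⟩ := D.exists_comp _ hs'
  -- the components which do not vanish at `x` have the same weight
  have hsame : ∀ c c', (t c).NZ x.1 → (t c').NZ x.1 → c = c' := by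
    intro c c' hc hc'
    obtain ⟨u, hu, hu1⟩ := D.exists_R (ht c)
    obtain ⟨u', hu', hu1'⟩ := D.exists_R (ht c')
    refine h l c c' u hu u' hu' hl ?_ ?_
    · rw [hu1 x]
      exact (D.num_pos_iff (t c) x.2).2 hc
    · rw [hu1' x]
      exact (D.num_pos_iff (t c') x.2).2 hc'
  have hins : ∀ b, InTS {D.i} b → InTS (insert D.i S) b := fun b hb =>
    inTS_mono (by simp) hb
  obtain ⟨i₁, j₁, hat⟩ := exists_nat L P x.1
  obtain ⟨i₂, j₂, hat'⟩ := exists_nat L P (A.act a x.1)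
  have hnx' : (s.cast e1 e2 : D.SecT 0 l).f i₁ j₁ x.1 ≠ 0 :=
    (s.nz_iff (mem_univ x.1) hat).1 hnx
  rw [hsum i₁ j₁ x.1 hat] at hnx'
  obtain ⟨c₀, hc₀T, hc₀⟩ := Finset.exists_ne_zero_of_sum_ne_zero hnx'
  have hc₀nz : (t c₀).NZ x.1 := ((t c₀).nz_iff (mem_univ x.1) hat).2 hc₀
  apply hny
  rw [s.nz_iff (mem_univ _) hat']
  have h2 : s.f i₂ j₂ (A.act a x.1) =
      ∑ c ∈ T, (t c).f i₂ j₂ (A.act a x.1) :=
    hsum i₂ j₂ _ hat'
  have h3 : ∀ c ∈ T, c ≠ c₀ → (t c).f i₂ j₂ (A.act a x.1) = 0 := by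
    intro c _ hcc
    by_contra hne
    have h4 : (t c).NZ (A.act a x.1) := ((t c).nz_iff (mem_univ _) hat').2 hne
    exact hcc (hsame c c₀ (((ht c).nz_act (hins a ha) (mem_univ _) (mem_univ _)).1 h4) hc₀nz)
  rw [h2, Finset.sum_eq_single_of_mem c₀ hc₀T h3]
  exact ((t c₀).nz_iff (mem_univ _) hat').1
    (((ht c₀).nz_act (hins a ha) (mem_univ _) (mem_univ _)).2 hc₀nz)

/-- PROOF. `same_exp` for `a = sh i (-1)`, `NQuo.mk_eq`. -/
theorem NLvl.fix (D : NLvl ΛL ΛP S U) (z : NQuo A S U)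
    (h : ∀ l c c', ∀ u ∈ D.R 0 l c, ∀ u' ∈ D.R 0 l c', 1 ≤ l → 0 < u z → 0 < u' z → c = c') :
    D.f 1 z = z := by
  obtain ⟨x, rfl⟩ := NQuo.mk_surj A S U z
  obtain ⟨b, hb, hb'⟩ := D.same_exp x h (sh_inTS D.i (-1))
  rw [D.f_mk]
  exact (NQuo.mk_eq.2 ⟨b, hb, hb'⟩).symm

end Pool.Agent.Abn
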