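import Pool.Agent.H.MP_e23cd6_ag.NT.SysB

/-! MP_e23cd6_ag, torus actions: the system of numerical functions on `U / T_S`. -/

set_option autoImplicit false

open scoped Manifold ContDiff Topology ENNReal
open MeasureTheory Set Filter

namespace Pool.Agent.Abn

open Pool.Agent.Abd

variable {E : Type} [NormedAddCommGroup E] [NormedSpace ℂ E] [FiniteDimensional ℂ E] {r : ℕ}
  {X₀ X : Type} [TopologicalSpace X₀] [ChartedSpace E X₀] [IsManifold 𝓘(ℂ, E) ω X₀]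
 [TopologicalSpace X] [T2Space X] {Y : NSp E X₀ X}
  {L P : NLine Y} {A : NAct r Y}
  {ΛL : NLin A L} {ΛP : NLin A P} {S : Finset (Fin r)} {U : Set X}
  [CompactSpace X] [ConnectedSpace X]

/-- The growth factor of the metric of `D` as a function on `U / T_S`. -/
noncomputable def NLvl.GD (D : NLvl ΛL ΛP S U) (n : ℤ) : NQuo A S U → ℝ :=
  (D.hD.exists_gr_lift D.good (sh_inTS D.i (-n)).1).choose

/-- The growth factor of the metric of `a` as a function on `U / T_S`. -/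
noncomputable def NLvl.Ga (D : NLvl ΛL ΛP S U) (n : ℤ) : NQuo A S U → ℝ :=
  (D.ha.exists_gr_lift D.good (sh_inTS D.i (-n)).1).choose

theorem NLvl.GD_mk (D : NLvl ΛL ΛP S U) (n : ℤ) (x : U) :
    D.GD n (NQuo.mk A S U x) = D.hD.gr (sh D.i (-n)) x.1 :=
  (D.hD.exists_gr_lift D.good (sh_inTS D.i (-n)).1).choose_spec.2 x

theorem NLvl.Ga_mk (D : NLvl ΛL ΛP S U) (n : ℤ) (x : U) :
    D.Ga n (NQuo.mk A S U x) = D.ha.gr (sh D.i (-n)) x.1 :=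
  (D.ha.exists_gr_lift D.good (sh_inTS D.i (-n)).1).choose_spec.2 x

/-- PROOF. `GD_mk`, `NMet.gr_pos`. -/
theorem NLvl.GD_pos (D : NLvl ΛL ΛP S U) (n : ℤ) (x : NQuo A S U) : 0 < D.GD n x := by
  obtain ⟨y, rfl⟩ := NQuo.mk_surj A S U x
  rw [D.GD_mk]
  exact D.hD.gr_pos (sh_inTS D.i (-n)).1 y.2 (D.inv _ (sh_inTS D.i (-n)).1 y.1 y.2)

theorem NLvl.Ga_pos (D : NLvl ΛL ΛP S U) (n : ℤ) (x : NQuo A S U) : 0 < D.Ga n x := by
  obtain ⟨y, rfl⟩ := NQuo.mk_surj A S U x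
  rw [D.Ga_mk]
  exact D.ha.gr_pos (sh_inTS D.i (-n)).1 y.2 (D.inv _ (sh_inTS D.i (-n)).1 y.1 y.2)

/-- PROOF. `GD_mk`, `f_mk`, `NMet.gr_mul`, `sh_add`. -/
theorem NLvl.GD_add (D : NLvl ΛL ΛP S U) (m n : ℤ) (x : NQuo A S U) :
    D.GD (m + n) x = D.GD m (D.f n x) * D.GD n x := by
  obtain ⟨y, rfl⟩ := NQuo.mk_surj A S U x
  have hn := D.inv _ (sh_inTS D.i (-n)).1 y.1 y.2
  rw [D.f_mk, D.GD_mk, D.GD_mk, D.GD_mk, neg_add, sh_add]
  exact D.hD.gr_mul (sh_inTS D.i (-m)).1 (sh_inTS D.i (-n)).1 y.2 hn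
    (D.inv _ (sh_inTS D.i (-m)).1 _ hn)

theorem NLvl.Ga_add (D : NLvl ΛL ΛP S U) (m n : ℤ) (x : NQuo A S U) :
    D.Ga (m + n) x = D.Ga m (D.f n x) * D.Ga n x := by
  obtain ⟨y, rfl⟩ := NQuo.mk_surj A S U x
  have hn := D.inv _ (sh_inTS D.i (-n)).1 y.1 y.2
  rw [D.f_mk, D.Ga_mk, D.Ga_mk, D.Ga_mk, neg_add, sh_add]
  exact D.ha.gr_mul (sh_inTS D.i (-m)).1 (sh_inTS D.i (-n)).1 y.2 hn
    (D.inv _ (sh_inTS D.i (-m)).1 _ hn)

/-- PROOF. `num_scale` for `a = sh i (-n)`: `‖(2 : ℂ) ^ (-n)‖ ^ (-c) = 2 ^ (n * c)`. -/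
theorem NLvl.step (D : NLvl ΛL ΛP S U) (k j : ℕ) (c : ℤ) (u) (hu : u ∈ D.R k j c) (n : ℤ)
    (x : NQuo A S U) : u (D.f n x) = (2 : ℝ) ^ (n * c) * D.GD n x ^ k * D.Ga n x ^ j * u x := by
  obtain ⟨y, rfl⟩ := NQuo.mk_surj A S U x
  obtain ⟨s, hs, hu⟩ := hu
  rw [D.f_mk, hu, hu, D.GD_mk, D.Ga_mk]
  show D.num k j s (A.act (sh D.i (-n)) y.1) = _
  rw [D.num_scale hs (sh_inTS D.i (-n)) y.2, sh_self]
  have e : ‖(2 : ℂ) ^ (-n)‖ ^ (-c) = (2 : ℝ) ^ (n * c) := by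
    rw [norm_zpow, Complex.norm_ofNat, ← zpow_mul, neg_mul_neg]
  rw [e]
  ring

/-- The system of numerical functions on `U / T_S`. -/
noncomputable def NLvl.sys (D : NLvl ΛL ΛP S U) : GT.Sys (NQuo A S U) where
  f := D.f
  f_zero := D.f_zero
  f_add := D.f_add
  f_cont := fun n => NQuo.act_cont D.inv _ _
  GD := D.GD
  Ga := D.Ga
  GD_pos := D.GD_pos
  Ga_pos := D.Ga_pos
  GD_add := D.GD_add
  Ga_add := D.Ga_add
  GD_cont := fun n => (D.hD.exists_gr_lift D.good (sh_inTS D.i (-n)).1).choose_spec.1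
  Ga_cont := fun n => (D.ha.exists_gr_lift D.good (sh_inTS D.i (-n)).1).choose_spec.1
  R := D.R
  nonneg := D.R_nonneg
  cont := D.R_cont
  mul := fun k j c k' j' c' u hu v hv => D.R_mul k j c k' j' c' u hu v hv
  step := D.step
  gen := D.gen
  fix := D.fix

end Pool.Agent.Abn
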