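import Pool.Agent.H.MP_e23cd6_ag.NT.WronS
import Pool.Agent.H.MP_e23cd6_ag.NT.RankL
import Pool.Agent.H.MP_e23cd6_ag.NT.Comp
import Pool.Agent.H.MP_e23cd6_ag.NT.DefsG

/-! Sections over `X` are finite sums of weight vectors; a nonzero Wronskian. -/

set_option autoImplicit false

open scoped Manifold ContDiff Topology ENNReal
open MeasureTheory Set Filter Module

namespace Pool.Agent.Abn

open Pool.Agent.Abd

variable {E : Type} [NormedAddCommGroup E] [NormedSpace ℂ E] [FiniteDimensional ℂ E] {r : ℕ}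
  {X₀ X : Type} [TopologicalSpace X₀] [ChartedSpace E X₀] [IsManifold 𝓘(ℂ, E) ω X₀]
  [TopologicalSpace X] {N : NSp E X₀ X} {L P : NLine N} {K J K' J' : ℕ} {U V : Set X}
  {A : NAct r N} {ΛL : NLin A L} {ΛP : NLin A P} {S : Finset (Fin r)} {χ χ' : Fin r → ℤ}

theorem inTS_empty {a : Fin r → ℂ} (ha : InTS ∅ a) : a = 1 := by
  funext c
  exact ha.2 c (Finset.notMem_empty c)

theorem chr_congr_S {a : Fin r → ℂ} (ha : InTS S a) (h : ∀ c ∈ S, χ c = χ' c) :
    chr χ a = chr χ' a := by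
  unfold chr
  refine Finset.prod_congr rfl fun c _ => ?_
  by_cases hc : c ∈ S
  · rw [h c hc]
  · rw [ha.2 c hc, one_zpow, one_zpow]

omit [FiniteDimensional ℂ E] [IsManifold 𝓘(ℂ, E) ω X₀] in
theorem nofwt_empty (s : NSec L P K J U) : NOfWt ΛL ΛP ∅ χ s := by
  intro a ha i j i' j' x hx hax h1 h2 h3 h4
  have e := inTS_empty ha
  subst e
  rw [A.one] at h1 h2 ⊢
  rw [ΛL.one i i' x h1 h3, ΛP.one j j' x h2 h4, ← s.trans i j i' j' x hx h1 h2 h3 h4]
  simp [chr]

/-- Every section over the compact space `X` is a finite sum of weight vectors. -/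
theorem exists_wt_decomp [CompactSpace X] [ConnectedSpace X] [T2Space X] (ΛL : NLin A L)
    (ΛP : NLin A P) (S : Finset (Fin r)) (s : NSec L P K J univ) :
    ∃ (ι : Type) (_ : Fintype ι) (t : ι → NSec L P K J univ) (w : ι → Fin r → ℤ),
      (∀ e, NOfWt ΛL ΛP S (w e) (t e)) ∧
      ∀ i j x, NAt L P i j x → s.f i j x = ∑ e, (t e).f i j x := by
  classical
  induction S using Finset.induction_on with
  | empty =>
    exact ⟨Unit, inferInstance, fun _ => s, fun _ => 0, fun _ => nofwt_empty s,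
      fun i j x _ => by simp⟩
  | insert i S hi ih =>
    obtain ⟨ι, hι, t, w, h1, h2⟩ := ih
    choose T t' h3 h4 using fun e => gt_components_univ hi (t e) (h1 e)
    refine ⟨Σ e, {c // c ∈ T e}, inferInstance, fun p => t' p.1 p.2.1,
      fun p => (fun d => if d = i then p.2.1 else w p.1 d), fun p => h3 p.1 p.2.1, ?_⟩
    intro i₁ j x hx
    rw [h2 i₁ j x hx, Fintype.sum_sigma]
    refine Finset.sum_congr rfl fun e _ => ?_
    rw [h4 e i₁ j x hx]
    exact (Finset.sum_coe_sort (T e) fun c => (t' e c).f i₁ j x).symm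

/-- If the powers of `L ^ K' ⊗ P ^ J'` have sections which separate the points of `X`, then there is
a nonzero section of `L ^ K₁ ⊗ P ^ J₁ ⊗ K_X` over the regular part which is a weight vector. -/
theorem exists_W [CompactSpace X] [ConnectedSpace X] [T2Space X] {ΛL : NLin A L} {ΛP : NLin A P}
    (hA : NAmpleG ΛL ΛP ∅ univ K' J' χ') :
    ∃ (K₁ J₁ : ℕ) (w : Fin r → ℤ) (W : WSec L.reg P.reg K₁ J₁ (N.inc ⁻¹' univ)),
      OfWtW ΛL.reg ΛP.reg Finset.univ w W ∧ ∃ y ∈ N.inc ⁻¹' univ, W.NZ y := by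
  classical
  obtain ⟨y0, -⟩ := exists_reg N isOpen_univ (univ_nonempty (α := X))
  obtain ⟨l0, hl0, hgen⟩ := hA.1
  obtain ⟨u0, -, hu0⟩ := hgen (N.inc y0) (mem_univ _)
  obtain ⟨i, j, hat0⟩ := exists_nat L P (N.inc y0)
  -- the section `u`
  obtain ⟨u, wu, hwu, hunz⟩ : ∃ (u : NSec L P (l0 * K') (l0 * J') univ) (wu : Fin r → ℤ),
      NOfWt ΛL ΛP Finset.univ wu u ∧ u.f i j (N.inc y0) ≠ 0 := by
    obtain ⟨ι, hι, t, w, h1, h2⟩ := exists_wt_decomp ΛL ΛP Finset.univ u0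
    have h3 := (u0.nz_iff (mem_univ _) hat0).1 hu0
    rw [h2 i j _ hat0] at h3
    obtain ⟨e, -, he⟩ := Finset.exists_ne_zero_of_sum_ne_zero h3
    exact ⟨t e, w e, h1 e, he⟩
  set φ := chartAt E y0 with hφdef
  have hφ : φ ∈ Charts E X₀ := IsManifold.chart_mem_maximalAtlas y0
  have hy0 : y0 ∈ φ.source := mem_chart_source E y0
  -- the open set
  set Ω : Set E := {z | z ∈ φ.target ∧ NAt L P i j (N.inc (φ.symm z)) ∧
    u.f i j (N.inc (φ.symm z)) ≠ 0} with hΩdef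
  have hΩo : IsOpen Ω := by
    rw [isOpen_iff_mem_nhds]
    rintro z ⟨h1, h2, h3⟩
    have hc : ContinuousAt φ.symm z := φ.continuousAt_symm h1
    have hc' : ContinuousAt (fun z => N.inc (φ.symm z)) z :=
      N.emb.continuous.continuousAt.comp hc
    have hf : ContinuousAt (u.f i j) (N.inc (φ.symm z)) :=
      Hol_continuousAt (u.hol' (mem_univ _) h2)
    filter_upwards [φ.open_target.mem_nhds h1, hc'.eventually h2.eventually,
      hc'.eventually (hf.eventually_ne h3)] with w k1 k2 k3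
    exact ⟨k1, k2, k3⟩
  have hΩn : Ω.Nonempty := by
    refine ⟨φ y0, φ.map_source hy0, ?_, ?_⟩
    · rw [φ.left_inv hy0]; exact hat0
    · rw [φ.left_inv hy0]; exact hunz
  have hhol : ∀ {K J : ℕ} (t : NSec L P K J univ), ∀ z ∈ Ω,
      ContDiffAt ℂ ω (fun z => t.f i j (N.inc (φ.symm z))) z := by
    intro K J t z hz
    have h1 : HolAt E (fun y => t.f i j (N.inc y)) (φ.symm z) :=
      Hol_reg (t.hol' (mem_univ _) hz.2.1)
    have h2 := hol_chart hφ (φ.map_target hz.1) h1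
    rw [φ.right_inv hz.1] at h2
    exact h2
  set 𝓐 : Set (E → ℂ) := {F | ∃ (p : ℕ) (w : Fin r → ℤ)
    (t : NSec L P (p * (l0 * K')) (p * (l0 * J')) univ), NOfWt ΛL ΛP Finset.univ w t ∧
      F = fun z => t.f i j (N.inc (φ.symm z)) / u.f i j (N.inc (φ.symm z)) ^ p} with h𝓐
  have hA1 : ∀ F ∈ 𝓐, ∀ z ∈ Ω, ContDiffAt ℂ ω F z := by
    rintro F ⟨p, w, t, -, rfl⟩ z hz
    exact (hhol t z hz).div ((hhol u z hz).pow p) (pow_ne_zero _ hz.2.2)
  have hsep : ∀ x ∈ Ω, ∀ y ∈ Ω, x ≠ y → ∃ F ∈ 𝓐, F x ≠ F y := by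
    intro z1 hz1 z2 hz2 hne
    have hne' : N.inc (φ.symm z1) ≠ N.inc (φ.symm z2) := by
      intro h
      have h1 := N.emb.injective h
      apply hne
      rw [← φ.right_inv hz1.1, h1, φ.right_inv hz2.1]
    obtain ⟨l, hl, s, -, hs1, hs2⟩ := hA.2 (N.inc (φ.symm z1)) (mem_univ _)
      (N.inc (φ.symm z2)) (mem_univ _) (by
        rintro ⟨a, ha, h⟩
        rw [inTS_empty ha, A.one] at h
        exact hne' h.symm)
    have eK : l0 * (l * K') = l * (l0 * K') := by ring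
    have eJ : l0 * (l * J') = l * (l0 * J') := by ring
    obtain ⟨ι, hι, t, w, h1, h2⟩ := exists_wt_decomp ΛL ΛP Finset.univ ((s.pow l0).cast eK eJ)
    by_contra hcon
    push Not at hcon
    have h3 : ∀ e, (t e).f i j (N.inc (φ.symm z1)) / u.f i j (N.inc (φ.symm z1)) ^ l =
        (t e).f i j (N.inc (φ.symm z2)) / u.f i j (N.inc (φ.symm z2)) ^ l := fun e =>
      hcon _ ⟨l, w e, t e, h1 e, rfl⟩
    have h4 : ∀ z ∈ Ω, s.f i j (N.inc (φ.symm z)) ^ l0 / u.f i j (N.inc (φ.symm z)) ^ l =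
        ∑ e, (t e).f i j (N.inc (φ.symm z)) / u.f i j (N.inc (φ.symm z)) ^ l := by
      intro z hz
      rw [← Finset.sum_div, ← h2 i j _ hz.2.1]
      rfl
    have h5 : s.f i j (N.inc (φ.symm z2)) = 0 := by
      by_contra h
      exact hs2 ((s.nz_iff (mem_univ _) hz2.2.1).2 h)
    have h6 : s.f i j (N.inc (φ.symm z1)) ≠ 0 := (s.nz_iff (mem_univ _) hz1.2.1).1 hs1
    have h7 := h4 z1 hz1
    rw [Finset.sum_congr rfl fun e _ => h3 e, ← h4 z2 hz2, h5,
      zero_pow (Nat.one_le_iff_ne_zero.1 hl0), zero_div, div_eq_zero_iff] at h7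
    rcases h7 with h7 | h7
    · exact pow_ne_zero _ h6 h7
    · exact pow_ne_zero _ hz1.2.2 h7
  obtain ⟨z, hz, F, hF, hli⟩ := exists_independent hΩo hΩn 𝓐 hA1 hsep
  choose p w t hwt hFt using hF
  set M : ℕ := ∑ e, p e with hM
  have hpM : ∀ e, p e ≤ M := fun e =>
    Finset.single_le_sum (f := p) (fun _ _ => Nat.zero_le _) (Finset.mem_univ e)
  have eK : ∀ e, p e * (l0 * K') + (M - p e) * (l0 * K') = M * (l0 * K') := by
    intro e
    rw [← add_mul, Nat.add_sub_cancel' (hpM e)]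
  have eJ : ∀ e, p e * (l0 * J') + (M - p e) * (l0 * J') = M * (l0 * J') := by
    intro e
    rw [← add_mul, Nat.add_sub_cancel' (hpM e)]
  let σ : Fin (finrank ℂ E) → NSec L P (M * (l0 * K')) (M * (l0 * J')) univ := fun e =>
    ((t e).mul (u.pow (M - p e))).cast (eK e) (eJ e)
  have hσ : ∀ e, NOfWt ΛL ΛP Finset.univ (w e + fun c => ((M - p e : ℕ) : ℤ) * wu c) (σ e) :=
    fun e => ((hwt e).mul (hwu.pow (M - p e))).cast (eK e) (eJ e)
  have hUo : IsOpen (N.inc ⁻¹' (univ : Set X)) := isOpen_univ.preimage N.emb.continuous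
  refine ⟨_, _, _, wron hUo (u.pow M).reg (fun e => (σ e).reg),
    wron_wt hUo (hwu.pow M).reg (fun e => (hσ e).reg), φ.symm z, mem_univ _, i, j, φ, ?_, ?_⟩
  · exact hz.2.1.reg' hφ (φ.map_target hz.1)
  · have hz' : φ (φ.symm z) = z := φ.right_inv hz.1
    refine wr_ne_zero (F := F) hφ (φ.map_target hz.1) ?_ ?_ ?_ ?_ ?_
    · exact Hol_reg ((u.pow M).hol' (mem_univ _) hz.2.1)
    · exact pow_ne_zero M hz.2.2
    · intro e
      rw [hz']
      exact (hA1 (F e) ⟨p e, w e, t e, hwt e, hFt e⟩ z hz).differentiableAt (by simp)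
    · intro e
      rw [hz']
      filter_upwards [hΩo.mem_nhds hz] with v hv
      rw [hFt e]
      show (t e).f i j (N.inc (φ.symm v)) * u.f i j (N.inc (φ.symm v)) ^ (M - p e) =
        (t e).f i j (N.inc (φ.symm v)) / u.f i j (N.inc (φ.symm v)) ^ p e *
          u.f i j (N.inc (φ.symm v)) ^ M
      have h1 : u.f i j (N.inc (φ.symm v)) ^ M = u.f i j (N.inc (φ.symm v)) ^ p e *
          u.f i j (N.inc (φ.symm v)) ^ (M - p e) := by
        rw [← pow_add, Nat.add_sub_cancel' (hpM e)]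
      rw [h1]
      have h2 : u.f i j (N.inc (φ.symm v)) ^ p e ≠ 0 := pow_ne_zero _ hv.2.2
      field_simp
    · rw [hz']
      exact hli

end Pool.Agent.Abn
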