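import Pool.Agent.H.MP_e23cd6_ag.NT.Ext
import Pool.Agent.H.MP_e23cd6_ag.GT.FourA
import Pool.Agent.H.MP_e23cd6_ag.GT.IdT

/-! Sections of `L ^ K ⊗ P ^ J ⊗ K_X` over open subsets of a complex manifold. -/

set_option autoImplicit false

open scoped Manifold ContDiff Topology ENNReal
open MeasureTheory Set Filter

namespace Pool.Agent.Abn

open Pool.Agent.Abd

variable {E : Type} [NormedAddCommGroup E] [NormedSpace ℂ E] {r : ℕ}
  {X : Type} [TopologicalSpace X] [ChartedSpace E X]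
  {L P : LineBundle E X} {K J m K' J' : ℕ} {U : Set X}

/-- A holomorphic section of `L ^ K ⊗ P ^ J ⊗ K_X` over the open set `U`. -/
structure WSec (L P : LineBundle E X) (K J : ℕ) (U : Set X) where
  f : L.ι → P.ι → OpenPartialHomeomorph X E → X → ℂ
  hol : ∀ i j φ x, x ∈ U → At L P i j φ x → HolAt E (f i j φ) x
  trans : ∀ i j φ i' j' ψ x, x ∈ U → At L P i j φ x → At L P i' j' ψ x →
    f i j φ x * jac φ ψ x = L.g i i' x ^ K * P.g j j' x ^ J * f i' j' ψ x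

/-- The section `W` does not vanish at the point `x`. -/
def WSec.NZ (W : WSec L P K J U) (x : X) : Prop :=
  ∃ i j φ, At L P i j φ x ∧ W.f i j φ x ≠ 0

/-- The section `W` has `T_S`-weight `χ`. -/
def OfWtW {A : TorusAction E r X} (ΛL : Linearization A L) (ΛP : Linearization A P)
    (S : Finset (Fin r)) (χ : Fin r → ℤ) (W : WSec L P K J U) : Prop :=
  ∀ a, InTS S a → ∀ i j φ i' j' ψ x, x ∈ U → A.act a x ∈ U → At L P i j φ (A.act a x) →
    At L P i' j' ψ x → chr χ a * W.f i j φ (A.act a x) * A.jac φ ψ a x =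
      ΛL.lam i i' a x ^ K * ΛP.lam j j' a x ^ J * W.f i' j' ψ x

/-- The product of a section of `L ^ K ⊗ P ^ J ⊗ K_X ^ (-m)` and the `m`-th power of a section of
`L ^ K' ⊗ P ^ J' ⊗ K_X`. -/
noncomputable def mulW (s : Sec2 L P K J m U) (W : WSec L P K' J' U) :
    Sec2 L P (K + m * K') (J + m * J') 0 U where
  f := fun i j φ x => s.f i j φ x * W.f i j φ x ^ m
  hol := fun i j φ hφ x hx hi hj h =>
    (s.hol i j φ hφ x hx hi hj h).mul ((W.hol i j φ x hx ⟨hφ, hi, hj, h⟩).pow m)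
  trans := fun i j i' j' φ hφ ψ hψ x hx h1 h2 h3 h4 h5 h6 => by
    have e1 := s.trans i j i' j' φ hφ ψ hψ x hx h1 h2 h3 h4 h5 h6
    have e2 := W.trans i j φ i' j' ψ x hx ⟨hφ, h1, h2, h5⟩ ⟨hψ, h3, h4, h6⟩
    rw [e1, pow_zero, mul_one]
    calc _ = L.g i i' x ^ K * P.g j j' x ^ J * s.f i' j' ψ x *
          (W.f i j φ x * jac φ ψ x) ^ m := by ring
      _ = _ := by rw [e2]; ring

theorem mulW_f (s : Sec2 L P K J m U) (W : WSec L P K' J' U) (i : L.ι) (j : P.ι)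
    (φ : OpenPartialHomeomorph X E) (x : X) :
    (mulW s W).f i j φ x = s.f i j φ x * W.f i j φ x ^ m := rfl

section wt

variable {A : TorusAction E r X} {ΛL : Linearization A L} {ΛP : Linearization A P}
  {S : Finset (Fin r)} {χ χ' : Fin r → ℤ} [IsManifold 𝓘(ℂ, E) ω X]

theorem wsec_jac_ne {a : Fin r → ℂ} (ha : InT a) {φ ψ : OpenPartialHomeomorph X E}
    (hφ : φ ∈ Charts E X) (hψ : ψ ∈ Charts E X) {x : X} (h1 : A.act a x ∈ φ.source)
    (h2 : x ∈ ψ.source) : A.jac φ ψ a x ≠ 0 := by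
  have h := foura_jac_inv (A := A) ha hψ hφ h2 h1
  exact right_ne_zero_of_mul_eq_one h

theorem wsec_jac_ne' {φ ψ : OpenPartialHomeomorph X E}
    (hφ : φ ∈ Charts E X) (hψ : ψ ∈ Charts E X) {x : X} (h1 : x ∈ φ.source)
    (h2 : x ∈ ψ.source) : jac φ ψ x ≠ 0 := by
  have h := foura_jac_mul hψ hφ hψ h2 h1 h2
  rw [foura_jac_self h2] at h
  exact right_ne_zero_of_mul_eq_one h.symm

theorem OfWt.mulW {s : Sec2 L P K J m U} {W : WSec L P K' J' U} (h : OfWt ΛL ΛP S χ s)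
    (h' : OfWtW ΛL ΛP S χ' W) : OfWt ΛL ΛP S (fun c => χ c + m * χ' c) (mulW s W) := by
  intro a ha i j i' j' φ hφ ψ hψ x hx hax h1 h2 h3 h4 h5 h6
  have e1 := h a ha i j i' j' φ hφ ψ hψ x hx hax h1 h2 h3 h4 h5 h6
  have e2 := h' a ha i j φ i' j' ψ x hx hax ⟨hφ, h1, h2, h5⟩ ⟨hψ, h3, h4, h6⟩
  have h0 : A.jac φ ψ a x ^ m ≠ 0 := pow_ne_zero _ (wsec_jac_ne ha.1 hφ hψ h5 h6)
  have e3 : chr (fun c => χ c + m * χ' c) a = chr χ a * chr χ' a ^ m := by
    have := chr_add χ (fun c => (m : ℤ) * χ' c) ha.1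
    rw [chr_nsmul] at this
    exact this
  rw [mulW_f, mulW_f, pow_zero, mul_one, e3]
  apply mul_right_cancel₀ h0
  calc _ = (chr χ a * s.f i j φ (A.act a x)) *
        (chr χ' a * W.f i j φ (A.act a x) * A.jac φ ψ a x) ^ m := by ring
    _ = _ := by rw [e1, e2]; ring

/-- Nonvanishing may be tested in any frames. -/
theorem WSec.nz_iff (W : WSec L P K J U) {i j φ x} (hx : x ∈ U) (h : At L P i j φ x) :
    W.NZ x ↔ W.f i j φ x ≠ 0 := by
  constructor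
  · rintro ⟨i', j', ψ, h1, h2⟩ h0
    apply h2
    have h3 := W.trans i' j' ψ i j φ x hx h1 h
    rw [h0, mul_zero] at h3
    exact (mul_eq_zero.1 h3).resolve_right (wsec_jac_ne' h1.chart h.chart h1.mem h.mem)
  · intro h0
    exact ⟨i, j, φ, h, h0⟩

omit [IsManifold 𝓘(ℂ, E) ω X] in
theorem WSec.nz_eventually (W : WSec L P K J U) (hU : IsOpen U) {x : X} (hx : x ∈ U)
    (h : W.NZ x) : ∀ᶠ y in 𝓝 x, y ∈ U ∧ W.NZ y := by
  obtain ⟨i, j, φ, hat, h0⟩ := h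
  have h1 : ContinuousAt (W.f i j φ) x := (W.hol i j φ x hx hat).continuousAt
  filter_upwards [hU.mem_nhds hx, hat.eventually, h1.eventually_ne h0] with y h2 h3 h4
  exact ⟨h2, i, j, φ, h3, h4⟩

/-- If the product with the power of a section `W ≠ 0` vanishes, then the section vanishes. -/
theorem mulW_zero (hU : IsOpen U) (hc : IsPreconnected U) (s : Sec2 L P K J m U)
    (W : WSec L P K' J' U) (hW : ∃ y ∈ U, W.NZ y) (h0 : ∀ x ∈ U, ¬ (mulW s W).NZ x) :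
    ∀ x ∈ U, ¬ s.NZ x := by
  intro x hx hs
  obtain ⟨y, hy, hWy⟩ := hW
  obtain ⟨V, hV, hVo, hyV⟩ := mem_nhds_iff.1 (W.nz_eventually hU hy hWy)
  obtain ⟨z, hz, hz2⟩ := nz_dense hU hc s ⟨x, hx, hs⟩ hVo (fun z hz => (hV hz).1) ⟨y, hyV⟩
  obtain ⟨i, j, hat⟩ := exists_at L P z
  have hzU := (hV hz).1
  refine h0 z hzU (((mulW s W).nz_iff hzU hat).2 ?_)
  exact mul_ne_zero ((s.nz_iff hzU hat).1 hz2) (pow_ne_zero _ ((W.nz_iff hzU hat).1 (hV hz).2))

end wt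

end Pool.Agent.Abn
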