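import Pool.Agent.H.MP_e23cd6_ag.NT.WSec

/-! The Wronskian of sections `u`, `σ_1, .., σ_n` of a line bundle on an `n`-dimensional manifold. -/

set_option autoImplicit false

open scoped Manifold ContDiff Topology ENNReal
open MeasureTheory Set Filter Module

namespace Pool.Agent.Abn

open Pool.Agent.Abd

section wdet

variable {E : Type} [NormedAddCommGroup E] [NormedSpace ℂ E] [FiniteDimensional ℂ E]

/-- The determinant of `n = dim E` linear forms on `E`, with respect to a fixed basis. -/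
noncomputable def wdet (A : Fin (finrank ℂ E) → E →L[ℂ] ℂ) : ℂ :=
  (Matrix.of fun e j => A e (finBasis ℂ E j)).det

theorem wdet_comp (A : Fin (finrank ℂ E) → E →L[ℂ] ℂ) (T : E →L[ℂ] E) :
    wdet (fun e => (A e).comp T) = wdet A * T.det := by
  unfold wdet
  have h1 : T.det = (LinearMap.toMatrix (finBasis ℂ E) (finBasis ℂ E) (T : E →ₗ[ℂ] E)).det := by
    rw [LinearMap.det_toMatrix]
  rw [h1, ← Matrix.det_mul]
  congr 1
  ext e j
  rw [Matrix.mul_apply, Matrix.of_apply]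
  show A e (T (finBasis ℂ E j)) = _
  conv_lhs => rw [← (finBasis ℂ E).sum_repr (T (finBasis ℂ E j))]
  rw [map_sum]
  refine Finset.sum_congr rfl fun k _ => ?_
  rw [map_smul, LinearMap.toMatrix_apply, Matrix.of_apply, smul_eq_mul, mul_comm]
  rfl

theorem wdet_smul (c : Fin (finrank ℂ E) → ℂ) (A : Fin (finrank ℂ E) → E →L[ℂ] ℂ) :
    wdet (fun e => c e • A e) = (∏ e, c e) * wdet A := by
  unfold wdet
  rw [← Matrix.det_mul_column]
  rfl

theorem wdet_ne_zero {A : Fin (finrank ℂ E) → E →L[ℂ] ℂ} (h : LinearIndependent ℂ A) :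
    wdet A ≠ 0 := by
  intro h0
  obtain ⟨v, hv, hv0⟩ := Matrix.exists_vecMul_eq_zero_iff.2 h0
  apply hv
  rw [Fintype.linearIndependent_iff] at h
  funext e
  refine h v ?_ e
  ext x
  have h1 : ∀ j, ∑ e, v e * A e (finBasis ℂ E j) = 0 := by
    intro j
    have := congrFun hv0 j
    simpa [Matrix.vecMul, dotProduct] using this
  rw [sum_apply]
  simp only [smul_apply, smul_eq_mul, zero_apply]
  rw [← (finBasis ℂ E).sum_repr x]
  simp only [map_sum, map_smul, smul_eq_mul]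
  have h2 : ∀ e, v e * ∑ k, (finBasis ℂ E).repr x k * A e (finBasis ℂ E k) =
      ∑ k, (finBasis ℂ E).repr x k * (v e * A e (finBasis ℂ E k)) := by
    intro e
    rw [Finset.mul_sum]
    exact Finset.sum_congr rfl fun k _ => by ring
  simp only [h2]
  rw [Finset.sum_comm]
  refine Finset.sum_eq_zero fun k _ => ?_
  rw [← Finset.mul_sum, h1 k, mul_zero]

theorem wdet_contDiffAt {V : Type} [NormedAddCommGroup V] [NormedSpace ℂ V]
    {A : Fin (finrank ℂ E) → V → E →L[ℂ] ℂ} {z : V} (h : ∀ e, ContDiffAt ℂ ω (A e) z) :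
    ContDiffAt ℂ ω (fun v => wdet fun e => A e v) z := by
  unfold wdet
  simp only [Matrix.det_apply]
  refine ContDiffAt.sum fun π _ => ?_
  refine ContDiffAt.const_smul _ ?_
  refine contDiffAt_prod fun k _ => ?_
  simp only [Matrix.of_apply]
  exact (h (π k)).clm_apply contDiffAt_const

end wdet

section wr

variable {E : Type} [NormedAddCommGroup E] [NormedSpace ℂ E]
  {X : Type} [TopologicalSpace X] [ChartedSpace E X]

/-- The differential of a function in a chart. -/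
noncomputable def dch (φ : OpenPartialHomeomorph X E) (f : X → ℂ) (x : X) : E →L[ℂ] ℂ :=
  fderiv ℂ (f ∘ φ.symm) (φ x)

theorem hol_chart {φ : OpenPartialHomeomorph X E} (hφ : φ ∈ Charts E X) {x : X}
    (hx : x ∈ φ.source) {f : X → ℂ} (hf : HolAt E f x) : ContDiffAt ℂ ω (f ∘ φ.symm) (φ x) := by
  have h2 : ContMDiffAt 𝓘(ℂ, E) 𝓘(ℂ, E) ω φ.symm (φ x) :=
    contMDiffAt_symm_of_mem_maximalAtlas hφ (φ.map_source hx)
  have h3 : ContMDiffAt 𝓘(ℂ, E) 𝓘(ℂ) ω f (φ.symm (φ x)) := by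
    rw [φ.left_inv hx]
    exact hf
  exact (ContMDiffAt.comp (φ x) h3 h2).contDiffAt

theorem hol_chart_diff {φ : OpenPartialHomeomorph X E} (hφ : φ ∈ Charts E X) {x : X}
    (hx : x ∈ φ.source) {f : X → ℂ} (hf : HolAt E f x) :
    DifferentiableAt ℂ (f ∘ φ.symm) (φ x) :=
  (hol_chart hφ hx hf).differentiableAt (by simp)

omit [ChartedSpace E X] in
theorem dch_congr {φ : OpenPartialHomeomorph X E} {x : X} (hx : x ∈ φ.source) {f g : X → ℂ}
    (h : f =ᶠ[𝓝 x] g) : dch φ f x = dch φ g x := by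
  unfold dch
  have h1 : f ∘ φ.symm =ᶠ[𝓝 (φ x)] g ∘ φ.symm := (idt_symm hx).eventually h
  rw [h1.fderiv_eq]

theorem dch_const_mul {φ : OpenPartialHomeomorph X E} (hφ : φ ∈ Charts E X) {x : X}
    (hx : x ∈ φ.source) {f : X → ℂ} (hf : HolAt E f x) (c : ℂ) :
    dch φ (fun y => c * f y) x = c • dch φ f x := by
  unfold dch
  exact fderiv_const_mul (hol_chart_diff hφ hx hf) c

theorem dch_mul {φ : OpenPartialHomeomorph X E} (hφ : φ ∈ Charts E X) {x : X}
    (hx : x ∈ φ.source) {f g : X → ℂ} (hf : HolAt E f x) (hg : HolAt E g x) :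
    dch φ (fun y => f y * g y) x = f x • dch φ g x + g x • dch φ f x := by
  unfold dch
  have h := fderiv_mul (hol_chart_diff hφ hx hf) (hol_chart_diff hφ hx hg)
  have e : (fun y => f y * g y) ∘ φ.symm = (f ∘ φ.symm) * (g ∘ φ.symm) := rfl
  rw [e, h]
  simp only [Function.comp, φ.left_inv hx]

theorem dch_change {φ ψ : OpenPartialHomeomorph X E} (hφ : φ ∈ Charts E X)
    (hψ : ψ ∈ Charts E X) {x : X} (hx : x ∈ φ.source) (hx' : x ∈ ψ.source) [IsManifold 𝓘(ℂ, E) ω X]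
    {f : X → ℂ} (hf : HolAt E f x) :
    dch ψ f x = (dch φ f x).comp (fderiv ℂ (φ ∘ ψ.symm) (ψ x)) := by
  unfold dch
  have d2 : HasFDerivAt (φ ∘ ψ.symm) (fderiv ℂ (φ ∘ ψ.symm) (ψ x)) (ψ x) :=
    ((kltchart_contDiffAt hφ hψ hx hx').differentiableAt (by simp)).hasFDerivAt
  have hxx : (φ ∘ ψ.symm) (ψ x) = φ x := by
    simp only [Function.comp, ψ.left_inv hx']
  have d1 : HasFDerivAt (f ∘ φ.symm) (fderiv ℂ (f ∘ φ.symm) (φ x)) ((φ ∘ ψ.symm) (ψ x)) := by
    rw [hxx]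
    exact (hol_chart_diff hφ hx hf).hasFDerivAt
  have d3 := d1.comp (ψ x) d2
  have hev : (f ∘ ψ.symm) =ᶠ[𝓝 (ψ x)] (f ∘ φ.symm) ∘ (φ ∘ ψ.symm) := by
    filter_upwards [(idt_symm hx').eventually (φ.open_source.mem_nhds hx)] with w hw
    simp only [Function.comp]
    rw [φ.left_inv hw]
  exact (d3.congr_of_eventuallyEq hev).fderiv

variable [FiniteDimensional ℂ E]

/-- The Wronskian of the functions `u`, `σ_1, .., σ_n` in a chart. -/
noncomputable def wr (φ : OpenPartialHomeomorph X E) (u : X → ℂ)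
    (σ : Fin (finrank ℂ E) → X → ℂ) (x : X) : ℂ :=
  wdet (fun e => u x • dch φ (σ e) x - σ e x • dch φ u x)

theorem wr_change [IsManifold 𝓘(ℂ, E) ω X] {φ ψ : OpenPartialHomeomorph X E}
    (hφ : φ ∈ Charts E X) (hψ : ψ ∈ Charts E X) {x : X} (hx : x ∈ φ.source)
    (hx' : x ∈ ψ.source) {G u Λ : X → ℂ} {H σ : Fin (finrank ℂ E) → X → ℂ} {c₀ : ℂ}
    {c : Fin (finrank ℂ E) → ℂ} (hu : HolAt E u x) (hσ : ∀ e, HolAt E (σ e) x)
    (hΛ : HolAt E Λ x) (hG : G =ᶠ[𝓝 x] fun y => c₀ * (Λ y * u y))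
    (hH : ∀ e, H e =ᶠ[𝓝 x] fun y => c e * (Λ y * σ e y)) :
    wr φ G H x * jac φ ψ x =
      (∏ e, c₀ * c e) * Λ x ^ (2 * finrank ℂ E) * wr ψ u σ x := by
  have hc : ∀ c : ℂ, HolAt E (fun _ : X => c) x := fun c => contMDiffAt_const
  have hG' : HolAt E G x := ((hc c₀).mul (hΛ.mul hu)).congr_of_eventuallyEq hG
  have hH' : ∀ e, HolAt E (H e) x := fun e =>
    ((hc (c e)).mul (hΛ.mul (hσ e))).congr_of_eventuallyEq (hH e)
  have e1 : wr φ G H x * jac φ ψ x =
      wdet (fun e => G x • dch ψ (H e) x - H e x • dch ψ G x) := by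
    unfold wr jac
    rw [← wdet_comp]
    congr 1
    funext e
    rw [dch_change hφ hψ hx hx' (hH' e), dch_change hφ hψ hx hx' hG']
    ext v
    simp
  have hLu : HolAt E (fun y => Λ y * u y) x := hΛ.mul hu
  have hLσ : ∀ e, HolAt E (fun y => Λ y * σ e y) x := fun e => hΛ.mul (hσ e)
  have e2 : ∀ e, G x • dch ψ (H e) x - H e x • dch ψ G x =
      (c₀ * c e * (Λ x) ^ 2) • (u x • dch ψ (σ e) x - σ e x • dch ψ u x) := by
    intro e
    rw [dch_congr hx' hG, dch_congr hx' (hH e), dch_const_mul hψ hx' hLu,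
      dch_const_mul hψ hx' (hLσ e), dch_mul hψ hx' hΛ hu, dch_mul hψ hx' hΛ (hσ e),
      hG.eq_of_nhds, (hH e).eq_of_nhds]
    ext v
    simp only [sub_apply, smul_apply, add_apply, smul_eq_mul]
    ring
  rw [e1]
  simp only [e2]
  rw [wdet_smul, Finset.prod_mul_distrib, Finset.prod_const, Finset.card_univ,
    Fintype.card_fin, ← pow_mul]
  rfl

theorem wr_holAt {φ : OpenPartialHomeomorph X E} (hφ : φ ∈ Charts E X) {x : X}
    (hx : x ∈ φ.source) {u : X → ℂ} {σ : Fin (finrank ℂ E) → X → ℂ} (hu : HolAt E u x)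
    (hσ : ∀ e, HolAt E (σ e) x) [IsManifold 𝓘(ℂ, E) ω X] : HolAt E (wr φ u σ) x := by
  have hdu : ContDiffAt ℂ ω (fderiv ℂ (u ∘ φ.symm)) (φ x) :=
    (hol_chart hφ hx hu).fderiv_right (m := ω) (n := ω) le_top
  have hdσ : ∀ e, ContDiffAt ℂ ω (fderiv ℂ (σ e ∘ φ.symm)) (φ x) := fun e =>
    (hol_chart hφ hx (hσ e)).fderiv_right (m := ω) (n := ω) le_top
  have h1 : ContDiffAt ℂ ω (fun w => wdet (fun e => (u ∘ φ.symm) w • fderiv ℂ (σ e ∘ φ.symm) w -
      (σ e ∘ φ.symm) w • fderiv ℂ (u ∘ φ.symm) w)) (φ x) :=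
    wdet_contDiffAt (A := fun e w => (u ∘ φ.symm) w • fderiv ℂ (σ e ∘ φ.symm) w -
      (σ e ∘ φ.symm) w • fderiv ℂ (u ∘ φ.symm) w) fun e =>
        ((hol_chart hφ hx hu).smul (hdσ e)).sub ((hol_chart hφ hx (hσ e)).smul hdu)
  have h2 : ContMDiffAt 𝓘(ℂ, E) 𝓘(ℂ, E) ω φ x := contMDiffAt_of_mem_maximalAtlas hφ hx
  have h3 := ContMDiffAt.comp (g := fun w => wdet (fun e =>
    (u ∘ φ.symm) w • fderiv ℂ (σ e ∘ φ.symm) w -
      (σ e ∘ φ.symm) w • fderiv ℂ (u ∘ φ.symm) w)) (f := φ) x h1.contMDiffAt h2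
  refine h3.congr_of_eventuallyEq ?_
  filter_upwards [φ.open_source.mem_nhds hx] with y hy
  simp only [wr, dch, Function.comp, φ.left_inv hy]

/-- The Wronskian is nonzero where the differentials of the quotients `σ_e / u` are independent. -/
theorem wr_ne_zero {φ : OpenPartialHomeomorph X E} (hφ : φ ∈ Charts E X) {x : X}
    (hx : x ∈ φ.source) {u : X → ℂ} {σ : Fin (finrank ℂ E) → X → ℂ} (hu : HolAt E u x)
    (hu0 : u x ≠ 0) {F : Fin (finrank ℂ E) → E → ℂ}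
    (hFd : ∀ e, DifferentiableAt ℂ (F e) (φ x))
    (hF : ∀ e, ∀ᶠ w in 𝓝 (φ x), σ e (φ.symm w) = F e w * u (φ.symm w))
    (hli : LinearIndependent ℂ (fun e => fderiv ℂ (F e) (φ x))) : wr φ u σ x ≠ 0 := by
  have e1 : ∀ e, u x • dch φ (σ e) x - σ e x • dch φ u x =
      (u x ^ 2) • fderiv ℂ (F e) (φ x) := by
    intro e
    have h1 : (σ e ∘ φ.symm) =ᶠ[𝓝 (φ x)] (F e) * (u ∘ φ.symm) := by
      filter_upwards [hF e] with w hw
      exact hw
    have h2 : dch φ (σ e) x = (F e (φ x)) • dch φ u x + u x • fderiv ℂ (F e) (φ x) := by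
      unfold dch
      rw [h1.fderiv_eq, fderiv_mul (hFd e) (hol_chart_diff hφ hx hu)]
      simp only [Function.comp, φ.left_inv hx]
    have h3 : σ e x = F e (φ x) * u x := by
      have := (hF e).self_of_nhds
      rwa [φ.left_inv hx] at this
    rw [h2, h3]
    ext v
    simp only [sub_apply, smul_apply, add_apply, smul_eq_mul]
    ring
  unfold wr
  simp only [e1]
  rw [wdet_smul]
  exact mul_ne_zero (Finset.prod_ne_zero_iff.2 fun _ _ => pow_ne_zero _ hu0) (wdet_ne_zero hli)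

end wr

end Pool.Agent.Abn
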