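import Pool.Agent.H.MP_e23cd6_ag.NT.Wron

/-! The Wronskian as a section of `L ^ (2 n K) ⊗ P ^ (2 n J) ⊗ K_X`. -/

set_option autoImplicit false

open scoped Manifold ContDiff Topology ENNReal
open MeasureTheory Set Filter Module

namespace Pool.Agent.Abn

open Pool.Agent.Abd

variable {E : Type} [NormedAddCommGroup E] [NormedSpace ℂ E] [FiniteDimensional ℂ E] {r : ℕ}
  {X : Type} [TopologicalSpace X] [ChartedSpace E X] [IsManifold 𝓘(ℂ, E) ω X]
  {L P : LineBundle E X} {K J m K' J' : ℕ} {U : Set X}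

/-- The Wronskian of the sections `u`, `σ_1, .., σ_n` of `L ^ K ⊗ P ^ J`. -/
noncomputable def wron (hU : IsOpen U) (u : Sec2 L P K J 0 U)
    (σ : Fin (finrank ℂ E) → Sec2 L P K J 0 U) :
    WSec L P (2 * finrank ℂ E * K) (2 * finrank ℂ E * J) U where
  f := fun i j φ x => wr φ (u.f i j φ) (fun e => (σ e).f i j φ) x
  hol := fun _ _ _ _ hx h => wr_holAt h.chart h.mem (u.hol' hx h) (fun e => (σ e).hol' hx h)
  trans := fun i j φ i' j' ψ x hx h h' => by
    have hL : HolAt E (fun y => L.g i i' y ^ K) x := (L.hol i i' x h.memL h'.memL).pow K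
    have hP : HolAt E (fun y => P.g j j' y ^ J) x := (P.hol j j' x h.memP h'.memP).pow J
    have hΛ : HolAt E (fun y => L.g i i' y ^ K * P.g j j' y ^ J) x := hL.mul hP
    have hev : ∀ s : Sec2 L P K J 0 U, s.f i j φ =ᶠ[𝓝 x]
        fun y => 1 * ((L.g i i' y ^ K * P.g j j' y ^ J) * s.f i' j' ψ y) := by
      intro s
      filter_upwards [hU.mem_nhds hx, h.eventually, h'.eventually] with y hy h1 h2
      rw [s.trans' hy h1 h2]
      ring
    have key := wr_change h.chart h'.chart h.mem h'.mem (u.hol' hx h')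
      (fun e => (σ e).hol' hx h') hΛ (c₀ := 1) (c := fun _ => 1) (hev u) (fun e => hev (σ e))
    rw [key]
    simp only [mul_one, Finset.prod_const_one, one_mul]
    rw [mul_pow, ← pow_mul, ← pow_mul]
    congr 3 <;> ring

section wt

variable {A : TorusAction E r X} {ΛL : Linearization A L} {ΛP : Linearization A P}
  {S : Finset (Fin r)} {χ χ' : Fin r → ℤ}

theorem chr_zero' {n : ℕ} (a : Fin n → ℂ) : chr 0 a = 1 := by
  simp [chr]

theorem chr_sum' {n : ℕ} {ι : Type} (T : Finset ι) (w : ι → Fin n → ℤ) {a : Fin n → ℂ}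
    (ha : InT a) : chr (∑ e ∈ T, w e) a = ∏ e ∈ T, chr (w e) a := by
  classical
  induction T using Finset.induction_on with
  | empty => simp [chr_zero']
  | insert b T' hb ih => rw [Finset.sum_insert hb, Finset.prod_insert hb, chr_add _ _ ha, ih]

omit [FiniteDimensional ℂ E] [IsManifold 𝓘(ℂ, E) ω X] in
theorem lam_holAt {B : LineBundle E X} (Λ : Linearization A B) {a : Fin r → ℂ} (ha : InT a)
    {i j : B.ι} {x : X} (hj : x ∈ B.U j) (hi : A.act a x ∈ B.U i) : HolAt E (Λ.lam i j a) x := by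
  have h1 : ContMDiffAt 𝓘(ℂ, E) (𝓘(ℂ, Fin r → ℂ).prod 𝓘(ℂ, E)) ω
      (fun y : X => ((a, y) : (Fin r → ℂ) × X)) x := contMDiffAt_const.prodMk contMDiffAt_id
  exact ContMDiffAt.comp (g := fun v : (Fin r → ℂ) × X => Λ.lam i j v.1 v.2)
    (f := fun y : X => ((a, y) : (Fin r → ℂ) × X)) x (Λ.hol i j a x ha hj hi) h1

omit [FiniteDimensional ℂ E] [IsManifold 𝓘(ℂ, E) ω X] in
theorem dch_pull {a : Fin r → ℂ} (ha : InT a) (φ : OpenPartialHomeomorph X E) (f : X → ℂ)
    (x : X) : dch (pull A ha φ) (fun y => f (A.act a y)) x = dch φ f (A.act a x) := by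
  unfold dch
  have e : (fun y => f (A.act a y)) ∘ (pull A ha φ).symm = f ∘ φ.symm := by
    funext w
    show f (A.act a (A.act a⁻¹ (φ.symm w))) = f (φ.symm w)
    rw [act_act_inv A ha]
  rw [e]
  rfl

theorem wron_wt (hU : IsOpen U) {u : Sec2 L P K J 0 U}
    {σ : Fin (finrank ℂ E) → Sec2 L P K J 0 U} {w₀ : Fin r → ℤ}
    {w : Fin (finrank ℂ E) → Fin r → ℤ} (hu : OfWt ΛL ΛP S w₀ u)
    (hσ : ∀ e, OfWt ΛL ΛP S (w e) (σ e)) :
    OfWtW ΛL ΛP S (∑ e, (w₀ + w e)) (wron hU u σ) := by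
  intro a ha i j φ i' j' ψ x hx hax h h'
  have hn : ∀ c : Fin r → ℤ, chr c a ≠ 0 := fun c => chr_ne_zero c ha.1
  have hc := (act_continuous A ha.1).continuousAt (x := x)
  have hL : HolAt E (fun y => ΛL.lam i i' a y ^ K) x := (lam_holAt ΛL ha.1 h'.memL h.memL).pow K
  have hP : HolAt E (fun y => ΛP.lam j j' a y ^ J) x := (lam_holAt ΛP ha.1 h'.memP h.memP).pow J
  have hΛ : HolAt E (fun y => ΛL.lam i i' a y ^ K * ΛP.lam j j' a y ^ J) x := hL.mul hP
  have hev : ∀ (s : Sec2 L P K J 0 U) (c : Fin r → ℤ), OfWt ΛL ΛP S c s →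
      (fun y => s.f i j φ (A.act a y)) =ᶠ[𝓝 x]
        fun y => (chr c a)⁻¹ * ((ΛL.lam i i' a y ^ K * ΛP.lam j j' a y ^ J) * s.f i' j' ψ y) := by
    intro s c hs
    filter_upwards [hU.mem_nhds hx, hc.preimage_mem_nhds (hU.mem_nhds hax), h'.eventually,
      hc.eventually h.eventually] with y h1 h2 h3 h4
    have := hs.rule ha h1 h2 h4 h3
    rw [pow_zero, mul_one] at this
    rw [← this, ← mul_assoc, inv_mul_cancel₀ (hn c), one_mul]
  have key := wr_change (pull_mem A ha.1 h.chart) h'.chart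
    ((mem_pull_source A ha.1 φ x).2 h.mem) h'.mem (u.hol' hx h')
    (fun e => (σ e).hol' hx h') hΛ (c₀ := (chr w₀ a)⁻¹) (c := fun e => (chr (w e) a)⁻¹)
    (hev u w₀ hu) (fun e => hev (σ e) (w e) (hσ e))
  have e1 : wr (pull A ha.1 φ) (fun y => u.f i j φ (A.act a y))
      (fun e y => (σ e).f i j φ (A.act a y)) x =
      wr φ (u.f i j φ) (fun e => (σ e).f i j φ) (A.act a x) := by
    unfold wr
    congr 1
    funext e
    rw [dch_pull ha.1 φ ((σ e).f i j φ) x, dch_pull ha.1 φ (u.f i j φ) x]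
  rw [e1] at key
  have e2 : (wron hU u σ).f i j φ (A.act a x) =
      wr φ (u.f i j φ) (fun e => (σ e).f i j φ) (A.act a x) := rfl
  have e3 : (wron hU u σ).f i' j' ψ x =
      wr ψ (u.f i' j' ψ) (fun e => (σ e).f i' j' ψ) x := rfl
  have e4 : chr (∑ e, (w₀ + w e)) a * (∏ e, (chr w₀ a)⁻¹ * (chr (w e) a)⁻¹) = 1 := by
    rw [chr_sum' _ _ ha.1, ← Finset.prod_mul_distrib]
    refine Finset.prod_eq_one fun e _ => ?_
    rw [chr_add _ _ ha.1]
    have h1 := hn w₀
    have h2 := hn (w e)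
    field_simp
  rw [e2, e3, mul_assoc, ← jac_pull A ha.1, key]
  calc _ = (chr (∑ e, (w₀ + w e)) a * (∏ e, (chr w₀ a)⁻¹ * (chr (w e) a)⁻¹)) *
        ((ΛL.lam i i' a x ^ K * ΛP.lam j j' a x ^ J) ^ (2 * finrank ℂ E)) *
          wr ψ (u.f i' j' ψ) (fun e => (σ e).f i' j' ψ) x := by ring
    _ = _ := by
      rw [e4, one_mul, mul_pow, ← pow_mul, ← pow_mul]
      congr 3 <;> ring

end wt

end Pool.Agent.Abn
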